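import Pool.Agent.Lib_MP_418a80_ab.FamDefs
import Pool.Agent.Lib_MP_418a80_ab.Coc

/-!
# [ON] open normal step, part 1: nested hulls

`exists_center`: the asymptotic centre of a directed decreasing family of midpoint convex sets of
a Hilbert space.  `TrAct.on_hull`: for a finite set `F` of group elements, either some `k` in `F`
has a nonzero `H`-fixed intertwiner `z` of `q` and `α_k(q)`, `q` late near-`H`-invariant unitaries,
or the unitaries have finite convex combinations of `q* α_k(q)` which are small for all `k` in `F`.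
-/

set_option autoImplicit false
set_option linter.unusedVariables false
set_option linter.unusedSectionVars false

open Topology Filter MeasureTheory

namespace Pool.Agent.AbCoc

universe u v w z

section center
variable {X : Type z} [NormedAddCommGroup X] [InnerProductSpace ℂ X]

private theorem center_aux (C : Set X)
    (hmid : ∀ x ∈ C, ∀ y ∈ C, (2 : ℂ)⁻¹ • (x + y) ∈ C) (d δ : ℝ) (hd : 0 ≤ d) (hδ : 0 < δ)
    (hC : ∀ x ∈ C, d - δ ≤ ‖x‖) (x y : X) (hx : x ∈ C) (hy : y ∈ C) (hx' : ‖x‖ ≤ d + δ)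
    (hy' : ‖y‖ ≤ d + δ) : ‖x - y‖ ^ 2 ≤ 16 * δ * (d + δ) := by
  have h1 := hC _ (hmid x hx y hy)
  rw [norm_smul, norm_inv] at h1
  have h2 : ‖(2 : ℂ)‖ = 2 := by simp
  rw [h2] at h1
  have h3 := parallelogram_law_with_norm ℂ x y
  have hx2 : ‖x‖ * ‖x‖ ≤ (d + δ) * (d + δ) := mul_self_le_mul_self (norm_nonneg _) hx'
  have hy2 : ‖y‖ * ‖y‖ ≤ (d + δ) * (d + δ) := mul_self_le_mul_self (norm_nonneg _) hy'
  rcases le_total δ d with h | h
  · have h4 : (2 * (d - δ)) * (2 * (d - δ)) ≤ ‖x + y‖ * ‖x + y‖ :=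
      mul_self_le_mul_self (by linarith) (by linarith)
    nlinarith
  · have h4 : 0 ≤ ‖x + y‖ * ‖x + y‖ := mul_self_nonneg _
    have h5 : d * d ≤ d * δ := mul_le_mul_of_nonneg_left h hd
    nlinarith [mul_nonneg hd hδ.le, mul_pos hδ hδ]

/-- the asymptotic centre of a directed family of midpoint convex sets -/
theorem exists_center [CompleteSpace X] {I : Type*} [Nonempty I] (C : I → Set X)
    (hdir : ∀ i j, ∃ k, C k ⊆ C i ∧ C k ⊆ C j) (hne : ∀ i, (C i).Nonempty)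
    (hmid : ∀ i, ∀ x ∈ C i, ∀ y ∈ C i, (2 : ℂ)⁻¹ • (x + y) ∈ C i) (R : ℝ)
    (hR : ∀ i, ∀ x ∈ C i, ‖x‖ ≤ R) :
    ∃ (z : X) (d : ℝ), ‖z‖ = d ∧
      (∀ i, ∀ δ : ℝ, 0 < δ → ∃ x ∈ C i, ‖x‖ ≤ d + δ) ∧
      ∀ ε : ℝ, 0 < ε → ∃ (i : I) (δ : ℝ), 0 < δ ∧ ∀ x ∈ C i, ‖x‖ ≤ d + δ → ‖x - z‖ ≤ ε := by
  classical
  obtain ⟨f, hf⟩ : ∃ f : I → ℝ, f = fun i => sInf (norm '' (C i)) := ⟨_, rfl⟩
  have hbdd : ∀ i, BddBelow (norm '' (C i)) := fun i => ⟨0, by
    rintro _ ⟨x, _, rfl⟩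
    exact norm_nonneg x⟩
  have hf_le : ∀ i, ∀ x ∈ C i, f i ≤ ‖x‖ := fun i x hx => by
    rw [hf]; exact csInf_le (hbdd i) ⟨x, hx, rfl⟩
  have hf0 : ∀ i, 0 ≤ f i := fun i => by
    rw [hf]
    refine le_csInf ((hne i).image _) ?_
    rintro _ ⟨x, _, rfl⟩
    exact norm_nonneg x
  have hfR : ∀ i, f i ≤ R := fun i => by
    obtain ⟨x, hx⟩ := hne i
    exact (hf_le i x hx).trans (hR i x hx)
  have hfb : BddAbove (Set.range f) := ⟨R, by rintro _ ⟨i, rfl⟩; exact hfR i⟩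
  obtain ⟨d, hd⟩ : ∃ d : ℝ, d = ⨆ i, f i := ⟨_, rfl⟩
  have hfd : ∀ i, f i ≤ d := fun i => by rw [hd]; exact le_ciSup hfb i
  have hd0 : 0 ≤ d := (hf0 (Classical.arbitrary I)).trans (hfd _)
  have hnear : ∀ i, ∀ δ : ℝ, 0 < δ → ∃ x ∈ C i, ‖x‖ ≤ d + δ := by
    intro i δ hδ
    have h1 : sInf (norm '' (C i)) < d + δ := by
      have h2 := hfd i
      rw [hf] at h2
      change sInf (norm '' (C i)) ≤ d at h2
      linarith
    obtain ⟨_, ⟨x, hx, rfl⟩, hlt⟩ := exists_lt_of_csInf_lt ((hne i).image _) h1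
    exact ⟨x, hx, hlt.le⟩
  have hsup : ∀ δ : ℝ, 0 < δ → ∃ i, d - δ ≤ f i := by
    intro δ hδ
    have h1 : d - δ < ⨆ i, f i := by rw [← hd]; linarith
    obtain ⟨i, hi⟩ := exists_lt_of_lt_ciSup h1
    exact ⟨i, hi.le⟩
  obtain ⟨δ, hδ⟩ : ∃ δ : ℕ → ℝ, δ = fun n : ℕ => 1 / ((n : ℝ) + 1) := ⟨_, rfl⟩
  have hδ0 : ∀ n, 0 < δ n := fun n => by rw [hδ]; positivity
  have hδa : ∀ n m, n ≤ m → δ m ≤ δ n := by
    intro n m hnm
    rw [hδ]
    exact Nat.one_div_le_one_div hnm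
  have hδt : Tendsto δ atTop (𝓝 0) := by
    rw [hδ]; exact tendsto_one_div_add_atTop_nhds_zero_nat
  choose i hi using fun n => hsup (δ n) (hδ0 n)
  choose m hm1 hm2 using hdir
  obtain ⟨k, hk⟩ : ∃ k : ℕ → I, k = fun n => Nat.rec (i 0) (fun n kn => m kn (i (n + 1))) n :=
    ⟨_, rfl⟩
  have hk0 : k 0 = i 0 := by subst hk; rfl
  have hks : ∀ n, k (n + 1) = m (k n) (i (n + 1)) := fun n => by subst hk; rfl
  have hki : ∀ n, C (k n) ⊆ C (i n) := by
    intro n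
    cases n with
    | zero => rw [hk0]
    | succ n => rw [hks]; exact hm2 _ _
  have hka : ∀ n p, n ≤ p → C (k p) ⊆ C (k n) := by
    intro n p hnp
    induction p, hnp using Nat.le_induction with
    | base => exact subset_rfl
    | succ p _ ih => rw [hks]; exact (hm1 _ _).trans ih
  choose x hx hx' using fun n => hnear (k n) (δ n) (hδ0 n)
  obtain ⟨b, hb⟩ : ∃ b : ℕ → ℝ, b = fun n => Real.sqrt (16 * δ n * (d + δ n)) := ⟨_, rfl⟩
  have hbt : Tendsto b atTop (𝓝 0) := by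
    have h1 : Tendsto (fun n => 16 * δ n * (d + δ n)) atTop (𝓝 (16 * 0 * (d + 0))) :=
      (hδt.const_mul 16).mul (hδt.const_add d)
    have h2 := (Real.continuous_sqrt.tendsto _).comp h1
    rw [mul_zero, zero_mul, Real.sqrt_zero] at h2
    rw [hb]
    exact h2
  have hclose : ∀ n, ∀ a ∈ C (i n), ∀ c ∈ C (i n), ‖a‖ ≤ d + δ n → ‖c‖ ≤ d + δ n →
      ‖a - c‖ ≤ b n := by
    intro n a ha c hc ha' hc'
    rw [hb]
    refine Real.le_sqrt_of_sq_le ?_
    exact center_aux (C (i n)) (hmid _) d (δ n) hd0 (hδ0 n)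
      (fun y hy => (hi n).trans (hf_le _ y hy)) a c ha hc ha' hc'
  have hxn : ∀ n p, n ≤ p → x p ∈ C (i n) ∧ ‖x p‖ ≤ d + δ n := by
    intro n p hnp
    exact ⟨hki n (hka n p hnp (hx p)), (hx' p).trans (by have := hδa n p hnp; linarith)⟩
  have hcau : CauchySeq x := by
    refine cauchySeq_of_le_tendsto_0' b (fun n p hnp => ?_) hbt
    rw [dist_eq_norm]
    exact hclose n _ (hxn n n le_rfl).1 _ (hxn n p hnp).1 (hxn n n le_rfl).2 (hxn n p hnp).2
  obtain ⟨z, hz⟩ := cauchySeq_tendsto_of_complete hcau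
  refine ⟨z, d, ?_, hnear, ?_⟩
  · have h1 : Tendsto (fun n => ‖x n‖) atTop (𝓝 d) := by
      have ha : Tendsto (fun n => d - δ n) atTop (𝓝 d) := by
        have := hδt.const_sub d
        rwa [sub_zero] at this
      have hb' : Tendsto (fun n => d + δ n) atTop (𝓝 d) := by
        have := hδt.const_add d
        rwa [add_zero] at this
      refine tendsto_of_tendsto_of_tendsto_of_le_of_le ha hb' (fun n => ?_) (fun n => hx' n)
      exact (hi n).trans (hf_le _ _ (hki n (hx n)))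
    exact tendsto_nhds_unique hz.norm h1
  · intro ε hε
    obtain ⟨n, hn⟩ := (hbt.eventually (gt_mem_nhds hε)).exists
    refine ⟨i n, δ n, hδ0 n, fun y hy hy' => ?_⟩
    have h1 : Tendsto (fun p => ‖y - x p‖) atTop (𝓝 ‖y - z‖) := (tendsto_const_nhds.sub hz).norm
    refine le_of_tendsto h1 (eventually_atTop.2 ⟨n, fun p hp => ?_⟩)
    exact (hclose n y hy _ (hxn n p hp).1 hy' (hxn n p hp).2).trans hn.le

end center

variable {A : Type u} [CStarAlgebra A] {K : Type v} [NormedAddCommGroup K]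
  [InnerProductSpace ℂ K] [CompleteSpace K]
  {G : Type w} [Group G] [TopologicalSpace G] {T : TrAlg A K}

/-- unitaries which are nearly invariant under the elements of `D` -/
structure TrAct.IsNU (S : TrAct G T) (D : Set G) (κ : ℝ) (q : A) : Prop where
  uni : star q * q = 1
  uni' : q * star q = 1
  near : ∀ s ∈ D, ‖T.ι (S.α s q - q)‖ ≤ κ

/-- `z` intertwines `q` and `α_k(q)` for late near-`H`-invariant unitaries `q` -/
def TrAct.Intw (S : TrAct G T) (H : Set G) (k : G) (z : A) : Prop :=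
  ∀ ε : ℝ, 0 < ε → ∃ (D : Set G) (κ : ℝ), IsCompact D ∧ D ⊆ H ∧ 0 < κ ∧
    ∀ q : A, S.IsNU D κ q → ‖T.ι (q * z - z * S.α k q)‖ ≤ ε

theorem TrAct.IsNU.one (S : TrAct G T) (D : Set G) {κ : ℝ} (hκ : 0 ≤ κ) : S.IsNU D κ 1 :=
  ⟨by rw [star_one, one_mul], by rw [star_one, one_mul], fun s _ => by
    rw [map_one, sub_self, map_zero, norm_zero]; exact hκ⟩

theorem TrAct.IsNU.mono {S : TrAct G T} {D D' : Set G} {κ κ' : ℝ} {q : A} (h : S.IsNU D κ q)
    (hD : D' ⊆ D) (hκ : κ ≤ κ') : S.IsNU D' κ' q :=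
  ⟨h.uni, h.uni', fun s hs => (h.near s (hD hs)).trans hκ⟩

theorem TrAct.IsNU.norm_le {S : TrAct G T} {D : Set G} {κ : ℝ} {q : A} (h : S.IsNU D κ q) :
    ‖q‖ ≤ 1 := TrAct.norm_unit_le T q h.uni

theorem TrAct.IsNU.norm_star_le {S : TrAct G T} {D : Set G} {κ : ℝ} {q : A} (h : S.IsNU D κ q) :
    ‖star q‖ ≤ 1 := by rw [norm_star]; exact h.norm_le

theorem TrAct.IsNU.mul {S : TrAct G T} {D : Set G} {κ κ' : ℝ} {p q : A} (hp : S.IsNU D κ p)
    (hq : S.IsNU D κ' q) : S.IsNU D (κ + κ') (p * q) := by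
  refine ⟨?_, ?_, fun s hs => ?_⟩
  · rw [star_mul, mul_assoc, ← mul_assoc (star p), hp.uni, one_mul, hq.uni]
  · rw [star_mul, mul_assoc, ← mul_assoc q, hq.uni', one_mul, hp.uni']
  · have e : S.α s (p * q) - p * q = (S.α s p - p) * S.α s q + p * (S.α s q - q) := by
      rw [map_mul, sub_mul, mul_sub]
      abel
    rw [e, map_add]
    refine (norm_add_le _ _).trans (add_le_add ?_ ?_)
    · refine (T.mul_le' _ _).trans ?_
      have h1 : ‖S.α s q‖ ≤ 1 := (S.norm_le s q).trans hq.norm_le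
      calc ‖T.ι (S.α s p - p)‖ * ‖S.α s q‖ ≤ κ * 1 :=
            mul_le_mul (hp.near s hs) h1 (norm_nonneg _) ((norm_nonneg _).trans (hp.near s hs))
        _ = κ := mul_one _
    · refine (T.mul_le _ _).trans ?_
      calc ‖p‖ * ‖T.ι (S.α s q - q)‖ ≤ 1 * κ' :=
            mul_le_mul hp.norm_le (hq.near s hs) (norm_nonneg _) zero_le_one
        _ = κ' := one_mul _

theorem TrAct.IsNU.star {S : TrAct G T} {D : Set G} {κ : ℝ} {q : A} (h : S.IsNU D κ q) :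
    S.IsNU D κ (star q) :=
  ⟨by rw [star_star, h.uni'], by rw [star_star, h.uni], fun s hs => by
    rw [map_star, ← star_sub, T.norm_star]; exact h.near s hs⟩

/-- the vector `u a α_k(u)*` is nearly `h`-invariant if `a` is `h`-fixed -/
theorem TrAct.IsNU.near_hull [IsTopologicalGroup G] {S : TrAct G T} {D : Set G} {κ : ℝ} {u : A}
    (hu : S.IsNU D κ u) (k h : G) (a : A) (ha : S.α h a = a) (h1 : h ∈ D) (h2 : k⁻¹ * h * k ∈ D) :
    ‖T.ι (S.α h (u * a * S.α k (Star.star u)) - u * a * S.α k (Star.star u))‖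
      ≤ 2 * κ * ‖a‖ := by
  have e : S.α h (u * a * S.α k (Star.star u)) - u * a * S.α k (Star.star u)
      = (S.α h u - u) * (a * S.α h (S.α k (Star.star u)))
        + (u * a) * (S.α k (S.α (k⁻¹ * h * k) (Star.star u) - Star.star u)) := by
    have e1 : S.α k (S.α (k⁻¹ * h * k) (Star.star u)) = S.α h (S.α k (Star.star u)) := by
      rw [← S.mul, ← S.mul]
      congr 2
      group
    rw [map_sub, e1, map_mul, map_mul, ha, sub_mul, mul_sub]
    simp only [mul_assoc]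
    abel
  have hκ : 0 ≤ κ := (norm_nonneg _).trans (hu.near h h1)
  rw [e, map_add]
  have e2 : 2 * κ * ‖a‖ = κ * ‖a‖ + ‖a‖ * κ := by ring
  rw [e2]
  refine (norm_add_le _ _).trans (add_le_add ?_ ?_)
  · refine (T.mul_le' _ _).trans ?_
    have h3 : ‖a * S.α h (S.α k (Star.star u))‖ ≤ ‖a‖ := by
      refine (norm_mul_le _ _).trans ?_
      have h4 : ‖S.α h (S.α k (Star.star u))‖ ≤ 1 :=
        (S.norm_le _ _).trans ((S.norm_le _ _).trans hu.norm_star_le)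
      calc ‖a‖ * ‖S.α h (S.α k (Star.star u))‖ ≤ ‖a‖ * 1 := by gcongr
        _ = ‖a‖ := mul_one _
    exact mul_le_mul (hu.near h h1) h3 (norm_nonneg _) hκ
  · refine (T.mul_le _ _).trans ?_
    rw [S.norm_map]
    have h3 : ‖u * a‖ ≤ ‖a‖ := by
      refine (norm_mul_le _ _).trans ?_
      calc ‖u‖ * ‖a‖ ≤ 1 * ‖a‖ := mul_le_mul_of_nonneg_right hu.norm_le (norm_nonneg _)
        _ = ‖a‖ := one_mul _
    exact mul_le_mul h3 (hu.star.near _ h2) (norm_nonneg _) (norm_nonneg _)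

/-- finite convex combinations of the vectors `(u a_j α_{k_j}(u)*)_j` -/
def TrAct.hullS (S : TrAct G T) {F : Type} [Fintype F] (a : F → A) (k : F → G) (D : Set G)
    (κ : ℝ) : Set (PiLp 2 fun _ : F => K) :=
  {x | ∃ (I : Type) (_ : Fintype I) (u : I → A) (l : I → ℝ), (∀ i, S.IsNU D κ (u i)) ∧
    (∀ i, 0 ≤ l i) ∧ ∑ i, l i = 1 ∧
    ∀ j : F, x j = T.ι (∑ i, (l i : ℂ) • (u i * a j * S.α (k j) (star (u i))))}

theorem norm_conv_le {E : Type*} [SeminormedAddCommGroup E] [NormedSpace ℂ E] {J : Type}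
    [Fintype J] (l : J → ℝ) (h0 : ∀ j, 0 ≤ l j) (h1 : ∑ j, l j = 1) (v : J → E) (c : ℝ)
    (hv : ∀ j, ‖v j‖ ≤ c) : ‖∑ j, (l j : ℂ) • v j‖ ≤ c := by
  calc ‖∑ j, (l j : ℂ) • v j‖ ≤ ∑ j, ‖(l j : ℂ) • v j‖ := norm_sum_le _ _
    _ ≤ ∑ j, l j * c := by
        refine Finset.sum_le_sum fun j _ => ?_
        rw [norm_smul, Complex.norm_real, Real.norm_eq_abs, abs_of_nonneg (h0 j)]
        exact mul_le_mul_of_nonneg_left (hv j) (h0 j)
    _ = c := by rw [← Finset.sum_mul, h1, one_mul]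

theorem TrAct.hv_norm_le {S : TrAct G T} {D : Set G} {κ : ℝ} {u : A} (h : S.IsNU D κ u) (k : G)
    (a : A) : ‖u * a * S.α k (star u)‖ ≤ ‖a‖ := by
  refine (norm_mul_le _ _).trans ?_
  have h1 : ‖u * a‖ ≤ ‖a‖ := by
    refine (norm_mul_le _ _).trans ?_
    calc ‖u‖ * ‖a‖ ≤ 1 * ‖a‖ := mul_le_mul_of_nonneg_right h.norm_le (norm_nonneg _)
      _ = ‖a‖ := one_mul _
  calc ‖u * a‖ * ‖S.α k (star u)‖ ≤ ‖a‖ * 1 :=
        mul_le_mul h1 ((S.norm_le _ _).trans h.norm_star_le) (norm_nonneg _) (norm_nonneg _)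
    _ = ‖a‖ := mul_one _

section main
variable [IsTopologicalGroup G] (S : TrAct G T) (H : Subgroup G)
  {F : Type} [Fintype F] (a : F → A) (k : F → G)

/-- levels -/
private abbrev Lv (H : Subgroup G) := {p : Set G × ℝ // IsCompact p.1 ∧ p.1 ⊆ (H : Set G) ∧ 0 < p.2}

private theorem hull_mono {D D' : Set G} {κ κ' : ℝ} (hD : D' ⊆ D) (hκ : κ ≤ κ') :
    S.hullS a k D κ ⊆ S.hullS a k D' κ' := by
  rintro x ⟨I, _, u, l, hu, h0, h1, hx⟩
  exact ⟨I, inferInstance, u, l, fun j => (hu j).mono hD hκ, h0, h1, hx⟩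

private theorem hull_mid (D : Set G) (κ : ℝ) (x : PiLp 2 fun _ : F => K) (hx : x ∈ S.hullS a k D κ)
    (y : PiLp 2 fun _ : F => K) (hy : y ∈ S.hullS a k D κ) :
    (2 : ℂ)⁻¹ • (x + y) ∈ S.hullS a k D κ := by
  obtain ⟨I, _, u, l, hu, h0, h1, hx⟩ := hx
  obtain ⟨I', _, u', l', hu', h0', h1', hy⟩ := hy
  refine ⟨I ⊕ I', inferInstance, Sum.elim u u',
    Sum.elim (fun j => 2⁻¹ * l j) (fun j => 2⁻¹ * l' j), ?_, ?_, ?_, ?_⟩
  · rintro (j | j)
    · exact hu j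
    · exact hu' j
  · rintro (j | j)
    · exact mul_nonneg (by norm_num) (h0 j)
    · exact mul_nonneg (by norm_num) (h0' j)
  · rw [Fintype.sum_sum_type]
    simp only [Sum.elim_inl, Sum.elim_inr]
    rw [← Finset.mul_sum, ← Finset.mul_sum, h1, h1']
    norm_num
  · intro j
    rw [Fintype.sum_sum_type]
    simp only [Sum.elim_inl, Sum.elim_inr, PiLp.smul_apply, PiLp.add_apply]
    rw [hx, hy, map_add, smul_add]
    congr 1
    · rw [← map_smul, Finset.smul_sum]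
      congr 1
      refine Finset.sum_congr rfl fun i _ => ?_
      rw [smul_smul]
      push_cast
      rfl
    · rw [← map_smul, Finset.smul_sum]
      congr 1
      refine Finset.sum_congr rfl fun i _ => ?_
      rw [smul_smul]
      push_cast
      rfl

/-- **minimal vectors of nested hulls**: `z_j` is a limit of convex combinations
`∑ l_i u_i a_j α_{k_j}(u_i)*` of unitaries of every level, `u z_j α_{k_j}(u)* ≈ z_j` for all late
unitaries, and `z_j` is `H`-fixed if `a_j` is and `k_j` normalises `H` -/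
theorem TrAct.on_center' :
    ∃ z : F → A, (∀ j, ‖T.ι (z j)‖ ≤ ‖a j‖) ∧
      (∀ j, (∀ h ∈ H, (k j)⁻¹ * h * k j ∈ H) → (∀ h ∈ H, S.α h (a j) = a j) →
        ∀ h ∈ H, S.α h (z j) = z j) ∧
      (∀ D : Set G, IsCompact D → D ⊆ (H : Set G) → ∀ κ : ℝ, 0 < κ → ∀ ε : ℝ, 0 < ε →
        ∃ (I : Type) (_ : Fintype I) (u : I → A) (l : I → ℝ), (∀ i, S.IsNU D κ (u i)) ∧
          (∀ i, 0 ≤ l i) ∧ ∑ i, l i = 1 ∧
          ∀ j, ‖T.ι (∑ i, (l i : ℂ) • (u i * a j * S.α (k j) (star (u i))) - z j)‖ ≤ ε) ∧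
      ∀ ε : ℝ, 0 < ε → ∃ (D : Set G) (κ : ℝ), IsCompact D ∧ D ⊆ (H : Set G) ∧ 0 < κ ∧
        ∀ u : A, S.IsNU D κ u → ∀ j, ‖T.ι (u * z j * S.α (k j) (star u) - z j)‖ ≤ ε := by
  classical
  obtain ⟨C, hC⟩ : ∃ C : Lv H → Set (PiLp 2 fun _ : F => K),
      C = fun p => S.hullS a k p.1.1 p.1.2 := ⟨_, rfl⟩
  have hne0 : Nonempty (Lv H) := ⟨⟨(∅, 1), isCompact_empty, Set.empty_subset _, one_pos⟩⟩
  have hone : ∀ (D : Set G) (κ : ℝ), 0 ≤ κ → (S.hullS a k D κ).Nonempty := by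
    intro D κ hκ
    refine ⟨WithLp.toLp 2 fun j : F => T.ι (a j), Unit, inferInstance, fun _ => 1, fun _ => 1,
      fun _ => TrAct.IsNU.one S D hκ, fun _ => zero_le_one, by simp, fun j => ?_⟩
    simp
  have hle : ∀ (D : Set G) (κ : ℝ) (x : PiLp 2 fun _ : F => K), x ∈ S.hullS a k D κ →
      ∃ b : F → A, (∀ j, ‖b j‖ ≤ ‖a j‖) ∧ ∀ j, x j = T.ι (b j) := by
    rintro D κ x ⟨I, _, u, l, hu, h0, h1, hx⟩
    exact ⟨_, fun j => norm_conv_le l h0 h1 _ ‖a j‖ fun i => TrAct.hv_norm_le (hu i) (k j) (a j),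
      hx⟩
  obtain ⟨z, d, hzd, hnear, hcen⟩ := exists_center C
    (fun i j => ⟨⟨(i.1.1 ∪ j.1.1, min i.1.2 j.1.2), i.2.1.union j.2.1,
        Set.union_subset i.2.2.1 j.2.2.1, lt_min i.2.2.2 j.2.2.2⟩, by
          rw [hC]
          exact ⟨hull_mono S a k Set.subset_union_left (min_le_left _ _),
            hull_mono S a k Set.subset_union_right (min_le_right _ _)⟩⟩)
    (fun i => by rw [hC]; exact hone _ _ i.2.2.2.le)
    (fun i x hx y hy => by rw [hC] at hx hy ⊢; exact hull_mid S a k _ _ x hx y hy)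
    (Real.sqrt (∑ j, ‖a j‖ ^ 2)) (fun i x hx => by
      rw [hC] at hx
      obtain ⟨b, hb, hxb⟩ := hle _ _ x hx
      refine Real.le_sqrt_of_sq_le ?_
      rw [PiLp.norm_sq_eq_of_L2]
      refine Finset.sum_le_sum fun j _ => ?_
      rw [hxb]
      exact pow_le_pow_left₀ (norm_nonneg _) ((T.norm_le (b j)).trans (hb j)) 2)
  -- near-minimal elements of any level are close to the centre
  have happ : ∀ (i0 : Lv H) (ε : ℝ), 0 < ε → ∃ x ∈ C i0, ‖x - z‖ ≤ ε := by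
    intro i0 ε hε
    obtain ⟨i, δ, hδ, hi⟩ := hcen ε hε
    obtain ⟨i', hi'⟩ : ∃ i' : Lv H, i' = ⟨(i0.1.1 ∪ i.1.1, min i0.1.2 i.1.2),
      i0.2.1.union i.2.1, Set.union_subset i0.2.2.1 i.2.2.1, lt_min i0.2.2.2 i.2.2.2⟩ := ⟨_, rfl⟩
    obtain ⟨x, hx, hx'⟩ := hnear i' δ hδ
    rw [hC, hi'] at hx
    refine ⟨x, ?_, hi x ?_ hx'⟩
    · rw [hC]
      exact hull_mono S a k Set.subset_union_left (min_le_left _ _) hx
    · rw [hC]
      exact hull_mono S a k Set.subset_union_right (min_le_right _ _) hx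
  -- the centre comes from elements of the algebra
  have hza : ∃ y : F → A, ∀ j, z j = T.ι (y j) := by
    have h1 : ∀ n : ℕ, ∃ b : F → A, (∀ j, ‖b j‖ ≤ ‖a j‖) ∧
        ∀ j, ‖T.ι (b j) - z j‖ ≤ 1 / ((n : ℝ) + 1) := by
      intro n
      obtain ⟨x, hx, hx'⟩ := happ (Classical.arbitrary _) (1 / ((n : ℝ) + 1)) (by positivity)
      rw [hC] at hx
      obtain ⟨b, hb, hxb⟩ := hle _ _ x hx
      refine ⟨b, hb, fun j => ?_⟩
      rw [← hxb]
      exact (PiLp.norm_apply_le (x - z) j).trans hx'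
    choose b hb hb' using h1
    have h2 : ∀ j : F, Tendsto (fun n => T.ι (b n j)) atTop (𝓝 (z j)) := by
      intro j
      rw [tendsto_iff_norm_sub_tendsto_zero]
      exact squeeze_zero (fun n => norm_nonneg _) (fun n => hb' n j)
        tendsto_one_div_add_atTop_nhds_zero_nat
    have h3 : ∀ j : F, ∃ y : A, z j = T.ι y := by
      intro j
      obtain ⟨y, hy⟩ := T.complete ‖a j‖ (fun n => b n j) (fun n => hb n j) (h2 j).cauchySeq
      exact ⟨y, tendsto_nhds_unique (h2 j) hy⟩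
    exact ⟨fun j => (h3 j).choose, fun j => (h3 j).choose_spec⟩
  obtain ⟨y, hy⟩ := hza
  refine ⟨y, ?_, ?_, ?_, ?_⟩
  · intro j
    refine le_of_forall_pos_le_add fun ε hε => ?_
    obtain ⟨x, hx, hx'⟩ := happ (Classical.arbitrary _) ε hε
    rw [hC] at hx
    obtain ⟨b, hb, hxb⟩ := hle _ _ x hx
    have h1 : ‖x j - z j‖ ≤ ε := (PiLp.norm_apply_le (x - z) j).trans hx'
    rw [hxb, hy] at h1
    calc ‖T.ι (y j)‖ ≤ ‖T.ι (b j)‖ + ‖T.ι (b j) - T.ι (y j)‖ := by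
          have := norm_sub_le (T.ι (b j)) (T.ι (b j) - T.ι (y j))
          rwa [sub_sub_cancel] at this
      _ ≤ ‖a j‖ + ε := add_le_add ((T.norm_le _).trans (hb j)) h1
  · intro j hkj haj h hh
    have key : ∀ ε : ℝ, 0 < ε → ‖T.ι (S.α h (y j) - y j)‖ ≤ 2 * ε + 2 * ε * ‖a j‖ := by
      intro ε hε
      have hkH : (k j)⁻¹ * h * k j ∈ H := hkj h hh
      obtain ⟨x, hx, hxz⟩ := happ ⟨({h, (k j)⁻¹ * h * k j}, ε),
        Set.Finite.isCompact (by simp), by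
          rintro _ (rfl | rfl)
          · exact hh
          · exact hkH, hε⟩ ε hε
      rw [hC] at hx
      obtain ⟨I, _, u, l, hu, h0, h1, hxk⟩ := hx
      obtain ⟨b, hb⟩ : ∃ b : A, b = ∑ i, (l i : ℂ) • (u i * a j * S.α (k j) (star (u i))) :=
        ⟨_, rfl⟩
      have hxb : x j = T.ι b := by rw [hxk, hb]
      have h2 : ‖T.ι b - T.ι (y j)‖ ≤ ε := by
        rw [← hxb, ← hy]
        exact (PiLp.norm_apply_le (x - z) j).trans hxz
      have h3 : ‖T.ι (S.α h b - b)‖ ≤ 2 * ε * ‖a j‖ := by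
        have e : S.α h b - b
            = ∑ i, (l i : ℂ) • (S.α h (u i * a j * S.α (k j) (star (u i)))
              - u i * a j * S.α (k j) (star (u i))) := by
          rw [hb, map_sum, ← Finset.sum_sub_distrib]
          refine Finset.sum_congr rfl fun i _ => ?_
          rw [map_smul, smul_sub]
        rw [e, map_sum]
        simp only [map_smul]
        exact norm_conv_le l h0 h1 _ _ fun i =>
          (hu i).near_hull (k j) h (a j) (haj h hh) (by simp) (by simp)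
      have e2 : S.α h (y j) - y j = S.α h (y j - b) + (S.α h b - b) + (b - y j) := by
        rw [map_sub]; abel
      rw [e2, map_add, map_add]
      have h4 : ‖T.ι (S.α h (y j - b))‖ ≤ ε := by
        rw [S.norm_map, map_sub, norm_sub_rev]
        exact h2
      have h5 : ‖T.ι (b - y j)‖ ≤ ε := by rw [map_sub]; exact h2
      calc _ ≤ ‖T.ι (S.α h (y j - b))‖ + ‖T.ι (S.α h b - b)‖ + ‖T.ι (b - y j)‖ :=
            norm_add₃_le
        _ ≤ ε + 2 * ε * ‖a j‖ + ε := by gcongr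
        _ = 2 * ε + 2 * ε * ‖a j‖ := by ring
    have h0 : ‖T.ι (S.α h (y j) - y j)‖ ≤ 0 := by
      refine le_of_forall_pos_le_add fun ε hε => ?_
      have hp : 0 < 2 + 2 * ‖a j‖ := by positivity
      have := key (ε / (2 + 2 * ‖a j‖)) (by positivity)
      have e : 2 * (ε / (2 + 2 * ‖a j‖)) + 2 * (ε / (2 + 2 * ‖a j‖)) * ‖a j‖ = ε := by
        field_simp
      rw [e] at this
      linarith
    have h1 : T.ι (S.α h (y j) - y j) = T.ι 0 := by
      rw [map_zero]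
      exact norm_le_zero_iff.1 h0
    exact sub_eq_zero.1 (T.inj h1)
  · intro D hD hDH κ hκ ε hε
    obtain ⟨x, hx, hxz⟩ := happ ⟨(D, κ), hD, hDH, hκ⟩ ε hε
    rw [hC] at hx
    obtain ⟨I, hI, u, l, hu, h0, h1, hxk⟩ := hx
    refine ⟨I, hI, u, l, hu, h0, h1, fun j => ?_⟩
    rw [map_sub, ← hxk, ← hy]
    exact (PiLp.norm_apply_le (x - z) j).trans hxz
  · intro ε hε
    obtain ⟨i, δ, hδ, hi⟩ := hcen (ε / 2) (by positivity)
    refine ⟨i.1.1, i.1.2 / 2, i.2.1, i.2.2.1, half_pos i.2.2.2, fun q' hq' j => ?_⟩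
    obtain ⟨x, hx, hx'⟩ := hnear ⟨(i.1.1, i.1.2 / 2), i.2.1, i.2.2.1, half_pos i.2.2.2⟩ δ hδ
    have hhalf : i.1.2 / 2 ≤ i.1.2 := by have := i.2.2.2; linarith
    have hxi : x ∈ C i := by
      rw [hC] at hx ⊢
      exact hull_mono S a k subset_rfl hhalf hx
    have hxz := hi x hxi hx'
    rw [hC] at hx
    obtain ⟨I, _, u, l, hu, h0, h1, hxk⟩ := hx
    obtain ⟨b, hb⟩ : ∃ b : F → A, b = fun j : F =>
      ∑ i, (l i : ℂ) • (u i * a j * S.α (k j) (star (u i))) := ⟨_, rfl⟩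
    have hxb : ∀ j, x j = T.ι (b j) := fun j => by rw [hxk, hb]
    obtain ⟨x', hx'e⟩ : ∃ x' : PiLp 2 fun _ : F => K, x' = WithLp.toLp 2 fun j : F =>
      T.ι (q' * b j * S.α (k j) (star q')) := ⟨_, rfl⟩
    have hx'k : ∀ j, x' j = T.ι (q' * b j * S.α (k j) (star q')) := fun j => by rw [hx'e]
    have hαu : ∀ g : G, S.α g (star q') * star (S.α g (star q')) = 1 := by
      intro g
      rw [← map_star, ← map_mul, star_star, hq'.uni, map_one]
    have hnk : ∀ j, ‖x' j‖ = ‖x j‖ := by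
      intro j
      rw [hx'k, hxb, T.norm_mul_unitary _ (hαu _), T.norm_unitary_mul _ hq'.uni]
    have hn : ‖x'‖ = ‖x‖ := by
      have h2 : ‖x'‖ ^ 2 = ‖x‖ ^ 2 := by
        rw [PiLp.norm_sq_eq_of_L2, PiLp.norm_sq_eq_of_L2]
        exact Finset.sum_congr rfl fun j _ => by rw [hnk]
      exact (pow_left_inj₀ (norm_nonneg _) (norm_nonneg _) two_ne_zero).1 h2
    have hx'C : x' ∈ C i := by
      rw [hC]
      refine ⟨I, inferInstance, fun j => q' * u j, l, fun j => ?_, h0, h1, fun j => ?_⟩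
      · have := hq'.mul (hu j)
        rwa [show i.1.2 / 2 + i.1.2 / 2 = i.1.2 by ring] at this
      · rw [hx'k, hb]
        congr 1
        simp only [Finset.mul_sum, Finset.sum_mul]
        refine Finset.sum_congr rfl fun i _ => ?_
        rw [mul_smul_comm, smul_mul_assoc, star_mul, map_mul]
        congr 1
        noncomm_ring
    have hx'z := hi x' hx'C (hn.le.trans hx')
    have h2 : ‖T.ι (b j) - T.ι (y j)‖ ≤ ε / 2 := by
      rw [← hxb, ← hy]
      exact (PiLp.norm_apply_le (x - z) j).trans hxz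
    have h3 : ‖T.ι (q' * b j * S.α (k j) (star q')) - T.ι (y j)‖ ≤ ε / 2 := by
      rw [← hx'k, ← hy]
      exact (PiLp.norm_apply_le (x' - z) j).trans hx'z
    have e : q' * y j * S.α (k j) (star q') - y j
        = (q' * b j * S.α (k j) (star q') - y j) - q' * (b j - y j) * S.α (k j) (star q') := by
      rw [mul_sub, sub_mul]
      abel
    rw [e, map_sub]
    refine (norm_sub_le _ _).trans ?_
    rw [T.norm_mul_unitary _ (hαu _), T.norm_unitary_mul _ hq'.uni, map_sub, map_sub]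
    linarith

/-- the version for normal subgroups -/
theorem TrAct.on_center [H.Normal] :
    ∃ z : F → A, (∀ j, ‖T.ι (z j)‖ ≤ ‖a j‖) ∧
      (∀ j, (∀ h ∈ H, S.α h (a j) = a j) → ∀ h ∈ H, S.α h (z j) = z j) ∧
      (∀ D : Set G, IsCompact D → D ⊆ (H : Set G) → ∀ κ : ℝ, 0 < κ → ∀ ε : ℝ, 0 < ε →
        ∃ (I : Type) (_ : Fintype I) (u : I → A) (l : I → ℝ), (∀ i, S.IsNU D κ (u i)) ∧
          (∀ i, 0 ≤ l i) ∧ ∑ i, l i = 1 ∧
          ∀ j, ‖T.ι (∑ i, (l i : ℂ) • (u i * a j * S.α (k j) (star (u i))) - z j)‖ ≤ ε) ∧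
      ∀ ε : ℝ, 0 < ε → ∃ (D : Set G) (κ : ℝ), IsCompact D ∧ D ⊆ (H : Set G) ∧ 0 < κ ∧
        ∀ u : A, S.IsNU D κ u → ∀ j, ‖T.ι (u * z j * S.α (k j) (star u) - z j)‖ ≤ ε := by
  obtain ⟨z, h1, h2, h3, h4⟩ := S.on_center' H a k
  refine ⟨z, h1, fun j => h2 j fun h hh => ?_, h3, h4⟩
  have := (inferInstance : H.Normal).conj_mem h hh (k j)⁻¹
  rwa [inv_inv] at this

end main

section dich
variable [IsTopologicalGroup G] (S : TrAct G T) (H : Subgroup G) [H.Normal] (F : Finset G)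

/-- **joint hull dichotomy** -/
theorem TrAct.on_hull :
    (∃ k ∈ F, ∃ z : A, z ≠ 0 ∧ (∀ h ∈ H, S.α h z = z) ∧ S.Intw (H : Set G) k z) ∨
    ∀ D : Set G, IsCompact D → D ⊆ (H : Set G) → ∀ κ : ℝ, 0 < κ → ∀ ε : ℝ, 0 < ε →
      ∃ (J : Type) (_ : Fintype J) (q : J → A) (l : J → ℝ), (∀ j, S.IsNU D κ (q j)) ∧
        (∀ j, 0 ≤ l j) ∧ ∑ j, l j = 1 ∧
        ∀ k ∈ F, ‖T.ι (∑ j, (l j : ℂ) • (star (q j) * S.α k (q j)))‖ ≤ ε := by
  classical
  obtain ⟨z, -, hfix, happ, hint⟩ := S.on_center H (F := Fin F.card) (fun _ => (1 : A))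
    (fun k => (F.equivFin.symm k : G))
  by_cases hall : ∀ j, z j = 0
  · right
    intro D hD hDH κ hκ ε hε
    obtain ⟨I, hI, u, l, hu, h0, h1, hap⟩ := happ D hD hDH κ hκ ε hε
    refine ⟨I, hI, fun i => star (u i), l, fun i => (hu i).star, h0, h1, fun k hk => ?_⟩
    have h2 := hap (F.equivFin ⟨k, hk⟩)
    rw [hall, sub_zero, Equiv.symm_apply_apply] at h2
    simpa using h2
  · left
    push Not at hall
    obtain ⟨j, hj⟩ := hall
    refine ⟨(F.equivFin.symm j : G), (F.equivFin.symm j).2, z j, hj,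
      hfix j (fun h _ => map_one _), fun ε hε => ?_⟩
    obtain ⟨D, κ, hD, hDH, hκ, hu⟩ := hint ε hε
    refine ⟨D, κ, hD, hDH, hκ, fun q hq => ?_⟩
    have h1 := hu (star q) hq.star j
    rw [star_star] at h1
    have e : q * z j - z j * S.α (F.equivFin.symm j : G) q
        = -(q * (star q * z j * S.α (F.equivFin.symm j : G) q - z j)) := by
      rw [mul_sub, ← mul_assoc, ← mul_assoc, hq.uni', one_mul]
      abel
    rw [e, map_neg, norm_neg, T.norm_unitary_mul _ hq.uni]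
    exact h1

end dich

end Pool.Agent.AbCoc
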