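import Pool.Agent.Lib_MP_418a80_t3.Fam
import Pool.Agent.Lib_MP_418a80_nm.NSO
import Pool.Agent.Lib_MP_418a80_nm.Comm
import Pool.Agent.Lib_MP_418a80_ab.KeyOf
import Pool.Agent.Lib_MP_418a80_on.ON1

/-!
# MP_418a80_an, the open normal step (board note 2298): definitions

`G` is amenable, `H` open normal in `G`, `H = H_0 > H_1 > .. > H_k = 1` closed, `H_(i+1)` normal in
`H_i` with `H_i / H_(i+1) = ℝ^(m_i)` and KEY for all `H_i`. Then `StepATyp` holds for `G`.

A level for a subgroup `N` is a compact set `D ⊆ N` and `κ > 0`. Near-invariant unitaries are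
`S.IsNU D κ u` (`ON1.lean`).
-/

set_option autoImplicit false
set_option linter.unusedVariables false
set_option linter.unusedSectionVars false

open Topology Filter MeasureTheory
open scoped RealInnerProductSpace ComplexConjugate

namespace Pool.Agent.AbCoc

universe u v w z

section
variable {A : Type u} [CStarAlgebra A] {K : Type v} [NormedAddCommGroup K]
  [InnerProductSpace ℂ K] [CompleteSpace K]
  {G : Type w} [Group G] [TopologicalSpace G] {T : TrAlg A K} (S : TrAct G T)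

/-- the restriction to a subgroup -/
noncomputable abbrev TrAct.sub (N : Subgroup G) : TrAct N T := S.cm N.subtype continuous_subtype_val

/-- `x` is a contraction, near-eigen for `chi` at the level `(D, κ)` -/
structure TrAct.NE (chi : G → ℂ) (D : Set G) (κ : ℝ) (x : A) : Prop where
  le : ‖x‖ ≤ 1
  ne : ∀ s ∈ D, ‖T.ι (S.α s x - chi s • x)‖ ≤ κ

/-- `β` almost fixes late near-`N`-invariant unitaries -/
def TrAct.FixU (N : Subgroup G) (β : A → A) : Prop :=
  ∀ ε : ℝ, 0 < ε → ∃ (D : Set G) (κ : ℝ), IsCompact D ∧ D ⊆ (N : Set G) ∧ 0 < κ ∧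
    ∀ u, S.IsNU D κ u → ‖T.ι (β u - u)‖ ≤ ε

/-- `β` almost fixes late near-`N`-invariant contractions -/
def TrAct.FixC (N : Subgroup G) (β : A → A) : Prop :=
  ∀ ε : ℝ, 0 < ε → ∃ (D : Set G) (κ : ℝ), IsCompact D ∧ D ⊆ (N : Set G) ∧ 0 < κ ∧
    ∀ x, S.NE (fun _ => 1) D κ x → ‖T.ι (β x - x)‖ ≤ ε

/-- `β` almost fixes late near-`N`-invariant dominated families -/
def TrAct.FixF (N : Subgroup G) (β : A → A) : Prop :=
  ∀ C ε : ℝ, 0 < ε → ∃ (D : Set G) (κ : ℝ), IsCompact D ∧ D ⊆ (N : Set G) ∧ 0 < κ ∧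
    ∀ (J : Type) [Fintype J] (Y : J → A), T.Dm C Y →
      (∀ s ∈ D, ∑ j, ‖T.ι (S.α s (Y j) - Y j)‖ ^ 2 ≤ κ) →
      ∑ j, ‖T.ι (β (Y j) - Y j)‖ ^ 2 ≤ ε

section V
variable {V : Type z} [NormedAddCommGroup V] [InnerProductSpace ℝ V]

/-- `β` is almost a multiple `c q` of the identity on late near-`(N, q)`-eigen contractions,
uniformly in `q` -/
def TrAct.ScalE (N : Subgroup G) (p : G → V) (β : A → A) (c : V → ℂ) : Prop :=
  ∀ ε : ℝ, 0 < ε → ∃ (D : Set G) (κ : ℝ), IsCompact D ∧ D ⊆ (N : Set G) ∧ 0 < κ ∧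
    ∀ (q : V) (x : A), S.NE (pch p q) D κ x → ‖T.ι (β x - c q • x)‖ ≤ ε

/-- near-`(N, q)`-eigen contractions which do not annihilate finitely many given elements -/
def TrAct.EigN (N : Subgroup G) (p : G → V) : Prop :=
  ∀ (q : V) (D : Set G), IsCompact D → D ⊆ (N : Set G) → ∀ κ : ℝ, 0 < κ →
    ∀ (J : Type) [Fintype J] (a : J → A),
    ∃ x, S.NE (pch p q) D κ x ∧ ∀ j, ‖T.ι (a j)‖ ^ 2 ≤ 8 * ‖T.ι (x * a j)‖ ^ 2

/-- `p` is a continuous homomorphism of `N` onto `V` with kernel `N'` (the values of `p` outside `N`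
are irrelevant) -/
structure IsLayer (N N' : Subgroup G) (p : G → V) : Prop where
  cont : ContinuousOn p N
  mul : ∀ s ∈ N, ∀ t ∈ N, p (s * t) = p s + p t
  surj : ∀ q : V, ∃ s ∈ N, p s = q
  ker : ∀ s ∈ N, (p s = 0 ↔ s ∈ N')
  le : N' ≤ N

end V

/-- `a ↦ w α_g(a) w*` -/
noncomputable def TrAct.bw {w : A} (h1 : star w * w = 1) (h2 : w * star w = 1) (g : G) :
    A →⋆ₐ[ℂ] A where
  toFun a := w * S.α g a * star w
  map_one' := by rw [map_one, mul_one, h2]
  map_mul' a b := by
    have e : w * S.α g (a * b) * star w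
        = w * S.α g a * (star w * w) * S.α g b * star w := by
      rw [h1, map_mul]
      noncomm_ring
    rw [e]
    noncomm_ring
  map_zero' := by rw [map_zero, mul_zero, zero_mul]
  map_add' a b := by rw [map_add, mul_add, add_mul]
  commutes' r := by
    rw [AlgHomClass.commutes, ← Algebra.commutes r w, mul_assoc, h2, mul_one]
  map_star' a := by
    rw [map_star, star_mul, star_mul, star_star, mul_assoc]

theorem TrAct.bw_apply {w : A} (h1 : star w * w = 1) (h2 : w * star w = 1) (g : G) (a : A) :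
    S.bw h1 h2 g a = w * S.α g a * star w := rfl

/-- `β` is `2`-norm preserving and intertwines `α_s` and `α_(g s g⁻¹)`, `s ∈ N` -/
structure TrAct.Tw (N : Subgroup G) (g : G) (β : A → A) : Prop where
  iso : ∀ a, ‖T.ι (β a)‖ = ‖T.ι a‖
  cov : ∀ s ∈ N, ∀ a, β (S.α s a) = S.α (g * s * g⁻¹) (β a)

/-- towers of closed subgroups, each normal in the next larger one with a vector group as quotient,
with KEY and eigenelements -/
inductive TrAct.Tower : Subgroup G → Prop
  | bot : TrAct.Tower ⊥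
  | step (N N' : Subgroup G) (m : ℕ) (p : G → EuclideanSpace ℝ (Fin m)) (hm : 0 < m)
      (hN : IsClosed (N : Set G))
      (hp : IsLayer N N' p) (hkey : (S.sub N).Key) (heig : S.EigN N p)
      (h : TrAct.Tower N') : TrAct.Tower N

end

end Pool.Agent.AbCoc
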