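import Pool.Agent.Lib_MP_418a80_on.OnBase

/-!
# [ON] weak limits in a tracial algebra
-/

set_option autoImplicit false
set_option linter.unusedVariables false
set_option linter.unusedSectionVars false

open Topology Filter MeasureTheory
open scoped RealInnerProductSpace ComplexConjugate

namespace Pool.Agent.AbCoc

universe u v w z

section
variable {A : Type u} [CStarAlgebra A] {K : Type v} [NormedAddCommGroup K]
  [InnerProductSpace ℂ K] [CompleteSpace K] {T : TrAlg A K} {I : Type*} {l : Filter I}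

/-- `w` is the weak limit of `x` along `l` -/
def TrAlg.WL (T : TrAlg A K) (l : Filter I) (x : I → A) (w : A) : Prop :=
  ∀ p : A, Tendsto (fun n => T.τ (p * x n)) l (𝓝 (T.τ (p * w)))

theorem TrAlg.WL.mul_left {x : I → A} {w : A} (h : T.WL l x w) (a : A) :
    T.WL l (fun n => a * x n) (a * w) := by
  intro p
  have := h (p * a)
  simpa only [mul_assoc] using this

theorem TrAlg.WL.mul_right {x : I → A} {w : A} (h : T.WL l x w) (a : A) :
    T.WL l (fun n => x n * a) (w * a) := by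
  intro p
  have h1 := h (a * p)
  have e : ∀ y : A, T.τ (a * p * y) = T.τ (p * (y * a)) := by
    intro y
    rw [mul_assoc, T.τ_mul_comm, mul_assoc]
  simpa only [e] using h1

theorem TrAlg.WL.sub {x y : I → A} {w v : A} (h : T.WL l x w) (h' : T.WL l y v) :
    T.WL l (fun n => x n - y n) (w - v) := by
  intro p
  have h1 := (h p).sub (h' p)
  simpa only [mul_sub, T.τ_sub] using h1

theorem TrAlg.WL.add {x y : I → A} {w v : A} (h : T.WL l x w) (h' : T.WL l y v) :
    T.WL l (fun n => x n + y n) (w + v) := by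
  intro p
  have h1 := (h p).add (h' p)
  simpa only [mul_add, T.τ_add] using h1

theorem TrAlg.WL.const (w : A) : T.WL l (fun _ => w) w := fun p => tendsto_const_nhds

theorem on_τ_α {G : Type w} [Group G] [TopologicalSpace G] (S : TrAct G T) (g : G) (a : A) :
    T.τ (S.α g a) = T.τ a := by
  unfold TrAlg.τ
  have := S.inner_map g 1 a
  rwa [map_one] at this

theorem TrAlg.WL.act {G : Type w} [Group G] [TopologicalSpace G] (S : TrAct G T) {x : I → A}
    {w : A} (h : T.WL l x w) (g : G) : T.WL l (fun n => S.α g (x n)) (S.α g w) := by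
  intro p
  have h1 := h (S.α g⁻¹ p)
  have e : ∀ y : A, T.τ (S.α g⁻¹ p * y) = T.τ (p * S.α g y) := by
    intro y
    rw [← on_τ_α S g, map_mul, S.apply_inv]
  simpa only [e] using h1

/-- the `2`-norm is weakly lower semicontinuous -/
theorem TrAlg.WL.norm_le [l.NeBot] {x : I → A} {w : A} (h : T.WL l x w) {ε : ℝ}
    (hx : ∀ᶠ n in l, ‖T.ι (x n)‖ ≤ ε) : ‖T.ι w‖ ≤ ε := by
  have h1 : ‖T.τ (star w * w)‖ ≤ ‖T.ι w‖ * ε := by
    refine le_of_tendsto (h (star w)).norm ?_
    filter_upwards [hx] with n hn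
    have h2 : T.τ (star w * x n) = inner ℂ (T.ι w) (T.ι (x n)) := (T.inner_eq_τ _ _).symm
    rw [h2]
    exact (norm_inner_le_norm _ _).trans (mul_le_mul_of_nonneg_left hn (norm_nonneg _))
  have h2 : ‖T.τ (star w * w)‖ = ‖T.ι w‖ * ‖T.ι w‖ := by
    rw [← T.inner_eq_τ, inner_self_eq_norm_sq_to_K, norm_pow]
    simp [sq]
  rw [h2] at h1
  by_cases h0 : ‖T.ι w‖ = 0
  · obtain ⟨n, hn⟩ := hx.exists
    rw [h0]
    exact (norm_nonneg _).trans hn
  · exact le_of_mul_le_mul_left h1 (lt_of_le_of_ne (norm_nonneg _) (Ne.symm h0))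

theorem TrAlg.WL.eq_zero [l.NeBot] {x : I → A} {w : A} (h : T.WL l x w)
    (hx : ∀ ε : ℝ, 0 < ε → ∀ᶠ n in l, ‖T.ι (x n)‖ ≤ ε) : w = 0 := by
  have h1 : ‖T.ι w‖ ≤ 0 := by
    refine le_of_forall_pos_le_add fun ε hε => ?_
    rw [zero_add]
    exact h.norm_le (hx ε hε)
  exact T.inj (by rw [map_zero]; exact norm_le_zero_iff.1 h1)

theorem TrAlg.WL.τ {x : I → A} {w : A} (h : T.WL l x w) :
    Tendsto (fun n => T.τ (x n)) l (𝓝 (T.τ w)) := by
  have := h 1
  simpa only [one_mul] using this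

theorem TrAlg.exists_WL (T : TrAlg A K) (U : Ultrafilter I) (x : I → A) (C : ℝ)
    (hx : ∀ n, ‖x n‖ ≤ C) : ∃ w : A, T.WL U x w := T.exists_weak U x C hx

end

section
variable {A : Type u} [CStarAlgebra A] {K : Type v} [NormedAddCommGroup K]
  [InnerProductSpace ℂ K] [CompleteSpace K]
  {G : Type w} [Group G] [TopologicalSpace G] {T : TrAlg A K} (S : TrAct G T)

/-- levels for `N` -/
structure OnLv (N : Subgroup G) where
  D : Set G
  κ : ℝ
  hD : IsCompact D
  hDN : D ⊆ (N : Set G)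
  hκ : 0 < κ

instance (N : Subgroup G) : Preorder (OnLv N) where
  le a b := a.D ⊆ b.D ∧ b.κ ≤ a.κ
  le_refl a := ⟨subset_rfl, le_rfl⟩
  le_trans a b c h h' := ⟨h.1.trans h'.1, h'.2.trans h.2⟩

instance (N : Subgroup G) : Nonempty (OnLv N) :=
  ⟨⟨∅, 1, isCompact_empty, Set.empty_subset _, one_pos⟩⟩

instance (N : Subgroup G) : IsDirectedOrder (OnLv N) where
  directed a b := ⟨⟨a.D ∪ b.D, min a.κ b.κ, a.hD.union b.hD, Set.union_subset a.hDN b.hDN,
    lt_min a.hκ b.hκ⟩, ⟨Set.subset_union_left, min_le_left _ _⟩,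
    ⟨Set.subset_union_right, min_le_right _ _⟩⟩

theorem OnLv.eventually (N : Subgroup G) {D : Set G} {κ : ℝ} (hD : IsCompact D)
    (hDN : D ⊆ (N : Set G)) (hκ : 0 < κ) :
    ∀ᶠ n in (Ultrafilter.of (atTop : Filter (OnLv N)) : Filter (OnLv N)), D ⊆ n.D ∧ n.κ ≤ κ :=
  Ultrafilter.of_le _ (eventually_ge_atTop (⟨D, κ, hD, hDN, hκ⟩ : OnLv N))

end

end Pool.Agent.AbCoc
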