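import Pool.Agent.Lib_MP_418a80_un.UA1

/-!
# MP_418a80_an, the open normal step: `StepATyp` from families dominated on one test element
-/

set_option autoImplicit false
set_option linter.unusedVariables false
set_option linter.unusedSectionVars false

open MeasureTheory Topology Filter
open scoped ENNReal NNReal ComplexConjugate

namespace Pool.Agent.AbCoc

universe u v w z

variable {A : Type u} [CStarAlgebra A] {K : Type v} [NormedAddCommGroup K]
  [InnerProductSpace ℂ K] [CompleteSpace K]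
variable {G : Type w} [Group G] [TopologicalSpace G] [IsTopologicalGroup G] [T2Space G]
  [SecondCountableTopology G] [LocallyCompactSpace G]
  {T : TrAlg A K} (S : TrAct G T)

/-- near-invariant families of every level in every corner, dominated on one test element up to
`κ`, with constants which do not depend on the level and on the test element -/
def TrAct.StepAW : Prop :=
  ∀ b1 b2 : A, S.Fixed b1 → S.Fixed b2 → IsSelfAdjoint b1 → IsSelfAdjoint b2 → b1 ≠ 0 → b2 ≠ 0 →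
    ∃ C c0 : ℝ, 0 < c0 ∧
    ∀ D : Set G, IsCompact D → ∀ κ : ℝ, 0 < κ → ∀ y : A,
      ∃ (J : Type) (_ : Fintype J) (a x : J → A), (∀ i, a i = b1 * x i * b2) ∧
        c0 ≤ ∑ i, ‖T.ι (a i)‖ ^ 2 ∧
        ∑ i, ‖T.ι (S.E (a i))‖ ^ 2 ≤ κ ∧
        (∀ g ∈ D, ∑ i, ‖T.ι (S.α g (a i) - a i)‖ ^ 2 ≤ κ) ∧
        ∑ i, ‖T.ι (a i * y)‖ ^ 2 ≤ C * ‖T.ι y‖ ^ 2 + κ ∧
        ∑ i, ‖T.ι (y * a i)‖ ^ 2 ≤ C * ‖T.ι y‖ ^ 2 + κ

theorem TrAct.stepATyp_of_stepAW (h : S.StepAW) : S.StepATyp := by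
  classical
  let _ : MeasurableSpace G := borel G
  have _ : BorelSpace G := ⟨rfl⟩
  by_contra hno
  obtain ⟨b1, b2, hf1, hf2, hs1, hs2, h1, h2, m0, C', y, hm0, ⟨C0, hC0, hm0C⟩, hC', hy, hgap⟩ :=
    S.exists_gap hno
  obtain ⟨C, c0, hc0, hfam⟩ := h b1 b2 hf1 hf2 hs1 hs2 h1 h2
  set C1 : ℝ := max C 1 with hC1
  have hC11 : 1 ≤ C1 := le_max_right _ _
  have hCC1 : C ≤ C1 := le_max_left _ _
  -- the small coefficient
  obtain ⟨F, w, hw, hws, hFw⟩ := S.exists_avg_family Unit (fun _ => y) (c0 / (32 * C1))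
    (by positivity)
  have hv : C * ‖T.ι (S.avg F w y)‖ ^ 2 ≤ c0 / 32 := by
    have h1 : ‖T.ι (S.avg F w y)‖ ^ 2 ≤ c0 / (32 * C1) := by
      have := hFw.le
      simpa [hy] using this
    have h2 : C * ‖T.ι (S.avg F w y)‖ ^ 2 ≤ C1 * (c0 / (32 * C1)) :=
      (mul_le_mul_of_nonneg_right hCC1 (by positivity)).trans
        (mul_le_mul_of_nonneg_left h1 (by linarith))
    have h3 : C1 * (c0 / (32 * C1)) = c0 / 32 := by field_simp
    linarith
  -- the compact set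
  set D : Set G := ⋃ j ∈ F, (fun g => j * g * j⁻¹) '' C0 with hD
  have hDc : IsCompact D := by
    refine F.finite_toSet.isCompact_biUnion fun j _ => hC0.image ?_
    exact (continuous_const.mul continuous_id).mul continuous_const
  obtain ⟨κ, hκ⟩ : ∃ κ : ℝ, κ = c0 / (32 * (2 * C' + 8)) := ⟨_, rfl⟩
  have hκp : 0 < κ := by rw [hκ]; positivity
  have hκ2 : (2 * C' + 8) * κ = c0 / 32 := by
    rw [hκ]
    field_simp
  obtain ⟨J, hJ, a, x, hax, hm, hE, hK, hr, hl⟩ := hfam D hDc κ hκp (S.avg F w y)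
  -- the inequality for every translate
  have hcontd : ∀ b : A, Continuous fun s => ‖T.ι (S.α s b - b)‖ ^ 2 := by
    intro b
    simp only [map_sub]
    exact (((S.cont b).sub continuous_const).norm).pow 2
  have hbdd : ∀ (b : A) (s : G), ‖T.ι (S.α s b - b)‖ ^ 2 ≤ (2 * ‖T.ι b‖) ^ 2 := by
    intro b s
    refine pow_le_pow_left₀ (norm_nonneg _) ?_ 2
    rw [map_sub]
    refine (norm_sub_le _ _).trans ?_
    rw [S.norm_map]
    linarith
  have hint : ∀ b : A, Integrable (fun s => ‖T.ι (S.α s b - b)‖ ^ 2) m0 := by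
    intro b
    refine Integrable.mono' (integrable_const ((2 * ‖T.ι b‖) ^ 2))
      (hcontd b).aestronglyMeasurable (Eventually.of_forall fun s => ?_)
    rw [Real.norm_eq_abs, abs_of_nonneg (by positivity)]
    exact hbdd b s
  have hj : ∀ j ∈ F, ∑ i, ‖T.ι (a i)‖ ^ 2 ≤ C' * (κ + κ)
      + ∑ i, (T.dens (a i) (S.α j y)).re := by
    intro j hjF
    have e1 : ∀ i, ‖T.ι (a i)‖ ^ 2 ≤ C' * (‖T.ι (S.E (a i))‖ ^ 2
        + ∫ s, ‖T.ι (S.α s (S.α j⁻¹ (a i)) - S.α j⁻¹ (a i))‖ ^ 2 ∂m0)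
        + (T.dens (a i) (S.α j y)).re := by
      intro i
      have g0 := hgap (S.α j⁻¹ (x i)) (S.α j⁻¹ (a i)) (by
        rw [hax i, map_mul, map_mul, hf1, hf2])
      have g1 : S.ql 1 y (S.α j⁻¹ (a i)) + S.qr 1 y (S.α j⁻¹ (a i))
          = (T.dens (S.α j⁻¹ (a i)) y).re := by
        unfold TrAct.ql TrAct.qr
        rw [T.dens_eq, Complex.add_re, S.one]
        ring
      have g2 : T.dens (S.α j⁻¹ (a i)) y = T.dens (a i) (S.α j y) := by
        have := S.dens_α j (S.α j⁻¹ (a i)) y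
        rw [S.apply_inv] at this
        exact this.symm
      rw [add_assoc, g1, g2, S.norm_map, S.E_α, one_mul] at g0
      exact g0
    have e2 : ∑ i, ∫ s, ‖T.ι (S.α s (S.α j⁻¹ (a i)) - S.α j⁻¹ (a i))‖ ^ 2 ∂m0 ≤ κ := by
      rw [← integral_finset_sum _ fun i _ => hint _]
      have e3 : ∫ s, ∑ i, ‖T.ι (S.α s (S.α j⁻¹ (a i)) - S.α j⁻¹ (a i))‖ ^ 2 ∂m0
          ≤ ∫ s, κ ∂m0 := by
        refine integral_mono_ae (integrable_finset_sum _ fun i _ => hint _)
          (integrable_const _) ?_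
        have hae : ∀ᵐ s ∂m0, s ∈ C0 := by
          rw [ae_iff]
          exact hm0C
        filter_upwards [hae] with s hs
        have e4 : ∀ i, ‖T.ι (S.α s (S.α j⁻¹ (a i)) - S.α j⁻¹ (a i))‖ ^ 2
            = ‖T.ι (S.α (j * s * j⁻¹) (a i) - a i)‖ ^ 2 := by
          intro i
          rw [← S.norm_map j (S.α s (S.α j⁻¹ (a i)) - S.α j⁻¹ (a i)), map_sub, S.apply_inv,
            ← S.mul, ← S.mul]
        simp only [e4]
        refine hK _ ?_
        rw [hD]
        simp only [Set.mem_iUnion, Set.mem_image]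
        exact ⟨j, hjF, s, hs, rfl⟩
      refine e3.trans ?_
      rw [integral_const, probReal_univ, one_smul]
    calc ∑ i, ‖T.ι (a i)‖ ^ 2 ≤ ∑ i, (C' * (‖T.ι (S.E (a i))‖ ^ 2
          + ∫ s, ‖T.ι (S.α s (S.α j⁻¹ (a i)) - S.α j⁻¹ (a i))‖ ^ 2 ∂m0)
          + (T.dens (a i) (S.α j y)).re) := Finset.sum_le_sum fun i _ => e1 i
      _ = C' * (∑ i, ‖T.ι (S.E (a i))‖ ^ 2
          + ∑ i, ∫ s, ‖T.ι (S.α s (S.α j⁻¹ (a i)) - S.α j⁻¹ (a i))‖ ^ 2 ∂m0)
          + ∑ i, (T.dens (a i) (S.α j y)).re := by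
          rw [Finset.sum_add_distrib, ← Finset.mul_sum, Finset.sum_add_distrib]
      _ ≤ _ := by
          refine add_le_add ?_ le_rfl
          exact mul_le_mul_of_nonneg_left (add_le_add hE e2) hC'
  -- average over `j`
  have hdens : ∀ i, (T.dens (a i) (S.avg F w y)).re = ∑ j ∈ F, w j * (T.dens (a i) (S.α j y)).re := by
    intro i
    unfold TrAlg.dens TrAct.avg
    rw [map_sum, inner_sum, Complex.re_sum]
    refine Finset.sum_congr rfl fun g _ => ?_
    have e : w g • S.α g y = (w g : ℂ) • S.α g y := rfl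
    rw [e, map_smul, inner_smul_right, Complex.re_ofReal_mul]
  have hsum : ∑ i, ‖T.ι (a i)‖ ^ 2 ≤ C' * (κ + κ)
      + ∑ i, (T.dens (a i) (S.avg F w y)).re := by
    have e1 : ∑ j ∈ F, w j * ∑ i, ‖T.ι (a i)‖ ^ 2 ≤ ∑ j ∈ F, w j * (C' * (κ + κ)
        + ∑ i, (T.dens (a i) (S.α j y)).re) :=
      Finset.sum_le_sum fun j hjF => mul_le_mul_of_nonneg_left (hj j hjF) (hw j)
    rw [← Finset.sum_mul, hws, one_mul] at e1
    refine e1.trans (le_of_eq ?_)
    simp only [mul_add, Finset.sum_add_distrib]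
    simp only [← Finset.sum_mul, hws, one_mul]
    congr 1
    simp only [hdens, Finset.mul_sum]
    rw [Finset.sum_comm]
  -- the density is small
  set M : ℝ := ∑ i, ‖T.ι (a i)‖ ^ 2 with hM
  have hM0 : 0 < M := lt_of_lt_of_le hc0 hm
  have hd1 : ∀ i, (T.dens (a i) (S.avg F w y)).re ≤ ‖T.ι (a i)‖ ^ 2 / 4
      + 2 * (‖T.ι (a i * S.avg F w y)‖ ^ 2 + ‖T.ι (S.avg F w y * a i)‖ ^ 2) := by
    intro i
    have g1 := (Complex.abs_re_le_norm (T.dens (a i) (S.avg F w y))).trans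
      (T.dens_norm_le (a i) (S.avg F w y))
    have g2 := (abs_le.1 g1).2
    nlinarith [sq_nonneg (‖T.ι (a i)‖ - 4 * ‖T.ι (a i * S.avg F w y)‖),
      sq_nonneg (‖T.ι (a i)‖ - 4 * ‖T.ι (S.avg F w y * a i)‖)]
  have hd2 : ∑ i, (T.dens (a i) (S.avg F w y)).re ≤ M / 4 + 2 * ((C * ‖T.ι (S.avg F w y)‖ ^ 2 + κ)
      + (C * ‖T.ι (S.avg F w y)‖ ^ 2 + κ)) := by
    refine (Finset.sum_le_sum fun i _ => hd1 i).trans ?_
    rw [Finset.sum_add_distrib, ← Finset.sum_div, ← Finset.mul_sum, Finset.sum_add_distrib]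
    linarith
  nlinarith

end Pool.Agent.AbCoc
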