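import Pool.Agent.Lib_MP_418a80_hyp.HZ

/-!
# MP_418a80_an, the open normal step: Reiter's condition on the discrete quotient
-/

set_option autoImplicit false
set_option linter.unusedVariables false
set_option linter.unusedSectionVars false

open MeasureTheory Topology Filter
open scoped ENNReal NNReal ComplexConjugate Pointwise

namespace Pool.Agent.AbCoc

universe u v w z

variable {G : Type w} [Group G] [TopologicalSpace G] [IsTopologicalGroup G]
  [SecondCountableTopology G] [LocallyCompactSpace G] [MeasurableSpace G] [BorelSpace G]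
  (μ : Measure G) [μ.IsHaarMeasure]

/-- **Reiter's condition on the quotient by an open normal subgroup** -/
theorem exists_reiter_quot (H : Subgroup G) [H.Normal] (hHo : IsOpen (H : Set G))
    (hR : Reiter μ) (D : Set G) (hD : IsCompact D) (κ : ℝ) (hκ : 0 < κ) :
    ∃ (R : Finset (G ⧸ H)) (F : G ⧸ H → ℝ), (∀ q, 0 ≤ F q) ∧ (∀ q ∉ R, F q = 0) ∧
      (∀ s ∈ D, ∀ q ∉ R, F ((s : G ⧸ H)⁻¹ * q) = 0) ∧ ∑ q ∈ R, F q = 1 ∧
      ∀ s ∈ D, ∑ q ∈ R, |F ((s : G ⧸ H)⁻¹ * q) - F q| ≤ κ := by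
  classical
  obtain ⟨f, hfc, hfs, hf0, hf1, hfD⟩ := hR D hD κ hκ
  have hdisc : DiscreteTopology (G ⧸ H) := QuotientGroup.discreteTopology hHo
  have hmk : Continuous (QuotientGroup.mk : G → G ⧸ H) := QuotientGroup.continuous_mk
  have hmeas : ∀ q : G ⧸ H, MeasurableSet ((QuotientGroup.mk : G → G ⧸ H) ⁻¹' {q}) := fun q =>
    ((isOpen_discrete {q}).preimage hmk).measurableSet
  have hfi : Integrable f μ := hfc.integrable_of_hasCompactSupport hfs
  obtain ⟨F, hF⟩ : ∃ F : G ⧸ H → ℝ, ∀ q, F q = ∫ t in (QuotientGroup.mk : G → G ⧸ H) ⁻¹' {q}, f t ∂μ :=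
    ⟨_, fun _ => rfl⟩
  -- the finite set
  have hK1 : ((QuotientGroup.mk : G → G ⧸ H) '' tsupport f).Finite := (hfs.isCompact.image hmk).finite_of_discrete
  have hK2 : ((QuotientGroup.mk : G → G ⧸ H) '' (D * tsupport f)).Finite :=
    ((hD.mul hfs.isCompact).image hmk).finite_of_discrete
  obtain ⟨R, hRdef⟩ : ∃ R : Finset (G ⧸ H), R = hK1.toFinset ∪ hK2.toFinset := ⟨_, rfl⟩
  have hR1 : ∀ t ∈ tsupport f, (t : G ⧸ H) ∈ R := fun t ht => by
    rw [hRdef, Finset.mem_union]
    exact Or.inl (hK1.mem_toFinset.2 ⟨t, ht, rfl⟩)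
  have hR2 : ∀ s ∈ D, ∀ t ∈ tsupport f, ((s * t : G) : G ⧸ H) ∈ R := fun s hs t ht => by
    rw [hRdef, Finset.mem_union]
    exact Or.inr (hK2.mem_toFinset.2 ⟨s * t, Set.mul_mem_mul hs ht, rfl⟩)
  have hFz : ∀ q : G ⧸ H, (∀ t ∈ tsupport f, (t : G ⧸ H) ≠ q) → F q = 0 := by
    intro q hq
    rw [hF]
    refine setIntegral_eq_zero_of_forall_eq_zero fun t ht => ?_
    by_contra h0
    exact hq t (subset_tsupport f h0) ht
  have hdisj : ∀ (R : Finset (G ⧸ H)), Set.PairwiseDisjoint (R : Set (G ⧸ H))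
      (fun q => (QuotientGroup.mk : G → G ⧸ H) ⁻¹' {q}) := by
    intro R q _ q' _ hqq
    refine Set.disjoint_left.2 fun t ht ht' => hqq ?_
    rw [← (show (t : G ⧸ H) = q from ht), ← (show (t : G ⧸ H) = q' from ht')]
  -- translation
  have htr : ∀ (s : G) (q : G ⧸ H), F ((s : G ⧸ H)⁻¹ * q)
      = ∫ t in (QuotientGroup.mk : G → G ⧸ H) ⁻¹' {q}, f (s⁻¹ * t) ∂μ := by
    intro s q
    rw [hF, ← integral_indicator (hmeas _), ← integral_indicator (hmeas _),
      ← integral_mul_left_eq_self _ s⁻¹]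
    congr 1
    funext t
    by_cases ht : (t : G ⧸ H) = q
    · rw [Set.indicator_of_mem (show t ∈ _ from ht), Set.indicator_of_mem]
      change ((s⁻¹ * t : G) : G ⧸ H) = _
      rw [QuotientGroup.mk_mul, QuotientGroup.mk_inv, ht]
    · rw [Set.indicator_of_notMem (show t ∉ _ from ht), Set.indicator_of_notMem]
      intro h1
      apply ht
      have h2 : ((s⁻¹ * t : G) : G ⧸ H) = (s : G ⧸ H)⁻¹ * q := h1
      rw [QuotientGroup.mk_mul, QuotientGroup.mk_inv] at h2
      exact mul_left_cancel h2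
  refine ⟨R, F, fun q => ?_, fun q hq => ?_, fun s hs q hq => ?_, ?_, fun s hs => ?_⟩
  · rw [hF]
    exact setIntegral_nonneg (hmeas q) fun t _ => hf0 t
  · refine hFz q fun t ht h => hq ?_
    rw [← h]
    exact hR1 t ht
  · refine hFz _ fun t ht h => hq ?_
    have h1 : q = ((s * t : G) : G ⧸ H) := by
      rw [QuotientGroup.mk_mul, h, mul_inv_cancel_left]
    rw [h1]
    exact hR2 s hs t ht
  · rw [Finset.sum_congr rfl fun q _ => hF q, ← integral_biUnion_finset R (fun q _ => hmeas q)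
      (hdisj R) (fun q _ => hfi.integrableOn), ← hf1]
    refine setIntegral_eq_integral_of_forall_compl_eq_zero fun t ht => ?_
    by_contra h0
    exact ht (Set.mem_biUnion (hR1 t (subset_tsupport f h0)) rfl)
  · have hgi : Integrable (fun t => f (s⁻¹ * t)) μ := hfi.comp_mul_left s⁻¹
    have hdi : Integrable (fun t => |f (s⁻¹ * t) - f t|) μ := (hgi.sub hfi).abs
    have h1 : ∀ q ∈ R, |F ((s : G ⧸ H)⁻¹ * q) - F q|
        ≤ ∫ t in (QuotientGroup.mk : G → G ⧸ H) ⁻¹' {q}, |f (s⁻¹ * t) - f t| ∂μ := by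
      intro q _
      rw [htr, hF, ← integral_sub hgi.integrableOn hfi.integrableOn]
      exact abs_integral_le_integral_abs
    refine (Finset.sum_le_sum h1).trans ?_
    rw [← integral_biUnion_finset R (fun q _ => hmeas q) (hdisj R) (fun q _ => hdi.integrableOn)]
    refine (setIntegral_le_integral hdi (Eventually.of_forall fun t => abs_nonneg _)).trans ?_
    exact hfD s hs

end Pool.Agent.AbCoc
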