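import Pool.Agent.Lib_MP_418a80_on.On2e

/-!
# MP_418a80_an, the open normal step: combinations over cosets
-/

set_option autoImplicit false
set_option linter.unusedVariables false
set_option linter.unusedSectionVars false

open MeasureTheory Topology Filter
open scoped ENNReal NNReal ComplexConjugate

namespace Pool.Agent.AbCoc

universe u v w z

section
variable {A : Type u} [CStarAlgebra A] {K : Type v} [NormedAddCommGroup K]
  [InnerProductSpace ℂ K] [CompleteSpace K]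
variable {G : Type w} [Group G] [TopologicalSpace G] {T : TrAlg A K} (S : TrAct G T)

/-- the combination over cosets -/
noncomputable def TrAct.cosum {H : Subgroup G} (R : Finset (G ⧸ H)) (c : G ⧸ H → ℝ) (x : A) : A :=
  ∑ q ∈ R, (c q : ℂ) • S.α q.out x

variable {P : Type} [Fintype P] {H : Subgroup G} (R : Finset (G ⧸ H)) {w : P → ℝ} {x : P → A}

theorem TrAct.on_shiftR (g k : G) {η : ℝ}
    (h : ‖T.ι (∑ p, (w p : ℂ) • (star (x p) * S.α (g⁻¹ * k) (x p)))‖ ≤ η) :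
    ‖T.ι (∑ p, (w p : ℂ) • (star (S.α g (x p)) * S.α k (x p)))‖ ≤ η := by
  have e : ∑ p, (w p : ℂ) • (star (S.α g (x p)) * S.α k (x p))
      = S.α g (∑ p, (w p : ℂ) • (star (x p) * S.α (g⁻¹ * k) (x p))) := by
    rw [map_sum]
    refine Finset.sum_congr rfl fun p _ => ?_
    rw [map_smul, map_mul, map_star, S.mul, S.apply_inv]
  rw [e, S.norm_map]
  exact h

theorem TrAct.on_shiftL (g k : G) {η : ℝ}
    (h : ‖T.ι (∑ p, (w p : ℂ) • (x p * star (S.α (g⁻¹ * k) (x p))))‖ ≤ η) :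
    ‖T.ι (∑ p, (w p : ℂ) • (S.α g (x p) * star (S.α k (x p))))‖ ≤ η := by
  have e : ∑ p, (w p : ℂ) • (S.α g (x p) * star (S.α k (x p)))
      = S.α g (∑ p, (w p : ℂ) • (x p * star (S.α (g⁻¹ * k) (x p)))) := by
    rw [map_sum]
    refine Finset.sum_congr rfl fun p _ => ?_
    rw [map_smul, map_mul, map_star, S.mul, S.apply_inv]
  rw [e, S.norm_map]
  exact h

theorem TrAct.cosum_right (hw : ∀ p, 0 ≤ w p) (hw1 : ∑ p, w p = 1) {B η : ℝ} (hη0 : 0 ≤ η)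
    (hx : ∀ p, ‖x p‖ ≤ B)
    (hη : ∀ q ∈ R, ∀ q' ∈ R, q ≠ q' →
      ‖T.ι (∑ p, (w p : ℂ) • (star (x p) * S.α (q.out⁻¹ * q'.out) (x p)))‖ ≤ η)
    (c : G ⧸ H → ℝ) (y : A) :
    ∑ p, w p * ‖T.ι (S.cosum R c (x p) * y)‖ ^ 2
      ≤ (∑ q ∈ R, c q ^ 2) * (B ^ 2 * ‖T.ι y‖ ^ 2) + (∑ q ∈ R, |c q|) ^ 2 * (η * ‖y‖ ^ 2) := by
  classical
  have h1 := (abs_le.1 (T.qf R w c (fun p q => S.α q.out (x p)) η hη0
    (fun q hq q' hq' hne => S.on_shiftR _ _ (hη q hq q' hq' hne)) y)).2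
  have h2 : ∑ q ∈ R, c q ^ 2 * ∑ p, w p * ‖T.ι (S.α q.out (x p) * y)‖ ^ 2
      ≤ ∑ q ∈ R, c q ^ 2 * (B ^ 2 * ‖T.ι y‖ ^ 2) := by
    refine Finset.sum_le_sum fun q _ => mul_le_mul_of_nonneg_left ?_ (sq_nonneg _)
    calc ∑ p, w p * ‖T.ι (S.α q.out (x p) * y)‖ ^ 2 ≤ ∑ p, w p * (B ^ 2 * ‖T.ι y‖ ^ 2) := by
          refine Finset.sum_le_sum fun p _ => mul_le_mul_of_nonneg_left ?_ (hw p)
          rw [← mul_pow]
          refine pow_le_pow_left₀ (norm_nonneg _) ?_ 2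
          exact (T.mul_le _ _).trans (mul_le_mul_of_nonneg_right
            ((S.norm_le _ _).trans (hx p)) (norm_nonneg _))
      _ = B ^ 2 * ‖T.ι y‖ ^ 2 := by rw [← Finset.sum_mul, hw1, one_mul]
  rw [← Finset.sum_mul] at h2
  unfold TrAct.cosum
  linarith

theorem TrAct.cosum_left (hw : ∀ p, 0 ≤ w p) (hw1 : ∑ p, w p = 1) {B η : ℝ} (hη0 : 0 ≤ η)
    (hx : ∀ p, ‖x p‖ ≤ B)
    (hη : ∀ q ∈ R, ∀ q' ∈ R, q ≠ q' →
      ‖T.ι (∑ p, (w p : ℂ) • (x p * star (S.α (q.out⁻¹ * q'.out) (x p))))‖ ≤ η)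
    (c : G ⧸ H → ℝ) (y : A) :
    ∑ p, w p * ‖T.ι (y * S.cosum R c (x p))‖ ^ 2
      ≤ (∑ q ∈ R, c q ^ 2) * (B ^ 2 * ‖T.ι y‖ ^ 2) + (∑ q ∈ R, |c q|) ^ 2 * (η * ‖y‖ ^ 2) := by
  classical
  have h1 := (abs_le.1 (T.qf' R w c (fun p q => S.α q.out (x p)) η hη0
    (fun q hq q' hq' hne => S.on_shiftL _ _ (hη q hq q' hq' hne)) y)).2
  have h2 : ∑ q ∈ R, c q ^ 2 * ∑ p, w p * ‖T.ι (y * S.α q.out (x p))‖ ^ 2
      ≤ ∑ q ∈ R, c q ^ 2 * (B ^ 2 * ‖T.ι y‖ ^ 2) := by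
    refine Finset.sum_le_sum fun q _ => mul_le_mul_of_nonneg_left ?_ (sq_nonneg _)
    calc ∑ p, w p * ‖T.ι (y * S.α q.out (x p))‖ ^ 2 ≤ ∑ p, w p * (B ^ 2 * ‖T.ι y‖ ^ 2) := by
          refine Finset.sum_le_sum fun p _ => mul_le_mul_of_nonneg_left ?_ (hw p)
          rw [← mul_pow]
          refine pow_le_pow_left₀ (norm_nonneg _) ?_ 2
          refine (T.mul_le' _ _).trans ?_
          rw [mul_comm]
          exact mul_le_mul_of_nonneg_right ((S.norm_le _ _).trans (hx p)) (norm_nonneg _)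
      _ = B ^ 2 * ‖T.ι y‖ ^ 2 := by rw [← Finset.sum_mul, hw1, one_mul]
  rw [← Finset.sum_mul] at h2
  unfold TrAct.cosum
  linarith

theorem TrAct.cosum_mass {η : ℝ} (hη0 : 0 ≤ η)
    (hη : ∀ q ∈ R, ∀ q' ∈ R, q ≠ q' →
      ‖T.ι (∑ p, (w p : ℂ) • (star (x p) * S.α (q.out⁻¹ * q'.out) (x p)))‖ ≤ η)
    (c : G ⧸ H → ℝ) :
    (∑ q ∈ R, c q ^ 2) * (∑ p, w p * ‖T.ι (x p)‖ ^ 2) - (∑ q ∈ R, |c q|) ^ 2 * η
      ≤ ∑ p, w p * ‖T.ι (S.cosum R c (x p))‖ ^ 2 := by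
  classical
  have h1 := (abs_le.1 (T.qf R w c (fun p q => S.α q.out (x p)) η hη0
    (fun q hq q' hq' hne => S.on_shiftR _ _ (hη q hq q' hq' hne)) 1)).1
  simp only [mul_one, S.norm_map] at h1
  rw [← Finset.sum_mul] at h1
  have h2 : ‖(1 : A)‖ ≤ 1 := by
    rcases subsingleton_or_nontrivial A with h | h
    · rw [Subsingleton.elim (1 : A) 0, norm_zero]; exact zero_le_one
    · exact le_of_eq CStarRing.norm_one
  have h3 : η * ‖(1 : A)‖ ^ 2 ≤ η := by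
    have : ‖(1 : A)‖ ^ 2 ≤ 1 := pow_le_one₀ (norm_nonneg _) h2
    nlinarith
  have h4 := mul_le_mul_of_nonneg_left h3 (sq_nonneg (∑ q ∈ R, |c q|))
  unfold TrAct.cosum
  linarith

theorem TrAct.norm_E_cosum {δ : ℝ} (c : G ⧸ H → ℝ) (x : A) (hx : ‖T.ι (S.E x)‖ ≤ δ) :
    ‖T.ι (S.E (S.cosum R c x))‖ ≤ (∑ q ∈ R, |c q|) * δ := by
  unfold TrAct.cosum
  rw [S.E_sum, map_sum, Finset.sum_mul]
  refine norm_sum_le_of_le _ fun q _ => ?_
  rw [S.E_smul, S.E_α, map_smul, norm_smul, Complex.norm_real, Real.norm_eq_abs]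
  exact mul_le_mul_of_nonneg_left hx (abs_nonneg _)

/-- translation of a combination over cosets -/
theorem TrAct.α_cosum [H.Normal] (g : G) (c : G ⧸ H → ℝ) (x : A) (h0 : ∀ q ∉ R, c q = 0)
    (h1 : ∀ q ∉ R, c ((g : G ⧸ H)⁻¹ * q) = 0) :
    S.α g (S.cosum R c x) - S.cosum R c x
      = (∑ q ∈ R, (c ((g : G ⧸ H)⁻¹ * q) : ℂ) •
          (S.α (g * ((g : G ⧸ H)⁻¹ * q).out) x - S.α q.out x))
        + S.cosum R (fun q => c ((g : G ⧸ H)⁻¹ * q) - c q) x := by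
  classical
  obtain ⟨f, hf⟩ : ∃ f : G ⧸ H → A, ∀ q, f q = (c q : ℂ) • S.α (g * q.out) x := ⟨_, fun _ => rfl⟩
  have e1 : S.α g (S.cosum R c x) = ∑ q ∈ R, f q := by
    unfold TrAct.cosum
    rw [map_sum]
    refine Finset.sum_congr rfl fun q _ => ?_
    rw [map_smul, hf, S.mul]
  have hf0 : ∀ q ∉ R, f q = 0 := fun q hq => by rw [hf, h0 q hq, Complex.ofReal_zero, zero_smul]
  have e2 : ∑ q ∈ R, f q = ∑ q ∈ R, f ((g : G ⧸ H)⁻¹ * q) := by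
    have e3 : ∑ q ∈ R, f ((g : G ⧸ H)⁻¹ * q) = ∑ q ∈ R.image (fun q => (g : G ⧸ H)⁻¹ * q), f q := by
      rw [Finset.sum_image]
      intro q _ q' _ h
      exact mul_left_cancel h
    rw [e3]
    have e4 : ∑ q ∈ R, f q = ∑ q ∈ R ∪ R.image (fun q => (g : G ⧸ H)⁻¹ * q), f q :=
      Finset.sum_subset Finset.subset_union_left fun q _ hq => hf0 q hq
    have e5 : ∑ q ∈ R.image (fun q => (g : G ⧸ H)⁻¹ * q), f q
        = ∑ q ∈ R ∪ R.image (fun q => (g : G ⧸ H)⁻¹ * q), f q :=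
      Finset.sum_subset Finset.subset_union_right fun q _ hq => by
        have h2 : (g : G ⧸ H) * q ∉ R := fun h => hq (Finset.mem_image.2
          ⟨_, h, inv_mul_cancel_left _ _⟩)
        have h3 := h1 _ h2
        rw [inv_mul_cancel_left] at h3
        rw [hf, h3, Complex.ofReal_zero, zero_smul]
    rw [e4, e5]
  rw [e1, e2]
  unfold TrAct.cosum
  rw [← Finset.sum_add_distrib, ← Finset.sum_sub_distrib]
  refine Finset.sum_congr rfl fun q _ => ?_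
  rw [hf, Complex.ofReal_sub, sub_smul, smul_sub]
  abel

/-- near-invariance of a combination over cosets, first part -/
theorem TrAct.on_shift_le [H.Normal] (g : G) (c : G ⧸ H → ℝ) (x : A) (h0 : ∀ q ∉ R, c q = 0)
    (hc0 : ∀ q, 0 ≤ c q) (hc1 : ∀ q, c q ≤ 1) {δ : ℝ} (hδ0 : 0 ≤ δ)
    (hδ : ∀ n ∈ H, (∃ q ∈ R, ∃ q' ∈ R, n = q.out⁻¹ * (g * q'.out)) →
      ‖T.ι (S.α n x - x)‖ ≤ δ) :
    ‖T.ι (∑ q ∈ R, (c ((g : G ⧸ H)⁻¹ * q) : ℂ) •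
          (S.α (g * ((g : G ⧸ H)⁻¹ * q).out) x - S.α q.out x))‖ ≤ R.card * δ := by
  rw [map_sum]
  have h : ∀ q ∈ R, ‖T.ι ((c ((g : G ⧸ H)⁻¹ * q) : ℂ) •
      (S.α (g * ((g : G ⧸ H)⁻¹ * q).out) x - S.α q.out x))‖ ≤ δ := by
    intro q hq
    rw [map_smul, norm_smul, Complex.norm_real, Real.norm_eq_abs, abs_of_nonneg (hc0 _)]
    by_cases hq' : (g : G ⧸ H)⁻¹ * q ∈ R
    · have h2 : q.out⁻¹ * (g * ((g : G ⧸ H)⁻¹ * q).out) ∈ H := by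
        rw [← QuotientGroup.eq, QuotientGroup.out_eq', QuotientGroup.mk_mul,
          QuotientGroup.out_eq', mul_inv_cancel_left]
      have h3 := hδ _ h2 ⟨q, hq, _, hq', rfl⟩
      have h4 : S.α (g * ((g : G ⧸ H)⁻¹ * q).out) x - S.α q.out x
          = S.α q.out (S.α (q.out⁻¹ * (g * ((g : G ⧸ H)⁻¹ * q).out)) x - x) := by
        rw [map_sub, ← S.mul, mul_inv_cancel_left]
      rw [h4, S.norm_map]
      calc c ((g : G ⧸ H)⁻¹ * q) * ‖T.ι (S.α (q.out⁻¹ * (g * ((g : G ⧸ H)⁻¹ * q).out)) x - x)‖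
          ≤ 1 * δ := mul_le_mul (hc1 _) h3 (norm_nonneg _) zero_le_one
        _ = δ := one_mul _
    · rw [h0 _ hq', zero_mul]
      exact hδ0
  refine (norm_sum_le_of_le _ h).trans (le_of_eq ?_)
  rw [Finset.sum_const, nsmul_eq_mul]

end

end Pool.Agent.AbCoc
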