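import Pool.Agent.Lib_MP_418a80_on.ON1
import Pool.Agent.Lib_MP_418a80_nm.NKey
import Pool.Agent.Lib_MP_418a80_t3.EChar

/-!
# MP_418a80_an, the open normal step: consequences of KEY for the normal subgroup
-/

set_option autoImplicit false
set_option linter.unusedVariables false
set_option linter.unusedSectionVars false

open MeasureTheory Topology Filter
open scoped ENNReal NNReal ComplexConjugate

namespace Pool.Agent.AbCoc

universe u v w z

section
variable {A : Type u} [CStarAlgebra A] {K : Type v} [NormedAddCommGroup K]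
  [InnerProductSpace ℂ K] [CompleteSpace K]
variable {G : Type w} [Group G] [TopologicalSpace G] {T : TrAlg A K} (S : TrAct G T)

/-- asymptotically central for the near-`H`-invariant unitaries -/
def TrAct.AsC (H : Set G) (z : A) : Prop :=
  ∀ ε : ℝ, 0 < ε → ∃ (D : Set G) (κ : ℝ), IsCompact D ∧ D ⊆ H ∧ 0 < κ ∧
    ∀ u : A, S.IsNU D κ u → ‖T.ι (u * z * star u - z)‖ ≤ ε

theorem TrAct.AsC.adj {H : Set G} {z : A} (h : S.AsC H z) : S.AsC H (star z) := by
  intro ε hε
  obtain ⟨D, κ, hD, hDH, hκ, h1⟩ := h ε hε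
  refine ⟨D, κ, hD, hDH, hκ, fun u hu => ?_⟩
  have e : u * star z * star u - star z
      = star (u * z * star u - z) := by
    rw [star_sub, star_mul, star_mul, star_star, mul_assoc]
  rw [e, T.norm_star]
  exact h1 u hu

theorem TrAct.AsC.add {H : Set G} {z z' : A} (h : S.AsC H z) (h' : S.AsC H z') :
    S.AsC H (z + z') := by
  intro ε hε
  obtain ⟨D, κ, hD, hDH, hκ, h1⟩ := h (ε / 2) (by positivity)
  obtain ⟨D', κ', hD', hDH', hκ', h1'⟩ := h' (ε / 2) (by positivity)
  refine ⟨D ∪ D', min κ κ', hD.union hD', Set.union_subset hDH hDH', lt_min hκ hκ', fun u hu => ?_⟩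
  have e : u * (z + z') * star u - (z + z')
      = (u * z * star u - z) + (u * z' * star u - z') := by
    noncomm_ring
  rw [e, map_add]
  refine (norm_add_le _ _).trans ?_
  have h2 := h1 u (hu.mono Set.subset_union_left (min_le_left _ _))
  have h3 := h1' u (hu.mono Set.subset_union_right (min_le_right _ _))
  linarith

theorem TrAct.AsC.smul {H : Set G} {z : A} (h : S.AsC H z) (c : ℂ) : S.AsC H (c • z) := by
  intro ε hε
  obtain ⟨D, κ, hD, hDH, hκ, h1⟩ := h (ε / (‖c‖ + 1)) (by positivity)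
  refine ⟨D, κ, hD, hDH, hκ, fun u hu => ?_⟩
  have e : u * (c • z) * star u - c • z = c • (u * z * star u - z) := by
    rw [mul_smul_comm, smul_mul_assoc, smul_sub]
  rw [e, map_smul, norm_smul]
  have h2 := h1 u hu
  calc ‖c‖ * ‖T.ι (u * z * star u - z)‖ ≤ (‖c‖ + 1) * (ε / (‖c‖ + 1)) :=
        mul_le_mul (by linarith) h2 (norm_nonneg _) (by positivity)
    _ = ε := by field_simp

theorem TrAct.AsC.one (H : Set G) (hH : H.Nonempty) : S.AsC H (1 : A) := by
  obtain ⟨h0, hh0⟩ := hH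
  intro ε hε
  refine ⟨{h0}, 1, isCompact_singleton, Set.singleton_subset_iff.2 hh0, one_pos, fun u hu => ?_⟩
  rw [mul_one, hu.uni', sub_self, map_zero, norm_zero]
  exact hε.le

variable (H : Subgroup G)

/-- self-adjoint case -/
theorem TrAct.AsC.zero_of_sa (hkey : (S.cm H.subtype continuous_subtype_val).Key)
    {z : A} (h : S.AsC H z) (hfix : ∀ h ∈ H, S.α h z = z) (hsa : IsSelfAdjoint z)
    (hτ : T.τ z = 0) : z = 0 := by
  have h0 : ‖T.ι z‖ ≤ 0 := by
    refine le_of_forall_pos_le_add fun ε hε => ?_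
    obtain ⟨D, κ, hD, hDH, hκ, h1⟩ := h (ε / 2) (by positivity)
    obtain ⟨D', hD'⟩ : ∃ D' : Set H, D' = Subtype.val ⁻¹' D := ⟨_, rfl⟩
    have hD'c : IsCompact D' := by
      rw [hD']
      exact (Topology.IsInducing.subtypeVal.isCompact_preimage_iff (by
        rw [Subtype.range_coe]
        exact hDH)).2 hD
    obtain ⟨u, hu1, hu2, hu3, hu4⟩ := hkey Unit (fun _ => z) (fun _ => hsa) (fun _ => hτ) D' hD'c
      (min κ (ε / 2)) (lt_min hκ (by positivity))
    have hu : S.IsNU D κ u := ⟨hu1, hu2, fun s hs => by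
      have := hu3 ⟨s, hDH hs⟩ (by rw [hD']; exact hs)
      exact this.trans (min_le_left _ _)⟩
    have h2 := h1 u hu
    have hfz : (S.cm H.subtype continuous_subtype_val).Fixed z := fun h => hfix h h.2
    have h3 : z = (S.cm H.subtype continuous_subtype_val).E (u * z * star u)
        - (S.cm H.subtype continuous_subtype_val).E (u * z * star u - z) := by
      rw [E_sub, E_of_fixed _ hfz]
      abel
    have h4 := (hu4 ()).trans (min_le_right _ _)
    have h5 := (S.cm H.subtype continuous_subtype_val).norm_E_le (u * z * star u - z)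
    calc ‖T.ι z‖ = ‖T.ι ((S.cm H.subtype continuous_subtype_val).E (u * z * star u)
        - (S.cm H.subtype continuous_subtype_val).E (u * z * star u - z))‖ := by rw [← h3]
      _ ≤ 0 + ε := by
          rw [map_sub]
          refine (norm_sub_le _ _).trans ?_
          linarith
  exact T.inj (by rw [map_zero]; exact norm_le_zero_iff.1 h0)

/-- **asymptotically central `H`-fixed elements are scalars** (KEY for `H`) -/
theorem TrAct.AsC.scalar (hkey : (S.cm H.subtype continuous_subtype_val).Key)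
    {z : A} (h : S.AsC H z) (hfix : ∀ h ∈ H, S.α h z = z) : z = T.τ z • (1 : A) := by
  have hHne : (H : Set G).Nonempty := ⟨1, H.one_mem⟩
  -- it is enough to show that self-adjoint elements are scalars
  have key : ∀ y : A, S.AsC H y → (∀ h ∈ H, S.α h y = y) → IsSelfAdjoint y →
      y = T.τ y • (1 : A) := by
    intro y hy hyf hys
    have hτr : (starRingEnd ℂ) (T.τ y) = T.τ y := by rw [← T.τ_star, hys.star_eq]
    have h1 : y - T.τ y • (1 : A) = 0 := by
      have e : y - T.τ y • (1 : A) = y + (-(T.τ y)) • (1 : A) := by rw [neg_smul, sub_eq_add_neg]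
      refine TrAct.AsC.zero_of_sa S H hkey ?_ ?_ ?_ ?_
      · rw [e]
        exact TrAct.AsC.add S hy (TrAct.AsC.smul S (TrAct.AsC.one S _ hHne) _)
      · intro h hh
        rw [map_sub, hyf h hh, map_smul, map_one]
      · rw [isSelfAdjoint_iff, star_sub, hys.star_eq, star_smul, star_one, Complex.star_def, hτr]
      · rw [T.τ_sub, T.τ_smul, T.τ_one, mul_one, sub_self]
    exact sub_eq_zero.1 h1
  have hfix' : ∀ h ∈ H, S.α h (star z) = star z := fun g hg => by rw [map_star, hfix g hg]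
  -- real and imaginary parts
  have h1 := key (z + star z) (TrAct.AsC.add S h (TrAct.AsC.adj S h)) (fun g hg => by
    rw [map_add, hfix g hg, hfix' g hg]) (by
    rw [isSelfAdjoint_iff, star_add, star_star, add_comm])
  have h2 := key (Complex.I • (z - star z)) (by
    have e : Complex.I • (z - star z) = Complex.I • (z + (-1 : ℂ) • star z) := by
      rw [neg_one_smul, sub_eq_add_neg]
    rw [e]
    exact TrAct.AsC.smul S (TrAct.AsC.add S h (TrAct.AsC.smul S (TrAct.AsC.adj S h) _)) _)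
    (fun g hg => by rw [map_smul, map_sub, hfix g hg, hfix' g hg]) (by
    rw [isSelfAdjoint_iff, star_smul, star_sub, star_star, Complex.star_def, Complex.conj_I,
      neg_smul, ← smul_neg, neg_sub])
  rw [T.τ_add] at h1
  rw [T.τ_smul, T.τ_sub] at h2
  have h3 : z - star z = (T.τ z - T.τ (star z)) • (1 : A) := by
    have h4 := congrArg (fun x => (-Complex.I) • x) h2
    simp only [smul_smul] at h4
    have e1 : -Complex.I * Complex.I = 1 := by rw [neg_mul, Complex.I_mul_I, neg_neg]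
    rw [e1, one_smul, ← mul_assoc, e1, one_mul] at h4
    exact h4
  have h5 : (2 : ℂ) • z = (2 : ℂ) • (T.τ z • (1 : A)) := by
    have h6 : (2 : ℂ) • z = (z + star z) + (z - star z) := by
      rw [two_smul]; abel
    rw [h6, h1, h3, ← add_smul, smul_smul]
    congr 1
    ring
  exact smul_right_injective A (two_ne_zero : (2 : ℂ) ≠ 0) h5

end

section
variable {A : Type u} [CStarAlgebra A] [PartialOrder A] [StarOrderedRing A]
  {K : Type v} [NormedAddCommGroup K] [InnerProductSpace ℂ K] [CompleteSpace K]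
variable {G : Type w} [Group G] [TopologicalSpace G] {T : TrAlg A K}

theorem TrAlg.on_norm_τ_mul (T : TrAlg A K) (a b : A) : ‖T.τ (a * b)‖ ≤ ‖T.ι a‖ * ‖T.ι b‖ := by
  have h := T.inner_eq_τ (star a) b
  rw [star_star] at h
  rw [← h, ← T.norm_star a]
  exact norm_inner_le_norm _ _

/-- **a near-invariant contraction of conditional expectation `0`**, bounded below, from KEY for the
`2 × 2` matrices -/
theorem TrAct.exists_off (S : TrAct G T) (hkey : (S.amp 2).Key) (D : Set G) (hD : IsCompact D)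
    (κ : ℝ) (hκ : 0 < κ) :
    ∃ e : A, ‖e‖ ≤ 1 ∧ S.E e = 0 ∧ 1 / 32 ≤ ‖T.ι e‖ ^ 2 ∧ ∀ s ∈ D, ‖T.ι (S.α s e - e)‖ ≤ κ := by
  obtain ⟨x, hx⟩ : ∃ x : Mat 2 A, x = ent 2 0 0 1 - ((1 / 2 : ℝ) : ℂ) • (1 : Mat 2 A) := ⟨_, rfl⟩
  have hxs : IsSelfAdjoint x := by
    rw [isSelfAdjoint_iff, hx, star_sub, ent_star, star_one, star_smul, star_one,
      Complex.star_def, Complex.conj_ofReal]
  have hx0 : (T.amp 2).τ x = 0 := by
    rw [hx, (T.amp 2).τ_sub, (T.amp 2).τ_smul, (T.amp 2).τ_one, T.amp_τ_entry, T.τ_one]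
    push_cast
    norm_num
  obtain ⟨δ, hδ⟩ : ∃ δ : ℝ, δ = min (κ / 2) (1 / 64) := ⟨_, rfl⟩
  have hδ0 : 0 < δ := by rw [hδ]; exact lt_min (by positivity) (by norm_num)
  have hδ1 : δ ≤ κ / 2 := by rw [hδ]; exact min_le_left _ _
  have hδ2 : δ ≤ 1 / 64 := by rw [hδ]; exact min_le_right _ _
  obtain ⟨U, hU1, hU2, hUD, hUE⟩ := hkey Unit (fun _ => x) (fun _ => hxs) (fun _ => hx0) D hD δ hδ0
  have hUE := hUE ()
  have hUn : ‖U‖ ≤ 1 := TrAct.norm_unit_le (T.amp 2) U hU1
  -- the entries of the first column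
  obtain ⟨a, ha⟩ : ∃ a : Fin 2 → A, ∀ i, a i = U i 0 := ⟨_, fun _ => rfl⟩
  have han : ∀ i, ‖a i‖ ≤ 1 := fun i => by
    rw [ha]
    exact (CStarMatrix.norm_entry_le_norm (M := U) (i := i) (j := 0)).trans hUn
  obtain ⟨p, hp⟩ : ∃ p : Fin 2 → A, ∀ i, p i = S.E (a i) := ⟨_, fun _ => rfl⟩
  have hpf : ∀ i, S.Fixed (p i) := fun i => by rw [hp]; exact S.E_fixed _
  have hpn : ∀ i, ‖p i‖ ≤ 1 := fun i => by rw [hp]; exact (S.E_norm_le _).trans (han i)
  -- `E (a_i a_l*) ≈ δ_il / 2`
  have hEE : ∀ i l, ‖T.ι (S.E (a i * star (a l)) - (if i = l then ((1 / 2 : ℝ) : ℂ) • (1 : A) else 0))‖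
      ≤ 2 * δ := by
    intro i l
    have h1 := T.norm_apply_le_amp 2 ((S.amp 2).E (U * x * star U)) i l
    have h2 : ‖T.ampL 2 ((S.amp 2).E (U * x * star U))‖ ≤ δ := hUE
    have h3 : (S.amp 2).E (U * x * star U) i l
        = S.E (a i * star (a l)) - (if i = l then ((1 / 2 : ℝ) : ℂ) • (1 : A) else 0) := by
      rw [S.amp_E_apply]
      have h4 : U * x * star U = U * ent 2 0 0 1 * star U - ((1 / 2 : ℝ) : ℂ) • (1 : Mat 2 A) := by
        rw [hx, mul_sub, sub_mul, mul_smul_comm, mul_one, smul_mul_assoc, hU2]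
      have h5 : (U * x * star U) i l = a i * star (a l)
          - (if i = l then ((1 / 2 : ℝ) : ℂ) • (1 : A) else 0) := by
        rw [h4]
        change (U * ent 2 0 0 1 * star U : Mat 2 A) i l - ((1 / 2 : ℝ) : ℂ) • ((1 : Mat 2 A) i l) = _
        rw [mul_ent_mul, mul_one, ha, ha]
        congr 1
        by_cases hil : i = l
        · rw [if_pos hil, hil, CStarMatrix.one_apply_eq]
        · rw [if_neg hil, CStarMatrix.one_apply_ne hil, smul_zero]
      rw [h5, S.E_sub]
      congr 1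
      split_ifs
      · exact S.E_of_fixed (Fixed.smul S (Fixed.one S) _)
      · exact S.E_zero
    rw [h3] at h1
    refine h1.trans ?_
    push_cast
    linarith
  -- the sum of the masses
  obtain ⟨s, hs⟩ : ∃ s : ℝ, s = ∑ i, ‖T.ι (p i)‖ ^ 2 := ⟨_, rfl⟩
  have hs0 : 0 ≤ s := by rw [hs]; positivity
  have hsumU : ∑ i, ‖T.ι (a i)‖ ^ 2 = 1 := by
    have h1 : (star U * U) 0 0 = (1 : Mat 2 A) 0 0 := by rw [hU1]
    rw [CStarMatrix.mul_apply, CStarMatrix.one_apply_eq] at h1
    have h2 : ∀ i, ‖T.ι (a i)‖ ^ 2 = (T.τ (star (a i) * a i)).re := fun i => T.norm_sq _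
    rw [Finset.sum_congr rfl fun i _ => h2 i, ← Complex.re_sum]
    have h3 : ∑ i, T.τ (star (a i) * a i) = T.τ (∑ i, star (a i) * a i) := by
      unfold TrAlg.τ
      rw [map_sum, inner_sum]
    have h4 : ∑ i, star (a i) * a i = 1 := by
      rw [← h1]
      refine Finset.sum_congr rfl fun i _ => ?_
      rw [ha, CStarMatrix.star_apply]
    rw [h3, h4, T.τ_one, Complex.one_re]
  obtain ⟨w, hw⟩ : ∃ w : A, w = ∑ i, star (p i) * a i := ⟨_, rfl⟩
  have hws : T.τ w = (s : ℂ) := by
    have h1 : ∀ i, T.τ (star (p i) * a i) = ((‖T.ι (p i)‖ ^ 2 : ℝ) : ℂ) := by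
      intro i
      rw [← S.τ_E, S.E_mul_left (Fixed.star S (hpf i)), ← hp, ← T.inner_eq_τ,
        inner_self_eq_norm_sq_to_K]
      norm_cast
    rw [hw]
    have h3 : T.τ (∑ i, star (p i) * a i) = ∑ i, T.τ (star (p i) * a i) := by
      unfold TrAlg.τ
      rw [map_sum, inner_sum]
    rw [h3, Finset.sum_congr rfl fun i _ => h1 i, hs]
    push_cast
    rfl
  have hwn : s ^ 2 ≤ ‖T.ι w‖ ^ 2 := by
    have h1 : ‖T.τ w‖ ≤ ‖T.ι w‖ := by
      have h2 := T.inner_eq_τ 1 w
      rw [star_one, one_mul] at h2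
      rw [← h2]
      refine (norm_inner_le_norm _ _).trans ?_
      rw [T.norm_one, one_mul]
    rw [hws, Complex.norm_real, Real.norm_eq_abs, abs_of_nonneg hs0] at h1
    exact pow_le_pow_left₀ hs0 h1 2
  have hwsq : ‖T.ι w‖ ^ 2 ≤ s / 2 + 8 * δ := by
    have h1 : ((‖T.ι w‖ ^ 2 : ℝ) : ℂ) = ∑ i, ∑ l, T.τ (p i * star (p l) * (a l * star (a i))) := by
      have h2 : ((‖T.ι w‖ ^ 2 : ℝ) : ℂ) = T.τ (star w * w) := by
        rw [← T.inner_eq_τ, inner_self_eq_norm_sq_to_K]
        norm_cast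
      have h3 : star w * w = ∑ i, ∑ l, star (a i) * (p i * star (p l) * a l) := by
        rw [hw, star_sum, Finset.sum_mul]
        refine Finset.sum_congr rfl fun i _ => ?_
        rw [Finset.mul_sum]
        refine Finset.sum_congr rfl fun l _ => ?_
        rw [star_mul, star_star]
        noncomm_ring
      rw [h2, h3]
      have h4 : ∀ f : Fin 2 → A, T.τ (∑ i, f i) = ∑ i, T.τ (f i) := by
        intro f
        unfold TrAlg.τ
        rw [map_sum, inner_sum]
      rw [h4]
      refine Finset.sum_congr rfl fun i _ => ?_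
      rw [h4]
      refine Finset.sum_congr rfl fun l _ => ?_
      rw [T.τ_mul_comm, mul_assoc]
    have h5 : ∀ i l, ‖T.τ (p i * star (p l) * (a l * star (a i)))
        - (if l = i then ((1 / 2 : ℝ) : ℂ) * ((‖T.ι (p i)‖ ^ 2 : ℝ) : ℂ) else 0)‖ ≤ 2 * δ := by
      intro i l
      have hf : S.Fixed (p i * star (p l)) := Fixed.mul S (hpf i) (Fixed.star S (hpf l))
      have h6 : T.τ (p i * star (p l) * (a l * star (a i)))
          = T.τ (p i * star (p l) * S.E (a l * star (a i))) := by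
        rw [← S.E_mul_left hf, S.τ_E]
      have h7 : (if l = i then ((1 / 2 : ℝ) : ℂ) * ((‖T.ι (p i)‖ ^ 2 : ℝ) : ℂ) else 0)
          = T.τ (p i * star (p l) * (if l = i then ((1 / 2 : ℝ) : ℂ) • (1 : A) else 0)) := by
        by_cases hil : l = i
        · have h0 : T.τ (star (p i) * p i) = ((‖T.ι (p i)‖ ^ 2 : ℝ) : ℂ) := by
            rw [← T.inner_eq_τ, inner_self_eq_norm_sq_to_K]
            norm_cast
          rw [if_pos hil, if_pos hil, mul_smul_comm, mul_one, T.τ_smul, hil, T.τ_mul_comm, h0]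
        · rw [if_neg hil, if_neg hil, mul_zero]
          have h := T.τ_smul 0 (0 : A)
          rw [zero_smul, zero_mul] at h
          exact h.symm
      rw [h6, h7, ← T.τ_sub, ← mul_sub]
      refine (T.on_norm_τ_mul _ _).trans ?_
      have h8 : ‖T.ι (p i * star (p l))‖ ≤ 1 := by
        refine (T.norm_le _).trans ((norm_mul_le _ _).trans ?_)
        rw [norm_star]
        exact mul_le_one₀ (hpn i) (norm_nonneg _) (hpn l)
      calc ‖T.ι (p i * star (p l))‖ * ‖T.ι (S.E (a l * star (a i))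
            - (if l = i then ((1 / 2 : ℝ) : ℂ) • (1 : A) else 0))‖ ≤ 1 * (2 * δ) :=
            mul_le_mul h8 (hEE l i) (norm_nonneg _) zero_le_one
        _ = 2 * δ := one_mul _
    have h9 : ‖((‖T.ι w‖ ^ 2 : ℝ) : ℂ) - ((s / 2 : ℝ) : ℂ)‖ ≤ 8 * δ := by
      have h10 : ((‖T.ι w‖ ^ 2 : ℝ) : ℂ) - ((s / 2 : ℝ) : ℂ)
          = ∑ i, ∑ l, (T.τ (p i * star (p l) * (a l * star (a i)))
            - (if l = i then ((1 / 2 : ℝ) : ℂ) * ((‖T.ι (p i)‖ ^ 2 : ℝ) : ℂ) else 0)) := by
        simp only [Finset.sum_sub_distrib, Finset.sum_ite_eq', Finset.mem_univ, if_true]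
        rw [← h1, hs]
        congr 1
        push_cast
        rw [Finset.sum_div]
        refine Finset.sum_congr rfl fun i _ => ?_
        ring
      rw [h10]
      refine (norm_sum_le _ _).trans ?_
      have h11 : ∀ i ∈ (Finset.univ : Finset (Fin 2)),
          ‖∑ l, (T.τ (p i * star (p l) * (a l * star (a i)))
            - (if l = i then ((1 / 2 : ℝ) : ℂ) * ((‖T.ι (p i)‖ ^ 2 : ℝ) : ℂ) else 0))‖ ≤ 4 * δ := by
        intro i _
        refine (norm_sum_le _ _).trans ?_
        refine (Finset.sum_le_card_nsmul _ _ (2 * δ) fun l _ => h5 i l).trans ?_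
        simp
        linarith
      refine (Finset.sum_le_card_nsmul _ _ _ h11).trans ?_
      simp
      linarith
    rw [← Complex.ofReal_sub, Complex.norm_real, Real.norm_eq_abs] at h9
    linarith [(abs_le.1 h9).2]
  have hs34 : s ≤ 3 / 4 := by
    by_contra hcon
    push Not at hcon
    have h1 : s ^ 2 ≤ s / 2 + 8 * δ := hwn.trans hwsq
    nlinarith
  -- the difference
  have hdiff : ∀ i, ‖T.ι (a i - p i)‖ ^ 2 = ‖T.ι (a i)‖ ^ 2 - ‖T.ι (p i)‖ ^ 2 := by
    intro i
    have h1 : T.τ (star (a i - p i) * (a i - p i)) = T.τ (star (a i) * a i) - T.τ (star (p i) * p i) := by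
      have h2 : star (a i - p i) * (a i - p i) = star (a i) * a i - star (a i) * p i
          - star (p i) * a i + star (p i) * p i := by
        rw [star_sub]; noncomm_ring
      have h3 : T.τ (star (a i) * p i) = T.τ (star (p i) * p i) := by
        rw [← S.τ_E, S.E_mul_right (hpf i), S.E_star, ← hp]
      have h4 : T.τ (star (p i) * a i) = T.τ (star (p i) * p i) := by
        rw [← S.τ_E, S.E_mul_left (Fixed.star S (hpf i)), ← hp]
      rw [h2, T.τ_add, T.τ_sub, T.τ_sub, h3, h4]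
      ring
    rw [T.norm_sq, h1, Complex.sub_re, ← T.norm_sq, ← T.norm_sq]
  obtain ⟨i, hi⟩ : ∃ i, 1 / 8 ≤ ‖T.ι (a i - p i)‖ ^ 2 := by
    by_contra hcon
    push Not at hcon
    have h1 : ∑ i, ‖T.ι (a i - p i)‖ ^ 2 = 1 - s := by
      rw [Finset.sum_congr rfl fun i _ => hdiff i, Finset.sum_sub_distrib, hsumU, hs]
    have h2 : ∑ i, ‖T.ι (a i - p i)‖ ^ 2 < ∑ _i : Fin 2, (1 / 8 : ℝ) :=
      Finset.sum_lt_sum_of_nonempty Finset.univ_nonempty fun i _ => hcon i
    rw [h1] at h2
    simp at h2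
    linarith
  refine ⟨((1 / 2 : ℝ) : ℂ) • (a i - p i), ?_, ?_, ?_, fun g hg => ?_⟩
  · rw [norm_smul, Complex.norm_real, Real.norm_eq_abs, abs_of_pos (by norm_num)]
    have h1 := norm_sub_le (a i) (p i)
    have h2 := han i
    have h3 := hpn i
    linarith
  · rw [S.E_smul, S.E_sub, ← hp, S.E_of_fixed (hpf i), sub_self, smul_zero]
  · rw [map_smul, norm_smul, Complex.norm_real, Real.norm_eq_abs, abs_of_pos (by norm_num)]
    nlinarith
  · have h1 : S.α g (((1 / 2 : ℝ) : ℂ) • (a i - p i)) - ((1 / 2 : ℝ) : ℂ) • (a i - p i)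
        = ((1 / 2 : ℝ) : ℂ) • (S.α g (a i) - a i) := by
      rw [map_smul, map_sub, hpf i g, ← smul_sub]
      congr 1
      abel
    have h2 := T.norm_apply_le_amp 2 ((S.amp 2).α g U - U) i 0
    have h3 : ‖T.ampL 2 ((S.amp 2).α g U - U)‖ ≤ δ := hUD g hg
    have h4 : ((S.amp 2).α g U - U) i 0 = S.α g (a i) - a i := by
      rw [ha]; rfl
    rw [h4] at h2
    push_cast at h2
    rw [h1, map_smul, norm_smul, Complex.norm_real, Real.norm_eq_abs, abs_of_pos (by norm_num)]
    linarith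

end

end Pool.Agent.AbCoc
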