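import Pool.Agent.Lib_MP_418a80_on.OnBase
import Pool.Agent.Lib_MP_418a80_on.On2b

/-!
# [ON] OnSca: asymptotically central fixed elements are scalars (KEY)
-/

set_option autoImplicit false
set_option linter.unusedVariables false
set_option linter.unusedSectionVars false

open Topology Filter MeasureTheory
open scoped RealInnerProductSpace ComplexConjugate

namespace Pool.Agent.AbCoc

universe u v w z

section
variable {A : Type u} [CStarAlgebra A] {K : Type v} [NormedAddCommGroup K]
  [InnerProductSpace ℂ K] [CompleteSpace K]
  {G : Type w} [Group G] [TopologicalSpace G] [IsTopologicalGroup G] [T2Space G]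
  [SecondCountableTopology G] [LocallyCompactSpace G] {T : TrAlg A K} (S : TrAct G T)

/-- elements fixed by `N` which commute with late near-`N`-invariant unitaries are scalars: for
self-adjoint `z` take a KEY unitary `u` for `x = z - τ(z)`: `‖E_N(u x u*)‖ ≤ ε`, and `u x u* ≈ x = E_N(x)`;
in general real and imaginary parts -/
theorem TrAct.scalar_of_intw (N : Subgroup G) (hN : IsClosed (N : Set G))
    (hkey : (S.sub N).Key) {z : A} (hfix : ∀ s ∈ N, S.α s z = z)
    (hz : S.Intw (N : Set G) 1 z) : z = T.τ z • (1 : A) := by
  refine TrAct.AsC.scalar S N hkey (fun ε hε => ?_) hfix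
  obtain ⟨D, κ, hD, hDN, hκ, h1⟩ := hz ε hε
  refine ⟨D, κ, hD, hDN, hκ, fun u hu => ?_⟩
  have h2 := h1 u hu
  rw [S.one] at h2
  have e : u * z * star u - z = (u * z - z * u) * star u := by
    rw [sub_mul, mul_assoc z, hu.uni', mul_one]
  rw [e, T.norm_mul_unitary (star u) (by rw [star_star]; exact hu.uni)]
  exact h2

end

end Pool.Agent.AbCoc
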