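import Pool.Agent.Lib_MP_418a80_on.OnBase
import Pool.Agent.Lib_MP_418a80_t3.EChar

/-!
# [ON] OnKey: eigenelements from KEY of the twisted `2 × 2` matrices
-/

set_option autoImplicit false
set_option linter.unusedVariables false
set_option linter.unusedSectionVars false

open Topology Filter MeasureTheory
open scoped RealInnerProductSpace ComplexConjugate

namespace Pool.Agent.AbCoc

universe u v w z

section
variable {A : Type u} [CStarAlgebra A] [PartialOrder A] [StarOrderedRing A]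
  {K : Type v} [NormedAddCommGroup K] [InnerProductSpace ℂ K] [CompleteSpace K]
variable {G : Type w} [Group G] [TopologicalSpace G] {T : TrAlg A K}

/-- **near-eigenoperators** for the character `χ` which do not annihilate finitely many elements -/
theorem TrAct.exists_eigen_fam (S : TrAct G T) (χ : G →* Circle) (hχ : Continuous χ)
    (hkey : (S.twist 2 (tw2 χ) (tw2_cont hχ)).Key) (J : Type) [Fintype J] (a : J → A)
    (C : Set G) (hC : IsCompact C) (ε : ℝ) (hε : 0 < ε) :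
    ∃ u : A, ‖u‖ ≤ 1 ∧ (∀ s ∈ C, ‖T.ι (S.α s u - (χ s : ℂ) • u)‖ ≤ ε) ∧
      ∀ j, ‖T.ι (a j)‖ ^ 2 / 2 - ε ≤ ‖T.ι (u * a j)‖ ^ 2 := by
  obtain ⟨W, hW⟩ : ∃ W : TrAct G (T.amp 2), W = S.twist 2 (tw2 χ) (tw2_cont hχ) := ⟨_, rfl⟩
  have hWα : ∀ (g : G) (M : Mat 2 A) (i j : Fin 2), W.α g M i j
      = ((tw2 χ i g : ℂ) * star (tw2 χ j g : ℂ)) • S.α g (M i j) := by
    intro g M i j
    rw [hW]
    rfl
  rw [← hW] at hkey
  obtain ⟨c, hc⟩ : ∃ c : J → ℝ, ∀ j, c j = ‖T.ι (a j)‖ ^ 2 / 2 := ⟨_, fun _ => rfl⟩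
  obtain ⟨e1, he1⟩ : ∃ e1 : J → Mat 2 A, ∀ j, e1 j = ent 2 1 1 (a j * star (a j)) :=
    ⟨_, fun _ => rfl⟩
  obtain ⟨e0, he0⟩ : ∃ e0 : Mat 2 A, e0 = ent 2 0 0 1 := ⟨_, rfl⟩
  obtain ⟨x, hx⟩ : ∃ x : J → Mat 2 A, ∀ j, x j = e1 j - (c j : ℂ) • (1 : Mat 2 A) :=
    ⟨_, fun _ => rfl⟩
  have he1s : ∀ j, star (e1 j) = e1 j := fun j => by rw [he1, ent_star, star_mul, star_star]
  have hτsq : ∀ b : A, T.τ (star b * b) = ((‖T.ι b‖ ^ 2 : ℝ) : ℂ) := by
    intro b
    rw [← T.inner_eq_τ, inner_self_eq_norm_sq_to_K]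
    norm_cast
  have he1τ : ∀ j, (T.amp 2).τ (e1 j) = (c j : ℂ) := by
    intro j
    rw [he1, T.amp_τ_entry, T.τ_mul_comm, hτsq, hc]
    push_cast
    ring
  have he0τ : (T.amp 2).τ e0 = ((1 / 2 : ℝ) : ℂ) := by
    rw [he0, T.amp_τ_entry, T.τ_one]
    push_cast
    norm_num
  have hxs : ∀ j, IsSelfAdjoint (x j) := fun j => by
    rw [isSelfAdjoint_iff, hx, star_sub, he1s, star_smul, star_one, Complex.star_def,
      Complex.conj_ofReal]
  have hx0 : ∀ j, (T.amp 2).τ (x j) = 0 := fun j => by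
    rw [hx, (T.amp 2).τ_sub, (T.amp 2).τ_smul, (T.amp 2).τ_one, he1τ, mul_one, sub_self]
  obtain ⟨U, hU1, hU2, hUC, hUE⟩ := hkey J x hxs hx0 C hC (ε / 2) (by positivity)
  have hUn : ‖U‖ ≤ 1 := TrAct.norm_unit_le (T.amp 2) U hU1
  refine ⟨U 0 1, ?_, ?_, fun j => ?_⟩
  · exact (CStarMatrix.norm_entry_le_norm (M := U) (i := 0) (j := 1)).trans hUn
  · intro s hs
    have h1 := T.norm_apply_le_amp 2 (W.α s U - U) 0 1
    have h2 : ‖T.ampL 2 (W.α s U - U)‖ ≤ ε / 2 := hUC s hs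
    have h3 : (W.α s U - U) 0 1 = (star (χ s : ℂ)) • S.α s (U 0 1) - U 0 1 := by
      change W.α s U 0 1 - U 0 1 = _
      rw [hWα]
      congr 2
      change ((1 : Circle) : ℂ) * star (χ s : ℂ) = _
      rw [Circle.coe_one, one_mul]
    have h4 : S.α s (U 0 1) - (χ s : ℂ) • U 0 1 = (χ s : ℂ) • ((W.α s U - U) 0 1) := by
      rw [h3, smul_sub, smul_smul, circle_mul_star, one_smul]
    rw [h4, map_smul, norm_smul, Circle.norm_coe, one_mul]
    refine h1.trans ?_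
    push_cast
    linarith
  · -- the mass
    have hf0 : W.Fixed e0 := by
      intro g
      ext i l
      rw [hWα, he0, ent_apply]
      by_cases hi : i = 0
      · by_cases hl : l = 0
        · rw [if_pos hi, if_pos hl, hi, hl, map_one]
          change (((1 : Circle) : ℂ) * star ((1 : Circle) : ℂ)) • _ = _
          rw [Circle.coe_one, star_one, one_mul, one_smul]
        · rw [if_pos hi, if_neg hl, map_zero, smul_zero]
      · rw [if_neg hi, map_zero, smul_zero]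
    obtain ⟨Z, hZ⟩ : ∃ Z : Mat 2 A, Z = U * x j * star U := ⟨_, rfl⟩
    have hZ2 : U * e1 j * star U = Z + (c j : ℂ) • (1 : Mat 2 A) := by
      rw [hZ, hx, mul_sub, sub_mul, mul_smul_comm, mul_one, smul_mul_assoc, hU2, sub_add_cancel]
    have h5 : (T.amp 2).τ (e0 * (U * e1 j * star U))
        = (T.amp 2).τ (e0 * W.E Z) + (c j : ℂ) * ((1 / 2 : ℝ) : ℂ) := by
      rw [hZ2, mul_add, (T.amp 2).τ_add, mul_smul_comm, mul_one, (T.amp 2).τ_smul, he0τ]
      congr 1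
      rw [← W.E_mul_left hf0, W.τ_E]
    have hβ : ‖(T.amp 2).ι e0‖ ≤ 1 := by
      have h := T.norm_ent_sq 2 0 0 (1 : A)
      rw [← he0, T.norm_one] at h
      have h2 : ‖(T.amp 2).ι e0‖ ^ 2 ≤ 1 ^ 2 := by
        rw [h]
        norm_num
      exact (pow_le_pow_iff_left₀ (norm_nonneg _) zero_le_one two_ne_zero).1 h2
    have h6 : ‖(T.amp 2).τ (e0 * W.E Z)‖ ≤ ε / 2 := by
      have h7 : ‖(T.amp 2).τ (e0 * W.E Z)‖ ≤ ‖(T.amp 2).ι e0‖ * ‖(T.amp 2).ι (W.E Z)‖ := by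
        have h := (T.amp 2).inner_eq_τ (star e0) (W.E Z)
        rw [star_star] at h
        rw [← h, ← (T.amp 2).norm_star e0]
        exact norm_inner_le_norm _ _
      have h8 : ‖(T.amp 2).ι (W.E Z)‖ ≤ ε / 2 := by
        rw [hZ]
        exact hUE j
      calc ‖(T.amp 2).τ (e0 * W.E Z)‖ ≤ ‖(T.amp 2).ι e0‖ * ‖(T.amp 2).ι (W.E Z)‖ := h7
        _ ≤ 1 * (ε / 2) := mul_le_mul hβ h8 (norm_nonneg _) zero_le_one
        _ = ε / 2 := one_mul _
    have h8 : (T.amp 2).τ (e0 * (U * e1 j * star U))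
        = (((1 / 2) * ‖T.ι (U 0 1 * a j)‖ ^ 2 : ℝ) : ℂ) := by
      have h9 : e0 * (U * e1 j * star U) = ent 2 0 0 1 * (ent 2 0 0 1 * (U * e1 j * star U)) := by
        rw [← mul_assoc (ent 2 0 0 1), ent_mul_ent, mul_one, he0]
      have h10 : ent 2 0 0 1 * (U * e1 j * star U) * ent 2 0 0 1
          = (ent 2 0 0 1 * U * ent 2 1 1 (a j)) * star (ent 2 0 0 1 * U * ent 2 1 1 (a j)) := by
        rw [star_mul, star_mul, ent_star, ent_star, star_one, he1,
          ← ent_mul_ent 2 1 1 1 (a j) (star (a j))]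
        noncomm_ring
      rw [h9, (T.amp 2).τ_mul_comm, h10]
      have h11 : ent 2 0 0 1 * U * ent 2 1 1 (a j) = ent 2 0 1 (U 0 1 * a j) := by
        ext i l
        rw [CStarMatrix.mul_apply, Fin.sum_univ_two, CStarMatrix.mul_apply, CStarMatrix.mul_apply,
          Fin.sum_univ_two, Fin.sum_univ_two]
        simp only [ent_apply]
        fin_cases i <;> fin_cases l <;> simp
      rw [h11, ent_star, ent_mul_ent, T.amp_τ_entry, T.τ_mul_comm, hτsq]
      push_cast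
      ring
    have h14 : (1 / 2) * ‖T.ι (U 0 1 * a j)‖ ^ 2
        = ((T.amp 2).τ (e0 * W.E Z)).re + c j * (1 / 2) := by
      have h15 := congrArg Complex.re (h8.symm.trans h5)
      rw [Complex.add_re, ← Complex.ofReal_mul, Complex.ofReal_re, Complex.ofReal_re] at h15
      exact h15
    have h16 : |((T.amp 2).τ (e0 * W.E Z)).re| ≤ ε / 2 := (Complex.abs_re_le_norm _).trans h6
    have h17 := (abs_le.1 h16).1
    rw [hc] at h14
    linarith

variable {V : Type z} [NormedAddCommGroup V] [InnerProductSpace ℝ V]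

/-- the character of `N` with label `q` -/
noncomputable def layChar {N N' : Subgroup G} {p : G → V} (hp : IsLayer N N' p) (q : V) :
    N →* Circle where
  toFun s := Circle.exp ⟪q, p s⟫
  map_one' := by
    have h := hp.mul 1 N.one_mem 1 N.one_mem
    rw [mul_one] at h
    have h0 : p 1 = 0 := by
      have h2 : p 1 + p 1 = p 1 + 0 := by rw [add_zero]; exact h.symm
      exact add_left_cancel h2
    change Circle.exp ⟪q, p ((1 : N) : G)⟫ = 1
    rw [Subgroup.coe_one, h0, inner_zero_right, Circle.exp_zero]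
  map_mul' s t := by
    change Circle.exp ⟪q, p ((s * t : N) : G)⟫ = Circle.exp ⟪q, p s⟫ * Circle.exp ⟪q, p t⟫
    rw [Subgroup.coe_mul, hp.mul s s.2 t t.2, inner_add_right, Circle.exp_add]

theorem layChar_coe {N N' : Subgroup G} {p : G → V} (hp : IsLayer N N' p) (q : V) (s : N) :
    (layChar hp q s : ℂ) = pch p q s := by
  change ((Circle.exp ⟪q, p s⟫ : Circle) : ℂ) = ch ⟪q, p s⟫
  rw [Circle.coe_exp]
  rfl

theorem layChar_cont {N N' : Subgroup G} {p : G → V} (hp : IsLayer N N' p) (q : V) :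
    Continuous (layChar hp q) := by
  have h1 : Continuous fun s : N => p s :=
    hp.cont.comp_continuous continuous_subtype_val fun s => s.2
  exact Circle.exp.continuous.comp ((continuous_const (y := q)).inner h1)

/-- **eigenelements** from KEY of the twisted matrices of `N` -/
theorem TrAct.eigN_of_key (S : TrAct G T) {N N' : Subgroup G} {p : G → V} (hp : IsLayer N N' p)
    (hkey : ∀ (χ : N →* Circle) (hχ : Continuous χ),
      ((S.sub N).twist 2 (tw2 χ) (tw2_cont hχ)).Key) : S.EigN N p := by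
  intro q D hD hDN κ hκ J _ a
  obtain ⟨D', hD'⟩ : ∃ D' : Set N, D' = Subtype.val ⁻¹' D := ⟨_, rfl⟩
  have hD'c : IsCompact D' := by
    rw [hD']
    exact (Topology.IsInducing.subtypeVal.isCompact_preimage_iff (by
      rw [Subtype.range_coe]
      exact hDN)).2 hD
  obtain ⟨ε, hε0, hεκ, hεa⟩ : ∃ ε : ℝ, 0 < ε ∧ ε ≤ κ ∧ ∀ j, ‖T.ι (a j)‖ ^ 2 ≠ 0 →
      ε ≤ ‖T.ι (a j)‖ ^ 2 / 4 := by
    have h1 : ∀ᶠ ε : ℝ in 𝓝[>] 0, ε ≤ κ ∧ ∀ j, ‖T.ι (a j)‖ ^ 2 ≠ 0 → ε ≤ ‖T.ι (a j)‖ ^ 2 / 4 := by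
      have h2 : ∀ r : ℝ, 0 < r → ∀ᶠ ε : ℝ in 𝓝[>] 0, ε ≤ r := fun r hr =>
        nhdsWithin_le_nhds ((gt_mem_nhds hr).mono fun x hx => hx.le)
      refine (h2 κ hκ).and (eventually_all.2 fun j => ?_)
      by_cases h0 : ‖T.ι (a j)‖ ^ 2 = 0
      · exact Eventually.of_forall fun ε h => absurd h0 h
      · have h3 : 0 < ‖T.ι (a j)‖ ^ 2 := lt_of_le_of_ne (by positivity) (Ne.symm h0)
        exact (h2 (‖T.ι (a j)‖ ^ 2 / 4) (by positivity)).mono fun ε h _ => h
    obtain ⟨ε, ⟨h3, h4⟩, h5⟩ := (h1.and self_mem_nhdsWithin).exists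
    exact ⟨ε, h5, h3, h4⟩
  obtain ⟨x, hx1, hx2, hx3⟩ := (S.sub N).exists_eigen_fam (layChar hp q) (layChar_cont hp q)
    (hkey _ (layChar_cont hp q)) J a D' hD'c ε hε0
  refine ⟨x, ⟨hx1, fun s hs => ?_⟩, fun j => ?_⟩
  · have h1 := hx2 ⟨s, hDN hs⟩ (by rw [hD']; exact hs)
    rw [layChar_coe] at h1
    exact h1.trans hεκ
  · have h1 := hx3 j
    by_cases h0 : ‖T.ι (a j)‖ ^ 2 = 0
    · rw [h0]
      positivity
    · have h2 := hεa j h0
      linarith

end

section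
variable {A : Type u} [CStarAlgebra A] {K : Type v} [NormedAddCommGroup K]
  [InnerProductSpace ℂ K] [CompleteSpace K]
variable {G : Type w} [Group G] [TopologicalSpace G] [IsTopologicalGroup G] [T2Space G]
  [SecondCountableTopology G] [LocallyCompactSpace G] [MeasurableSpace G] [BorelSpace G]
  (μ : Measure G) [μ.IsHaarMeasure] {T : TrAlg A K}
  {V : Type z} [NormedAddCommGroup V] [InnerProductSpace ℝ V]

end

end Pool.Agent.AbCoc
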