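import Pool.Agent.Lib_MP_418a80_on.OnStep
import Pool.Agent.Lib_MP_418a80_on.OnKey
import Pool.Agent.Lib_MP_418a80_t3.T3Class

/-!
# [ON] OnClass: the open normal step for `KeyAll`

`KTower N`: `N = N_0 > N_1 > .. > N_k = 1` closed, `N_(i+1)` the kernel of a continuous homomorphism of
`N_i` onto `ℝ ^ m`, `m > 0`, and `KeyAll N_i`. If `H` is open and normal in `G`, `H ≠ 1`, and
`KTower H`, then `KeyAll G`.
-/

set_option autoImplicit false
set_option linter.unusedVariables false
set_option linter.unusedSectionVars false

open Topology Filter MeasureTheory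
open scoped RealInnerProductSpace ComplexConjugate

namespace Pool.Agent.AbCoc

universe u v w z

/-- towers of closed subgroups, each the kernel of a continuous homomorphism of the next larger one
onto a vector group, all with `KeyAll` -/
inductive KTower.{u', v', w'} {G : Type w'} [Group G] [TopologicalSpace G] : Subgroup G → Prop
  | bot : KTower ⊥
  | step (N N' : Subgroup G) (m : ℕ) (p : G → EuclideanSpace ℝ (Fin m)) (hm : 0 < m)
      (hN : IsClosed (N : Set G)) (hp : IsLayer N N' p) (hK : KeyAll.{u', v', w'} N)
      (h : KTower N') : KTower N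

section
variable {A : Type u} [CStarAlgebra A] {K : Type v}
  [NormedAddCommGroup K] [InnerProductSpace ℂ K] [CompleteSpace K]
  {G : Type w} [Group G] [TopologicalSpace G] [IsTopologicalGroup G] [T2Space G]
  [SecondCountableTopology G] [LocallyCompactSpace G] [MeasurableSpace G] [BorelSpace G]
  (μ : Measure G) [μ.IsHaarMeasure] {T : TrAlg A K} (S : TrAct G T)

include μ in
theorem TrAct.tower_of_kTower (hR : Reiter μ) (hSO : S.SO μ Set.univ) {N : Subgroup G}
    (h : KTower.{u, v, w} N) : S.Tower N := by
  induction h with
  | bot => exact TrAct.Tower.bot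
  | step N N' m p hm hN hp hK _ ih =>
    have : LocallyCompactSpace N := hN.isClosedEmbedding_subtypeVal.locallyCompactSpace
    have : SecondCountableTopology N :=
      inferInstanceAs (SecondCountableTopology ((N : Set G) : Set G))
    let := CStarAlgebra.spectralOrder A
    have := CStarAlgebra.spectralOrderedRing A
    refine TrAct.Tower.step N N' m p hm hN hp ?_ ?_ ih
    · exact hK.key_cm μ S N.subtype continuous_subtype_val hN.isClosedEmbedding_subtypeVal hR hSO
    · exact S.eigN_of_key hp fun χ hχ => hK.key_twist μ S N.subtype continuous_subtype_val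
        hN.isClosedEmbedding_subtypeVal hR hSO 2 (tw2 χ) (tw2_cont hχ)

end

section
variable {G : Type w} [Group G] [TopologicalSpace G] [IsTopologicalGroup G] [T2Space G]
  [SecondCountableTopology G] [LocallyCompactSpace G]

theorem KTower.isClosed {N : Subgroup G} (h : KTower.{u, v, w} N) : IsClosed (N : Set G) := by
  cases h with
  | bot =>
    rw [Subgroup.coe_bot]
    exact isClosed_singleton
  | step N N' m p hm hN hp hK h => exact hN

theorem KTower.keyAll {N : Subgroup G} (h : KTower.{u, v, w} N) (hN : N ≠ ⊥) :
    KeyAll.{u, v, w} N := by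
  cases h with
  | bot => exact absurd rfl hN
  | step N N' m p hm hN hp hK h => exact hK

/-- **the open normal step** -/
theorem keyAll_of_kTower (H : Subgroup G) [H.Normal] (hH : IsOpen (H : Set G)) (hne : H ≠ ⊥)
    (ht : KTower.{u, v, w} H) : KeyAll.{u, v, w} G := by
  refine keyAll_of_stepATyp fun ν _ hR A _ K _ _ _ T S hSO => ?_
  let := CStarAlgebra.spectralOrder A
  have := CStarAlgebra.spectralOrderedRing A
  have hcl := ht.isClosed
  have hK := ht.keyAll hne
  have : LocallyCompactSpace H := hcl.isClosedEmbedding_subtypeVal.locallyCompactSpace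
  have : SecondCountableTopology H :=
    inferInstanceAs (SecondCountableTopology ((H : Set G) : Set G))
  exact S.stepATyp_of_tower ν hR hSO H hH (S.tower_of_kTower ν hR hSO ht)
    (hK.key_cm ν S H.subtype continuous_subtype_val hcl.isClosedEmbedding_subtypeVal hR hSO)
    (hK.key_amp ν S H.subtype continuous_subtype_val hcl.isClosedEmbedding_subtypeVal hR hSO 2)

end

end Pool.Agent.AbCoc
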