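import Mathlib

/-!
# The discrete Fourier transform of a finite sequence in a Hilbert space and fractional shifts

(5) of note 2318 of MP_418a80_an.
-/

set_option autoImplicit false

namespace Pool.Agent.AbCoc

universe v

/-- `exp(2 pi i t)` -/
noncomputable def ee (t : ℝ) : ℂ := Complex.exp ((2 * Real.pi * t : ℝ) * Complex.I)

theorem ee_zero : ee 0 = 1 := by
  unfold ee
  simp

theorem ee_add (s t : ℝ) : ee (s + t) = ee s * ee t := by
  unfold ee
  rw [← Complex.exp_add]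
  congr 1
  push_cast
  ring

theorem ee_norm (t : ℝ) : ‖ee t‖ = 1 := by
  unfold ee
  exact Complex.norm_exp_ofReal_mul_I _

theorem ee_conj (t : ℝ) : (starRingEnd ℂ) (ee t) = ee (-t) := by
  unfold ee
  rw [← Complex.exp_conj]
  congr 1
  rw [map_mul, Complex.conj_ofReal, Complex.conj_I]
  push_cast
  ring

theorem ee_ne_zero (t : ℝ) : ee t ≠ 0 := Complex.exp_ne_zero _

theorem ee_int (n : ℤ) : ee n = 1 := by
  unfold ee
  rw [Complex.exp_eq_one_iff]
  exact ⟨n, by push_cast; ring⟩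

theorem ee_nat (n : ℕ) : ee n = 1 := by
  have h := ee_int n
  exact_mod_cast h

theorem ee_nat_mul (n : ℕ) (t : ℝ) : ee (n * t) = ee t ^ n := by
  induction n with
  | zero => simp [ee_zero]
  | succ n ih =>
    rw [pow_succ, ← ih, ← ee_add]
    congr 1
    push_cast
    ring

theorem norm_one_sub_ee (t : ℝ) : ‖1 - ee t‖ = 2 * |Real.sin (Real.pi * t)| := by
  have h : ‖1 - ee t‖ ^ 2 = (2 * |Real.sin (Real.pi * t)|) ^ 2 := by
    rw [mul_pow, sq_abs, ← Complex.normSq_eq_norm_sq, Complex.normSq_apply]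
    unfold ee
    rw [Complex.sub_re, Complex.sub_im, Complex.exp_ofReal_mul_I_re, Complex.exp_ofReal_mul_I_im,
      Complex.one_re, Complex.one_im]
    have h1 : 2 * Real.pi * t = 2 * (Real.pi * t) := by ring
    rw [h1, Real.cos_two_mul, Real.sin_two_mul]
    have h2 := Real.sin_sq_add_cos_sq (Real.pi * t)
    have h3 : Real.cos (Real.pi * t) ^ 2 = 1 - Real.sin (Real.pi * t) ^ 2 := by linarith
    ring_nf
    have h4 : Real.cos (Real.pi * t) ^ 4 = (1 - Real.sin (Real.pi * t) ^ 2) ^ 2 := by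
      rw [← h3]; ring
    rw [h4, h3]
    ring
  exact (pow_left_inj₀ (norm_nonneg _) (by positivity) two_ne_zero).1 h

theorem ee_one_sub_norm_neg (t : ℝ) : ‖1 - ee (-t)‖ = ‖1 - ee t‖ := by
  rw [norm_one_sub_ee, norm_one_sub_ee, mul_neg, Real.sin_neg, abs_neg]

/-- the fractional shift inequality, natural numbers -/
theorem frac_nat {N d : ℕ} (hd : d < N) {x : ℝ} (hx0 : 0 ≤ x) (hx : x ≤ 1 / N) :
    ((N : ℝ) - d) / N * ‖1 - ee (d * x)‖ ^ 2 ≤ 2 * ‖1 - ee (d / N)‖ := by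
  have hN : (0 : ℝ) < N := by
    have h : 0 < N := by omega
    exact_mod_cast h
  have hdN : (d : ℝ) < N := by exact_mod_cast hd
  have hd0 : (0 : ℝ) ≤ d := Nat.cast_nonneg d
  have hpi := Real.pi_pos
  have hu1 : (d : ℝ) / N < 1 := (div_lt_one hN).2 hdN
  have hu0 : 0 ≤ (d : ℝ) / N := div_nonneg hd0 hN.le
  have hsin : 0 ≤ Real.sin (Real.pi * (d / N)) :=
    Real.sin_nonneg_of_nonneg_of_le_pi (by positivity) (by nlinarith)
  rw [norm_one_sub_ee, norm_one_sub_ee, abs_of_nonneg hsin, mul_pow, sq_abs]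
  have hfac : ((N : ℝ) - d) / N = 1 - d / N := by
    rw [sub_div, div_self hN.ne']
  rw [hfac]
  have hdx : (d : ℝ) * x ≤ d / N := by
    rw [div_eq_mul_one_div]
    exact mul_le_mul_of_nonneg_left hx hd0
  have hdx0 : 0 ≤ (d : ℝ) * x := mul_nonneg hd0 hx0
  suffices h : (1 - (d : ℝ) / N) * Real.sin (Real.pi * (d * x)) ^ 2 ≤ Real.sin (Real.pi * (d / N)) by
    nlinarith
  by_cases hc : (d : ℝ) / N ≤ 1 / 2
  · have h1 : Real.sin (Real.pi * (d * x)) ≤ Real.sin (Real.pi * (d / N)) := by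
      apply Real.sin_le_sin_of_le_of_le_pi_div_two
      · nlinarith
      · nlinarith
      · exact mul_le_mul_of_nonneg_left hdx hpi.le
    have h0 : 0 ≤ Real.sin (Real.pi * (d * x)) :=
      Real.sin_nonneg_of_nonneg_of_le_pi (by positivity) (by nlinarith)
    have h2 : Real.sin (Real.pi * (d * x)) ^ 2 ≤ Real.sin (Real.pi * (d * x)) := by
      nlinarith [Real.sin_le_one (Real.pi * (d * x))]
    calc (1 - (d : ℝ) / N) * Real.sin (Real.pi * (d * x)) ^ 2
        ≤ 1 * Real.sin (Real.pi * (d * x)) ^ 2 :=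
          mul_le_mul_of_nonneg_right (by linarith) (sq_nonneg _)
      _ ≤ _ := by rw [one_mul]; exact h2.trans h1
  · push Not at hc
    have h1 : Real.sin (Real.pi * (d / N)) = Real.sin (Real.pi * (1 - d / N)) := by
      have h : Real.pi * (1 - (d : ℝ) / N) = Real.pi - Real.pi * (d / N) := by ring
      rw [h, Real.sin_pi_sub]
    have h2 : 2 / Real.pi * (Real.pi * (1 - (d : ℝ) / N)) ≤ Real.sin (Real.pi * (1 - d / N)) := by
      apply Real.mul_le_sin
      · have : 0 ≤ 1 - (d : ℝ) / N := by linarith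
        positivity
      · nlinarith
    have h3 : 2 / Real.pi * (Real.pi * (1 - (d : ℝ) / N)) = 2 * (1 - d / N) := by
      field_simp
    have h4 : Real.sin (Real.pi * (d * x)) ^ 2 ≤ 1 := Real.sin_sq_le_one _
    have h5 : (1 - (d : ℝ) / N) * Real.sin (Real.pi * (d * x)) ^ 2 ≤ 1 - d / N := by
      nlinarith
    rw [h1]
    linarith

theorem sum_ee_eq_zero {N : ℕ} (d : ℤ) (hd : ¬ (N : ℤ) ∣ d) :
    ∑ c : Fin N, ee (c * (d / N)) = 0 := by
  rcases Nat.eq_zero_or_pos N with hN0 | hN0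
  · subst hN0
    exact Finset.sum_eq_zero fun c _ => c.elim0
  have hN : (N : ℝ) ≠ 0 := by exact_mod_cast hN0.ne'
  have h1 : ∀ c : Fin N, ee (c * (d / N)) = ee ((d : ℝ) / N) ^ (c : ℕ) := fun c => ee_nat_mul _ _
  rw [Finset.sum_congr rfl fun c _ => h1 c, Fin.sum_univ_eq_sum_range (fun k => ee ((d : ℝ) / N) ^ k) N]
  have h2 : ee ((d : ℝ) / N) ≠ 1 := by
    intro h
    unfold ee at h
    rw [Complex.exp_eq_one_iff] at h
    obtain ⟨m, hm⟩ := h
    apply hd
    refine ⟨m, ?_⟩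
    have hpi : (Real.pi : ℂ) ≠ 0 := Complex.ofReal_ne_zero.2 Real.pi_ne_zero
    have h3 : (((2 * Real.pi * ((d : ℝ) / N) : ℝ) : ℂ)) = m * (2 * Real.pi) := by
      have h4 := congrArg (fun z => z * (-Complex.I)) hm
      simp only [mul_neg, mul_assoc, Complex.I_mul_I] at h4
      push_cast
      linear_combination h4
    have h5 : (2 * Real.pi * ((d : ℝ) / N) : ℝ) = m * (2 * Real.pi) := by
      exact_mod_cast h3
    have hpr := Real.pi_pos
    have h6 : (d : ℝ) / N = m := by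
      have : 2 * Real.pi * ((d : ℝ) / N) = 2 * Real.pi * m := by rw [h5]; ring
      exact mul_left_cancel₀ (by positivity) this
    rw [div_eq_iff hN] at h6
    have h7 : (d : ℝ) = N * m := by rw [h6]; ring
    exact_mod_cast h7
  rw [geom_sum_eq h2, ← ee_nat_mul]
  have h3 : (N : ℝ) * ((d : ℝ) / N) = d := by field_simp
  rw [h3, ee_int, sub_self, zero_div]

section
variable {K : Type v} [NormedAddCommGroup K] [InnerProductSpace ℂ K]

/-- the Fourier coefficient of a finite sequence -/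
noncomputable def fco {N : ℕ} (y : Fin N → K) (c : ℤ) : K :=
  ((N : ℂ))⁻¹ • ∑ n : Fin N, ee (-(c * (n / N))) • y n

theorem fco_add_period {N : ℕ} (y : Fin N → K) (c : ℤ) : fco y (c + N) = fco y c := by
  unfold fco
  congr 1
  refine Finset.sum_congr rfl fun n _ => ?_
  have hN : (N : ℝ) ≠ 0 := by
    have h : N ≠ 0 := by have := n.pos; omega
    exact_mod_cast h
  have h1 : -(((c + N : ℤ) : ℝ) * ((n : ℕ) / (N : ℝ))) = -((c : ℝ) * (n / N)) + ((-(n : ℤ) : ℤ) : ℝ) := by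
    push_cast
    field_simp
    ring
  rw [h1, ee_add, ee_int, mul_one]

/-- Parseval -/
theorem fco_parseval {N : ℕ} (y : Fin N → K) :
    ∑ c : Fin N, ‖fco y (c : ℤ)‖ ^ 2 = (N : ℝ)⁻¹ * ∑ n, ‖y n‖ ^ 2 := by
  rcases Nat.eq_zero_or_pos N with hN0 | hN0
  · subst hN0
    simp
  have hN : (N : ℂ) ≠ 0 := by exact_mod_cast hN0.ne'
  have hNr : (N : ℝ) ≠ 0 := by exact_mod_cast hN0.ne'
  have hn : ∀ x : K, ((‖x‖ ^ 2 : ℝ) : ℂ) = inner ℂ x x := fun x => by
    rw [inner_self_eq_norm_sq_to_K]; norm_cast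
  apply Complex.ofReal_injective
  rw [Complex.ofReal_sum, Complex.ofReal_mul, Complex.ofReal_sum]
  simp only [hn]
  unfold fco
  simp only [inner_smul_left, inner_smul_right, sum_inner, inner_sum]
  have h1 : ∀ c : Fin N, (starRingEnd ℂ) ((N : ℂ)⁻¹) * ((N : ℂ)⁻¹ *
      ∑ n : Fin N, ∑ m : Fin N, (starRingEnd ℂ) (ee (-(((c : ℕ) : ℤ) * ((m : ℕ) / (N : ℝ))))) *
        (ee (-(((c : ℕ) : ℤ) * ((n : ℕ) / (N : ℝ)))) * inner ℂ (y m) (y n)))
      = (N : ℂ)⁻¹ * (N : ℂ)⁻¹ * ∑ n : Fin N, ∑ m : Fin N,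
        ee ((c : ℕ) * ((((m : ℕ) : ℤ) - ((n : ℕ) : ℤ) : ℤ) / (N : ℝ))) * inner ℂ (y m) (y n) := by
    intro c
    rw [map_inv₀, Complex.conj_natCast, ← mul_assoc]
    congr 1
    refine Finset.sum_congr rfl fun n _ => Finset.sum_congr rfl fun m _ => ?_
    rw [ee_conj, ← mul_assoc, ← ee_add]
    congr 2
    push_cast
    ring
  have h2 : ∀ n m : Fin N, ∑ c : Fin N, ee ((c : ℕ) * ((((m : ℕ) : ℤ) - ((n : ℕ) : ℤ) : ℤ) / (N : ℝ)))
      = if m = n then (N : ℂ) else 0 := by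
    intro n m
    by_cases hmn : m = n
    · subst hmn
      rw [if_pos rfl, sub_self]
      simp [ee_zero]
    · rw [if_neg hmn]
      apply sum_ee_eq_zero
      rintro ⟨k, hk⟩
      apply hmn
      have hm := m.isLt
      have hn := n.isLt
      apply Fin.ext
      rcases lt_trichotomy k 0 with h | h | h
      · have : (N : ℤ) * k ≤ -N := by nlinarith
        omega
      · subst h; omega
      · have : (N : ℤ) ≤ N * k := by nlinarith
        omega
  calc _ = ∑ c : Fin N, (N : ℂ)⁻¹ * (N : ℂ)⁻¹ * ∑ n : Fin N, ∑ m : Fin N,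
        ee ((c : ℕ) * ((((m : ℕ) : ℤ) - ((n : ℕ) : ℤ) : ℤ) / (N : ℝ))) * inner ℂ (y m) (y n) := by
        refine Finset.sum_congr rfl fun c _ => ?_
        rw [← h1 c]
    _ = (N : ℂ)⁻¹ * (N : ℂ)⁻¹ * ∑ n : Fin N, ∑ m : Fin N,
        (∑ c : Fin N, ee ((c : ℕ) * ((((m : ℕ) : ℤ) - ((n : ℕ) : ℤ) : ℤ) / (N : ℝ))))
          * inner ℂ (y m) (y n) := by
        rw [← Finset.mul_sum, Finset.sum_comm]
        congr 1
        refine Finset.sum_congr rfl fun n _ => ?_
        rw [Finset.sum_comm]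
        refine Finset.sum_congr rfl fun m _ => ?_
        rw [Finset.sum_mul]
    _ = (N : ℂ)⁻¹ * (N : ℂ)⁻¹ * ∑ n : Fin N, (N : ℂ) * inner ℂ (y n) (y n) := by
        congr 1
        refine Finset.sum_congr rfl fun n _ => ?_
        simp only [h2, ite_mul, zero_mul]
        rw [Finset.sum_ite_eq' Finset.univ n]
        simp
    _ = _ := by
        rw [← Finset.mul_sum]
        push_cast
        field_simp

end

end Pool.Agent.AbCoc
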