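import Pool.Agent.Lib_MP_418a80_ab.Coc
import Mathlib.Topology.Compactness.SigmaCompact

/-!
# The open normal step: minimal vectors in the hulls of `q* r α_k(q)`

`N` is a normal subgroup of `G`. `S.NIU D κ q`: `q` is a unitary which is near-invariant under the
compact set `D`. `S.Intw N g z`: `z` is fixed by `N` and intertwines asymptotically `α_g(q)` and `q`.
-/

set_option autoImplicit false
set_option linter.unusedVariables false
set_option linter.unusedSectionVars false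

open Topology Filter MeasureTheory
open scoped ENNReal

namespace Pool.Agent.AbCoc

universe u v w

section hilbert
variable {E : Type*} [NormedAddCommGroup E] [InnerProductSpace ℂ E]

theorem norm_sub_sq_le_of_mid {x y : E} {d : ℝ} (h : d ≤ ‖(1 / 2 : ℝ) • (x + y)‖ ^ 2) :
    ‖x - y‖ ^ 2 ≤ 2 * ‖x‖ ^ 2 + 2 * ‖y‖ ^ 2 - 4 * d := by
  have h1 := parallelogram_law_with_norm ℂ x y
  have h2 : ‖(1 / 2 : ℝ) • (x + y)‖ ^ 2 = ‖x + y‖ ^ 2 / 4 := by
    rw [norm_smul, mul_pow, Real.norm_eq_abs, abs_of_pos (by norm_num : (0 : ℝ) < 1 / 2)]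
    ring
  rw [h2] at h
  nlinarith

/-- almost minimal vectors of a nested sequence of midpoint convex sets -/
theorem nested_min (C : ℕ → Set E)
    (hconv : ∀ n, ∀ x ∈ C n, ∀ y ∈ C n, (1 / 2 : ℝ) • (x + y) ∈ C n)
    (hanti : ∀ n m, n ≤ m → C m ⊆ C n) (hne : ∀ n, (C n).Nonempty) (B : ℝ)
    (hB : ∀ x ∈ C 0, ‖x‖ ^ 2 ≤ B) :
    ∃ (x : ℕ → E) (d : ℕ → ℝ) (dd : ℝ), (∀ n, x n ∈ C n) ∧ CauchySeq x ∧
      (∀ n, ∀ y ∈ C n, d n ≤ ‖y‖ ^ 2) ∧ (∀ n, ‖x n‖ ^ 2 ≤ d n + 1 / ((n : ℝ) + 1)) ∧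
      Monotone d ∧ Tendsto d atTop (𝓝 dd) := by
  have hbdd : ∀ n, BddBelow ((fun y : E => ‖y‖ ^ 2) '' C n) := fun n =>
    ⟨0, by rintro _ ⟨y, _, rfl⟩; positivity⟩
  obtain ⟨d, hd⟩ : ∃ d : ℕ → ℝ, ∀ n, d n = sInf ((fun y : E => ‖y‖ ^ 2) '' C n) := ⟨_, fun _ => rfl⟩
  have hle : ∀ n, ∀ y ∈ C n, d n ≤ ‖y‖ ^ 2 := fun n y hy => by
    rw [hd]
    exact csInf_le (hbdd n) ⟨y, hy, rfl⟩
  have hex : ∀ n : ℕ, ∃ y ∈ C n, ‖y‖ ^ 2 ≤ d n + 1 / ((n : ℝ) + 1) := by
    intro n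
    have h1 : (0 : ℝ) < 1 / ((n : ℝ) + 1) := by positivity
    obtain ⟨_, ⟨y, hy, rfl⟩, h2⟩ := exists_lt_of_csInf_lt ((hne n).image _)
      (lt_add_of_pos_right (sInf ((fun y : E => ‖y‖ ^ 2) '' C n)) h1)
    exact ⟨y, hy, by rw [hd]; exact h2.le⟩
  choose x hx1 hx2 using hex
  have hmono : Monotone d := by
    intro n m hnm
    rw [hd, hd]
    exact csInf_le_csInf (hbdd n) ((hne m).image _) (Set.image_mono (hanti n m hnm))
  have hdB : ∀ n, d n ≤ B := fun n => by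
    obtain ⟨y, hy⟩ := hne n
    exact (hle n y hy).trans (hB y (hanti 0 n (Nat.zero_le _) hy))
  obtain ⟨dd, hdd⟩ : ∃ dd, Tendsto d atTop (𝓝 dd) :=
    ⟨_, tendsto_atTop_ciSup hmono ⟨B, by rintro _ ⟨n, rfl⟩; exact hdB n⟩⟩
  refine ⟨x, d, dd, hx1, ?_, hle, hx2, hmono, hdd⟩
  have hled : ∀ n, d n ≤ dd := fun n => hmono.ge_of_tendsto hdd n
  -- the Cauchy estimate
  have hC : ∀ n m, n ≤ m → ‖x n - x m‖ ^ 2 ≤ 4 * (dd - d n + 1 / ((n : ℝ) + 1)) := by
    intro n m hnm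
    have h1 := hle n _ (hconv n (x n) (hx1 n) (x m) (hanti n m hnm (hx1 m)))
    have h2 := norm_sub_sq_le_of_mid h1
    have h3 := hx2 n
    have h4 := hx2 m
    have h5 := hled m
    have h5' := hled n
    have h6 : 1 / ((m : ℝ) + 1) ≤ 1 / ((n : ℝ) + 1) := by
      apply one_div_le_one_div_of_le (by positivity)
      have : (n : ℝ) ≤ m := by exact_mod_cast hnm
      linarith
    linarith
  have hb0 : Tendsto (fun n : ℕ => 4 * (dd - d n + 1 / ((n : ℝ) + 1))) atTop (𝓝 0) := by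
    have h1 := ((hdd.const_sub dd).add tendsto_one_div_add_atTop_nhds_zero_nat).const_mul 4
    simpa using h1
  rw [Metric.cauchySeq_iff']
  intro ε hε
  obtain ⟨n, hn⟩ := (hb0.eventually (gt_mem_nhds (show (0 : ℝ) < ε ^ 2 by positivity))).exists
  refine ⟨n, fun m hm => ?_⟩
  rw [dist_comm, dist_eq_norm]
  have h1 := (hC n m hm).trans_lt hn
  exact lt_of_pow_lt_pow_left₀ 2 hε.le h1

end hilbert

section niu
variable {A : Type u} [CStarAlgebra A] {K : Type v} [NormedAddCommGroup K]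
  [InnerProductSpace ℂ K] [CompleteSpace K]
variable {G : Type w} [Group G] [TopologicalSpace G] {T : TrAlg A K} (S : TrAct G T)

/-- near-invariant unitaries -/
structure TrAct.NIU (D : Set G) (κ : ℝ) (q : A) : Prop where
  un : star q * q = 1
  un' : q * star q = 1
  ne : ∀ h ∈ D, ‖T.ι (S.α h q - q)‖ ≤ κ

variable {S}

theorem TrAct.NIU.mono {D D' : Set G} {κ κ' : ℝ} {q : A} (h : S.NIU D κ q) (hD : D' ⊆ D)
    (hκ : κ ≤ κ') : S.NIU D' κ' q :=
  ⟨h.un, h.un', fun g hg => (h.ne g (hD hg)).trans hκ⟩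

theorem TrAct.NIU.one {D : Set G} {κ : ℝ} (hκ : 0 ≤ κ) : S.NIU D κ 1 :=
  ⟨by rw [star_one, one_mul], by rw [star_one, one_mul], fun g _ => by
    rw [map_one, sub_self, map_zero, norm_zero]; exact hκ⟩

theorem TrAct.NIU.adj {D : Set G} {κ : ℝ} {q : A} (h : S.NIU D κ q) : S.NIU D κ (star q) :=
  ⟨by rw [star_star]; exact h.un', by rw [star_star]; exact h.un, fun g hg => by
    rw [map_star, ← star_sub, T.norm_star]; exact h.ne g hg⟩

theorem TrAct.NIU.mul {D : Set G} {κ κ' : ℝ} {p q : A} (hp : S.NIU D κ p) (hq : S.NIU D κ' q) :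
    S.NIU D (κ + κ') (p * q) := by
  refine ⟨?_, ?_, fun g hg => ?_⟩
  · rw [star_mul, mul_assoc, ← mul_assoc (star p), hp.un, one_mul, hq.un]
  · rw [star_mul, mul_assoc, ← mul_assoc q, hq.un', one_mul, hp.un']
  · have e : S.α g (p * q) - p * q = (S.α g p - p) * S.α g q + p * (S.α g q - q) := by
      rw [map_mul]
      noncomm_ring
    have hαq : S.α g q * star (S.α g q) = 1 := by rw [← map_star, ← map_mul, hq.un', map_one]
    rw [e, map_add]
    refine (norm_add_le _ _).trans ?_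
    rw [T.norm_mul_unitary _ hαq, T.norm_unitary_mul p hp.un]
    exact add_le_add (hp.ne g hg) (hq.ne g hg)

theorem TrAct.NIU.norm_le {D : Set G} {κ : ℝ} {q : A} (h : S.NIU D κ q) : ‖q‖ ≤ 1 :=
  TrAct.norm_unit_le T q h.un

theorem TrAct.α_un {q : A} (h : star q * q = 1) (g : G) : star (S.α g q) * S.α g q = 1 := by
  rw [← map_star, ← map_mul, h, map_one]

theorem TrAct.α_un' {q : A} (h : q * star q = 1) (g : G) : S.α g q * star (S.α g q) = 1 := by
  rw [← map_star, ← map_mul, h, map_one]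

variable (S)

/-- asymptotic intertwiners between `α_g(q)` and `q`, `q` near-invariant under `N` -/
structure TrAct.Intw (N : Subgroup G) (g : G) (z : A) : Prop where
  fix : ∀ h ∈ N, S.α h z = z
  tw : ∀ ε : ℝ, 0 < ε → ∃ (D : Set G) (κ : ℝ), IsCompact D ∧ D ⊆ N ∧ 0 < κ ∧
    ∀ q, S.NIU D κ q → ‖T.ι (z * S.α g q - q * z)‖ ≤ ε

/-- the mixtures `∑ λ_i u_i a_j α_(k_j)(u_i)*`, `j ∈ J` -/
def TrAct.Mixs {J : Type} [Fintype J] (a : J → A) (k : J → G) (D : Set G) (κ : ℝ) :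
    Set (PiLp 2 fun _ : J => K) :=
  {x | ∃ (I : Type) (_ : Fintype I) (u : I → A) (l : I → ℝ), (∀ i, S.NIU D κ (u i)) ∧
    (∀ i, 0 ≤ l i) ∧ ∑ i, l i = 1 ∧
    ∀ j, x j = T.ι (∑ i, (l i : ℂ) • (u i * a j * star (S.α (k j) (u i))))}

theorem TrAct.Mixs_conv {J : Type} [Fintype J] (a : J → A) (k : J → G) (D : Set G) (κ : ℝ)
    (x : PiLp 2 fun _ : J => K) (hx : x ∈ S.Mixs a k D κ) (y : PiLp 2 fun _ : J => K)
    (hy : y ∈ S.Mixs a k D κ) : (1 / 2 : ℝ) • (x + y) ∈ S.Mixs a k D κ := by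
  obtain ⟨I, hI, q, l, h1, h2, h3, h4⟩ := hx
  obtain ⟨I', hI', q', l', h1', h2', h3', h4'⟩ := hy
  refine ⟨I ⊕ I', inferInstance, Sum.elim q q', Sum.elim (fun j => l j / 2) (fun j => l' j / 2),
    ?_, ?_, ?_, ?_⟩
  · rintro (j | j)
    · exact h1 j
    · exact h1' j
  · rintro (j | j)
    · exact div_nonneg (h2 j) (by norm_num)
    · exact div_nonneg (h2' j) (by norm_num)
  · rw [Fintype.sum_sum_type]
    simp only [Sum.elim_inl, Sum.elim_inr]
    rw [← Finset.sum_div, ← Finset.sum_div, h3, h3']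
    norm_num
  · intro j
    change (1 / 2 : ℝ) • (x j + y j) = _
    rw [h4, h4', Fintype.sum_sum_type]
    simp only [Sum.elim_inl, Sum.elim_inr]
    rw [← map_add, ← Complex.coe_smul, ← map_smul, smul_add, Finset.smul_sum, Finset.smul_sum]
    congr 2
    · refine Finset.sum_congr rfl fun i _ => ?_
      rw [smul_smul]
      congr 1
      push_cast
      ring
    · refine Finset.sum_congr rfl fun i _ => ?_
      rw [smul_smul]
      congr 1
      push_cast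
      ring

theorem TrAct.Mixs_mono {J : Type} [Fintype J] {a : J → A} {k : J → G} {D D' : Set G}
    {κ κ' : ℝ} (hD : D' ⊆ D) (hκ : κ ≤ κ') : S.Mixs a k D κ ⊆ S.Mixs a k D' κ' := by
  rintro x ⟨I, hI, q, l, h1, h2, h3, h4⟩
  exact ⟨I, hI, q, l, fun j => (h1 j).mono hD hκ, h2, h3, h4⟩

/-- the coordinates of a mixture -/
theorem TrAct.Mixs_coord {J : Type} [Fintype J] {a : J → A} {k : J → G} {D : Set G} {κ : ℝ}
    {x : PiLp 2 fun _ : J => K} (hx : x ∈ S.Mixs a k D κ) :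
    ∃ y : J → A, (∀ j, x j = T.ι (y j)) ∧ (∀ j, ‖y j‖ ≤ ‖a j‖) ∧
      (∀ j, ∀ h : G, h ∈ D → (k j)⁻¹ * h * k j ∈ D → S.α h (a j) = a j →
        ‖T.ι (S.α h (y j) - y j)‖ ≤ 2 * (κ * ‖a j‖)) ∧
      ∀ (D' : Set G) (κ' : ℝ) (q : A), S.NIU D' κ' q → D' ⊆ D →
        (WithLp.toLp 2 fun j : J => T.ι (q * y j * star (S.α (k j) q)) : PiLp 2 fun _ : J => K)
          ∈ S.Mixs a k D' (κ' + κ) := by
  obtain ⟨I, hI, q, l, h1, h2, h3, h4⟩ := hx
  refine ⟨fun j => ∑ i, (l i : ℂ) • (q i * a j * star (S.α (k j) (q i))), h4, ?_, ?_, ?_⟩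
  · intro j
    refine (norm_sum_le _ _).trans ?_
    have h5 : ∀ i, ‖(l i : ℂ) • (q i * a j * star (S.α (k j) (q i)))‖ ≤ l i * ‖a j‖ := by
      intro i
      rw [norm_smul, Complex.norm_real, Real.norm_eq_abs, abs_of_nonneg (h2 i)]
      refine mul_le_mul_of_nonneg_left ?_ (h2 i)
      have h6 : ‖q i‖ ≤ 1 := (h1 i).norm_le
      have h7 : ‖star (S.α (k j) (q i))‖ ≤ 1 := by
        rw [norm_star]
        exact (S.norm_le _ _).trans (h1 i).norm_le
      calc ‖q i * a j * star (S.α (k j) (q i))‖ ≤ ‖q i‖ * ‖a j‖ * ‖star (S.α (k j) (q i))‖ :=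
            (norm_mul_le _ _).trans (by gcongr; exact norm_mul_le _ _)
        _ ≤ 1 * ‖a j‖ * 1 := by gcongr
        _ = ‖a j‖ := by ring
    refine (Finset.sum_le_sum fun i _ => h5 i).trans ?_
    rw [← Finset.sum_mul, h3, one_mul]
  · intro j h hh hk hr
    have e : S.α h (∑ i, (l i : ℂ) • (q i * a j * star (S.α (k j) (q i))))
        - ∑ i, (l i : ℂ) • (q i * a j * star (S.α (k j) (q i)))
        = ∑ i, (l i : ℂ) • ((S.α h (q i) - q i) *
            (a j * star (S.α (k j) (S.α ((k j)⁻¹ * h * k j) (q i))))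
          + (q i * a j) * star (S.α (k j) (S.α ((k j)⁻¹ * h * k j) (q i) - q i))) := by
      rw [map_sum, ← Finset.sum_sub_distrib]
      refine Finset.sum_congr rfl fun i _ => ?_
      rw [map_smul, ← smul_sub]
      congr 1
      have e1 : S.α h (S.α (k j) (q i)) = S.α (k j) (S.α ((k j)⁻¹ * h * k j) (q i)) := by
        rw [← S.mul, ← S.mul]
        congr 2
        group
      rw [map_mul, map_mul, hr, map_star, map_sub, star_sub, e1]
      noncomm_ring
    change ‖T.ι (S.α h (∑ i, (l i : ℂ) • (q i * a j * star (S.α (k j) (q i))))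
        - ∑ i, (l i : ℂ) • (q i * a j * star (S.α (k j) (q i))))‖ ≤ _
    rw [e, map_sum]
    refine (norm_sum_le _ _).trans ?_
    have h5 : ∀ i, ‖T.ι ((l i : ℂ) • ((S.α h (q i) - q i) *
            (a j * star (S.α (k j) (S.α ((k j)⁻¹ * h * k j) (q i))))
          + (q i * a j) * star (S.α (k j) (S.α ((k j)⁻¹ * h * k j) (q i) - q i))))‖
        ≤ l i * (2 * (κ * ‖a j‖)) := by
      intro i
      rw [map_smul, norm_smul, Complex.norm_real, Real.norm_eq_abs, abs_of_nonneg (h2 i)]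
      refine mul_le_mul_of_nonneg_left ?_ (h2 i)
      rw [map_add]
      refine (norm_add_le _ _).trans ?_
      have h6 : ‖T.ι ((S.α h (q i) - q i) *
          (a j * star (S.α (k j) (S.α ((k j)⁻¹ * h * k j) (q i)))))‖ ≤ κ * ‖a j‖ := by
        refine (T.mul_le' _ _).trans ?_
        have h7 : ‖a j * star (S.α (k j) (S.α ((k j)⁻¹ * h * k j) (q i)))‖ ≤ ‖a j‖ := by
          have h8 : ‖star (S.α (k j) (S.α ((k j)⁻¹ * h * k j) (q i)))‖ ≤ 1 := by
            rw [norm_star]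
            exact (S.norm_le _ _).trans ((S.norm_le _ _).trans (h1 i).norm_le)
          calc ‖a j * star (S.α (k j) (S.α ((k j)⁻¹ * h * k j) (q i)))‖
              ≤ ‖a j‖ * ‖star (S.α (k j) (S.α ((k j)⁻¹ * h * k j) (q i)))‖ := norm_mul_le _ _
            _ ≤ ‖a j‖ * 1 := by gcongr
            _ = ‖a j‖ := mul_one _
        exact mul_le_mul ((h1 i).ne h hh) h7 (norm_nonneg _)
          ((norm_nonneg _).trans ((h1 i).ne h hh))
      have h9 : ‖T.ι ((q i * a j) * star (S.α (k j) (S.α ((k j)⁻¹ * h * k j) (q i) - q i)))‖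
          ≤ κ * ‖a j‖ := by
        refine (T.mul_le _ _).trans ?_
        rw [T.norm_star, S.norm_map]
        have h7 : ‖q i * a j‖ ≤ ‖a j‖ := by
          calc ‖q i * a j‖ ≤ ‖q i‖ * ‖a j‖ := norm_mul_le _ _
            _ ≤ 1 * ‖a j‖ := by
                gcongr
                exact (h1 i).norm_le
            _ = ‖a j‖ := one_mul _
        rw [mul_comm κ]
        exact mul_le_mul h7 ((h1 i).ne _ hk) (norm_nonneg _) (norm_nonneg _)
      linarith
    refine (Finset.sum_le_sum fun i _ => h5 i).trans ?_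
    rw [← Finset.sum_mul, h3, one_mul]
  · intro D' κ' p hp hD'
    refine ⟨I, hI, fun i => p * q i, l, fun i => hp.mul ((h1 i).mono hD' le_rfl), h2, h3, ?_⟩
    intro j
    change T.ι (p * (∑ i, (l i : ℂ) • (q i * a j * star (S.α (k j) (q i)))) *
      star (S.α (k j) p)) = _
    rw [Finset.mul_sum, Finset.sum_mul]
    congr 1
    refine Finset.sum_congr rfl fun i _ => ?_
    rw [mul_smul_comm, smul_mul_assoc, map_mul, star_mul]
    congr 1
    noncomm_ring

end niu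

end Pool.Agent.AbCoc
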