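import Pool.Agent.Lib_MP_418a80_on.On11c

/-!
# [ON] On11, part d: the window family `Y_(c,k) = r x'_c E_k x_(q_c - q_k)`
-/

set_option autoImplicit false
set_option linter.unusedVariables false
set_option linter.unusedSectionVars false

open Topology Filter MeasureTheory
open scoped RealInnerProductSpace ComplexConjugate

namespace Pool.Agent.AbCoc

universe u v w z

section
variable {A : Type u} [CStarAlgebra A] {K : Type v} [NormedAddCommGroup K]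
  [InnerProductSpace ℂ K] [CompleteSpace K]
  {G : Type w} [Group G] [TopologicalSpace G] {T : TrAlg A K} (S : TrAct G T)
  {V : Type z} [NormedAddCommGroup V] [InnerProductSpace ℝ V] {m : ℕ}
  (b : OrthonormalBasis (Fin m) ℝ V) {M : ℕ} [NeZero M] {δ : ℝ} {e : A} {σ : V → G}

/-- the difference of two indices -/
def bdif (c k : Fin m → ZMod M) (i : Fin m) : ℤ := (c i).valMinAbs - (k i).valMinAbs

/-- the label of an integer vector -/
noncomputable def lamZ (b : OrthonormalBasis (Fin m) ℝ V) (M : ℕ) (δ : ℝ) (n : Fin m → ℤ) : V :=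
  ∑ i, (-(2 * Real.pi * (n i : ℝ) / (M * δ))) • b i

theorem lamV_sub (c k : Fin m → ZMod M) :
    lamV b M δ c - lamV b M δ k = lamZ b M δ (bdif c k) := by
  unfold lamV lamZ
  rw [← Finset.sum_sub_distrib]
  refine Finset.sum_congr rfl fun i _ => ?_
  rw [← sub_smul]
  congr 1
  unfold boxTh bdif
  push_cast
  ring

theorem sum_bdif_le (f : (Fin m → ℤ) → (Fin m → ZMod M) → ℝ) (hf : ∀ n k, 0 ≤ f n k)
    (B : ℝ) (hB : ∀ n, ∑ k, f n k ≤ B) (hB0 : 0 ≤ B) :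
    ∑ c : Fin m → ZMod M, ∑ k : Fin m → ZMod M, f (bdif c k) k ≤ (3 : ℝ) ^ m * (M : ℝ) ^ m * B := by
  classical
  have hM : 0 < M := Nat.pos_of_ne_zero (NeZero.ne M)
  obtain ⟨F, hF⟩ : ∃ F : Finset (Fin m → ℤ), F = Fintype.piFinset fun _ =>
      Finset.Ico (-(M : ℤ)) (2 * M) := ⟨_, rfl⟩
  have hFc : F.card = (3 * M) ^ m := by
    rw [hF, Fintype.card_piFinset]
    have : (Finset.Ico (-(M : ℤ)) (2 * M)).card = 3 * M := by
      rw [Int.card_Ico]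
      omega
    simp [this]
  have hmem : ∀ c k : Fin m → ZMod M, bdif c k ∈ F := by
    intro c k
    rw [hF, Fintype.mem_piFinset]
    intro i
    rw [Finset.mem_Ico]
    have h1 := ZMod.natAbs_valMinAbs_le (c i)
    have h2 := ZMod.natAbs_valMinAbs_le (k i)
    unfold bdif
    omega
  have hinj : Function.Injective fun x : (Fin m → ZMod M) × (Fin m → ZMod M) =>
      (bdif x.1 x.2, x.2) := by
    rintro ⟨c, k⟩ ⟨c', k'⟩ h
    rw [Prod.mk.injEq] at h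
    obtain ⟨h1, h2⟩ := h
    have h2' : k = k' := h2
    subst h2'
    have h3 : c = c' := by
      funext i
      have h4 : bdif c k i = bdif c' k i := congrFun h1 i
      unfold bdif at h4
      have h5 : (c i).valMinAbs = (c' i).valMinAbs := by linarith
      exact ZMod.injective_valMinAbs h5
    rw [h3]
  calc ∑ c : Fin m → ZMod M, ∑ k : Fin m → ZMod M, f (bdif c k) k
      = ∑ x : (Fin m → ZMod M) × (Fin m → ZMod M), f (bdif x.1 x.2) x.2 :=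
        (Fintype.sum_prod_type' fun c k => f (bdif c k) k).symm
    _ = ∑ y ∈ Finset.univ.image (fun x : (Fin m → ZMod M) × (Fin m → ZMod M) =>
          (bdif x.1 x.2, x.2)), f y.1 y.2 := by
        rw [Finset.sum_image fun x _ y _ h => hinj h]
    _ ≤ ∑ y ∈ F ×ˢ (Finset.univ : Finset (Fin m → ZMod M)), f y.1 y.2 := by
        refine Finset.sum_le_sum_of_subset_of_nonneg ?_ fun y _ _ => hf _ _
        intro y hy
        rw [Finset.mem_image] at hy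
        obtain ⟨x, _, rfl⟩ := hy
        rw [Finset.mem_product]
        exact ⟨hmem _ _, Finset.mem_univ _⟩
    _ = ∑ n ∈ F, ∑ k, f n k := by rw [Finset.sum_product]
    _ ≤ ∑ n ∈ F, B := Finset.sum_le_sum fun n _ => hB n
    _ = (3 : ℝ) ^ m * (M : ℝ) ^ m * B := by
        rw [Finset.sum_const, hFc, nsmul_eq_mul]
        push_cast
        rw [mul_pow]

theorem TrAct.sum_bcell_mul (he : ‖e‖ ≤ 1) (z : A) :
    ∑ k : Fin m → ZMod M, ‖T.ι (S.bcell b σ M δ e k * z)‖ ^ 2 ≤ ‖T.ι z‖ ^ 2 := by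
  refine le_trans (le_of_eq ((boxChs m M).sum_norm_sq_mul T _ z)) ?_
  have h1 : ∀ j ∈ boxF m M, ‖T.ι (((boxChs m M).r : ℂ) • S.α (σ (gridV b δ j)) e * z)‖ ^ 2
      ≤ (boxChs m M).r ^ 2 * ‖T.ι z‖ ^ 2 := by
    intro j _
    rw [smul_mul_assoc, T.norm_smul_sq, Complex.norm_real, Real.norm_eq_abs, sq_abs]
    refine mul_le_mul_of_nonneg_left ?_ (sq_nonneg _)
    refine pow_le_pow_left₀ (norm_nonneg _) ?_ 2
    refine (T.mul_le _ _).trans ?_
    have h2 : ‖S.α (σ (gridV b δ j)) e‖ ≤ 1 := (S.norm_le _ _).trans he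
    calc ‖S.α (σ (gridV b δ j)) e‖ * ‖T.ι z‖ ≤ 1 * ‖T.ι z‖ :=
          mul_le_mul_of_nonneg_right h2 (norm_nonneg _)
      _ = ‖T.ι z‖ := one_mul _
  refine (Finset.sum_le_sum h1).trans (le_of_eq ?_)
  rw [Finset.sum_const, card_boxF, nsmul_eq_mul]
  push_cast
  calc (M : ℝ) ^ m * ((boxChs m M).r ^ 2 * ‖T.ι z‖ ^ 2)
      = ((boxChs m M).r ^ 2 * (M : ℝ) ^ m) * ‖T.ι z‖ ^ 2 := by ring
    _ = ‖T.ι z‖ ^ 2 := by rw [boxChs_r_sq, one_mul]

theorem TrAct.sum_mul_bcell (he : ‖e‖ ≤ 1) (z : A) :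
    ∑ k : Fin m → ZMod M, ‖T.ι (z * S.bcell b σ M δ e k)‖ ^ 2 ≤ ‖T.ι z‖ ^ 2 := by
  refine le_trans (le_of_eq ((boxChs m M).sum_norm_sq_mul' T _ z)) ?_
  have h1 : ∀ j ∈ boxF m M, ‖T.ι (z * ((boxChs m M).r : ℂ) • S.α (σ (gridV b δ j)) e)‖ ^ 2
      ≤ (boxChs m M).r ^ 2 * ‖T.ι z‖ ^ 2 := by
    intro j _
    rw [mul_smul_comm, T.norm_smul_sq, Complex.norm_real, Real.norm_eq_abs, sq_abs]
    refine mul_le_mul_of_nonneg_left ?_ (sq_nonneg _)
    refine pow_le_pow_left₀ (norm_nonneg _) ?_ 2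
    refine (T.mul_le' _ _).trans ?_
    have h2 : ‖S.α (σ (gridV b δ j)) e‖ ≤ 1 := (S.norm_le _ _).trans he
    calc ‖T.ι z‖ * ‖S.α (σ (gridV b δ j)) e‖ ≤ ‖T.ι z‖ * 1 :=
          mul_le_mul_of_nonneg_left h2 (norm_nonneg _)
      _ = ‖T.ι z‖ := mul_one _
  refine (Finset.sum_le_sum h1).trans (le_of_eq ?_)
  rw [Finset.sum_const, card_boxF, nsmul_eq_mul]
  push_cast
  calc (M : ℝ) ^ m * ((boxChs m M).r ^ 2 * ‖T.ι z‖ ^ 2)
      = ((boxChs m M).r ^ 2 * (M : ℝ) ^ m) * ‖T.ι z‖ ^ 2 := by ring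
    _ = ‖T.ι z‖ ^ 2 := by rw [boxChs_r_sq, one_mul]

theorem TrAct.norm_bcell_le (he : ‖e‖ ≤ 1) (k : Fin m → ZMod M) :
    ‖S.bcell b σ M δ e k‖ ≤ 1 := by
  have hr : 0 < (boxChs m M).r := (boxChs m M).r_pos
  have h0 : S.bcell b σ M δ e k = ((boxChs m M).r : ℂ) • ∑ j ∈ boxF m M,
      (boxChs m M).χ k j • (((boxChs m M).r : ℂ) • S.α (σ (gridV b δ j)) e) := rfl
  rw [h0, norm_smul, Complex.norm_real, Real.norm_of_nonneg hr.le]
  have h1 : ‖∑ j ∈ boxF m M, (boxChs m M).χ k j • (((boxChs m M).r : ℂ) • S.α (σ (gridV b δ j)) e)‖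
      ≤ ∑ j ∈ boxF m M, (boxChs m M).r := by
    refine norm_sum_le_of_le _ fun j _ => ?_
    rw [norm_smul, norm_smul, Complex.norm_real, Real.norm_of_nonneg hr.le]
    have h3 : ‖(boxChs m M).χ k j‖ = 1 := (boxChs m M).unit k j
    rw [h3, one_mul]
    have h2 : ‖S.α (σ (gridV b δ j)) e‖ ≤ 1 := (S.norm_le _ _).trans he
    calc (boxChs m M).r * ‖S.α (σ (gridV b δ j)) e‖ ≤ (boxChs m M).r * 1 :=
          mul_le_mul_of_nonneg_left h2 hr.le
      _ = (boxChs m M).r := mul_one _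
  rw [Finset.sum_const, card_boxF, nsmul_eq_mul] at h1
  push_cast at h1
  calc (boxChs m M).r * ‖∑ j ∈ boxF m M,
        (boxChs m M).χ k j • (((boxChs m M).r : ℂ) • S.α (σ (gridV b δ j)) e)‖
      ≤ (boxChs m M).r * ((M : ℝ) ^ m * (boxChs m M).r) := mul_le_mul_of_nonneg_left h1 hr.le
    _ = (boxChs m M).r ^ 2 * (M : ℝ) ^ m := by ring
    _ = 1 := boxChs_r_sq

/-- the window family -/
noncomputable def TrAct.wfam (σ : V → G) (M : ℕ) [NeZero M] (δ : ℝ) (e : A)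
    (x' : (Fin m → ZMod M) → A) (x : (Fin m → ℤ) → A)
    (y : (Fin m → ZMod M) × (Fin m → ZMod M)) : A :=
  ((boxChs m M).r : ℂ) • (x' y.1 * S.bcell b σ M δ e y.2 * x (bdif y.1 y.2))

variable {x' : (Fin m → ZMod M) → A} {x : (Fin m → ℤ) → A}

theorem TrAct.wfam_dm (he : ‖e‖ ≤ 1) (hx' : ∀ c, ‖x' c‖ ≤ 1) (hx : ∀ n, ‖x n‖ ≤ 1) :
    T.Dm ((3 : ℝ) ^ m) (S.wfam b σ M δ e x' x) := by
  have hr : (boxChs m M).r ^ 2 * (M : ℝ) ^ m = 1 := boxChs_r_sq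
  have h3 : (1 : ℝ) ≤ 3 ^ m := one_le_pow₀ (by norm_num)
  constructor
  · intro z
    rw [Fintype.sum_prod_type]
    have h1 : ∀ c k : Fin m → ZMod M, ‖T.ι (S.wfam b σ M δ e x' x (c, k) * z)‖ ^ 2
        ≤ (boxChs m M).r ^ 2 * ‖T.ι (S.bcell b σ M δ e k * (x (bdif c k) * z))‖ ^ 2 := by
      intro c k
      have e1 : S.wfam b σ M δ e x' x (c, k) * z = ((boxChs m M).r : ℂ) •
          (x' c * (S.bcell b σ M δ e k * (x (bdif c k) * z))) := by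
        change (((boxChs m M).r : ℂ) • (x' c * S.bcell b σ M δ e k * x (bdif c k))) * z = _
        rw [smul_mul_assoc]
        simp only [mul_assoc]
      rw [e1, T.norm_smul_sq, Complex.norm_real, Real.norm_eq_abs, sq_abs]
      refine mul_le_mul_of_nonneg_left ?_ (sq_nonneg _)
      refine pow_le_pow_left₀ (norm_nonneg _) ?_ 2
      refine (T.mul_le _ _).trans ?_
      calc _ ≤ 1 * ‖T.ι (S.bcell b σ M δ e k * (x (bdif c k) * z))‖ :=
            mul_le_mul_of_nonneg_right (hx' c) (norm_nonneg _)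
        _ = _ := one_mul _
    calc ∑ c : Fin m → ZMod M, ∑ k : Fin m → ZMod M, ‖T.ι (S.wfam b σ M δ e x' x (c, k) * z)‖ ^ 2
        ≤ ∑ c : Fin m → ZMod M, ∑ k : Fin m → ZMod M, (boxChs m M).r ^ 2
            * ‖T.ι (S.bcell b σ M δ e k * (x (bdif c k) * z))‖ ^ 2 :=
          Finset.sum_le_sum fun c _ => Finset.sum_le_sum fun k _ => h1 c k
      _ ≤ (3 : ℝ) ^ m * (M : ℝ) ^ m * ((boxChs m M).r ^ 2 * ‖T.ι z‖ ^ 2) := by
          refine sum_bdif_le (fun n k => (boxChs m M).r ^ 2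
            * ‖T.ι (S.bcell b σ M δ e k * (x n * z))‖ ^ 2) (fun n k => by positivity) _
            (fun n => ?_) (by positivity)
          rw [← Finset.mul_sum]
          refine mul_le_mul_of_nonneg_left ?_ (sq_nonneg _)
          refine (S.sum_bcell_mul b he _).trans ?_
          refine pow_le_pow_left₀ (norm_nonneg _) ?_ 2
          refine (T.mul_le _ _).trans ?_
          calc _ ≤ 1 * ‖T.ι z‖ := mul_le_mul_of_nonneg_right (hx n) (norm_nonneg _)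
            _ = _ := one_mul _
      _ = (3 : ℝ) ^ m * ((boxChs m M).r ^ 2 * (M : ℝ) ^ m) * ‖T.ι z‖ ^ 2 := by ring
      _ = (3 : ℝ) ^ m * ‖T.ι z‖ ^ 2 := by rw [hr, mul_one]
  · intro z
    rw [Fintype.sum_prod_type]
    have h1 : ∀ c k : Fin m → ZMod M, ‖T.ι (z * S.wfam b σ M δ e x' x (c, k))‖ ^ 2
        ≤ (boxChs m M).r ^ 2 * ‖T.ι (z * x' c * S.bcell b σ M δ e k)‖ ^ 2 := by
      intro c k
      have e1 : z * S.wfam b σ M δ e x' x (c, k) = ((boxChs m M).r : ℂ) •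
          (z * x' c * S.bcell b σ M δ e k * x (bdif c k)) := by
        change z * (((boxChs m M).r : ℂ) • (x' c * S.bcell b σ M δ e k * x (bdif c k))) = _
        rw [mul_smul_comm]
        simp only [mul_assoc]
      rw [e1, T.norm_smul_sq, Complex.norm_real, Real.norm_eq_abs, sq_abs]
      refine mul_le_mul_of_nonneg_left ?_ (sq_nonneg _)
      refine pow_le_pow_left₀ (norm_nonneg _) ?_ 2
      refine (T.mul_le' _ _).trans ?_
      calc _ ≤ ‖T.ι (z * x' c * S.bcell b σ M δ e k)‖ * 1 :=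
            mul_le_mul_of_nonneg_left (hx _) (norm_nonneg _)
        _ = _ := mul_one _
    calc ∑ c : Fin m → ZMod M, ∑ k : Fin m → ZMod M, ‖T.ι (z * S.wfam b σ M δ e x' x (c, k))‖ ^ 2
        ≤ ∑ c : Fin m → ZMod M, ∑ k : Fin m → ZMod M, (boxChs m M).r ^ 2
            * ‖T.ι (z * x' c * S.bcell b σ M δ e k)‖ ^ 2 :=
          Finset.sum_le_sum fun c _ => Finset.sum_le_sum fun k _ => h1 c k
      _ ≤ ∑ c : Fin m → ZMod M, (boxChs m M).r ^ 2 * ‖T.ι z‖ ^ 2 := by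
          refine Finset.sum_le_sum fun c _ => ?_
          rw [← Finset.mul_sum]
          refine mul_le_mul_of_nonneg_left ?_ (sq_nonneg _)
          refine (S.sum_mul_bcell b he _).trans ?_
          refine pow_le_pow_left₀ (norm_nonneg _) ?_ 2
          refine (T.mul_le' _ _).trans ?_
          calc _ ≤ ‖T.ι z‖ * 1 := mul_le_mul_of_nonneg_left (hx' c) (norm_nonneg _)
            _ = _ := mul_one _
      _ = ((boxChs m M).r ^ 2 * (M : ℝ) ^ m) * ‖T.ι z‖ ^ 2 := by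
          rw [Finset.sum_const, Finset.card_univ, nsmul_eq_mul, Fintype.card_fun, ZMod.card,
            Fintype.card_fin]
          push_cast
          ring
      _ = 1 * ‖T.ι z‖ ^ 2 := by rw [hr]
      _ ≤ (3 : ℝ) ^ m * ‖T.ι z‖ ^ 2 := mul_le_mul_of_nonneg_right h3 (sq_nonneg _)

/-- `2`-norm of products of contractions, left and right factors -/
theorem TrAlg.norm_mul3_le (T : TrAlg A K) {a c : A} (y : A) (ha : ‖a‖ ≤ 1) (hc : ‖c‖ ≤ 1) :
    ‖T.ι (a * y * c)‖ ≤ ‖T.ι y‖ := by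
  refine (T.mul_le' _ _).trans ?_
  calc ‖T.ι (a * y)‖ * ‖c‖ ≤ ‖T.ι (a * y)‖ * 1 := mul_le_mul_of_nonneg_left hc (norm_nonneg _)
    _ = ‖T.ι (a * y)‖ := mul_one _
    _ ≤ ‖a‖ * ‖T.ι y‖ := T.mul_le _ _
    _ ≤ 1 * ‖T.ι y‖ := mul_le_mul_of_nonneg_right ha (norm_nonneg _)
    _ = ‖T.ι y‖ := one_mul _

theorem TrAct.wfam_inv (p : G → V) (he : ‖e‖ ≤ 1) (g : G) (κ : ℝ) (hκ : 0 ≤ κ)
    (hx' : ∀ c, ‖x' c‖ ≤ 1) (hx : ∀ n, ‖x n‖ ≤ 1)
    (hx'g : ∀ c, ‖T.ι (S.α g (x' c) - pch p (-lamV b M δ c) g • x' c)‖ ≤ κ)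
    (hxg : ∀ n, ‖T.ι (S.α g (x n) - pch p (lamZ b M δ n) g • x n)‖ ≤ κ) :
    ∑ y, ‖T.ι (S.α g (S.wfam b σ M δ e x' x y) - S.wfam b σ M δ e x' x y)‖ ^ 2
      ≤ 6 * (M : ℝ) ^ m * κ ^ 2 + 3 * ∑ k : Fin m → ZMod M, ‖T.ι (S.α g (S.bcell b σ M δ e k)
        - pch p (lamV b M δ k) g • S.bcell b σ M δ e k)‖ ^ 2 := by
  have hr : (boxChs m M).r ^ 2 * (M : ℝ) ^ m = 1 := boxChs_r_sq
  rw [Fintype.sum_prod_type]
  have h1 : ∀ c k : Fin m → ZMod M,
      ‖T.ι (S.α g (S.wfam b σ M δ e x' x (c, k)) - S.wfam b σ M δ e x' x (c, k))‖ ^ 2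
        ≤ (boxChs m M).r ^ 2 * (6 * κ ^ 2 + 3 * ‖T.ι (S.α g (S.bcell b σ M δ e k)
          - pch p (lamV b M δ k) g • S.bcell b σ M δ e k)‖ ^ 2) := by
    intro c k
    obtain ⟨E, hE⟩ : ∃ E : A, E = S.bcell b σ M δ e k := ⟨_, rfl⟩
    have hE1 : ‖E‖ ≤ 1 := by rw [hE]; exact S.norm_bcell_le b he k
    obtain ⟨y, hy⟩ : ∃ y : A, y = x (bdif c k) := ⟨_, rfl⟩
    have hy1 : ‖y‖ ≤ 1 := by rw [hy]; exact hx _
    obtain ⟨a1, ha1⟩ : ∃ a1 : ℂ, a1 = pch p (-lamV b M δ c) g := ⟨_, rfl⟩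
    obtain ⟨a2, ha2⟩ : ∃ a2 : ℂ, a2 = pch p (lamV b M δ k) g := ⟨_, rfl⟩
    obtain ⟨a3, ha3⟩ : ∃ a3 : ℂ, a3 = pch p (lamZ b M δ (bdif c k)) g := ⟨_, rfl⟩
    have hprod : a1 * a2 * a3 = 1 := by
      rw [ha1, ha2, ha3, ← lamV_sub, ← pch_add, ← pch_add]
      have : -lamV b M δ c + lamV b M δ k + (lamV b M δ c - lamV b M δ k) = 0 := by abel
      rw [this, pch_zero]
    have n1 : ‖a1‖ = 1 := by rw [ha1]; exact norm_pch _ _ _
    have n2 : ‖a2‖ = 1 := by rw [ha2]; exact norm_pch _ _ _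
    have hc := hx' c
    have hcg : ‖S.α g (x' c)‖ ≤ 1 := (S.norm_le _ _).trans hc
    have hEg : ‖S.α g E‖ ≤ 1 := (S.norm_le _ _).trans hE1
    have hyg : ‖S.α g y‖ ≤ 1 := (S.norm_le _ _).trans hy1
    have hmul1 : ∀ {s t : A}, ‖s‖ ≤ 1 → ‖t‖ ≤ 1 → ‖s * t‖ ≤ 1 := fun {s t} hs ht =>
      (norm_mul_le _ _).trans (mul_le_one₀ hs (norm_nonneg _) ht)
    have hsm1 : ∀ {t : ℂ} {s : A}, ‖t‖ = 1 → ‖s‖ ≤ 1 → ‖t • s‖ ≤ 1 := fun {t s} ht hs => by
      rw [norm_smul, ht, one_mul]; exact hs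
    have e1 : S.α g (S.wfam b σ M δ e x' x (c, k)) - S.wfam b σ M δ e x' x (c, k)
        = ((boxChs m M).r : ℂ) • (1 * (S.α g (x' c) - a1 • x' c) * (S.α g E * S.α g y)
          + (a1 • x' c) * (S.α g E - a2 • E) * S.α g y
          + ((a1 • x' c) * (a2 • E)) * (S.α g y - a3 • y) * 1) := by
      change S.α g (((boxChs m M).r : ℂ) • (x' c * S.bcell b σ M δ e k * x (bdif c k)))
        - ((boxChs m M).r : ℂ) • (x' c * S.bcell b σ M δ e k * x (bdif c k)) = _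
      rw [← hE, ← hy, map_smul, ← smul_sub, map_mul, map_mul]
      congr 1
      have e2 : x' c * E * y = (a1 • x' c) * (a2 • E) * (a3 • y) := by
        rw [smul_mul_smul_comm, smul_mul_smul_comm, hprod, one_smul]
      conv_lhs => rw [e2]
      noncomm_ring
    rw [e1, T.norm_smul_sq, Complex.norm_real, Real.norm_eq_abs, sq_abs]
    refine mul_le_mul_of_nonneg_left ?_ (sq_nonneg _)
    refine (T.norm_add3_sq_le _ _ _).trans ?_
    have b1 : ‖T.ι (1 * (S.α g (x' c) - a1 • x' c) * (S.α g E * S.α g y))‖ ≤ κ := by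
      refine (T.norm_mul3_le _ ?_ (hmul1 hEg hyg)).trans (by rw [ha1]; exact hx'g c)
      have := T.norm_one
      exact norm_unit_le T 1 (by rw [star_one, one_mul])
    have b2 : ‖T.ι ((a1 • x' c) * (S.α g E - a2 • E) * S.α g y)‖ ≤ ‖T.ι (S.α g E - a2 • E)‖ :=
      T.norm_mul3_le _ (hsm1 n1 hc) hyg
    have b3 : ‖T.ι (((a1 • x' c) * (a2 • E)) * (S.α g y - a3 • y) * 1)‖ ≤ κ := by
      refine (T.norm_mul3_le _ (hmul1 (hsm1 n1 hc) (hsm1 n2 hE1)) ?_).trans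
        (by rw [ha3, hy]; exact hxg _)
      exact norm_unit_le T 1 (by rw [star_one, one_mul])
    have c1 := pow_le_pow_left₀ (norm_nonneg _) b1 2
    have c2 := pow_le_pow_left₀ (norm_nonneg _) b2 2
    have c3 := pow_le_pow_left₀ (norm_nonneg _) b3 2
    rw [← hE, ← ha2]
    linarith
  calc ∑ c : Fin m → ZMod M, ∑ k : Fin m → ZMod M,
        ‖T.ι (S.α g (S.wfam b σ M δ e x' x (c, k)) - S.wfam b σ M δ e x' x (c, k))‖ ^ 2
      ≤ ∑ c : Fin m → ZMod M, ∑ k : Fin m → ZMod M,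
        (boxChs m M).r ^ 2 * (6 * κ ^ 2 + 3 * ‖T.ι (S.α g (S.bcell b σ M δ e k)
          - pch p (lamV b M δ k) g • S.bcell b σ M δ e k)‖ ^ 2) :=
        Finset.sum_le_sum fun c _ => Finset.sum_le_sum fun k _ => h1 c k
    _ = ((boxChs m M).r ^ 2 * (M : ℝ) ^ m) * (6 * (M : ℝ) ^ m * κ ^ 2
          + 3 * ∑ k : Fin m → ZMod M, ‖T.ι (S.α g (S.bcell b σ M δ e k)
        - pch p (lamV b M δ k) g • S.bcell b σ M δ e k)‖ ^ 2) := by
        simp only [← Finset.mul_sum, Finset.sum_add_distrib, Finset.sum_const, Finset.card_univ,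
          Fintype.card_fun, ZMod.card, Fintype.card_fin, nsmul_eq_mul]
        push_cast
        ring
    _ = _ := by rw [hr, one_mul]

theorem TrAct.wfam_low (β : A →⋆ₐ[ℂ] A) (he : ‖e‖ ≤ 1) (ε : ℝ) (hε : 0 ≤ ε)
    (hx' : ∀ c, ‖x' c‖ ≤ 1) (hx : ∀ n, ‖x n‖ ≤ 1)
    (hx'β : ∀ c, ‖T.ι (β (x' c) - x' c)‖ ≤ ε) (hxβ : ∀ n, ‖T.ι (β (x n) - x n)‖ ≤ ε)
    (hlow : ∀ c k, ‖T.ι (β (S.bcell b σ M δ e k) - S.bcell b σ M δ e k)‖ ^ 2
      ≤ 64 * ‖T.ι (x' c * (β (S.bcell b σ M δ e k) - S.bcell b σ M δ e k) * x (bdif c k))‖ ^ 2) :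
    ∑ k : Fin m → ZMod M, ‖T.ι (β (S.bcell b σ M δ e k) - S.bcell b σ M δ e k)‖ ^ 2
      ≤ 128 * ∑ y, ‖T.ι (β (S.wfam b σ M δ e x' x y) - S.wfam b σ M δ e x' x y)‖ ^ 2
        + 512 * (M : ℝ) ^ m * ε ^ 2 := by
  have hr : (boxChs m M).r ^ 2 * (M : ℝ) ^ m = 1 := boxChs_r_sq
  rw [Fintype.sum_prod_type]
  have h1 : ∀ c k : Fin m → ZMod M, (boxChs m M).r ^ 2
      * ‖T.ι (β (S.bcell b σ M δ e k) - S.bcell b σ M δ e k)‖ ^ 2
        ≤ 128 * ‖T.ι (β (S.wfam b σ M δ e x' x (c, k)) - S.wfam b σ M δ e x' x (c, k))‖ ^ 2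
          + (boxChs m M).r ^ 2 * (512 * ε ^ 2) := by
    intro c k
    obtain ⟨E, hE⟩ : ∃ E : A, E = S.bcell b σ M δ e k := ⟨_, rfl⟩
    have hE1 : ‖E‖ ≤ 1 := by rw [hE]; exact S.norm_bcell_le b he k
    obtain ⟨y, hy⟩ : ∃ y : A, y = x (bdif c k) := ⟨_, rfl⟩
    have hy1 : ‖y‖ ≤ 1 := by rw [hy]; exact hx _
    have hc := hx' c
    have hβn : ∀ {s : A}, ‖s‖ ≤ 1 → ‖β s‖ ≤ 1 := fun {s} hs =>
      (NonUnitalStarAlgHom.norm_apply_le β s).trans hs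
    have hmul1 : ∀ {s t : A}, ‖s‖ ≤ 1 → ‖t‖ ≤ 1 → ‖s * t‖ ≤ 1 := fun {s t} hs ht =>
      (norm_mul_le _ _).trans (mul_le_one₀ hs (norm_nonneg _) ht)
    have h11 : ‖(1 : A)‖ ≤ 1 := norm_unit_le T 1 (by rw [star_one, one_mul])
    have e1 : β (S.wfam b σ M δ e x' x (c, k)) - S.wfam b σ M δ e x' x (c, k)
        = ((boxChs m M).r : ℂ) • (β (x' c) * β E * β y - x' c * E * y) := by
      change β (((boxChs m M).r : ℂ) • (x' c * S.bcell b σ M δ e k * x (bdif c k)))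
        - ((boxChs m M).r : ℂ) • (x' c * S.bcell b σ M δ e k * x (bdif c k)) = _
      rw [← hE, ← hy, map_smul, ← smul_sub, map_mul, map_mul]
    have e2 : x' c * (β E - E) * y = (β (x' c) * β E * β y - x' c * E * y)
        + (-(1 * (β (x' c) - x' c) * (β E * β y)) + -((x' c * β E) * (β y - y) * 1)) := by
      noncomm_ring
    have b1 : ‖T.ι (-(1 * (β (x' c) - x' c) * (β E * β y)) + -((x' c * β E) * (β y - y) * 1))‖
        ≤ 2 * ε := by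
      rw [map_add, map_neg, map_neg]
      refine (norm_add_le _ _).trans ?_
      rw [norm_neg, norm_neg]
      have b2 := (T.norm_mul3_le (β (x' c) - x' c) h11 (hmul1 (hβn hE1) (hβn hy1))).trans (hx'β c)
      have b9 : ‖T.ι (β y - y)‖ ≤ ε := by rw [hy]; exact hxβ _
      have b3 := (T.norm_mul3_le (β y - y) (hmul1 hc (hβn hE1)) h11).trans b9
      linarith
    have b4 : ‖T.ι (x' c * (β E - E) * y)‖ ^ 2
        ≤ 2 * ‖T.ι (β (x' c) * β E * β y - x' c * E * y)‖ ^ 2 + 8 * ε ^ 2 := by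
      rw [e2]
      refine (T.norm_add_sq_le _ _).trans ?_
      have b5 := pow_le_pow_left₀ (norm_nonneg _) b1 2
      have b6 : (2 * ε) ^ 2 = 4 * ε ^ 2 := by ring
      rw [b6] at b5
      linarith
    have b7 := hlow c k
    rw [e1, T.norm_smul_sq, Complex.norm_real, Real.norm_eq_abs, sq_abs]
    rw [← hE, ← hy] at b7
    rw [← hE]
    have hr0 : 0 ≤ (boxChs m M).r ^ 2 := sq_nonneg _
    have b8 : ‖T.ι (β E - E)‖ ^ 2
        ≤ 128 * ‖T.ι (β (x' c) * β E * β y - x' c * E * y)‖ ^ 2 + 512 * ε ^ 2 := by linarith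
    calc (boxChs m M).r ^ 2 * ‖T.ι (β E - E)‖ ^ 2
        ≤ (boxChs m M).r ^ 2 * (128 * ‖T.ι (β (x' c) * β E * β y - x' c * E * y)‖ ^ 2
          + 512 * ε ^ 2) := mul_le_mul_of_nonneg_left b8 hr0
      _ = _ := by ring
  have h2 : ∑ c : Fin m → ZMod M, ∑ k : Fin m → ZMod M, (boxChs m M).r ^ 2
      * ‖T.ι (β (S.bcell b σ M δ e k) - S.bcell b σ M δ e k)‖ ^ 2
      ≤ ∑ c : Fin m → ZMod M, ∑ k : Fin m → ZMod M,
        (128 * ‖T.ι (β (S.wfam b σ M δ e x' x (c, k)) - S.wfam b σ M δ e x' x (c, k))‖ ^ 2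
          + (boxChs m M).r ^ 2 * (512 * ε ^ 2)) :=
    Finset.sum_le_sum fun c _ => Finset.sum_le_sum fun k _ => h1 c k
  have e3 : ∑ c : Fin m → ZMod M, ∑ k : Fin m → ZMod M, (boxChs m M).r ^ 2
      * ‖T.ι (β (S.bcell b σ M δ e k) - S.bcell b σ M δ e k)‖ ^ 2
      = ((boxChs m M).r ^ 2 * (M : ℝ) ^ m)
        * ∑ k : Fin m → ZMod M, ‖T.ι (β (S.bcell b σ M δ e k) - S.bcell b σ M δ e k)‖ ^ 2 := by
    simp only [← Finset.mul_sum, Finset.sum_const, Finset.card_univ,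
      Fintype.card_fun, ZMod.card, Fintype.card_fin, nsmul_eq_mul]
    push_cast
    ring
  have e4 : ∑ c : Fin m → ZMod M, ∑ k : Fin m → ZMod M,
        (128 * ‖T.ι (β (S.wfam b σ M δ e x' x (c, k)) - S.wfam b σ M δ e x' x (c, k))‖ ^ 2
          + (boxChs m M).r ^ 2 * (512 * ε ^ 2))
      = 128 * ∑ c : Fin m → ZMod M, ∑ k : Fin m → ZMod M,
        ‖T.ι (β (S.wfam b σ M δ e x' x (c, k)) - S.wfam b σ M δ e x' x (c, k))‖ ^ 2
        + ((boxChs m M).r ^ 2 * (M : ℝ) ^ m) * (512 * (M : ℝ) ^ m * ε ^ 2) := by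
    simp only [← Finset.mul_sum, Finset.sum_add_distrib, Finset.sum_const, Finset.card_univ,
      Fintype.card_fun, ZMod.card, Fintype.card_fin, nsmul_eq_mul]
    push_cast
    ring
  rw [e3, e4, hr, one_mul, one_mul] at h2
  exact h2

end

end Pool.Agent.AbCoc
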