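import Pool.Agent.Lib_MP_418a80_on.On6a
import Pool.Agent.Lib_MP_418a80_t3.Fam

/-!
# [ON] piece On6, part 2: averaging over signs

An inequality `P(X) ≤ ε (1 + ‖X²‖₂²) + C Q(X)` for all self-adjoint `X`, with `P` and `Q` quadratic,
implies an inequality for families.
-/

set_option autoImplicit false
set_option linter.unusedVariables false
set_option linter.unusedSectionVars false

open Topology Filter MeasureTheory

namespace Pool.Agent.AbCoc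

universe u v w

section
variable {A : Type u} [CStarAlgebra A] {K : Type v} [NormedAddCommGroup K]
  [InnerProductSpace ℂ K] [CompleteSpace K] (T : TrAlg A K)

theorem TrAlg.sa_mul_comm (x y : A) (hx : IsSelfAdjoint x) (hy : IsSelfAdjoint y) :
    ‖T.ι (y * x)‖ = ‖T.ι (x * y)‖ := by
  rw [← T.norm_star (x * y), star_mul, hx.star_eq, hy.star_eq]

/-- `‖(X+q)²‖₂² + ‖(X-q)²‖₂² ≤ 2‖X²‖₂² + 2‖q²‖₂² + 12 ‖Xq‖₂²` -/
theorem TrAlg.sq_par_le (x q : A) (hx : IsSelfAdjoint x) (hq : IsSelfAdjoint q) :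
    ‖T.ι ((x + q) * (x + q))‖ ^ 2 + ‖T.ι ((x - q) * (x - q))‖ ^ 2
      ≤ 2 * (‖T.ι (x * x)‖ ^ 2 + ‖T.ι (q * q)‖ ^ 2 + 6 * ‖T.ι (x * q)‖ ^ 2) := by
  obtain ⟨a, ha⟩ : ∃ a : A, a = x * x + q * q := ⟨_, rfl⟩
  obtain ⟨b, hb⟩ : ∃ b : A, b = x * q + q * x := ⟨_, rfl⟩
  have h1 : (x + q) * (x + q) = a + b := by rw [ha, hb]; noncomm_ring
  have h2 : (x - q) * (x - q) = a - b := by rw [ha, hb]; noncomm_ring
  have h3 := parallelogram_law_with_norm ℂ (T.ι a) (T.ι b)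
  rw [h1, h2, map_add, map_sub]
  have h4 : ‖T.ι a‖ ^ 2 = ‖T.ι (x * x)‖ ^ 2 + ‖T.ι (q * q)‖ ^ 2 + 2 * ‖T.ι (x * q)‖ ^ 2 := by
    rw [ha, map_add, @norm_add_sq ℂ]
    have h5 : RCLike.re (inner ℂ (T.ι (x * x)) (T.ι (q * q))) = ‖T.ι (x * q)‖ ^ 2 := by
      have h6 : inner ℂ (T.ι (x * x)) (T.ι (q * q)) = inner ℂ (T.ι (x * q)) (T.ι (x * q)) := by
        rw [T.left, T.right, hx.star_eq, hq.star_eq, mul_assoc]
      rw [h6, inner_self_eq_norm_sq]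
    rw [h5]
    ring
  have h7 : ‖T.ι b‖ ≤ 2 * ‖T.ι (x * q)‖ := by
    rw [hb, map_add]
    refine (norm_add_le _ _).trans ?_
    rw [T.sa_mul_comm x q hx hq]
    linarith
  have h8 : ‖T.ι b‖ ^ 2 ≤ 4 * ‖T.ι (x * q)‖ ^ 2 := by
    calc _ ≤ (2 * ‖T.ι (x * q)‖) ^ 2 := pow_le_pow_left₀ (norm_nonneg _) h7 2
      _ = _ := by ring
  nlinarith

theorem TrAlg.par_ι (c x q : A) :
    ‖T.ι (c * (x + q))‖ ^ 2 + ‖T.ι (c * (x - q))‖ ^ 2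
      = 2 * (‖T.ι (c * x)‖ ^ 2 + ‖T.ι (c * q)‖ ^ 2) := by
  have h3 := parallelogram_law_with_norm ℂ (T.ι (c * x)) (T.ι (c * q))
  rw [mul_add, mul_sub, map_add, map_sub]
  nlinarith

theorem TrAlg.par_ι' (c x q : A) :
    ‖T.ι ((x + q) * c)‖ ^ 2 + ‖T.ι ((x - q) * c)‖ ^ 2
      = 2 * (‖T.ι (x * c)‖ ^ 2 + ‖T.ι (q * c)‖ ^ 2) := by
  have h3 := parallelogram_law_with_norm ℂ (T.ι (x * c)) (T.ι (q * c))
  rw [add_mul, sub_mul, map_add, map_sub]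
  nlinarith

/-- averaging over the signs -/
theorem TrAlg.sign_avg {J : Type} [DecidableEq J] (P Q : A → ℝ)
    (hP : ∀ x y, P (x + y) + P (x - y) = 2 * (P x + P y))
    (hQ : ∀ x y, Q (x + y) + Q (x - y) = 2 * (Q x + Q y)) (ε C : ℝ) (hε : 0 ≤ ε)
    (h : ∀ X, IsSelfAdjoint X → P X ≤ ε * (1 + ‖T.ι (X * X)‖ ^ 2) + C * Q X)
    (q : J → A) (hq : ∀ j, IsSelfAdjoint (q j)) (F : Finset J) :
    ∀ X, IsSelfAdjoint X → P X + ∑ j ∈ F, P (q j)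
      ≤ ε * (1 + ‖T.ι (X * X)‖ ^ 2 + 6 * ∑ j ∈ F, ‖T.ι (X * q j)‖ ^ 2
          + 3 * ∑ i ∈ F, ∑ j ∈ F, ‖T.ι (q i * q j)‖ ^ 2) + C * (Q X + ∑ j ∈ F, Q (q j)) := by
  induction F using Finset.induction_on with
  | empty =>
    intro X hX
    simpa using h X hX
  | insert k F hk ih =>
    intro X hX
    have h1 := ih (X + q k) (hX.add (hq k))
    have h2 := ih (X - q k) (hX.sub (hq k))
    have hP1 := hP X (q k)
    have hQ1 := hQ X (q k)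
    have hsq := T.sq_par_le X (q k) hX (hq k)
    have hs : ∑ j ∈ F, ‖T.ι ((X + q k) * q j)‖ ^ 2 + ∑ j ∈ F, ‖T.ι ((X - q k) * q j)‖ ^ 2
        = 2 * (∑ j ∈ F, ‖T.ι (X * q j)‖ ^ 2 + ∑ j ∈ F, ‖T.ι (q k * q j)‖ ^ 2) := by
      rw [← Finset.sum_add_distrib, ← Finset.sum_add_distrib, Finset.mul_sum]
      exact Finset.sum_congr rfl fun j _ => T.par_ι' _ _ _
    have hss : ∑ i ∈ insert k F, ∑ j ∈ insert k F, ‖T.ι (q i * q j)‖ ^ 2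
        = ‖T.ι (q k * q k)‖ ^ 2 + 2 * ∑ j ∈ F, ‖T.ι (q k * q j)‖ ^ 2
          + ∑ i ∈ F, ∑ j ∈ F, ‖T.ι (q i * q j)‖ ^ 2 := by
      rw [Finset.sum_insert hk, Finset.sum_insert hk]
      have h3 : ∀ i ∈ F, ∑ j ∈ insert k F, ‖T.ι (q i * q j)‖ ^ 2
          = ‖T.ι (q k * q i)‖ ^ 2 + ∑ j ∈ F, ‖T.ι (q i * q j)‖ ^ 2 := by
        intro i _
        rw [Finset.sum_insert hk, T.sa_mul_comm (q k) (q i) (hq k) (hq i)]
      rw [Finset.sum_congr rfl h3, Finset.sum_add_distrib]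
      ring
    rw [hss, Finset.sum_insert hk, Finset.sum_insert hk, Finset.sum_insert hk]
    have hnn : 0 ≤ ‖T.ι (q k * q k)‖ ^ 2 := sq_nonneg _
    have hmul : ε * (‖T.ι ((X + q k) * (X + q k))‖ ^ 2 + ‖T.ι ((X - q k) * (X - q k))‖ ^ 2)
        ≤ ε * (2 * (‖T.ι (X * X)‖ ^ 2 + ‖T.ι (q k * q k)‖ ^ 2 + 6 * ‖T.ι (X * q k)‖ ^ 2)) :=
      mul_le_mul_of_nonneg_left hsq hε
    have hεn : 0 ≤ ε * ‖T.ι (q k * q k)‖ ^ 2 := mul_nonneg hε hnn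
    have hC : C * Q (X + q k) + C * Q (X - q k) = C * (2 * (Q X + Q (q k))) := by
      rw [← mul_add, hQ1]
    have hs' : ε * (∑ j ∈ F, ‖T.ι ((X + q k) * q j)‖ ^ 2)
        + ε * (∑ j ∈ F, ‖T.ι ((X - q k) * q j)‖ ^ 2)
        = ε * (2 * (∑ j ∈ F, ‖T.ι (X * q j)‖ ^ 2 + ∑ j ∈ F, ‖T.ι (q k * q j)‖ ^ 2)) := by
      rw [← mul_add, hs]
    linarith

/-- the inequality for dominated families of self-adjoint elements -/
theorem TrAlg.dm_sa {J : Type} [Fintype J] (P Q : A → ℝ)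
    (hP : ∀ x y, P (x + y) + P (x - y) = 2 * (P x + P y))
    (hQ : ∀ x y, Q (x + y) + Q (x - y) = 2 * (Q x + Q y)) (ε C : ℝ) (hε : 0 ≤ ε)
    (h : ∀ X, IsSelfAdjoint X → P X ≤ ε * (1 + ‖T.ι (X * X)‖ ^ 2) + C * Q X)
    (q : J → A) (hq : ∀ j, IsSelfAdjoint (q j)) (D : ℝ) (hD : T.Dm D q) :
    ∑ j, P (q j) ≤ ε * (1 + 3 * D ^ 2) + C * ∑ j, Q (q j) := by
  classical
  have h0 : ∀ R : A → ℝ, (∀ x y, R (x + y) + R (x - y) = 2 * (R x + R y)) → R 0 = 0 := by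
    intro R hR
    have := hR 0 0
    rw [add_zero, sub_zero] at this
    linarith
  have h1 := T.sign_avg P Q hP hQ ε C hε h q hq Finset.univ 0 (IsSelfAdjoint.zero A)
  rw [h0 P hP, h0 Q hQ, zero_add, zero_add] at h1
  have h2 : ∑ i, ∑ j, ‖T.ι (q i * q j)‖ ^ 2 ≤ D ^ 2 := by
    calc ∑ i, ∑ j, ‖T.ι (q i * q j)‖ ^ 2 ≤ ∑ i, D * ‖T.ι (q i)‖ ^ 2 :=
          Finset.sum_le_sum fun i _ => hD.2 (q i)
      _ = D * T.ms q := by rw [← Finset.mul_sum]; rfl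
      _ ≤ D * D := mul_le_mul_of_nonneg_left hD.ms_le hD.nonneg
      _ = D ^ 2 := by ring
  have h3 : (0 : A) * 0 = 0 := zero_mul 0
  simp only [zero_mul, map_zero, norm_zero] at h1
  have h4 : ε * (∑ i, ∑ j, ‖T.ι (q i * q j)‖ ^ 2) ≤ ε * D ^ 2 := mul_le_mul_of_nonneg_left h2 hε
  norm_num at h1
  linarith

end

end Pool.Agent.AbCoc
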