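import Pool.Agent.Lib_MP_418a80_on.OnBase
import Pool.Agent.Lib_MP_418a80_on.On6b

/-!
# [ON] On6: from unitaries to dominated families

(a) For self-adjoint `X` and `R > 0` the Cayley transform of `X / R` (`On6a.lean`).
(b) `FixU` in the form: for all `ε'` there are a compactly supported probability measure `m0` on `N`
and `C'` such that `‖β U - U‖₂² ≤ ε' + C' ∫ ‖α_s U - U‖₂² dm0` for ALL unitaries
(`TrAct.sup_le_integral`, ab/KeyOf.lean, for the group `N` and `S.sub N`).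
(c) Hence for all `ε` there are `m0`, `C'` with
`‖β X - X‖₂² ≤ ε (1 + ‖X²‖₂²) + C' ∫ ‖α_s X - X‖₂² dm0` for ALL self-adjoint `X`.
(d) Averaging over signs (`On6b.lean`).
(e) Real and imaginary parts.
-/

set_option autoImplicit false
set_option linter.unusedVariables false
set_option linter.unusedSectionVars false

open Topology Filter MeasureTheory
open scoped RealInnerProductSpace ComplexConjugate

namespace Pool.Agent.AbCoc

universe u v w z

section
variable {A : Type u} [CStarAlgebra A] {K : Type v} [NormedAddCommGroup K]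
  [InnerProductSpace ℂ K] [CompleteSpace K]
  {G : Type w} [Group G] [TopologicalSpace G] [IsTopologicalGroup G] [T2Space G]
  [SecondCountableTopology G] [LocallyCompactSpace G] {T : TrAlg A K} (S : TrAct G T)

/-- the integrated quadratic form -/
noncomputable def TrAct.qf (N : Subgroup G) [MeasurableSpace N] (m0 : Measure N) (x : A) : ℝ :=
  ∫ t, ‖T.ι ((S.sub N).α t x) - T.ι x‖ ^ 2 ∂m0

theorem TrAct.qf_cont (N : Subgroup G) (x : A) :
    Continuous fun t : N => ‖T.ι ((S.sub N).α t x) - T.ι x‖ ^ 2 :=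
  ((((S.sub N).cont x).sub continuous_const).norm).pow 2

theorem TrAct.qf_int (N : Subgroup G) [MeasurableSpace N] [BorelSpace N] (m0 : Measure N)
    [IsProbabilityMeasure m0] (x : A) :
    Integrable (fun t : N => ‖T.ι ((S.sub N).α t x) - T.ι x‖ ^ 2) m0 := by
  refine Integrable.of_bound (S.qf_cont N x).aestronglyMeasurable ((2 * ‖T.ι x‖) ^ 2)
    (Eventually.of_forall fun t => ?_)
  rw [Real.norm_of_nonneg (sq_nonneg _)]
  refine pow_le_pow_left₀ (norm_nonneg _) ((norm_sub_le _ _).trans ?_) 2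
  rw [(S.sub N).norm_map]
  linarith

theorem TrAct.qf_par (N : Subgroup G) [MeasurableSpace N] [BorelSpace N] (m0 : Measure N)
    [IsProbabilityMeasure m0] (x y : A) :
    S.qf N m0 (x + y) + S.qf N m0 (x - y) = 2 * (S.qf N m0 x + S.qf N m0 y) := by
  unfold TrAct.qf
  rw [← integral_add (S.qf_int N m0 _) (S.qf_int N m0 _),
    ← integral_add (S.qf_int N m0 _) (S.qf_int N m0 _), ← integral_const_mul]
  refine integral_congr_ae (Eventually.of_forall fun t => ?_)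
  dsimp only
  have h3 := parallelogram_law_with_norm ℂ (T.ι ((S.sub N).α t x) - T.ι x)
    (T.ι ((S.sub N).α t y) - T.ι y)
  have h4 : T.ι ((S.sub N).α t (x + y)) - T.ι (x + y)
      = (T.ι ((S.sub N).α t x) - T.ι x) + (T.ι ((S.sub N).α t y) - T.ι y) := by
    rw [map_add, map_add, map_add]; abel
  have h5 : T.ι ((S.sub N).α t (x - y)) - T.ι (x - y)
      = (T.ι ((S.sub N).α t x) - T.ι x) - (T.ι ((S.sub N).α t y) - T.ι y) := by
    rw [map_sub, map_sub, map_sub]; abel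
  rw [h4, h5]
  nlinarith

theorem TrAct.qf_nonneg (N : Subgroup G) [MeasurableSpace N] (m0 : Measure N) (x : A) :
    0 ≤ S.qf N m0 x := integral_nonneg fun _ => sq_nonneg _

/-- monotonicity under a Lipschitz bound -/
theorem TrAct.qf_le (N : Subgroup G) [MeasurableSpace N] [BorelSpace N] (m0 : Measure N)
    [IsProbabilityMeasure m0] (x y : A) (c : ℝ)
    (h : ∀ t : N, ‖T.ι ((S.sub N).α t x) - T.ι x‖ ^ 2 ≤ c * ‖T.ι ((S.sub N).α t y) - T.ι y‖ ^ 2) :
    S.qf N m0 x ≤ c * S.qf N m0 y := by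
  unfold TrAct.qf
  rw [← integral_const_mul]
  exact integral_mono (S.qf_int N m0 _) ((S.qf_int N m0 _).const_mul c) h

/-- (b), (c) -/
theorem TrAct.fix_sa (N : Subgroup G) (hN : IsClosed (N : Set G)) [MeasurableSpace N]
    [BorelSpace N] (β : A →⋆ₐ[ℂ] A)
    (hβ : ∀ a, ‖T.ι (β a)‖ = ‖T.ι a‖) (h : S.FixU N β) (ε : ℝ) (hε : 0 < ε) :
    ∃ (m0 : Measure N) (C : ℝ), IsProbabilityMeasure m0 ∧
      (∃ C0 : Set N, IsCompact C0 ∧ m0 C0ᶜ = 0) ∧ 0 ≤ C ∧
      ∀ X, IsSelfAdjoint X → ‖T.ι (β X - X)‖ ^ 2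
        ≤ ε * (1 + ‖T.ι (X * X)‖ ^ 2) + C * S.qf N m0 X := by
  obtain ⟨D, κ, hD, hDN, hκ, h1⟩ := h ε hε
  have hD' : IsCompact ((Subtype.val : N → G) ⁻¹' D) :=
    hN.isClosedEmbedding_subtypeVal.isCompact_preimage hD
  haveI : LocallyCompactSpace N := hN.isClosedEmbedding_subtypeVal.locallyCompactSpace
  haveI : SecondCountableTopology N := hN.isClosedEmbedding_subtypeVal.isEmbedding.secondCountableTopology
  obtain ⟨m0, hm0, hC0, c, hc, hsup⟩ := (S.sub N).sup_le_integral _ hD'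
  haveI := hm0
  -- all unitaries
  have hU : ∀ U : A, star U * U = 1 → U * star U = 1 →
      ‖T.ι (β U - U)‖ ^ 2 ≤ ε ^ 2 + 4 / κ ^ 2 * c * S.qf N m0 U := by
    intro U hU1 hU2
    have hq := S.qf_nonneg N m0 U
    by_cases hnear : ∀ s ∈ D, ‖T.ι (S.α s U - U)‖ ≤ κ
    · have h2 := h1 U ⟨hU1, hU2, hnear⟩
      have h3 := pow_le_pow_left₀ (norm_nonneg _) h2 2
      have : 0 ≤ 4 / κ ^ 2 * c * S.qf N m0 U := by positivity
      linarith
    · push Not at hnear
      obtain ⟨s, hs, hs2⟩ := hnear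
      have h2 := hsup U ⟨s, hDN hs⟩ hs
      have h3 : κ ^ 2 ≤ ‖T.ι (S.α s U - U)‖ ^ 2 := pow_le_pow_left₀ hκ.le hs2.le 2
      have h4 : κ ^ 2 ≤ c * S.qf N m0 U := h3.trans h2
      have h5 : ‖T.ι (β U - U)‖ ≤ 2 := by
        rw [map_sub]
        refine (norm_sub_le _ _).trans ?_
        rw [hβ]
        have h6 : ‖T.ι U‖ ≤ 1 := (T.norm_le U).trans (TrAct.norm_unit_le T U hU1)
        linarith
      have h7 : ‖T.ι (β U - U)‖ ^ 2 ≤ 4 := by
        have := pow_le_pow_left₀ (norm_nonneg _) h5 2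
        linarith
      have h8 : (4 : ℝ) ≤ 4 / κ ^ 2 * c * S.qf N m0 U := by
        rw [mul_assoc, div_mul_eq_mul_div, le_div_iff₀ (by positivity)]
        linarith
      nlinarith [sq_nonneg ε]
  refine ⟨m0, 8 / κ ^ 2 * c, hm0, hC0, by positivity, fun X hX => ?_⟩
  obtain ⟨R, hR⟩ : ∃ R : ℝ, R = Real.sqrt (2 / ε) := ⟨_, rfl⟩
  have hR0 : 0 < R := by rw [hR]; exact Real.sqrt_pos.2 (by positivity)
  have hR2 : R ^ 2 = 2 / ε := by rw [hR]; exact Real.sq_sqrt (by positivity)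
  obtain ⟨U, hU1, hU2, hU3, hU4⟩ := T.exists_cayley X hX R hR0
  obtain ⟨Z, hZ⟩ : ∃ Z : A, Z = (((R / 4 : ℝ) : ℂ) * (-Complex.I)) • (U - star U) := ⟨_, rfl⟩
  rw [← hZ] at hU3
  have h2 : ‖T.ι (β Z - Z)‖ ≤ R / 2 * ‖T.ι (β U - U)‖ := by
    have h3 : β Z - Z = (((R / 4 : ℝ) : ℂ) * (-Complex.I)) • ((β U - U) - star (β U - U)) := by
      rw [hZ, map_smul, ← smul_sub, map_sub, map_star, star_sub]
      congr 1
      abel
    rw [h3, map_smul, norm_smul, norm_mul, norm_neg, Complex.norm_I, mul_one, Complex.norm_real,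
      Real.norm_of_nonneg (by positivity)]
    have h4 : ‖T.ι ((β U - U) - star (β U - U))‖ ≤ 2 * ‖T.ι (β U - U)‖ := by
      rw [map_sub]
      refine (norm_sub_le _ _).trans ?_
      rw [T.norm_star]
      linarith
    nlinarith
  have h5 : ‖T.ι (β X - X)‖ ≤ ‖T.ι (X * X)‖ / R + R / 2 * ‖T.ι (β U - U)‖ := by
    have h6 : β X - X = β (X - Z) - (X - Z) + (β Z - Z) := by rw [map_sub]; abel
    have h7 : ‖T.ι (β (X - Z) - (X - Z))‖ ≤ 2 * ‖T.ι (X - Z)‖ := by
      rw [map_sub]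
      refine (norm_sub_le _ _).trans ?_
      rw [hβ]
      linarith
    rw [h6, map_add]
    refine (norm_add_le _ _).trans ?_
    have h8 : 2 * (‖T.ι (X * X)‖ / (2 * R)) = ‖T.ι (X * X)‖ / R := by
      field_simp
    linarith
  have h9 : ‖T.ι (β X - X)‖ ^ 2
      ≤ 2 * (‖T.ι (X * X)‖ / R) ^ 2 + 2 * (R / 2 * ‖T.ι (β U - U)‖) ^ 2 := by
    have := pow_le_pow_left₀ (norm_nonneg _) h5 2
    nlinarith [sq_nonneg (‖T.ι (X * X)‖ / R - R / 2 * ‖T.ι (β U - U)‖)]
  have h10 : 2 * (‖T.ι (X * X)‖ / R) ^ 2 = ε * ‖T.ι (X * X)‖ ^ 2 := by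
    rw [div_pow, hR2]
    field_simp
  have h11 : S.qf N m0 U ≤ (2 / R) ^ 2 * S.qf N m0 X := by
    refine S.qf_le N m0 U X _ fun t => ?_
    have h12 := hU4 ((S.sub N).α t)
    rw [map_sub, map_sub] at h12
    calc _ ≤ (2 / R * ‖T.ι ((S.sub N).α t X) - T.ι X‖) ^ 2 :=
          pow_le_pow_left₀ (norm_nonneg _) h12 2
      _ = _ := by rw [mul_pow]
  have h13 := hU U hU1 hU2
  have h14 : 2 * (R / 2 * ‖T.ι (β U - U)‖) ^ 2 = (R ^ 2 / 2) * ‖T.ι (β U - U)‖ ^ 2 := by ring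
  have hRR : R ^ 2 / 2 = 1 / ε := by rw [hR2]; field_simp
  have h15 : (R ^ 2 / 2) * ‖T.ι (β U - U)‖ ^ 2 ≤ ε + 8 / κ ^ 2 * c * S.qf N m0 X := by
    calc (R ^ 2 / 2) * ‖T.ι (β U - U)‖ ^ 2
        ≤ (R ^ 2 / 2) * (ε ^ 2 + 4 / κ ^ 2 * c * ((2 / R) ^ 2 * S.qf N m0 X)) := by
          refine mul_le_mul_of_nonneg_left (h13.trans ?_) (by positivity)
          have : 4 / κ ^ 2 * c * S.qf N m0 U ≤ 4 / κ ^ 2 * c * ((2 / R) ^ 2 * S.qf N m0 X) :=
            mul_le_mul_of_nonneg_left h11 (by positivity)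
          linarith
      _ = (R ^ 2 / 2) * ε ^ 2 + 8 / κ ^ 2 * c * S.qf N m0 X := by
          field_simp
          ring
      _ = _ := by
          rw [hRR]
          field_simp
  rw [h10, h14] at h9
  nlinarith

/-- from unitaries to dominated families -/
theorem TrAct.fixF_of_fixU (N : Subgroup G) (hN : IsClosed (N : Set G)) (β : A →⋆ₐ[ℂ] A)
    (hβ : ∀ a, ‖T.ι (β a)‖ = ‖T.ι a‖) (h : S.FixU N β) : S.FixF N β := by
  intro C ε hε
  letI : MeasurableSpace N := borel N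
  haveI : BorelSpace N := ⟨rfl⟩
  obtain ⟨ε', hε'⟩ : ∃ ε' : ℝ, ε' = ε / (8 * (1 + 3 * C ^ 2)) := ⟨_, rfl⟩
  have hε'0 : 0 < ε' := by rw [hε']; positivity
  obtain ⟨m0, c, hm0, ⟨C0, hC0, hC0m⟩, hc, hfix⟩ := S.fix_sa N hN β hβ h ε' hε'0
  haveI := hm0
  refine ⟨Subtype.val '' C0, ε / (8 * (c + 1)), hC0.image continuous_subtype_val, ?_,
    by positivity, ?_⟩
  · rintro _ ⟨t, _, rfl⟩
    exact t.2
  intro J _ Y hY hne
  have hP : ∀ x y : A, ‖T.ι (β (x + y) - (x + y))‖ ^ 2 + ‖T.ι (β (x - y) - (x - y))‖ ^ 2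
      = 2 * (‖T.ι (β x - x)‖ ^ 2 + ‖T.ι (β y - y)‖ ^ 2) := by
    intro x y
    have h3 := parallelogram_law_with_norm ℂ (T.ι (β x - x)) (T.ι (β y - y))
    have h4 : T.ι (β (x + y) - (x + y)) = T.ι (β x - x) + T.ι (β y - y) := by
      rw [← map_add T.ι, map_add β]; congr 1; abel
    have h5 : T.ι (β (x - y) - (x - y)) = T.ι (β x - x) - T.ι (β y - y) := by
      rw [← map_sub T.ι, map_sub β]; congr 1; abel
    rw [h4, h5]
    nlinarith
  -- a self-adjoint part of the family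
  have key : ∀ e : ℂ, ‖e‖ = 1 → ∑ j, ‖T.ι (β ((2 : ℂ)⁻¹ • (e • Y j + star (e • Y j)))
      - (2 : ℂ)⁻¹ • (e • Y j + star (e • Y j)))‖ ^ 2 ≤ ε / 4 := by
    intro e he
    obtain ⟨q, hq⟩ : ∃ q : J → A, q = fun j => (2 : ℂ)⁻¹ • (e • Y j + star (e • Y j)) := ⟨_, rfl⟩
    have hq' : ∀ j, q j = (2 : ℂ)⁻¹ • (e • Y j + star (e • Y j)) := fun j => by rw [hq]
    have hqsa : ∀ j, IsSelfAdjoint (q j) := by
      intro j
      rw [hq' j, IsSelfAdjoint, star_smul, star_add, star_star]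
      have : star ((2 : ℂ)⁻¹) = (2 : ℂ)⁻¹ := by
        rw [star_inv₀]
        simp
      rw [this, add_comm]
    have hmid : ∀ a b : K, ‖(2 : ℂ)⁻¹ • (a + b)‖ ^ 2 ≤ (‖a‖ ^ 2 + ‖b‖ ^ 2) / 2 := by
      intro a b
      rw [norm_smul, norm_inv]
      have h2 : ‖(2 : ℂ)‖ = 2 := by simp
      rw [h2]
      have h3 := norm_add_le a b
      have h4 := pow_le_pow_left₀ (norm_nonneg _) h3 2
      nlinarith [sq_nonneg (‖a‖ - ‖b‖)]
    have hstarY : T.Dm C (fun j => star (Y j)) := hY.star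
    have hqD : T.Dm C q := by
      constructor
      · intro z
        calc ∑ j, ‖T.ι (q j * z)‖ ^ 2
            ≤ ∑ j, (‖T.ι (Y j * z)‖ ^ 2 + ‖T.ι (star (Y j) * z)‖ ^ 2) / 2 := by
              refine Finset.sum_le_sum fun j _ => ?_
              rw [hq' j, smul_mul_assoc, add_mul, map_smul, map_add]
              refine (hmid _ _).trans (le_of_eq ?_)
              rw [smul_mul_assoc, star_smul, smul_mul_assoc, map_smul, map_smul, norm_smul,
                norm_smul, norm_star, he, one_mul, one_mul]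
          _ = (∑ j, ‖T.ι (Y j * z)‖ ^ 2 + ∑ j, ‖T.ι (star (Y j) * z)‖ ^ 2) / 2 := by
              rw [← Finset.sum_div, Finset.sum_add_distrib]
          _ ≤ C * ‖T.ι z‖ ^ 2 := by
              have h1 := hY.1 z
              have h2 := hstarY.1 z
              linarith
      · intro z
        calc ∑ j, ‖T.ι (z * q j)‖ ^ 2
            ≤ ∑ j, (‖T.ι (z * Y j)‖ ^ 2 + ‖T.ι (z * star (Y j))‖ ^ 2) / 2 := by
              refine Finset.sum_le_sum fun j _ => ?_
              rw [hq' j, mul_smul_comm, mul_add, map_smul, map_add]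
              refine (hmid _ _).trans (le_of_eq ?_)
              rw [mul_smul_comm, star_smul, mul_smul_comm, map_smul, map_smul, norm_smul,
                norm_smul, norm_star, he, one_mul, one_mul]
          _ = (∑ j, ‖T.ι (z * Y j)‖ ^ 2 + ∑ j, ‖T.ι (z * star (Y j))‖ ^ 2) / 2 := by
              rw [← Finset.sum_div, Finset.sum_add_distrib]
          _ ≤ C * ‖T.ι z‖ ^ 2 := by
              have h1 := hY.2 z
              have h2 := hstarY.2 z
              linarith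
    have h1 := T.dm_sa (fun x => ‖T.ι (β x - x)‖ ^ 2) (S.qf N m0) hP (S.qf_par N m0) ε' c
      hε'0.le hfix q hqsa C hqD
    have h2 : ∑ j, S.qf N m0 (q j) ≤ ε / (8 * (c + 1)) := by
      have h3 : ∑ j, S.qf N m0 (q j)
          = ∫ t, ∑ j, ‖T.ι ((S.sub N).α t (q j)) - T.ι (q j)‖ ^ 2 ∂m0 := by
        rw [integral_finsetSum _ fun j _ => S.qf_int N m0 (q j)]
        rfl
      rw [h3]
      have h4 : ∀ᵐ t ∂m0, ∑ j, ‖T.ι ((S.sub N).α t (q j)) - T.ι (q j)‖ ^ 2
          ≤ ε / (8 * (c + 1)) := by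
        have h5 : ∀ᵐ t ∂m0, t ∈ C0 := by
          rw [ae_iff]
          exact hC0m
        filter_upwards [h5] with t ht
        refine le_trans (Finset.sum_le_sum fun j _ => ?_) (hne t.1 ⟨t, ht, rfl⟩)
        have h6 : T.ι ((S.sub N).α t (q j)) - T.ι (q j)
            = (2 : ℂ)⁻¹ • (e • T.ι (S.α t.1 (Y j) - Y j)
              + star e • T.ι (star (S.α t.1 (Y j) - Y j))) := by
          have h7 : (S.sub N).α t (q j) = S.α t.1 (q j) := rfl
          rw [h7, hq' j, ← map_sub, ← map_smul, ← map_smul, ← map_add, ← map_smul]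
          congr 1
          rw [map_smul, map_add, map_smul, map_star, map_smul, star_sub, star_smul, star_smul,
            ← map_star, smul_sub, smul_sub, ← smul_sub]
          congr 1
          abel
        rw [h6]
        refine (hmid _ _).trans ?_
        rw [norm_smul, norm_smul, norm_star, he, one_mul, one_mul, T.norm_star]
        linarith
      calc ∫ t, ∑ j, ‖T.ι ((S.sub N).α t (q j)) - T.ι (q j)‖ ^ 2 ∂m0
          ≤ ∫ _ : N, ε / (8 * (c + 1)) ∂m0 := by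
            refine integral_mono_ae ?_ (integrable_const _) h4
            exact integrable_finsetSum _ fun j _ => S.qf_int N m0 (q j)
        _ = ε / (8 * (c + 1)) := by
            rw [integral_const, probReal_univ, one_smul]
    have h5 : ε' * (1 + 3 * C ^ 2) = ε / 8 := by
      rw [hε']
      have : (1 + 3 * C ^ 2) ≠ 0 := by positivity
      field_simp
    have h6 : c * ∑ j, S.qf N m0 (q j) ≤ ε / 8 := by
      calc c * ∑ j, S.qf N m0 (q j) ≤ c * (ε / (8 * (c + 1))) := mul_le_mul_of_nonneg_left h2 hc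
        _ ≤ ε / 8 := by
            rw [mul_div_assoc', div_le_div_iff₀ (by positivity) (by norm_num)]
            nlinarith
    have h7 : ∑ j, ‖T.ι (β (q j) - q j)‖ ^ 2 ≤ ε / 4 := by
      have h8 : ∑ j, ‖T.ι (β (q j) - q j)‖ ^ 2
          ≤ ε' * (1 + 3 * C ^ 2) + c * ∑ j, S.qf N m0 (q j) := h1
      linarith
    rw [hq] at h7
    exact h7
  have hre := key 1 (by simp)
  have him := key (-Complex.I) (by simp)
  have hsplit : ∀ j, ‖T.ι (β (Y j) - Y j)‖ ^ 2
      ≤ 2 * ‖T.ι (β ((2 : ℂ)⁻¹ • ((1 : ℂ) • Y j + star ((1 : ℂ) • Y j)))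
        - (2 : ℂ)⁻¹ • ((1 : ℂ) • Y j + star ((1 : ℂ) • Y j)))‖ ^ 2
      + 2 * ‖T.ι (β ((2 : ℂ)⁻¹ • ((-Complex.I) • Y j + star ((-Complex.I) • Y j)))
        - (2 : ℂ)⁻¹ • ((-Complex.I) • Y j + star ((-Complex.I) • Y j)))‖ ^ 2 := by
    intro j
    obtain ⟨a, ha⟩ : ∃ a : A, a = (2 : ℂ)⁻¹ • ((1 : ℂ) • Y j + star ((1 : ℂ) • Y j)) := ⟨_, rfl⟩
    obtain ⟨b, hb⟩ : ∃ b : A, b = (2 : ℂ)⁻¹ • ((-Complex.I) • Y j + star ((-Complex.I) • Y j)) :=
      ⟨_, rfl⟩
    rw [← ha, ← hb]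
    have hY' : Y j = a + Complex.I • b := by
      rw [ha, hb, star_smul, star_smul, smul_comm Complex.I, ← smul_add, smul_add Complex.I,
        smul_smul, smul_smul]
      have h1 : star (-Complex.I) = Complex.I := by
        rw [star_neg]
        simp
      rw [h1, star_one, one_smul, one_smul, mul_neg, Complex.I_mul_I, neg_neg, one_smul, neg_one_smul]
      have h2 : Y j + star (Y j) + (Y j + -star (Y j)) = (2 : ℂ) • Y j := by
        rw [two_smul]; abel
      rw [h2, smul_smul]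
      norm_num
    have h1 : T.ι (β (Y j) - Y j) = T.ι (β a - a) + Complex.I • T.ι (β b - b) := by
      rw [hY', map_add, map_smul, ← map_smul T.ι, ← map_add T.ι, smul_sub]
      congr 1
      abel
    rw [h1]
    have h2 := norm_add_le (T.ι (β a - a)) (Complex.I • T.ι (β b - b))
    rw [norm_smul, Complex.norm_I, one_mul] at h2
    have h3 := pow_le_pow_left₀ (norm_nonneg _) h2 2
    nlinarith [sq_nonneg (‖T.ι (β a - a)‖ - ‖T.ι (β b - b)‖)]
  calc ∑ j, ‖T.ι (β (Y j) - Y j)‖ ^ 2 ≤ _ := Finset.sum_le_sum fun j _ => hsplit j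
    _ ≤ ε := by
      rw [Finset.sum_add_distrib, ← Finset.mul_sum, ← Finset.mul_sum]
      linarith

/-- from unitaries to contractions -/
theorem TrAct.fixC_of_fixU (N : Subgroup G) (hN : IsClosed (N : Set G)) (β : A →⋆ₐ[ℂ] A)
    (hβ : ∀ a, ‖T.ι (β a)‖ = ‖T.ι a‖) (h : S.FixU N β) : S.FixC N β := by
  intro ε hε
  obtain ⟨D, κ, hD, hDN, hκ, h1⟩ := S.fixF_of_fixU N hN β hβ h 1 (ε ^ 2) (by positivity)
  refine ⟨D, Real.sqrt κ, hD, hDN, Real.sqrt_pos.2 hκ, fun x hx => ?_⟩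
  have h2 := h1 Unit (fun _ => x) (TrAlg.Dm.single (by
    have := pow_le_pow_left₀ (norm_nonneg x) hx.le 2
    simpa using this)) (fun s hs => by
      rw [Fintype.sum_unique]
      have h3 := hx.ne s hs
      rw [one_smul] at h3
      calc _ ≤ Real.sqrt κ ^ 2 := pow_le_pow_left₀ (norm_nonneg _) h3 2
        _ = κ := Real.sq_sqrt hκ.le)
  rw [Fintype.sum_unique] at h2
  exact abs_le_of_sq_le_sq' h2 hε.le |>.2

end

end Pool.Agent.AbCoc
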