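import Pool.Agent.Lib_MP_418a80_on.OnBase
import Pool.Agent.Lib_MP_418a80_on.On6
import Pool.Agent.Lib_MP_418a80_on.On11d

/-!
# [ON] On11: cells (helper42)

`β` fixes late near-`(N, q)`-eigen contractions, uniformly in `q`. Then it fixes late near-`N'`-invariant
unitaries, `N' = ker p`. `e` such a unitary, `E_k = N^-m ∑_j ω^(-k.j) α_(σ(δ j)) e`, `k, j ∈ (ℤ/N)^m`,
`σ(v) ∈ N` arbitrary lifts in a compact set, mesh `δ` after `e`; `Y_(c,k) = N^(-m/2) x'_c E_k x_(q_c - q_k)`,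
`c, k` in the box, `x'_c` near-`(-q_c)`-eigen, `x_n` near-`n`-eigen, chosen AFTER `E`: dominated by `3^m`,
near-`N`-invariant, `∑ ‖β Y - Y‖² ≥ (1/64) ∑_k ‖β E_k - E_k‖² ≈ (1/64) ‖β e - e‖²` (the last step by the
covariance of `β` and `hpsi`: `β(α_s e) ≈ α_s (β e)`).
-/

set_option autoImplicit false
set_option linter.unusedVariables false
set_option linter.unusedSectionVars false

open Topology Filter MeasureTheory
open scoped RealInnerProductSpace ComplexConjugate Pointwise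

namespace Pool.Agent.AbCoc

universe u v w z

section
variable {A : Type u} [CStarAlgebra A] {K : Type v} [NormedAddCommGroup K]
  [InnerProductSpace ℂ K] [CompleteSpace K]
  {G : Type w} [Group G] [TopologicalSpace G] [IsTopologicalGroup G] [T2Space G]
  [SecondCountableTopology G] [LocallyCompactSpace G] {T : TrAlg A K} (S : TrAct G T)

theorem TrAct.fixU_of_scalE (m : ℕ) (N N' : Subgroup G)
    (hN : IsClosed (N : Set G)) (p : G → EuclideanSpace ℝ (Fin m)) (hp : IsLayer N N' p)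
    (heig : S.EigN N p) (β : A →⋆ₐ[ℂ] A) (g : G) (hg : ∀ s, s ∈ N ↔ g * s * g⁻¹ ∈ N)
    (hβ : S.Tw N g β)
    (hpsi : ∀ s ∈ N, p (g * s * g⁻¹) = p s) (hE : S.ScalE N p β fun _ => 1) : S.FixU N' β := by
  intro ε hε
  obtain ⟨b, hb⟩ : ∃ b : OrthonormalBasis (Fin m) ℝ (EuclideanSpace ℝ (Fin m)),
      b = EuclideanSpace.basisFun (Fin m) ℝ := ⟨_, rfl⟩
  obtain ⟨σ, hσN, hσp, hσK⟩ := hp.exists_lift hN
  -- dominated families
  have hU : S.FixU N β := by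
    intro ε' hε'
    obtain ⟨D, κ, hD, hDN, hκ, h1⟩ := hE ε' hε'
    refine ⟨D, κ, hD, hDN, hκ, fun u hu => ?_⟩
    have h2 := h1 0 u (NE.zero hu.ne)
    rwa [one_smul] at h2
  have hF : S.FixF N β := S.fixF_of_fixU N hN β hβ.iso hU
  obtain ⟨D1, κ1, hD1, hD1N, hκ1, hF1⟩ := hF ((3 : ℝ) ^ m) (ε ^ 2 / 1024) (by positivity)
  obtain ⟨W, D', κ', hD', hD'N, hκ', hcell⟩ := S.exists_bcell b N N' hN p hp σ hσN hσp hσK D1 hD1
    hD1N (κ1 / 6) (by positivity)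
  obtain ⟨Kc, hKc, hKcN, hKcσ⟩ := hσK W
  have hN'c : IsClosed (N' : Set G) := hp.isClosed_ker hN
  obtain ⟨D'', hD''⟩ : ∃ D'' : Set G, D'' = ({g⁻¹} : Set G) * Kc⁻¹ * {g} * Kc := ⟨_, rfl⟩
  have hD''c : IsCompact D'' := by
    rw [hD'']
    exact ((isCompact_singleton.mul hKc.inv).mul isCompact_singleton).mul hKc
  refine ⟨D' ∪ (D'' ∩ N'), min κ' (ε / 4), hD'.union (hD''c.inter_right hN'c),
    Set.union_subset hD'N Set.inter_subset_right, lt_min hκ' (by positivity), fun e he => ?_⟩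
  have he1 : ‖e‖ ≤ 1 := he.norm_le
  have he2 : ‖T.ι e‖ ≤ 1 := (T.norm_le e).trans he1
  obtain ⟨M, hMz, δ, hδ, hgrid, hcell2⟩ := hcell e he2 fun h hh =>
    (he.near h (Or.inl hh)).trans (min_le_left _ _)
  have hM0 : (0 : ℝ) < (M : ℝ) ^ m := by
    have : (0 : ℝ) < M := Nat.cast_pos.2 (Nat.pos_of_ne_zero (NeZero.ne M))
    positivity
  -- the precision of the multipliers
  obtain ⟨ε2, hε2⟩ : ∃ ε2 : ℝ, ε2 = Real.sqrt (ε ^ 2 / (4096 * (M : ℝ) ^ m)) := ⟨_, rfl⟩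
  have hε20 : 0 < ε2 := by rw [hε2]; positivity
  have hε2M : 512 * (M : ℝ) ^ m * ε2 ^ 2 = ε ^ 2 / 8 := by
    rw [hε2, Real.sq_sqrt (by positivity)]
    field_simp
    norm_num
  obtain ⟨D2, κ2, hD2, hD2N, hκ2, hE2⟩ := hE ε2 hε20
  obtain ⟨κ3, hκ3⟩ : ∃ κ3 : ℝ, κ3 = min κ2 (Real.sqrt (κ1 / (12 * (M : ℝ) ^ m))) := ⟨_, rfl⟩
  have hκ30 : 0 < κ3 := by rw [hκ3]; exact lt_min hκ2 (by positivity)
  have hκ3M : 6 * (M : ℝ) ^ m * κ3 ^ 2 ≤ κ1 / 2 := by
    have h1 : κ3 ≤ Real.sqrt (κ1 / (12 * (M : ℝ) ^ m)) := by rw [hκ3]; exact min_le_right _ _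
    have h2 : κ3 ^ 2 ≤ κ1 / (12 * (M : ℝ) ^ m) := by
      have := pow_le_pow_left₀ hκ30.le h1 2
      rwa [Real.sq_sqrt (by positivity)] at this
    rw [le_div_iff₀ (by positivity)] at h2
    linarith
  have hDc : IsCompact (D1 ∪ D2) := hD1.union hD2
  have hDcN : D1 ∪ D2 ⊆ (N : Set G) := Set.union_subset hD1N hD2N
  -- the right multipliers
  have hxex := fun n : Fin m → ℤ => heig.left (lamZ b M δ n) (D1 ∪ D2) hDc hDcN κ3 hκ30
    (Fin m → ZMod M) fun k => β (S.bcell b σ M δ e k) - S.bcell b σ M δ e k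
  choose x hx hxlow using hxex
  have hx'ex := fun c : Fin m → ZMod M => heig (-lamV b M δ c) (D1 ∪ D2) hDc hDcN κ3 hκ30
    (Fin m → ZMod M) fun k => (β (S.bcell b σ M δ e k) - S.bcell b σ M δ e k) * x (bdif c k)
  choose x' hx' hx'low using hx'ex
  have hxβ : ∀ n, ‖T.ι (β (x n) - x n)‖ ≤ ε2 := by
    intro n
    have h1 := hE2 (lamZ b M δ n) (x n) ((hx n).mono Set.subset_union_right
      (by rw [hκ3]; exact min_le_left _ _))
    rwa [one_smul] at h1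
  have hx'β : ∀ c, ‖T.ι (β (x' c) - x' c)‖ ≤ ε2 := by
    intro c
    have h1 := hE2 (-lamV b M δ c) (x' c) ((hx' c).mono Set.subset_union_right
      (by rw [hκ3]; exact min_le_left _ _))
    rwa [one_smul] at h1
  -- the window family
  have hY := hF1 ((Fin m → ZMod M) × (Fin m → ZMod M)) (S.wfam b σ M δ e x' x)
    (S.wfam_dm b he1 (fun c => (hx' c).le) (fun n => (hx n).le)) (fun s hs => by
      refine (S.wfam_inv b p he1 s κ3 hκ30.le (fun c => (hx' c).le) (fun n => (hx n).le)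
        (fun c => (hx' c).ne s (Or.inl hs)) (fun n => (hx n).ne s (Or.inl hs))).trans ?_
      have h1 := hcell2 s hs
      linarith)
  have hlow := S.wfam_low b β he1 ε2 hε20.le (fun c => (hx' c).le) (fun n => (hx n).le) hx'β hxβ
    (fun c k => by
      have h1 := hxlow (bdif c k) k
      have h2 := hx'low c k
      have e1 : x' c * ((β (S.bcell b σ M δ e k) - S.bcell b σ M δ e k) * x (bdif c k))
          = x' c * (β (S.bcell b σ M δ e k) - S.bcell b σ M δ e k) * x (bdif c k) :=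
        (mul_assoc _ _ _).symm
      rw [e1] at h2
      linarith)
  have hsum : ∑ k : Fin m → ZMod M, ‖T.ι (β (S.bcell b σ M δ e k) - S.bcell b σ M δ e k)‖ ^ 2
      ≤ ε ^ 2 / 4 := by
    rw [hε2M] at hlow
    linarith
  -- comparison with `e`
  obtain ⟨r, hr⟩ : ∃ r : ℝ, r = (boxChs m M).r := ⟨_, rfl⟩
  have hrM : r ^ 2 * (M : ℝ) ^ m = 1 := by rw [hr]; exact boxChs_r_sq
  have hcov : ∀ j ∈ boxF m M, ‖T.ι (β (S.α (σ (gridV b δ j)) e)
      - S.α (σ (gridV b δ j)) (β e))‖ ≤ ε / 4 := by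
    intro j hj
    obtain ⟨s, hs⟩ : ∃ s : G, s = σ (gridV b δ j) := ⟨_, rfl⟩
    have hsN : s ∈ N := by rw [hs]; exact hσN _
    have hsK : s ∈ Kc := by rw [hs]; exact hKcσ _ (hgrid j hj)
    rw [← hs, hβ.cov s hsN]
    have hgs : g * s * g⁻¹ ∈ N := (hg s).1 hsN
    obtain ⟨h, hh⟩ : ∃ h : G, h = s⁻¹ * (g * s * g⁻¹) := ⟨_, rfl⟩
    have hhN : h ∈ N := by rw [hh]; exact N.mul_mem (N.inv_mem hsN) hgs
    have hhN' : h ∈ N' := by
      refine (hp.ker h hhN).1 ?_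
      rw [hh, hp.p_inv_mul hsN hgs, hpsi s hsN, sub_self]
    obtain ⟨h', hh'⟩ : ∃ h' : G, h' = g⁻¹ * h * g := ⟨_, rfl⟩
    have hh'c : g * h' * g⁻¹ = h := by rw [hh']; group
    have hh'N : h' ∈ N := (hg h').2 (by rw [hh'c]; exact hhN)
    have hh'N' : h' ∈ N' := by
      refine (hp.ker h' hh'N).1 ?_
      rw [← hpsi h' hh'N, hh'c]
      exact (hp.ker h hhN).2 hhN'
    have hh'D : h' ∈ D'' := by
      have e1 : h' = g⁻¹ * s⁻¹ * g * s := by rw [hh', hh]; group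
      rw [e1, hD'']
      exact Set.mul_mem_mul (Set.mul_mem_mul (Set.mul_mem_mul rfl (Set.inv_mem_inv.2 hsK)) rfl) hsK
    have e1 : S.α (g * s * g⁻¹) (β e) = S.α s (β (S.α h' e)) := by
      rw [hβ.cov h' (hp.le hh'N'), ← S.mul]
      congr 2
      rw [hh', hh]
      group
    rw [e1, ← map_sub, S.norm_map, ← map_sub, hβ.iso]
    exact (he.near h' (Or.inr ⟨hh'D, hh'N'⟩)).trans (min_le_right _ _)
  have hpl : ∀ (f f' : (Fin m → ℤ) → A) (B : ℝ), (∀ j ∈ boxF m M, ‖T.ι (f j - f' j)‖ ≤ B) →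
      ∑ j ∈ boxF m M, ‖T.ι ((r : ℂ) • f j - (r : ℂ) • f' j)‖ ^ 2 ≤ B ^ 2 := by
    intro f f' B hff
    have h1 : ∀ j ∈ boxF m M, ‖T.ι ((r : ℂ) • f j - (r : ℂ) • f' j)‖ ^ 2 ≤ r ^ 2 * B ^ 2 := by
      intro j hj
      rw [← smul_sub, T.norm_smul_sq, Complex.norm_real, Real.norm_eq_abs, sq_abs]
      refine mul_le_mul_of_nonneg_left ?_ (sq_nonneg _)
      exact pow_le_pow_left₀ (norm_nonneg _) (hff j hj) 2
    refine (Finset.sum_le_sum h1).trans (le_of_eq ?_)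
    rw [Finset.sum_const, card_boxF, nsmul_eq_mul]
    push_cast
    calc (M : ℝ) ^ m * (r ^ 2 * B ^ 2) = (r ^ 2 * (M : ℝ) ^ m) * B ^ 2 := by ring
      _ = B ^ 2 := by rw [hrM, one_mul]
  obtain ⟨Z, hZ⟩ : ∃ Z : (Fin m → ZMod M) → A, Z = fun c =>
      (boxChs m M).X (fun j => (r : ℂ) • S.α (σ (gridV b δ j)) (β e)) c := ⟨_, rfl⟩
  -- `β E_k` is the cell of `β e`
  have p1 : ∑ c : Fin m → ZMod M, ‖T.ι (β (S.bcell b σ M δ e c) - Z c)‖ ^ 2 ≤ (ε / 4) ^ 2 := by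
    have e0 : ∀ c : Fin m → ZMod M, β (S.bcell b σ M δ e c)
        = (boxChs m M).X (fun j => (r : ℂ) • β (S.α (σ (gridV b δ j)) e)) c := by
      intro c
      have h1 : β (S.bcell b σ M δ e c) = (boxChs m M).X
          (fun j => β ((r : ℂ) • S.α (σ (gridV b δ j)) e)) c := by
        rw [hr]
        exact (boxChs m M).map_X _ _ _
      rw [h1]
      congr 1
      funext j
      exact map_smul _ _ _
    simp only [e0, hZ]
    refine le_trans (le_of_eq ((boxChs m M).sum_norm_sq_sub T _ _)) ?_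
    exact hpl _ _ _ hcov
  have p2 : ∑ c : Fin m → ZMod M, ‖T.ι (Z c - S.bcell b σ M δ e c)‖ ^ 2
      = ‖T.ι (β e - e)‖ ^ 2 := by
    have e0 : ∀ c : Fin m → ZMod M, S.bcell b σ M δ e c
        = (boxChs m M).X (fun j => (r : ℂ) • S.α (σ (gridV b δ j)) e) c := by
      intro c
      rw [hr]
      rfl
    simp only [e0, hZ]
    refine ((boxChs m M).sum_norm_sq_sub T _ _).trans ?_
    have h1 : ∀ j ∈ boxF m M, ‖T.ι ((r : ℂ) • S.α (σ (gridV b δ j)) (β e)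
        - (r : ℂ) • S.α (σ (gridV b δ j)) e)‖ ^ 2 = r ^ 2 * ‖T.ι (β e - e)‖ ^ 2 := by
      intro j _
      rw [← smul_sub, ← map_sub (S.α _), T.norm_smul_sq, S.norm_map, Complex.norm_real,
        Real.norm_eq_abs, sq_abs]
    rw [Finset.sum_congr rfl h1, Finset.sum_const, card_boxF, nsmul_eq_mul]
    push_cast
    calc (M : ℝ) ^ m * (r ^ 2 * ‖T.ι (β e - e)‖ ^ 2)
        = (r ^ 2 * (M : ℝ) ^ m) * ‖T.ι (β e - e)‖ ^ 2 := by ring
      _ = ‖T.ι (β e - e)‖ ^ 2 := by rw [hrM, one_mul]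
  have p3 : ‖T.ι (β e - e)‖ ^ 2 ≤ 2 * (ε / 4) ^ 2 + 2 * (ε ^ 2 / 4) := by
    rw [← p2]
    calc ∑ c : Fin m → ZMod M, ‖T.ι (Z c - S.bcell b σ M δ e c)‖ ^ 2
        ≤ ∑ c : Fin m → ZMod M, (2 * ‖T.ι (β (S.bcell b σ M δ e c) - Z c)‖ ^ 2
          + 2 * ‖T.ι (β (S.bcell b σ M δ e c) - S.bcell b σ M δ e c)‖ ^ 2) := by
          refine Finset.sum_le_sum fun c _ => ?_
          have e1 : Z c - S.bcell b σ M δ e c = -(β (S.bcell b σ M δ e c) - Z c)
              + (β (S.bcell b σ M δ e c) - S.bcell b σ M δ e c) := by abel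
          rw [e1]
          refine (T.norm_add_sq_le _ _).trans (le_of_eq ?_)
          rw [map_neg, norm_neg]
      _ ≤ 2 * (ε / 4) ^ 2 + 2 * (ε ^ 2 / 4) := by
          rw [Finset.sum_add_distrib, ← Finset.mul_sum, ← Finset.mul_sum]
          linarith
  have p4 : ‖T.ι (β e - e)‖ ^ 2 ≤ ε ^ 2 := by nlinarith [sq_nonneg ε]
  exact abs_le_of_sq_le_sq' p4 hε.le |>.2

end

end Pool.Agent.AbCoc
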