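import Pool.Agent.Lib_MP_418a80_t3.Comp2
import Pool.Agent.Lib_MP_418a80_t3.Mult1

/-!
# [ON] On11, part a: the characters of a box of `ℤ ^ m`

`boxChs m N : Chs (Fin m → ℤ) (boxF m N)`: the characters of `(ℤ/N)^m`, orthonormal on the box
`{0, …, N-1}^m`.  `boxLam`: their labels in `[-π/δ, π/δ]^m`.
-/

set_option autoImplicit false
set_option linter.unusedVariables false
set_option linter.unusedSectionVars false

open Topology Filter
open scoped ComplexConjugate RealInnerProductSpace

namespace Pool.Agent.AbCoc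

universe u v w z

/-- the box `{0, …, N - 1} ^ m` -/
noncomputable def boxF (m N : ℕ) : Finset (Fin m → ℤ) := Fintype.piFinset fun _ => Finset.Ico (0 : ℤ) N

theorem mem_boxF {m N : ℕ} {j : Fin m → ℤ} : j ∈ boxF m N ↔ ∀ i, 0 ≤ j i ∧ j i < N := by
  simp [boxF, Fintype.mem_piFinset]

theorem card_boxF (m N : ℕ) : (boxF m N).card = N ^ m := by
  simp [boxF, Fintype.card_piFinset]

theorem card_box_bad (m N : ℕ) (n : Fin m → ℤ) :
    (((boxF m N).filter fun j => j + n ∉ boxF m N).card : ℝ) * N ≤ (∑ i, |(n i : ℝ)|) * (N : ℝ) ^ m := by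
  classical
  obtain ⟨B, hB⟩ : ∃ B : Fin m → Finset ℤ, B = fun i =>
      (Finset.Ico (0 : ℤ) N).filter fun x => ¬ (0 ≤ x + n i ∧ x + n i < N) := ⟨_, rfl⟩
  have hBc : ∀ i, (B i).card ≤ (n i).natAbs := by
    intro i
    rcases le_or_gt 0 (n i) with h | h
    · have h1 : B i ⊆ Finset.Ico ((N : ℤ) - n i) N := by
        intro x hx
        rw [hB, Finset.mem_filter, Finset.mem_Ico] at hx
        rw [Finset.mem_Ico]
        omega
      refine (Finset.card_le_card h1).trans ?_
      rw [Int.card_Ico]
      omega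
    · have h1 : B i ⊆ Finset.Ico (0 : ℤ) (-n i) := by
        intro x hx
        rw [hB, Finset.mem_filter, Finset.mem_Ico] at hx
        rw [Finset.mem_Ico]
        omega
      refine (Finset.card_le_card h1).trans ?_
      rw [Int.card_Ico]
      omega
  have hsub : ((boxF m N).filter fun j => j + n ∉ boxF m N)
      ⊆ Finset.univ.biUnion fun i =>
        Fintype.piFinset (Function.update (fun _ => Finset.Ico (0 : ℤ) N) i (B i)) := by
    intro j hj
    rw [Finset.mem_filter, mem_boxF, mem_boxF] at hj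
    obtain ⟨h1, h2⟩ := hj
    push Not at h2
    obtain ⟨i, hi⟩ := h2
    rw [Finset.mem_biUnion]
    refine ⟨i, Finset.mem_univ i, ?_⟩
    rw [Fintype.mem_piFinset]
    intro i'
    rcases eq_or_ne i' i with h | h
    · subst h
      rw [Function.update_self, hB, Finset.mem_filter, Finset.mem_Ico]
      refine ⟨h1 _, fun h3 => ?_⟩
      have := hi h3.1
      rw [Pi.add_apply] at this
      omega
    · rw [Function.update_of_ne h, Finset.mem_Ico]
      exact h1 _
  have hcard : ∀ i, ((Fintype.piFinset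
      (Function.update (fun _ => Finset.Ico (0 : ℤ) N) i (B i))).card : ℝ) * N
        ≤ |(n i : ℝ)| * (N : ℝ) ^ m := by
    intro i
    rw [Fintype.card_piFinset]
    have e1 : ∏ i', (Function.update (fun _ => Finset.Ico (0 : ℤ) N) i (B i) i').card
        = (B i).card * N ^ (m - 1) := by
      rw [← Finset.mul_prod_erase Finset.univ _ (Finset.mem_univ i), Function.update_self]
      congr 1
      rw [Finset.prod_congr rfl (g := fun _ => N)]
      · rw [Finset.prod_const, Finset.card_erase_of_mem (Finset.mem_univ i), Finset.card_univ,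
          Fintype.card_fin]
      · intro x hx
        rw [Function.update_of_ne (Finset.ne_of_mem_erase hx), Int.card_Ico]
        simp
    rw [e1]
    have hm : m - 1 + 1 = m := by
      have := i.2
      omega
    push_cast
    rw [mul_assoc, ← pow_succ, hm]
    refine mul_le_mul_of_nonneg_right ?_ (by positivity)
    have h1 : ((B i).card : ℝ) ≤ ((n i).natAbs : ℝ) := by exact_mod_cast hBc i
    refine h1.trans (le_of_eq ?_)
    rw [Nat.cast_natAbs]
    push_cast
    rfl
  calc (((boxF m N).filter fun j => j + n ∉ boxF m N).card : ℝ) * N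
      ≤ (∑ i, ((Fintype.piFinset
          (Function.update (fun _ => Finset.Ico (0 : ℤ) N) i (B i))).card : ℝ)) * N := by
        refine mul_le_mul_of_nonneg_right ?_ (by positivity)
        have h1 := (Finset.card_le_card hsub).trans Finset.card_biUnion_le
        exact_mod_cast h1
    _ = ∑ i, ((Fintype.piFinset
          (Function.update (fun _ => Finset.Ico (0 : ℤ) N) i (B i))).card : ℝ) * N := by
        rw [Finset.sum_mul]
    _ ≤ ∑ i, |(n i : ℝ)| * (N : ℝ) ^ m := Finset.sum_le_sum fun i _ => hcard i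
    _ = (∑ i, |(n i : ℝ)|) * (N : ℝ) ^ m := by rw [Finset.sum_mul]

/-- the characters of `(ℤ/N)^m` on the box -/
noncomputable def boxChs (m N : ℕ) [NeZero N] : Chs (Fin m → ℤ) (boxF m N) where
  C := Fin m → ZMod N
  fin := inferInstance
  χ := fun c j => ∏ i, ZMod.stdAddChar (c i * (j i : ZMod N))
  unit := fun c j => by
    rw [norm_prod]
    exact Finset.prod_eq_one fun i _ => AddChar.norm_apply _ _
  add := fun c j k => by
    rw [← Finset.prod_mul_distrib]
    refine Finset.prod_congr rfl fun i _ => ?_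
    rw [← AddChar.map_add_eq_mul, ← mul_add]
    congr 1
    push_cast [Pi.add_apply]
    rfl
  r := (√(Fintype.card (Fin m → ZMod N) : ℝ))⁻¹
  r_pos := by
    have : (0 : ℝ) < (Fintype.card (Fin m → ZMod N) : ℝ) := Nat.cast_pos.2 Fintype.card_pos
    positivity
  r_sq := by
    have : (0 : ℝ) < (Fintype.card (Fin m → ZMod N) : ℝ) := Nat.cast_pos.2 Fintype.card_pos
    rw [inv_pow, Real.sq_sqrt this.le, inv_mul_cancel₀ this.ne']
  orth := fun j hj k hk hjk => by
    have e : ∀ c : Fin m → ZMod N, (starRingEnd ℂ) (∏ i, ZMod.stdAddChar (c i * (j i : ZMod N)))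
        * ∏ i, ZMod.stdAddChar (c i * (k i : ZMod N))
        = ∏ i, ZMod.stdAddChar (c i * ((k i - j i : ℤ) : ZMod N)) := by
      intro c
      rw [map_prod, ← Finset.prod_mul_distrib]
      refine Finset.prod_congr rfl fun i _ => ?_
      rw [← AddChar.map_neg_eq_conj, ← AddChar.map_add_eq_mul]
      congr 1
      push_cast
      ring
    rw [Finset.sum_congr rfl fun c _ => e c]
    refine chs_sum_aux (fun i => ((k i - j i : ℤ) : ZMod N)) fun h0 => hjk ?_
    funext i
    have h1 : ((k i - j i : ℤ) : ZMod N) = 0 := congrFun h0 i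
    rw [ZMod.intCast_zmod_eq_zero_iff_dvd] at h1
    rw [mem_boxF] at hj hk
    have h2 : |k i - j i| < N := by
      rw [abs_lt]
      have h3 := hj i
      have h4 := hk i
      constructor <;> omega
    have h7 := Int.eq_zero_of_abs_lt_dvd h1 h2
    omega

section
variable {m N : ℕ} [NeZero N]

theorem boxChs_r_sq : (boxChs m N).r ^ 2 * (N : ℝ) ^ m = 1 := by
  have h := (boxChs m N).r_sq
  have e : Fintype.card (boxChs m N).C = N ^ m := by
    change Fintype.card (Fin m → ZMod N) = _
    rw [Fintype.card_fun, ZMod.card, Fintype.card_fin]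
  rw [e] at h
  exact_mod_cast h

/-- the frequency of the character `c` on a grid of mesh `δ`, in coordinates -/
noncomputable def boxTh (N : ℕ) (δ : ℝ) (c : Fin m → ZMod N) (i : Fin m) : ℝ :=
  -(2 * Real.pi * ((c i).valMinAbs : ℝ) / (N * δ))

theorem stdAddChar_eq_ch (x : ℤ) : (ZMod.stdAddChar (x : ZMod N) : ℂ) = ch (2 * Real.pi * x / N) := by
  rw [ZMod.stdAddChar_coe]
  unfold ch
  congr 1
  push_cast
  ring

/-- the value of the characters at `-n` -/
theorem boxChs_conj {δ : ℝ} (hδ : δ ≠ 0) (c : Fin m → ZMod N) (n : Fin m → ℤ) :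
    conj ((boxChs m N).χ c n) = ch (∑ i, boxTh N δ c i * (δ * n i)) := by
  have hN : (N : ℝ) ≠ 0 := Nat.cast_ne_zero.2 (NeZero.ne N)
  change conj (∏ i, ZMod.stdAddChar (c i * (n i : ZMod N))) = _
  have e1 : ∀ i, (ZMod.stdAddChar (c i * (n i : ZMod N)) : ℂ) = ch (-(boxTh N δ c i * (δ * n i))) := by
    intro i
    have e2 : c i * (n i : ZMod N) = (((c i).valMinAbs * n i : ℤ) : ZMod N) := by
      push_cast
      rfl
    rw [e2, stdAddChar_eq_ch]
    congr 1
    unfold boxTh
    push_cast
    field_simp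
  rw [Finset.prod_congr rfl fun i _ => e1 i, map_prod]
  simp only [conj_ch, neg_neg]
  induction (Finset.univ : Finset (Fin m)) using Finset.induction_on with
  | empty => simp [ch_zero]
  | insert a s ha ih => rw [Finset.prod_insert ha, Finset.sum_insert ha, ch_add, ih]

theorem abs_boxTh_le {δ : ℝ} (hδ : 0 < δ) (c : Fin m → ZMod N) (i : Fin m) :
    |boxTh N δ c i * δ| ≤ Real.pi := by
  have hN : (0 : ℝ) < N := Nat.cast_pos.2 (Nat.pos_of_ne_zero (NeZero.ne N))
  have h1 : (c i).valMinAbs.natAbs ≤ N / 2 := ZMod.natAbs_valMinAbs_le _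
  have h2 : (((c i).valMinAbs.natAbs : ℕ) : ℝ) ≤ N / 2 := by
    have h3 : (c i).valMinAbs.natAbs * 2 ≤ N := by omega
    have h4 : (((c i).valMinAbs.natAbs * 2 : ℕ) : ℝ) ≤ N := by exact_mod_cast h3
    push_cast at h4
    linarith
  have h3 : |((c i).valMinAbs : ℝ)| ≤ N / 2 := by
    rw [Nat.cast_natAbs] at h2
    push_cast at h2
    exact h2
  have e : boxTh N δ c i * δ = -(2 * Real.pi / N * (c i).valMinAbs) := by
    unfold boxTh
    field_simp
  rw [e, abs_neg, abs_mul, abs_of_pos (by positivity)]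
  calc 2 * Real.pi / N * |((c i).valMinAbs : ℝ)| ≤ 2 * Real.pi / N * (N / 2) :=
        mul_le_mul_of_nonneg_left h3 (by positivity)
    _ = Real.pi := by field_simp

end

end Pool.Agent.AbCoc
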