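import Pool.Agent.Lib_MP_418a80_on.On11a
import Pool.Agent.Lib_MP_418a80_t3.Fam

/-!
# [ON] On11, part b: cells of a near-`ker p`-invariant element in a box of `V`
-/

set_option autoImplicit false
set_option linter.unusedVariables false
set_option linter.unusedSectionVars false

open Topology Filter
open scoped ComplexConjugate RealInnerProductSpace

namespace Pool.Agent.AbCoc

universe u v w z

theorem on_ch_sum_le {I : Type*} (s : Finset I) (f : I → ℝ) :
    ‖ch (∑ i ∈ s, f i) - 1‖ ≤ ∑ i ∈ s, ‖ch (f i) - 1‖ := by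
  classical
  induction s using Finset.induction_on with
  | empty => simp [ch_zero]
  | insert a s ha ih =>
    rw [Finset.sum_insert ha, Finset.sum_insert ha, ch_add]
    have e : ch (f a) * ch (∑ i ∈ s, f i) - 1
        = (ch (f a) - 1) + ch (f a) * (ch (∑ i ∈ s, f i) - 1) := by ring
    rw [e]
    refine (norm_add_le _ _).trans (add_le_add le_rfl ?_)
    rw [norm_mul, norm_ch, one_mul]
    exact ih

section
variable {A : Type u} [CStarAlgebra A] {K : Type v} [NormedAddCommGroup K]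
  [InnerProductSpace ℂ K] [CompleteSpace K] (T : TrAlg A K)

theorem TrAlg.norm_add_sq_le (a b : A) :
    ‖T.ι (a + b)‖ ^ 2 ≤ 2 * ‖T.ι a‖ ^ 2 + 2 * ‖T.ι b‖ ^ 2 := by
  rw [map_add]
  have h := norm_add_le (T.ι a) (T.ι b)
  have h1 := norm_nonneg (T.ι a + T.ι b)
  nlinarith [sq_nonneg (‖T.ι a‖ - ‖T.ι b‖), norm_nonneg (T.ι a), norm_nonneg (T.ι b)]

theorem TrAlg.norm_add3_sq_le (a b c : A) :
    ‖T.ι (a + b + c)‖ ^ 2 ≤ 3 * ‖T.ι a‖ ^ 2 + 3 * ‖T.ι b‖ ^ 2 + 3 * ‖T.ι c‖ ^ 2 := by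
  rw [map_add, map_add]
  have h := norm_add₃_le (a := T.ι a) (b := T.ι b) (c := T.ι c)
  have h1 := norm_nonneg (T.ι a + T.ι b + T.ι c)
  have h2 : ‖T.ι a + T.ι b + T.ι c‖ ^ 2 ≤ (‖T.ι a‖ + ‖T.ι b‖ + ‖T.ι c‖) ^ 2 :=
    pow_le_pow_left₀ h1 h 2
  nlinarith [sq_nonneg (‖T.ι a‖ - ‖T.ι b‖), sq_nonneg (‖T.ι a‖ - ‖T.ι c‖),
    sq_nonneg (‖T.ι b‖ - ‖T.ι c‖)]

variable {m N : ℕ} [NeZero N]

/-- a shift of the grid is a phase, up to the boundary of the box -/
theorem boxChs_shift (z : (Fin m → ℤ) → A) (M : ℝ) (hz : ∀ j, ‖T.ι (z j)‖ ^ 2 ≤ M)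
    (n : Fin m → ℤ) :
    (∑ c, ‖T.ι ((boxChs m N).X (fun j => z (j + n)) c
      - conj ((boxChs m N).χ c n) • (boxChs m N).X z c)‖ ^ 2) * N
      ≤ 4 * M * (∑ i, |(n i : ℝ)|) * (N : ℝ) ^ m := by
  classical
  obtain ⟨E, hE⟩ : ∃ E : Chs (Fin m → ℤ) (boxF m N), E = boxChs m N := ⟨_, rfl⟩
  rw [← hE]
  obtain ⟨u, hu⟩ : ∃ u : (Fin m → ℤ) → A, u = fun j =>
      if j ∈ boxF m N ∧ j - n ∈ boxF m N then z j else 0 := ⟨_, rfl⟩
  have hsh : ∀ c, E.X (fun j => u (j + n)) c = conj (E.χ c n) • E.X u c := by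
    intro c
    refine E.X_shift u n (fun j hj => ?_) (fun j hj => ?_) c
    · rw [hu] at hj
      by_contra h
      exact hj (if_neg fun h2 => h h2.1)
    · rw [hu] at hj
      by_contra h
      exact hj (if_neg fun h2 => h h2.2)
  have hM : 0 ≤ M := (sq_nonneg _).trans (hz 0)
  have hcard := card_box_bad m N n
  have hcard' := card_box_bad m N (-n)
  have e0 : ∑ i, |((-n) i : ℝ)| = ∑ i, |(n i : ℝ)| :=
    Finset.sum_congr rfl fun i _ => by rw [Pi.neg_apply]; push_cast; rw [abs_neg]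
  rw [e0] at hcard'
  -- first part
  have h1 : ∑ j ∈ boxF m N, ‖T.ι (z (j + n) - u (j + n))‖ ^ 2
      ≤ (((boxF m N).filter fun j => j + n ∉ boxF m N).card : ℝ) * M := by
    rw [← nsmul_eq_mul, ← Finset.sum_const, Finset.sum_filter]
    refine Finset.sum_le_sum fun j hj => ?_
    by_cases h : j + n ∈ boxF m N
    · rw [if_neg (not_not.2 h), hu]
      have : j + n ∈ boxF m N ∧ j + n - n ∈ boxF m N := ⟨h, by rwa [add_sub_cancel_right]⟩
      change ‖T.ι (z (j + n) - if j + n ∈ boxF m N ∧ j + n - n ∈ boxF m N then z (j + n) else 0)‖ ^ 2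
        ≤ 0
      rw [if_pos this, sub_self, map_zero, norm_zero]
      simp
    · rw [if_pos h, hu]
      change ‖T.ι (z (j + n) - if j + n ∈ boxF m N ∧ j + n - n ∈ boxF m N then z (j + n) else 0)‖ ^ 2
        ≤ M
      rw [if_neg (fun h2 => h h2.1), sub_zero]
      exact hz _
  have h2 : ∑ j ∈ boxF m N, ‖T.ι (u j - z j)‖ ^ 2
      ≤ (((boxF m N).filter fun j => j + -n ∉ boxF m N).card : ℝ) * M := by
    rw [← nsmul_eq_mul, ← Finset.sum_const, Finset.sum_filter]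
    refine Finset.sum_le_sum fun j hj => ?_
    by_cases h : j + -n ∈ boxF m N
    · rw [if_neg (not_not.2 h), hu]
      have : j ∈ boxF m N ∧ j - n ∈ boxF m N := ⟨hj, by rwa [sub_eq_add_neg]⟩
      change ‖T.ι ((if j ∈ boxF m N ∧ j - n ∈ boxF m N then z j else 0) - z j)‖ ^ 2 ≤ 0
      rw [if_pos this, sub_self, map_zero, norm_zero]
      simp
    · rw [if_pos h, hu]
      change ‖T.ι ((if j ∈ boxF m N ∧ j - n ∈ boxF m N then z j else 0) - z j)‖ ^ 2 ≤ M
      rw [if_neg (fun h2 => h (by rw [← sub_eq_add_neg]; exact h2.2)), zero_sub, map_neg, norm_neg]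
      exact hz _
  have hmain : ∑ c, ‖T.ι (E.X (fun j => z (j + n)) c - conj (E.χ c n) • E.X z c)‖ ^ 2
      ≤ 2 * ∑ j ∈ boxF m N, ‖T.ι (z (j + n) - u (j + n))‖ ^ 2
        + 2 * ∑ j ∈ boxF m N, ‖T.ι (u j - z j)‖ ^ 2 := by
    rw [← E.sum_norm_sq_sub T (fun j => z (j + n)) (fun j => u (j + n)),
      ← E.sum_norm_sq_sub T u z, Finset.mul_sum, Finset.mul_sum, ← Finset.sum_add_distrib]
    refine Finset.sum_le_sum fun c _ => ?_
    have e1 : E.X (fun j => z (j + n)) c - conj (E.χ c n) • E.X z c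
        = (E.X (fun j => z (j + n)) c - E.X (fun j => u (j + n)) c)
          + conj (E.χ c n) • (E.X u c - E.X z c) := by
      rw [hsh, smul_sub]
      abel
    rw [e1]
    refine (T.norm_add_sq_le _ _).trans (le_of_eq ?_)
    rw [T.norm_smul_sq, RCLike.norm_conj, E.unit, one_pow, one_mul]
  have hN0 : (0 : ℝ) ≤ N := Nat.cast_nonneg _
  calc (∑ c, ‖T.ι (E.X (fun j => z (j + n)) c - conj (E.χ c n) • E.X z c)‖ ^ 2) * N
      ≤ (2 * ((((boxF m N).filter fun j => j + n ∉ boxF m N).card : ℝ) * M)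
        + 2 * ((((boxF m N).filter fun j => j + -n ∉ boxF m N).card : ℝ) * M)) * N :=
        mul_le_mul_of_nonneg_right (by linarith) hN0
    _ = 2 * M * ((((boxF m N).filter fun j => j + n ∉ boxF m N).card : ℝ) * N)
        + 2 * M * ((((boxF m N).filter fun j => j + -n ∉ boxF m N).card : ℝ) * N) := by ring
    _ ≤ 2 * M * ((∑ i, |(n i : ℝ)|) * (N : ℝ) ^ m) + 2 * M * ((∑ i, |(n i : ℝ)|) * (N : ℝ) ^ m) :=
        add_le_add (mul_le_mul_of_nonneg_left hcard (by positivity))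
          (mul_le_mul_of_nonneg_left hcard' (by positivity))
    _ = 4 * M * (∑ i, |(n i : ℝ)|) * (N : ℝ) ^ m := by ring

end

section
variable {V : Type z} [NormedAddCommGroup V] [InnerProductSpace ℝ V] {m : ℕ}
  (b : OrthonormalBasis (Fin m) ℝ V)

/-- grid points -/
noncomputable def gridV (δ : ℝ) (j : Fin m → ℤ) : V := ∑ i, (δ * (j i : ℝ)) • b i

/-- labels -/
noncomputable def lamV (N : ℕ) (δ : ℝ) (c : Fin m → ZMod N) : V := ∑ i, (boxTh N δ c i) • b i

theorem gridV_add (δ : ℝ) (j k : Fin m → ℤ) : gridV b δ (j + k) = gridV b δ j + gridV b δ k := by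
  unfold gridV
  rw [← Finset.sum_add_distrib]
  refine Finset.sum_congr rfl fun i _ => ?_
  rw [← add_smul]
  congr 1
  rw [Pi.add_apply]
  push_cast
  ring

theorem norm_sum_smul_le (f : Fin m → ℝ) : ‖∑ i, f i • b i‖ ≤ ∑ i, |f i| := by
  refine (norm_sum_le _ _).trans (Finset.sum_le_sum fun i _ => ?_)
  rw [norm_smul, b.norm_eq_one, mul_one, Real.norm_eq_abs]

theorem inner_lamV (N : ℕ) (δ : ℝ) (c : Fin m → ZMod N) (v : V) :
    ⟪lamV b N δ c, v⟫ = ∑ i, boxTh N δ c i * ⟪b i, v⟫ := by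
  unfold lamV
  rw [sum_inner]
  refine Finset.sum_congr rfl fun i _ => ?_
  rw [inner_smul_left]
  rfl

theorem norm_gridV_le {N : ℕ} {δ : ℝ} (hδ : 0 ≤ δ) {j : Fin m → ℤ} (hj : j ∈ boxF m N) :
    ‖gridV b δ j‖ ≤ m * (N * δ) := by
  unfold gridV
  refine (norm_sum_smul_le b _).trans ?_
  rw [mem_boxF] at hj
  have h1 : ∀ i ∈ (Finset.univ : Finset (Fin m)), |δ * (j i : ℝ)| ≤ N * δ := by
    intro i _
    have h2 : (0 : ℝ) ≤ j i := by exact_mod_cast (hj i).1
    have h3 : (j i : ℝ) ≤ N := by exact_mod_cast (hj i).2.le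
    rw [abs_of_nonneg (mul_nonneg hδ h2), mul_comm]
    exact mul_le_mul_of_nonneg_right h3 hδ
  refine (Finset.sum_le_sum h1).trans (le_of_eq ?_)
  rw [Finset.sum_const, Finset.card_univ, Fintype.card_fin, nsmul_eq_mul]

variable {A : Type u} [CStarAlgebra A] {K : Type v} [NormedAddCommGroup K]
  [InnerProductSpace ℂ K] [CompleteSpace K]
variable {G : Type w} [Group G] [TopologicalSpace G] {T : TrAlg A K} (S : TrAct G T)

/-- the cells of `e` -/
noncomputable def TrAct.bcell (σ : V → G) (N : ℕ) [NeZero N] (δ : ℝ) (e : A)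
    (c : Fin m → ZMod N) : A :=
  (boxChs m N).X (fun j => ((boxChs m N).r : ℂ) • S.α (σ (gridV b δ j)) e) c

variable {σ : V → G} {N : ℕ} [NeZero N] {δ : ℝ} {e : A}

theorem TrAct.bcell_sq_le (he : ‖T.ι e‖ ≤ 1) (v : V) :
    ‖T.ι (((boxChs m N).r : ℂ) • S.α (σ v) e)‖ ^ 2 ≤ (boxChs m N).r ^ 2 := by
  rw [T.norm_smul_sq, S.norm_map, Complex.norm_real, Real.norm_eq_abs, sq_abs]
  have h : ‖T.ι e‖ ^ 2 ≤ 1 := pow_le_one₀ (norm_nonneg _) he
  nlinarith [sq_nonneg (boxChs m N).r]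

/-- near-eigen estimate for the cells -/
theorem TrAct.bcell_eig (hδ : 0 < δ) (he : ‖T.ι e‖ ≤ 1) (p : G → V) (g : G) (n : Fin m → ℤ)
    (η : ℝ)
    (H1 : ∀ j ∈ boxF m N, ‖T.ι (S.α g (S.α (σ (gridV b δ j)) e)
      - S.α (σ (gridV b δ (j + n))) e)‖ ≤ η)
    (H2 : ∀ j ∈ boxF m N, ∀ i, ‖T.ι (S.α (σ (gridV b δ (j + Pi.single i 1))) e
      - S.α (σ (gridV b δ j)) e)‖ ≤ η)
    (H3 : ∀ i, 0 ≤ ⟪b i, p g⟫ - δ * n i) (H4 : ∀ i, ⟪b i, p g⟫ - δ * n i ≤ δ) :
    ∑ c : Fin m → ZMod N, ‖T.ι (S.α g (S.bcell b σ N δ e c)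
      - pch p (lamV b N δ c) g • S.bcell b σ N δ e c)‖ ^ 2
      ≤ 3 * η ^ 2 + 12 * (∑ i, |(n i : ℝ)|) / N + m * (m * (6 * η ^ 2 + 24 / N)) := by
  classical
  obtain ⟨E, hE⟩ : ∃ E : Chs (Fin m → ℤ) (boxF m N), E = boxChs m N := ⟨_, rfl⟩
  have hN : (0 : ℝ) < N := Nat.cast_pos.2 (Nat.pos_of_ne_zero (NeZero.ne N))
  obtain ⟨r, hr⟩ : ∃ r : ℝ, r = (boxChs m N).r := ⟨_, rfl⟩
  have hrN : r ^ 2 * (N : ℝ) ^ m = 1 := by rw [hr]; exact boxChs_r_sq
  obtain ⟨zz, hzz⟩ : ∃ zz : (Fin m → ℤ) → A, zz = fun j => (r : ℂ) • S.α (σ (gridV b δ j)) e :=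
    ⟨_, rfl⟩
  have hY : ∀ c : Fin m → ZMod N, S.bcell b σ N δ e c = (boxChs m N).X zz c := by
    intro c
    rw [hzz, hr]
    rfl
  have hzzM : ∀ j, ‖T.ι (zz j)‖ ^ 2 ≤ r ^ 2 := by
    intro j
    rw [hzz, hr]
    exact S.bcell_sq_le he _
  have hsmall : ∀ (f f' : (Fin m → ℤ) → A), (∀ j ∈ boxF m N, ‖T.ι (f j - f' j)‖ ≤ η) →
      ∑ j ∈ boxF m N, ‖T.ι ((r : ℂ) • f j - (r : ℂ) • f' j)‖ ^ 2 ≤ η ^ 2 := by
    intro f f' hff
    have h1 : ∀ j ∈ boxF m N, ‖T.ι ((r : ℂ) • f j - (r : ℂ) • f' j)‖ ^ 2 ≤ r ^ 2 * η ^ 2 := by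
      intro j hj
      rw [← smul_sub, T.norm_smul_sq, Complex.norm_real, Real.norm_eq_abs, sq_abs]
      refine mul_le_mul_of_nonneg_left ?_ (sq_nonneg _)
      exact pow_le_pow_left₀ (norm_nonneg _) (hff j hj) 2
    refine (Finset.sum_le_sum h1).trans (le_of_eq ?_)
    rw [Finset.sum_const, card_boxF, nsmul_eq_mul]
    push_cast
    calc (N : ℝ) ^ m * (r ^ 2 * η ^ 2) = (r ^ 2 * (N : ℝ) ^ m) * η ^ 2 := by ring
      _ = η ^ 2 := by rw [hrN, one_mul]
  -- shifts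
  have hshift : ∀ k : Fin m → ℤ, ∑ c : Fin m → ZMod N,
      ‖T.ι ((boxChs m N).X (fun j => zz (j + k)) c
        - conj ((boxChs m N).χ c k) • (boxChs m N).X zz c)‖ ^ 2 ≤ 4 * (∑ i, |(k i : ℝ)|) / N := by
    intro k
    have h1 := boxChs_shift T (N := N) zz (r ^ 2) hzzM k
    rw [le_div_iff₀ hN]
    refine h1.trans (le_of_eq ?_)
    calc 4 * r ^ 2 * (∑ i, |(k i : ℝ)|) * (N : ℝ) ^ m
        = 4 * (∑ i, |(k i : ℝ)|) * (r ^ 2 * (N : ℝ) ^ m) := by ring
      _ = 4 * (∑ i, |(k i : ℝ)|) := by rw [hrN, mul_one]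
  -- term 1
  have t1 : ∑ c : Fin m → ZMod N, ‖T.ι (S.α g ((boxChs m N).X zz c)
      - (boxChs m N).X (fun j => zz (j + n)) c)‖ ^ 2 ≤ η ^ 2 := by
    have e0 : ∀ c : Fin m → ZMod N, S.α g ((boxChs m N).X zz c)
        = (boxChs m N).X (fun j => S.α g (zz j)) c := fun c => (boxChs m N).map_X _ _ _
    simp only [e0]
    refine le_trans (le_of_eq ((boxChs m N).sum_norm_sq_sub T _ _)) ?_
    have e1 : ∀ j, S.α g (zz j) = (r : ℂ) • S.α g (S.α (σ (gridV b δ j)) e) := by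
      intro j
      rw [hzz]
      exact map_smul _ _ _
    simp only [e1]
    rw [hzz]
    exact hsmall _ _ H1
  -- term 3
  have t3 : ∀ i, ∑ c : Fin m → ZMod N, ‖T.ι ((conj ((boxChs m N).χ c (Pi.single i 1)) - 1)
      • (boxChs m N).X zz c)‖ ^ 2 ≤ 2 * η ^ 2 + 8 / N := by
    intro i
    have h1 := hshift (Pi.single i 1)
    have e1 : ∑ i', |((Pi.single i (1 : ℤ) : Fin m → ℤ) i' : ℝ)| = 1 := by
      rw [Finset.sum_eq_single i]
      · simp
      · intro i' _ hi'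
        rw [Pi.single_eq_of_ne hi']
        simp
      · intro h
        exact absurd (Finset.mem_univ i) h
    rw [e1] at h1
    have h2 : ∑ c : Fin m → ZMod N, ‖T.ι ((boxChs m N).X (fun j => zz (j + Pi.single i 1)) c
        - (boxChs m N).X zz c)‖ ^ 2 ≤ η ^ 2 := by
      refine le_trans (le_of_eq ((boxChs m N).sum_norm_sq_sub T _ _)) ?_
      rw [hzz]
      exact hsmall _ _ fun j hj => H2 j hj i
    calc ∑ c : Fin m → ZMod N, ‖T.ι ((conj ((boxChs m N).χ c (Pi.single i 1)) - 1)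
          • (boxChs m N).X zz c)‖ ^ 2
        ≤ ∑ c : Fin m → ZMod N, (2 * ‖T.ι ((boxChs m N).X (fun j => zz (j + Pi.single i 1)) c
            - (boxChs m N).X zz c)‖ ^ 2
          + 2 * ‖T.ι ((boxChs m N).X (fun j => zz (j + Pi.single i 1)) c
            - conj ((boxChs m N).χ c (Pi.single i 1)) • (boxChs m N).X zz c)‖ ^ 2) := by
          refine Finset.sum_le_sum fun c _ => ?_
          have e2 : (conj ((boxChs m N).χ c (Pi.single i 1)) - 1) • (boxChs m N).X zz c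
              = ((boxChs m N).X (fun j => zz (j + Pi.single i 1)) c - (boxChs m N).X zz c)
                + -((boxChs m N).X (fun j => zz (j + Pi.single i 1)) c
                  - conj ((boxChs m N).χ c (Pi.single i 1)) • (boxChs m N).X zz c) := by
            rw [sub_smul, one_smul]
            abel
          rw [e2]
          refine (T.norm_add_sq_le _ _).trans (le_of_eq ?_)
          rw [map_neg, norm_neg]
      _ ≤ 2 * η ^ 2 + 8 / N := by
          rw [Finset.sum_add_distrib, ← Finset.mul_sum, ← Finset.mul_sum]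
          have e3 : (8 : ℝ) / N = 2 * (4 * 1 / N) := by ring
          rw [e3]
          linarith
  -- the phases
  have hph : ∀ c : Fin m → ZMod N, ‖conj ((boxChs m N).χ c n) - pch p (lamV b N δ c) g‖ ^ 2
      ≤ m * ∑ i, ‖conj ((boxChs m N).χ c (Pi.single i 1)) - 1‖ ^ 2 := by
    intro c
    have e1 : pch p (lamV b N δ c) g = conj ((boxChs m N).χ c n)
        * ch (∑ i, boxTh N δ c i * (⟪b i, p g⟫ - δ * n i)) := by
      rw [boxChs_conj hδ.ne', ← ch_add, ← Finset.sum_add_distrib]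
      unfold pch
      rw [inner_lamV]
      congr 1
      refine Finset.sum_congr rfl fun i _ => ?_
      ring
    have e2 : conj ((boxChs m N).χ c n) - pch p (lamV b N δ c) g = -(conj ((boxChs m N).χ c n)
        * (ch (∑ i, boxTh N δ c i * (⟪b i, p g⟫ - δ * n i)) - 1)) := by
      rw [e1]
      ring
    have e3 : ‖conj ((boxChs m N).χ c n)‖ = 1 := by
      rw [RCLike.norm_conj]
      exact (boxChs m N).unit c n
    have e4 : ‖conj ((boxChs m N).χ c n) - pch p (lamV b N δ c) g‖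
        ≤ ∑ i, ‖conj ((boxChs m N).χ c (Pi.single i 1)) - 1‖ := by
      rw [e2, norm_neg, norm_mul, e3, one_mul]
      refine (on_ch_sum_le _ _).trans (Finset.sum_le_sum fun i _ => ?_)
      have e5 : conj ((boxChs m N).χ c (Pi.single i 1)) = ch (boxTh N δ c i * δ) := by
        rw [boxChs_conj hδ.ne']
        congr 1
        rw [Finset.sum_eq_single i]
        · rw [Pi.single_eq_same]
          push_cast
          ring
        · intro i' _ hi'
          rw [Pi.single_eq_of_ne hi']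
          simp
        · intro h
          exact absurd (Finset.mem_univ i) h
      rw [e5]
      have e6 : boxTh N δ c i * (⟪b i, p g⟫ - δ * n i)
          = ((⟪b i, p g⟫ - δ * n i) / δ) * (boxTh N δ c i * δ) := by
        field_simp
      rw [e6]
      exact norm_ch_sub_one_mono (abs_boxTh_le hδ c i) (div_nonneg (H3 i) hδ.le)
        ((div_le_one hδ).2 (H4 i))
    refine (pow_le_pow_left₀ (norm_nonneg _) e4 2).trans ?_
    have h7 := sq_sum_le_card_mul_sum_sq (s := (Finset.univ : Finset (Fin m)))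
      (f := fun i => ‖conj ((boxChs m N).χ c (Pi.single i 1)) - 1‖)
    rw [Finset.card_univ, Fintype.card_fin] at h7
    exact h7
  have t4 : ∑ c : Fin m → ZMod N, ‖T.ι ((conj ((boxChs m N).χ c n) - pch p (lamV b N δ c) g)
      • (boxChs m N).X zz c)‖ ^ 2 ≤ m * (m * (2 * η ^ 2 + 8 / N)) := by
    calc ∑ c : Fin m → ZMod N, ‖T.ι ((conj ((boxChs m N).χ c n) - pch p (lamV b N δ c) g)
          • (boxChs m N).X zz c)‖ ^ 2
        ≤ ∑ c : Fin m → ZMod N, m * ∑ i, ‖T.ι ((conj ((boxChs m N).χ c (Pi.single i 1)) - 1)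
          • (boxChs m N).X zz c)‖ ^ 2 := by
          refine Finset.sum_le_sum fun c _ => ?_
          rw [T.norm_smul_sq]
          simp only [T.norm_smul_sq]
          rw [← Finset.sum_mul, ← mul_assoc]
          exact mul_le_mul_of_nonneg_right (hph c) (sq_nonneg _)
      _ = m * ∑ i, ∑ c : Fin m → ZMod N, ‖T.ι ((conj ((boxChs m N).χ c (Pi.single i 1)) - 1)
          • (boxChs m N).X zz c)‖ ^ 2 := by
          rw [← Finset.mul_sum, Finset.sum_comm]
      _ ≤ m * ∑ i : Fin m, (2 * η ^ 2 + 8 / N) :=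
          mul_le_mul_of_nonneg_left (Finset.sum_le_sum fun i _ => t3 i) (Nat.cast_nonneg _)
      _ = m * (m * (2 * η ^ 2 + 8 / N)) := by
          rw [Finset.sum_const, Finset.card_univ, Fintype.card_fin, nsmul_eq_mul]
  have t2 := hshift n
  calc ∑ c : Fin m → ZMod N, ‖T.ι (S.α g (S.bcell b σ N δ e c)
        - pch p (lamV b N δ c) g • S.bcell b σ N δ e c)‖ ^ 2
      ≤ ∑ c : Fin m → ZMod N, (3 * ‖T.ι (S.α g ((boxChs m N).X zz c)
            - (boxChs m N).X (fun j => zz (j + n)) c)‖ ^ 2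
        + 3 * ‖T.ι ((boxChs m N).X (fun j => zz (j + n)) c
            - conj ((boxChs m N).χ c n) • (boxChs m N).X zz c)‖ ^ 2
        + 3 * ‖T.ι ((conj ((boxChs m N).χ c n) - pch p (lamV b N δ c) g)
            • (boxChs m N).X zz c)‖ ^ 2) := by
        refine Finset.sum_le_sum fun c _ => ?_
        rw [hY]
        have e1 : S.α g ((boxChs m N).X zz c) - pch p (lamV b N δ c) g • (boxChs m N).X zz c
            = (S.α g ((boxChs m N).X zz c) - (boxChs m N).X (fun j => zz (j + n)) c)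
              + ((boxChs m N).X (fun j => zz (j + n)) c
                - conj ((boxChs m N).χ c n) • (boxChs m N).X zz c)
              + (conj ((boxChs m N).χ c n) - pch p (lamV b N δ c) g) • (boxChs m N).X zz c := by
          rw [sub_smul]
          abel
        rw [e1]
        exact T.norm_add3_sq_le _ _ _
    _ ≤ 3 * η ^ 2 + 12 * (∑ i, |(n i : ℝ)|) / N + m * (m * (6 * η ^ 2 + 24 / N)) := by
        rw [Finset.sum_add_distrib, Finset.sum_add_distrib, ← Finset.mul_sum, ← Finset.mul_sum,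
          ← Finset.mul_sum]
        have e2 : 12 * (∑ i, |(n i : ℝ)|) / N = 3 * (4 * (∑ i, |(n i : ℝ)|) / N) := by ring
        have e3 : (m : ℝ) * (m * (6 * η ^ 2 + 24 / N)) = 3 * (m * (m * (2 * η ^ 2 + 8 / N))) := by
          ring
        rw [e2, e3]
        linarith

end

end Pool.Agent.AbCoc
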