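import Pool.Agent.Lib_MP_418a80_on.OnBase
import Pool.Agent.Lib_MP_418a80_on.On11b
import Mathlib.Topology.Algebra.Group.OpenMapping

/-!
# [ON] On11, part c: layers, bounded lifts, cells with levels
-/

set_option autoImplicit false
set_option linter.unusedVariables false
set_option linter.unusedSectionVars false

open Topology Filter MeasureTheory
open scoped RealInnerProductSpace ComplexConjugate Pointwise

namespace Pool.Agent.AbCoc

universe u v w z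

section
variable {G : Type w} [Group G] [TopologicalSpace G] {N N' : Subgroup G}
  {V : Type z} [NormedAddCommGroup V] [InnerProductSpace ℝ V] {p : G → V}

namespace IsLayer

theorem p_one (hp : IsLayer N N' p) : p 1 = 0 := by
  have h := hp.mul 1 N.one_mem 1 N.one_mem
  rw [mul_one] at h
  simpa using h

theorem p_inv (hp : IsLayer N N' p) {s : G} (hs : s ∈ N) : p s⁻¹ = -p s := by
  have h := hp.mul s⁻¹ (N.inv_mem hs) s hs
  rw [inv_mul_cancel, hp.p_one] at h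
  exact eq_neg_of_add_eq_zero_left h.symm

theorem p_inv_mul (hp : IsLayer N N' p) {s t : G} (hs : s ∈ N) (ht : t ∈ N) :
    p (s⁻¹ * t) = p t - p s := by
  rw [hp.mul _ (N.inv_mem hs) _ ht, hp.p_inv hs]
  abel

theorem isClosed_ker (hp : IsLayer N N' p) (hN : IsClosed (N : Set G)) :
    IsClosed (N' : Set G) := by
  have h := hp.cont.preimage_isClosed_of_isClosed hN (isClosed_singleton (x := (0 : V)))
  have e : (N' : Set G) = (N : Set G) ∩ p ⁻¹' {0} := by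
    ext s
    constructor
    · intro hs
      exact ⟨hp.le hs, (hp.ker s (hp.le hs)).2 hs⟩
    · rintro ⟨hs, hs0⟩
      exact (hp.ker s hs).1 hs0
  rwa [e]

/-- a bounded set of values on compact sets -/
theorem exists_bound (hp : IsLayer N N' p) {D : Set G} (hD : IsCompact D)
    (hDN : D ⊆ (N : Set G)) : ∃ R : ℝ, 0 ≤ R ∧ ∀ s ∈ D, ‖p s‖ ≤ R := by
  have h1 : IsCompact (p '' D) := hD.image_of_continuousOn (hp.cont.mono hDN)
  obtain ⟨R, hR⟩ := h1.isBounded.exists_norm_le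
  exact ⟨max R 0, le_max_right _ _, fun s hs => (hR _ ⟨s, hs, rfl⟩).trans (le_max_left _ _)⟩

variable [IsTopologicalGroup G] [T2Space G] [SecondCountableTopology G] [LocallyCompactSpace G]

/-- small vectors have small lifts -/
theorem exists_near [FiniteDimensional ℝ V] (hp : IsLayer N N' p) (hN : IsClosed (N : Set G))
    {U : Set G} (hU : U ∈ 𝓝 (1 : G)) :
    ∃ δ : ℝ, 0 < δ ∧ ∀ v : V, ‖v‖ < δ → ∃ s ∈ N, s ∈ U ∧ p s = v := by
  have : LocallyCompactSpace N := hN.isClosedEmbedding_subtypeVal.locallyCompactSpace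
  have : SecondCountableTopology N :=
    inferInstanceAs (SecondCountableTopology ((N : Set G) : Type _))
  have : SigmaCompactSpace N := sigmaCompactSpace_of_locallyCompact_secondCountable
  have : CompleteSpace V := FiniteDimensional.complete ℝ V
  have : BaireSpace (Multiplicative V) := inferInstanceAs (BaireSpace V)
  let f : N →* Multiplicative V :=
    { toFun := fun s => Multiplicative.ofAdd (p s)
      map_one' := by
        have := hp.p_one
        change Multiplicative.ofAdd (p 1) = 1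
        rw [this]
        rfl
      map_mul' := fun s t => by
        change Multiplicative.ofAdd (p ((s : G) * t)) = _
        rw [hp.mul _ s.2 _ t.2]
        rfl }
  have hfs : Function.Surjective f := fun q => by
    obtain ⟨s, hs, hsq⟩ := hp.surj (Multiplicative.toAdd q)
    refine ⟨⟨s, hs⟩, ?_⟩
    change Multiplicative.ofAdd (p s) = q
    rw [hsq]
    rfl
  have hfc : Continuous f := by
    have h1 : Continuous fun s : N => p s := continuousOn_iff_continuous_domRestrict.1 hp.cont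
    exact continuous_ofAdd.comp h1
  have hopen : IsOpenMap f := f.isOpenMap_of_sigmaCompact hfs hfc
  have hU' : (Subtype.val ⁻¹' U : Set N) ∈ 𝓝 (1 : N) := continuous_subtype_val.continuousAt hU
  have h2 : f '' (Subtype.val ⁻¹' U : Set N) ∈ 𝓝 (f 1) := hopen.image_mem_nhds hU'
  have h3 : {v : V | Multiplicative.ofAdd v ∈ f '' (Subtype.val ⁻¹' U : Set N)} ∈ 𝓝 (0 : V) := by
    refine continuous_ofAdd.continuousAt ?_
    have e : f 1 = Multiplicative.ofAdd (0 : V) := by rw [map_one]; rfl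
    rwa [← e]
  obtain ⟨δ, hδ, hδ2⟩ := Metric.mem_nhds_iff.1 h3
  refine ⟨δ, hδ, fun v hv => ?_⟩
  have h4 : v ∈ Metric.ball (0 : V) δ := by rwa [mem_ball_zero_iff]
  obtain ⟨s, hs, hsv⟩ := hδ2 h4
  exact ⟨s, s.2, hs, Multiplicative.ofAdd.injective hsv⟩

theorem p_pow (hp : IsLayer N N' p) {s : G} (hs : s ∈ N) (n : ℕ) : p (s ^ n) = (n : ℝ) • p s := by
  induction n with
  | zero => rw [pow_zero, hp.p_one]; simp
  | succ n ih =>
    rw [pow_succ, hp.mul _ (N.pow_mem hs n) _ hs, ih]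
    push_cast
    rw [add_smul, one_smul]

/-- lifts which are in a compact set on bounded sets -/
theorem exists_lift [FiniteDimensional ℝ V] (hp : IsLayer N N' p) (hN : IsClosed (N : Set G)) :
    ∃ σ : V → G, (∀ v, σ v ∈ N) ∧ (∀ v, p (σ v) = v) ∧
      ∀ R : ℝ, ∃ K : Set G, IsCompact K ∧ K ⊆ (N : Set G) ∧ ∀ v, ‖v‖ ≤ R → σ v ∈ K := by
  obtain ⟨K1, hK1, hK1n⟩ := exists_compact_mem_nhds (1 : G)
  obtain ⟨δ, hδ, hδ2⟩ := hp.exists_near hN hK1n
  have hs : ∀ v : V, ∃ s ∈ N, s ∈ K1 ∧ p (s ^ (⌈2 * ‖v‖ / δ⌉₊ + 1)) = v := by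
    intro v
    obtain ⟨n, hn⟩ : ∃ n : ℕ, n = ⌈2 * ‖v‖ / δ⌉₊ + 1 := ⟨_, rfl⟩
    have hn0 : (0 : ℝ) < n := by rw [hn]; positivity
    have hnv : ‖v‖ < n * δ := by
      have h1 := Nat.le_ceil (2 * ‖v‖ / δ)
      have h2 : 2 * ‖v‖ / δ < n := by rw [hn]; push_cast; linarith
      rw [div_lt_iff₀ hδ] at h2
      linarith [norm_nonneg v]
    obtain ⟨s, hs, hsK, hsv⟩ := hδ2 ((n : ℝ)⁻¹ • v) (by
      rw [norm_smul, norm_inv, Real.norm_of_nonneg hn0.le, inv_mul_lt_iff₀ hn0]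
      exact hnv)
    refine ⟨s, hs, hsK, ?_⟩
    rw [← hn, hp.p_pow hs, hsv, smul_smul, mul_inv_cancel₀ hn0.ne', one_smul]
  choose s hsN hsK hsv using hs
  refine ⟨fun v => s v ^ (⌈2 * ‖v‖ / δ⌉₊ + 1), fun v => N.pow_mem (hsN v) _, hsv, fun R => ?_⟩
  have hK : IsCompact (K1 ∩ (N : Set G)) := hK1.inter_right hN
  have hpow : ∀ n : ℕ, IsCompact ((fun x : G => x ^ n) '' (K1 ∩ (N : Set G))) := fun n =>
    hK.image (continuous_pow n)
  refine ⟨⋃ n ∈ Finset.range (⌈2 * R / δ⌉₊ + 2), (fun x : G => x ^ n) '' (K1 ∩ (N : Set G)),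
    (Finset.range _).isCompact_biUnion fun n _ => hpow n, ?_, fun v hv => ?_⟩
  · refine Set.iUnion₂_subset fun n _ => ?_
    rintro _ ⟨x, hx, rfl⟩
    exact N.pow_mem hx.2 n
  · rw [Set.mem_iUnion₂]
    refine ⟨⌈2 * ‖v‖ / δ⌉₊ + 1, ?_, ⟨s v, ⟨hsK v, hsN v⟩, rfl⟩⟩
    rw [Finset.mem_range]
    have h1 : ⌈2 * ‖v‖ / δ⌉₊ ≤ ⌈2 * R / δ⌉₊ := by
      refine Nat.ceil_le_ceil ?_
      gcongr
    omega

end IsLayer

end

section
variable {A : Type u} [CStarAlgebra A] {K : Type v} [NormedAddCommGroup K]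
  [InnerProductSpace ℂ K] [CompleteSpace K]
  {G : Type w} [Group G] [TopologicalSpace G] [IsTopologicalGroup G] [T2Space G]
  [SecondCountableTopology G] [LocallyCompactSpace G] {T : TrAlg A K} (S : TrAct G T)
  {V : Type z} [NormedAddCommGroup V] [InnerProductSpace ℝ V] [FiniteDimensional ℝ V] {m : ℕ}

/-- **cells with levels** -/
theorem TrAct.exists_bcell (b : OrthonormalBasis (Fin m) ℝ V) (N N' : Subgroup G)
    (hN : IsClosed (N : Set G)) (p : G → V) (hp : IsLayer N N' p) (σ : V → G)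
    (hσN : ∀ v, σ v ∈ N) (hσp : ∀ v, p (σ v) = v)
    (hσK : ∀ R : ℝ, ∃ K : Set G, IsCompact K ∧ K ⊆ (N : Set G) ∧ ∀ v, ‖v‖ ≤ R → σ v ∈ K)
    (D : Set G) (hD : IsCompact D) (hDN : D ⊆ (N : Set G)) (κ : ℝ) (hκ : 0 < κ) :
    ∃ (W : ℝ) (D' : Set G) (κ' : ℝ), IsCompact D' ∧ D' ⊆ (N' : Set G) ∧ 0 < κ' ∧
      ∀ e : A, ‖T.ι e‖ ≤ 1 → (∀ h ∈ D', ‖T.ι (S.α h e - e)‖ ≤ κ') →
        ∃ (M : ℕ) (_ : NeZero M) (δ : ℝ), 0 < δ ∧ (∀ j ∈ boxF m M, ‖gridV b δ j‖ ≤ W) ∧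
          ∀ g ∈ D, ∑ c : Fin m → ZMod M, ‖T.ι (S.α g (S.bcell b σ M δ e c)
            - pch p (lamV b M δ c) g • S.bcell b σ M δ e c)‖ ^ 2 ≤ κ := by
  obtain ⟨R0, hR0, hR0D⟩ := hp.exists_bound hD hDN
  obtain ⟨L, hL⟩ : ∃ L : ℝ, L = (24 * (m * (R0 + 1)) + 48 * (m : ℝ) ^ 2) / κ + 1 := ⟨_, rfl⟩
  have hL1 : 1 ≤ L := by rw [hL]; linarith [show (0 : ℝ) ≤ (24 * (m * (R0 + 1)) + 48 * (m : ℝ) ^ 2) / κ from by positivity]
  have hLκ : 24 * (m * (R0 + 1)) + 48 * (m : ℝ) ^ 2 ≤ κ * L := by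
    have h1 : κ * ((24 * (m * (R0 + 1)) + 48 * (m : ℝ) ^ 2) / κ)
        = 24 * (m * (R0 + 1)) + 48 * (m : ℝ) ^ 2 := mul_div_cancel₀ _ hκ.ne'
    rw [hL, mul_add κ, h1, mul_one]
    linarith
  obtain ⟨η, hη⟩ : ∃ η : ℝ, η = Real.sqrt (κ / (12 * ((m : ℝ) ^ 2 + 1))) := ⟨_, rfl⟩
  have hη0 : 0 < η := by rw [hη]; positivity
  have hη2 : η ^ 2 * (12 * ((m : ℝ) ^ 2 + 1)) = κ := by
    rw [hη, Real.sq_sqrt (by positivity)]
    field_simp
  obtain ⟨W, hW⟩ : ∃ W : ℝ, W = m * (L + 1) := ⟨_, rfl⟩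
  obtain ⟨Kc, hKc, hKcN, hKcσ⟩ := hσK (W + R0 + m + 1)
  obtain ⟨K1, hK1, hK1n⟩ := exists_compact_mem_nhds (1 : G)
  obtain ⟨Kb, hKb⟩ : ∃ Kb : Set G, Kb = Kc⁻¹ * D * Kc ∪ K1⁻¹ * (Kc⁻¹ * Kc) := ⟨_, rfl⟩
  have hKbc : IsCompact Kb := by
    rw [hKb]
    exact ((hKc.inv.mul hD).mul hKc).union (hK1.inv.mul (hKc.inv.mul hKc))
  have hN'c : IsClosed (N' : Set G) := hp.isClosed_ker hN
  refine ⟨W, Kb ∩ N', η / 4, hKbc.inter_right hN'c, Set.inter_subset_right, by positivity,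
    fun e he hinv => ?_⟩
  -- the mesh
  have hUn : {s : G | ‖T.ι (S.α s e - e)‖ < η / 4} ∩ K1 ∈ 𝓝 (1 : G) := by
    refine inter_mem ?_ hK1n
    have hc : Continuous fun s : G => ‖T.ι (S.α s e - e)‖ := by
      simp only [map_sub]
      exact ((S.cont e).sub continuous_const).norm
    refine (hc.tendsto 1).eventually (gt_mem_nhds ?_)
    rw [S.one, sub_self, map_zero, norm_zero]
    positivity
  obtain ⟨δ1, hδ1, hδ1N⟩ := hp.exists_near hN hUn
  obtain ⟨δ, hδ⟩ : ∃ δ : ℝ, δ = min 1 (δ1 / (2 * (m + 1))) := ⟨_, rfl⟩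
  have hδ0 : 0 < δ := by rw [hδ]; positivity
  have hδle : δ ≤ 1 := by rw [hδ]; exact min_le_left _ _
  have hδ2 : (m + 1) * δ < δ1 := by
    have h1 : δ ≤ δ1 / (2 * (m + 1)) := by rw [hδ]; exact min_le_right _ _
    rw [le_div_iff₀ (by positivity)] at h1
    nlinarith
  have hmδ : (0 : ℝ) ≤ m * δ := by positivity
  have hmesh : ∀ v v' : V, ‖v‖ ≤ W + R0 + m + 1 → ‖v'‖ ≤ W + R0 + m + 1 → ‖v - v'‖ < δ1 →
      ‖T.ι (S.α (σ v) e - S.α (σ v') e)‖ ≤ η / 2 := by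
    intro v v' hv hv' hvv
    obtain ⟨s, hs, ⟨hs1, hs2⟩, hsv⟩ := hδ1N (v - v') hvv
    obtain ⟨h, hh⟩ : ∃ h : G, h = s⁻¹ * ((σ v')⁻¹ * σ v) := ⟨_, rfl⟩
    have hmem : (σ v')⁻¹ * σ v ∈ N := N.mul_mem (N.inv_mem (hσN v')) (hσN v)
    have hhN : h ∈ N := by rw [hh]; exact N.mul_mem (N.inv_mem hs) hmem
    have hph : p h = 0 := by
      rw [hh, hp.p_inv_mul hs hmem, hp.p_inv_mul (hσN v') (hσN v), hσp, hσp, hsv, sub_self]
    have hhN' : h ∈ N' := (hp.ker h hhN).1 hph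
    have hhK : h ∈ Kb := by
      rw [hKb, hh]
      exact Or.inr (Set.mul_mem_mul (Set.inv_mem_inv.2 hs2)
        (Set.mul_mem_mul (Set.inv_mem_inv.2 (hKcσ v' hv')) (hKcσ v hv)))
    have e1 : σ v = σ v' * (s * h) := by rw [hh]; group
    rw [e1, S.mul, S.mul, ← map_sub, S.norm_map]
    have e2 : S.α s (S.α h e) - e = S.α s (S.α h e - e) + (S.α s e - e) := by
      rw [map_sub]
      abel
    rw [e2, map_add]
    refine (norm_add_le _ _).trans ?_
    rw [S.norm_map]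
    have h3 := hinv h ⟨hhK, hhN'⟩
    have h4 : ‖T.ι (S.α s e - e)‖ < η / 4 := hs1
    linarith
  obtain ⟨M, hM⟩ : ∃ M : ℕ, M = ⌈L / δ⌉₊ := ⟨_, rfl⟩
  have hM1 : L ≤ M * δ := by
    have := Nat.le_ceil (L / δ)
    rw [← hM] at this
    rwa [div_le_iff₀ hδ0] at this
  have hM2 : M * δ ≤ L + 1 := by
    have h1 := Nat.ceil_lt_add_one (show 0 ≤ L / δ from by positivity)
    rw [← hM] at h1
    have h2 : (M : ℝ) * δ ≤ (L / δ + 1) * δ := mul_le_mul_of_nonneg_right h1.le hδ0.le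
    rw [add_mul, div_mul_cancel₀ _ hδ0.ne', one_mul] at h2
    linarith
  have hM0 : M ≠ 0 := by
    rintro h
    rw [h] at hM1
    simp at hM1
    linarith
  have hMpos : (0 : ℝ) < M := Nat.cast_pos.2 (Nat.pos_of_ne_zero hM0)
  have hMz : NeZero M := ⟨hM0⟩
  have hgrid : ∀ j ∈ boxF m M, ‖gridV b δ j‖ ≤ W := by
    intro j hj
    refine (norm_gridV_le b hδ0.le hj).trans ?_
    rw [hW]
    exact mul_le_mul_of_nonneg_left hM2 (Nat.cast_nonneg _)
  refine ⟨M, hMz, δ, hδ0, hgrid, fun g hg => ?_⟩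
  -- the shift
  obtain ⟨n, hn⟩ : ∃ n : Fin m → ℤ, n = fun i => ⌊⟪b i, p g⟫ / δ⌋ := ⟨_, rfl⟩
  have H3 : ∀ i, 0 ≤ ⟪b i, p g⟫ - δ * n i := by
    intro i
    have h1 := Int.floor_le (⟪b i, p g⟫ / δ)
    rw [le_div_iff₀ hδ0] at h1
    rw [hn]
    change 0 ≤ ⟪b i, p g⟫ - δ * (⌊⟪b i, p g⟫ / δ⌋ : ℝ)
    linarith
  have H4 : ∀ i, ⟪b i, p g⟫ - δ * n i ≤ δ := by
    intro i
    have h1 := Int.lt_floor_add_one (⟪b i, p g⟫ / δ)
    rw [div_lt_iff₀ hδ0] at h1
    rw [hn]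
    change ⟪b i, p g⟫ - δ * (⌊⟪b i, p g⟫ / δ⌋ : ℝ) ≤ δ
    linarith
  have hpg : ‖p g‖ ≤ R0 := hR0D g hg
  have hng : ‖p g - gridV b δ n‖ ≤ m * δ := by
    have e1 : p g - gridV b δ n = ∑ i, (⟪b i, p g⟫ - δ * n i) • b i := by
      have e2 : p g = ∑ i, ⟪b i, p g⟫ • b i := (b.sum_repr' (p g)).symm
      unfold gridV
      conv_lhs => rw [e2]
      rw [← Finset.sum_sub_distrib]
      simp only [sub_smul]
    rw [e1]
    refine (norm_sum_smul_le b _).trans ?_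
    calc ∑ i, |⟪b i, p g⟫ - δ * n i| ≤ ∑ i : Fin m, δ :=
          Finset.sum_le_sum fun i _ => by rw [abs_of_nonneg (H3 i)]; exact H4 i
      _ = m * δ := by rw [Finset.sum_const, Finset.card_univ, Fintype.card_fin, nsmul_eq_mul]
  have hm0 : (0 : ℝ) ≤ m := Nat.cast_nonneg _
  have hmm : (m : ℝ) * δ ≤ m := by nlinarith
  have H1 : ∀ j ∈ boxF m M, ‖T.ι (S.α g (S.α (σ (gridV b δ j)) e)
      - S.α (σ (gridV b δ (j + n))) e)‖ ≤ η := by
    intro j hj
    obtain ⟨v, hv⟩ : ∃ v : V, v = gridV b δ j := ⟨_, rfl⟩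
    have hvW : ‖v‖ ≤ W := by rw [hv]; exact hgrid j hj
    have hv1 : ‖v + p g‖ ≤ W + R0 := (norm_add_le _ _).trans (add_le_add hvW hpg)
    have hv2 : ‖v + p g - gridV b δ (j + n)‖ ≤ m * δ := by
      rw [gridV_add, ← hv]
      have e1 : v + p g - (v + gridV b δ n) = p g - gridV b δ n := by abel
      rw [e1]
      exact hng
    have hv3 : ‖gridV b δ (j + n)‖ ≤ W + R0 + m := by
      have e1 : gridV b δ (j + n) = (v + p g) - (v + p g - gridV b δ (j + n)) := by abel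
      rw [e1]
      exact (norm_sub_le _ _).trans (by linarith)
    have h1 := hmesh (v + p g) (gridV b δ (j + n)) (by linarith) (by linarith) (by linarith)
    obtain ⟨h, hh⟩ : ∃ h : G, h = (σ (v + p g))⁻¹ * g * σ v := ⟨_, rfl⟩
    have hgN : g ∈ N := hDN hg
    have hhN : h ∈ N := by
      rw [hh]
      exact N.mul_mem (N.mul_mem (N.inv_mem (hσN _)) hgN) (hσN v)
    have hph : p h = 0 := by
      rw [hh, mul_assoc, hp.p_inv_mul (hσN _) (N.mul_mem hgN (hσN v)), hp.mul _ hgN _ (hσN v),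
        hσp, hσp]
      abel
    have hhN' : h ∈ N' := (hp.ker h hhN).1 hph
    have hhK : h ∈ Kb := by
      rw [hKb, hh]
      exact Or.inl (Set.mul_mem_mul (Set.mul_mem_mul (Set.inv_mem_inv.2
        (hKcσ _ (by linarith))) hg) (hKcσ v (by linarith)))
    have e1 : S.α g (S.α (σ v) e) = S.α (σ (v + p g)) (S.α h e) := by
      rw [← S.mul, ← S.mul, hh]
      congr 2
      group
    rw [← hv, e1]
    have e2 : S.α (σ (v + p g)) (S.α h e) - S.α (σ (gridV b δ (j + n))) e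
        = S.α (σ (v + p g)) (S.α h e - e)
          + (S.α (σ (v + p g)) e - S.α (σ (gridV b δ (j + n))) e) := by
      rw [map_sub]
      abel
    rw [e2, map_add]
    refine (norm_add_le _ _).trans ?_
    rw [S.norm_map]
    have h3 := hinv h ⟨hhK, hhN'⟩
    linarith
  have H2 : ∀ j ∈ boxF m M, ∀ i, ‖T.ι (S.α (σ (gridV b δ (j + Pi.single i 1))) e
      - S.α (σ (gridV b δ j)) e)‖ ≤ η := by
    intro j hj i
    have e1 : gridV b δ (Pi.single i 1) = δ • b i := by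
      unfold gridV
      rw [Finset.sum_eq_single i]
      · rw [Pi.single_eq_same]
        push_cast
        rw [mul_one]
      · intro i' _ hi'
        rw [Pi.single_eq_of_ne hi']
        simp
      · intro h
        exact absurd (Finset.mem_univ i) h
    have e2 : ‖gridV b δ (j + Pi.single i 1) - gridV b δ j‖ = δ := by
      rw [gridV_add, add_sub_cancel_left, e1, norm_smul, b.norm_eq_one, mul_one,
        Real.norm_of_nonneg hδ0.le]
    have hvW := hgrid j hj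
    have h1 : ‖gridV b δ (j + Pi.single i 1)‖ ≤ W + 1 := by
      have e3 : gridV b δ (j + Pi.single i 1)
          = gridV b δ j + (gridV b δ (j + Pi.single i 1) - gridV b δ j) := by abel
      rw [e3]
      refine (norm_add_le _ _).trans ?_
      rw [e2]
      linarith
    have h2 := hmesh (gridV b δ (j + Pi.single i 1)) (gridV b δ j) (by linarith)
      (by linarith) (by rw [e2]; linarith)
    linarith
  refine (S.bcell_eig b hδ0 he p g n η H1 H2 H3 H4).trans ?_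
  -- the sum of the shifts
  have hsum : (∑ i, |(n i : ℝ)|) * δ ≤ m * (R0 + 1) := by
    have h1 : ∀ i ∈ (Finset.univ : Finset (Fin m)), |(n i : ℝ)| * δ ≤ R0 + 1 := by
      intro i _
      have h2 : |⟪b i, p g⟫| ≤ R0 := by
        refine (abs_real_inner_le_norm _ _).trans ?_
        rw [b.norm_eq_one, one_mul]
        exact hpg
      have h3 : |(n i : ℝ)| * δ = |δ * n i| := by
        rw [abs_mul, abs_of_pos hδ0, mul_comm]
      rw [h3]
      have h4 := H3 i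
      have h5 := H4 i
      rw [abs_le] at h2 ⊢
      constructor <;> linarith [h2.1, h2.2]
    rw [Finset.sum_mul]
    refine (Finset.sum_le_sum h1).trans (le_of_eq ?_)
    rw [Finset.sum_const, Finset.card_univ, Fintype.card_fin, nsmul_eq_mul]
  have hMδ : 0 < M * δ := by positivity
  have q1 : (∑ i, |(n i : ℝ)|) / M ≤ m * (R0 + 1) / L := by
    rw [div_le_div_iff₀ hMpos (by linarith)]
    have h0 : 0 ≤ ∑ i, |(n i : ℝ)| := Finset.sum_nonneg fun _ _ => abs_nonneg _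
    calc (∑ i, |(n i : ℝ)|) * L ≤ (∑ i, |(n i : ℝ)|) * (M * δ) := mul_le_mul_of_nonneg_left hM1 h0
      _ = ((∑ i, |(n i : ℝ)|) * δ) * M := by ring
      _ ≤ m * (R0 + 1) * M := mul_le_mul_of_nonneg_right hsum hMpos.le
  have q2 : (1 : ℝ) / M ≤ 1 / L := by
    refine one_div_le_one_div_of_le (by linarith) ?_
    have : (M : ℝ) * δ ≤ M := by nlinarith
    linarith
  have q3 : (12 * (m * (R0 + 1)) + 24 * (m : ℝ) ^ 2) / L ≤ κ / 2 := by
    rw [div_le_iff₀ (by linarith)]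
    linarith
  have q4 : 3 * η ^ 2 + 6 * (m : ℝ) ^ 2 * η ^ 2 ≤ κ / 2 := by
    nlinarith [sq_nonneg η, sq_nonneg (m : ℝ), mul_nonneg (sq_nonneg (m : ℝ)) (sq_nonneg η)]
  calc 3 * η ^ 2 + 12 * (∑ i, |(n i : ℝ)|) / M + m * (m * (6 * η ^ 2 + 24 / M))
      = (3 * η ^ 2 + 6 * (m : ℝ) ^ 2 * η ^ 2)
        + (12 * ((∑ i, |(n i : ℝ)|) / M) + 24 * (m : ℝ) ^ 2 * (1 / M)) := by ring
    _ ≤ κ / 2 + (12 * (m * (R0 + 1) / L) + 24 * (m : ℝ) ^ 2 * (1 / L)) := by
        refine add_le_add q4 (add_le_add (by linarith) ?_)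
        exact mul_le_mul_of_nonneg_left q2 (by positivity)
    _ = κ / 2 + (12 * (m * (R0 + 1)) + 24 * (m : ℝ) ^ 2) / L := by ring
    _ ≤ κ := by linarith

end

end Pool.Agent.AbCoc
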