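import Pool.Agent.Lib_MP_418a80_on.On1
import Pool.Agent.Lib_MP_418a80_hyp.OrbInt

/-!
# The open normal step: mixtures `∑ λ_j q_j* r α_k(q_j)` of small norm
-/

set_option autoImplicit false
set_option linter.unusedVariables false
set_option linter.unusedSectionVars false

open Topology Filter MeasureTheory
open scoped ENNReal

namespace Pool.Agent.AbCoc

universe u v w

section
variable {A : Type u} [CStarAlgebra A] {K : Type v} [NormedAddCommGroup K]
  [InnerProductSpace ℂ K] [CompleteSpace K]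
variable {G : Type w} [Group G] [TopologicalSpace G] [IsTopologicalGroup G]
  [SecondCountableTopology G] [LocallyCompactSpace G] {T : TrAlg A K} (S : TrAct G T)

/-- an exhaustion of a closed subgroup by compact sets -/
theorem exists_levels (N : Subgroup G) (hNc : IsClosed (N : Set G)) :
    ∃ Dn : ℕ → Set G, (∀ n, IsCompact (Dn n)) ∧ (∀ n, Dn n ⊆ N) ∧ Monotone Dn ∧
      ∀ D : Set G, IsCompact D → D ⊆ N → ∃ n, D ⊆ Dn n := by
  have hemb : IsClosedEmbedding (Subtype.val : N → G) := hNc.isClosedEmbedding_subtypeVal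
  have : LocallyCompactSpace N := hemb.locallyCompactSpace
  have : SecondCountableTopology N :=
    TopologicalSpace.Subtype.secondCountableTopology (N : Set G)
  have : SigmaCompactSpace N := sigmaCompactSpace_of_locallyCompact_secondCountable
  let c := CompactExhaustion.choice N
  refine ⟨fun n => Subtype.val '' (c n), fun n => (c.isCompact n).image
    continuous_subtype_val, fun n => ?_, ?_, ?_⟩
  · rintro h ⟨h', _, rfl⟩
    exact h'.2
  · intro n m hnm
    exact Set.image_mono (c.subset hnm)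
  · intro D hD hDN
    obtain ⟨n, hn⟩ := c.exists_superset_of_isCompact (hemb.isCompact_preimage hD)
    exact ⟨n, fun h hh => ⟨⟨h, hDN hh⟩, hn hh, rfl⟩⟩

/-- **the joint minimal vector** of the hulls of `u a_j α_(k_j)(u)*`, `u` near-invariant -/
theorem TrAct.exists_hull (N : Subgroup G) [hNn : N.Normal] (hNc : IsClosed (N : Set G))
    {J : Type} [Fintype J] (a : J → A) (k : J → G) :
    ∃ z : J → A, (∀ j, ‖z j‖ ≤ ‖a j‖) ∧
      (∀ D : Set G, IsCompact D → D ⊆ N → ∀ κ ε : ℝ, 0 < κ → 0 < ε →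
        ∃ (I : Type) (_ : Fintype I) (u : I → A) (l : I → ℝ), (∀ i, S.NIU D κ (u i)) ∧
          (∀ i, 0 ≤ l i) ∧ ∑ i, l i = 1 ∧
          ∀ j, ‖T.ι (∑ i, (l i : ℂ) • (u i * a j * star (S.α (k j) (u i))) - z j)‖ ≤ ε) ∧
      (∀ ε : ℝ, 0 < ε → ∃ (D : Set G) (κ : ℝ), IsCompact D ∧ D ⊆ N ∧ 0 < κ ∧
        ∀ u, S.NIU D κ u → ∀ j, ‖T.ι (u * z j * star (S.α (k j) u) - z j)‖ ≤ ε) ∧
      ∀ j, (∀ h ∈ N, S.α h (a j) = a j) → ∀ h ∈ N, S.α h (z j) = z j := by
  classical
  obtain ⟨Dn, hDn1, hDn2, hDn4, hDn5⟩ := exists_levels N hNc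
  obtain ⟨κn, hκn⟩ : ∃ κn : ℕ → ℝ, ∀ n, κn n = 1 / ((n : ℝ) + 1) := ⟨_, fun _ => rfl⟩
  have hκn0 : ∀ n, 0 < κn n := fun n => by rw [hκn]; positivity
  have hκna : ∀ n m, n ≤ m → κn m ≤ κn n := by
    intro n m hnm
    rw [hκn, hκn]
    apply div_le_div_of_nonneg_left zero_le_one (by positivity)
    have : (n : ℝ) ≤ m := by exact_mod_cast hnm
    linarith
  have hκnl : Tendsto κn atTop (𝓝 0) :=
    tendsto_one_div_add_atTop_nhds_zero_nat.congr fun n => (hκn n).symm
  have hanti : ∀ n m, n ≤ m → S.Mixs a k (Dn m) (κn m) ⊆ S.Mixs a k (Dn n) (κn n) :=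
    fun n m hnm => S.Mixs_mono (hDn4 hnm) (hκna n m hnm)
  have hnorm : ∀ x : PiLp 2 (fun _ : J => K), ‖x‖ ^ 2 = ∑ j, ‖x j‖ ^ 2 := fun x =>
    PiLp.norm_sq_eq_of_L2 _ x
  obtain ⟨x, d, dd, hx1, hxc, hd1, hd2, hdm, hdd⟩ := nested_min (fun n => S.Mixs a k (Dn n) (κn n))
    (fun n => S.Mixs_conv a k (Dn n) (κn n)) hanti
    (fun n => ⟨WithLp.toLp 2 fun j : J => T.ι (∑ _i : Unit, ((1 : ℝ) : ℂ) •
      ((1 : A) * a j * star (S.α (k j) 1))), Unit, inferInstance, fun _ => 1, fun _ => 1,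
      fun _ => NIU.one (hκn0 n).le, fun _ => zero_le_one, by simp, fun k => rfl⟩)
    (∑ j, ‖a j‖ ^ 2) (by
      intro x hx
      obtain ⟨y, hy1, hy2, _⟩ := S.Mixs_coord hx
      rw [hnorm]
      refine Finset.sum_le_sum fun j _ => ?_
      rw [hy1]
      exact pow_le_pow_left₀ (norm_nonneg _) ((T.norm_le _).trans (hy2 j)) 2)
  -- coordinates and the limit
  choose y hy1 hy2 hy3 hy4 using fun n => S.Mixs_coord (hx1 n)
  obtain ⟨xl, hxl⟩ : ∃ xl, Tendsto x atTop (𝓝 xl) := cauchySeq_tendsto_of_complete hxc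
  have hcoord : ∀ j : J, Tendsto (fun n => T.ι (y n j)) atTop (𝓝 (xl j)) := by
    intro j
    have h1 : Tendsto (fun n => x n j) atTop (𝓝 (xl j)) :=
      ((PiLp.proj 2 (fun _ : J => K) j : (PiLp 2 fun _ : J => K) →L[ℂ] K).continuous.tendsto
        xl).comp hxl
    exact h1.congr fun n => hy1 n j
  have hz : ∀ j : J, ∃ z : A, T.ι z = xl j := by
    intro j
    obtain ⟨z, hz⟩ := T.complete ‖a j‖ (fun n => y n j) (fun n => hy2 n j) (hcoord j).cauchySeq
    exact ⟨z, tendsto_nhds_unique hz (hcoord j)⟩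
  choose z hz using hz
  have hlim : ∀ j : J, Tendsto (fun n => ‖T.ι (y n j - z j)‖) atTop (𝓝 0) := by
    intro j
    have h1 := hcoord j
    rw [← hz j, tendsto_iff_norm_sub_tendsto_zero] at h1
    refine h1.congr fun n => ?_
    rw [map_sub]
  refine ⟨z, fun j => ?_, fun D hD hDN κ ε hκ hε => ?_, fun ε1 hε1 => ?_, fun j haj h hh => ?_⟩
  · -- the norm
    letI : PartialOrder A := CStarAlgebra.spectralOrder A
    letI : StarOrderedRing A := CStarAlgebra.spectralOrderedRing A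
    refine T.norm_le_of_tendsto (x := fun n => y n j) (fun n => hy2 n j) ?_
    rw [hz]
    exact hcoord j
  · -- approximation
    obtain ⟨n0, hn0⟩ := hDn5 D hD hDN
    have h1 : ∀ᶠ n in atTop, ∀ j, ‖T.ι (y n j - z j)‖ < ε :=
      eventually_all.2 fun j => (hlim j).eventually (gt_mem_nhds hε)
    obtain ⟨n, hn1, hn2, hn3⟩ := (h1.and ((hκnl.eventually (gt_mem_nhds hκ)).and
      (eventually_ge_atTop n0))).exists
    obtain ⟨I, hI, u, l, h2, h3, h4, h5⟩ := hx1 n
    refine ⟨I, hI, u, l, fun i => (h2 i).mono (hn0.trans (hDn4 hn3)) hn2.le, h3, h4, fun j => ?_⟩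
    rw [map_sub, ← h5, hy1, ← map_sub]
    exact (hn1 j).le
  · -- invariance
    have hled : ∀ n, d n ≤ dd := fun n => hdm.ge_of_tendsto hdd n
    have h1 : Tendsto (fun n => 4 * (dd - d n)) atTop (𝓝 0) := by
      have := (hdd.const_sub dd).const_mul 4
      simpa using this
    obtain ⟨n, hn⟩ := (h1.eventually (gt_mem_nhds (show (0 : ℝ) < ε1 ^ 2 by positivity))).exists
    refine ⟨Dn n, κn n / 2, hDn1 n, hDn2 n, by have := hκn0 n; positivity, fun q hq j => ?_⟩
    have hk0 : ∀ (j : J) (w : A), ‖T.ι (q * w * star (S.α (k j) q))‖ = ‖T.ι w‖ := by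
      intro j w
      rw [T.norm_mul_unitary _ (by rw [star_star]; exact α_un hq.un (k j)),
        T.norm_unitary_mul q hq.un]
    obtain ⟨m0, hm0⟩ := (hκnl.eventually (gt_mem_nhds (show (0 : ℝ) < κn n / 2 by
      have := hκn0 n; positivity))).exists_forall_of_atTop
    have h2 : ∀ m ≥ max n m0, ‖T.ι (y m j - q * y m j * star (S.α (k j) q))‖ ^ 2
        ≤ 4 * (dd - d n + 1 / ((m : ℝ) + 1)) := by
      intro m hm
      have hnm : n ≤ m := (le_max_left _ _).trans hm
      have h3 := hy4 m (Dn n) (κn n / 2) q hq (hDn4 hnm)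
      have h4 : (WithLp.toLp 2 fun j : J => T.ι (q * y m j * star (S.α (k j) q)) :
          PiLp 2 fun _ : J => K) ∈ S.Mixs a k (Dn n) (κn n) :=
        S.Mixs_mono (le_refl _) (by
          have := (hm0 m ((le_max_right _ _).trans hm)).le
          linarith) h3
      have h5 := hd1 n _ (S.Mixs_conv a k (Dn n) (κn n) (x m) (hanti n m hnm (hx1 m)) _ h4)
      have h6 := norm_sub_sq_le_of_mid h5
      have h7 : ‖(WithLp.toLp 2 fun j : J => T.ι (q * y m j * star (S.α (k j) q)) :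
          PiLp 2 fun _ : J => K)‖ ^ 2 = ‖x m‖ ^ 2 := by
        rw [hnorm, hnorm]
        refine Finset.sum_congr rfl fun j' _ => ?_
        change ‖T.ι (q * y m j' * star (S.α (k j') q))‖ ^ 2 = _
        rw [hy1, hk0]
      rw [h7, hnorm (x m - _)] at h6
      have h8 := Finset.single_le_sum (f := fun j' : J => ‖(x m - (WithLp.toLp 2 fun j : J =>
        T.ι (q * y m j * star (S.α (k j) q)) : PiLp 2 fun _ : J => K)) j'‖ ^ 2)
        (fun k _ => by positivity) (Finset.mem_univ j)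
      have h9 : (x m - (WithLp.toLp 2 fun j : J =>
        T.ι (q * y m j * star (S.α (k j) q)) : PiLp 2 fun _ : J => K)) j
          = T.ι (y m j - q * y m j * star (S.α (k j) q)) := by
        rw [map_sub, ← hy1]
        rfl
      simp only at h8
      rw [h9] at h8
      have h10 := hd2 m
      have h11 := hled m
      linarith
    have h3 : ∀ m ≥ max n m0, ‖T.ι (q * z j * star (S.α (k j) q) - z j)‖
        ≤ 2 * ‖T.ι (y m j - z j)‖ + Real.sqrt (4 * (dd - d n + 1 / ((m : ℝ) + 1))) := by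
      intro m hm
      have h4 := Real.le_sqrt_of_sq_le (h2 m hm)
      have e1 : q * z j * star (S.α (k j) q) - z j = -(q * (y m j - z j) * star (S.α (k j) q))
          + -(y m j - q * y m j * star (S.α (k j) q)) + (y m j - z j) := by
        noncomm_ring
      rw [e1, map_add, map_add, map_neg, map_neg]
      refine (norm_add_le _ _).trans ?_
      have h5 := norm_add_le (-T.ι (q * (y m j - z j) * star (S.α (k j) q)))
        (-T.ι (y m j - q * y m j * star (S.α (k j) q)))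
      rw [norm_neg, norm_neg, hk0] at h5
      linarith
    have h4 : Tendsto (fun m : ℕ => 2 * ‖T.ι (y m j - z j)‖
        + Real.sqrt (4 * (dd - d n + 1 / ((m : ℝ) + 1)))) atTop
        (𝓝 (2 * 0 + Real.sqrt (4 * (dd - d n + 0)))) :=
      ((hlim j).const_mul 2).add ((Real.continuous_sqrt.tendsto _).comp
        ((tendsto_one_div_add_atTop_nhds_zero_nat.const_add (dd - d n)).const_mul 4))
    have h5 := ge_of_tendsto h4 (eventually_atTop.2 ⟨max n m0, h3⟩)
    refine h5.trans ?_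
    rw [mul_zero, zero_add, add_zero]
    exact (Real.sqrt_le_sqrt hn.le).trans (Real.sqrt_sq hε1.le).le
  · -- fixed
    have hkk : (k j)⁻¹ * h * k j ∈ N := by
      have := hNn.conj_mem h hh (k j)⁻¹
      rwa [inv_inv] at this
    obtain ⟨n1, hn1⟩ := hDn5 {h} isCompact_singleton (Set.singleton_subset_iff.2 hh)
    obtain ⟨n2, hn2⟩ := hDn5 {(k j)⁻¹ * h * k j} isCompact_singleton (Set.singleton_subset_iff.2 hkk)
    have h1 : ∀ n ≥ max n1 n2, ‖T.ι (S.α h (z j) - z j)‖
        ≤ 2 * ‖T.ι (y n j - z j)‖ + 2 * (κn n * ‖a j‖) := by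
      intro n hn
      have h2 := hy3 n j h (hDn4 ((le_max_left _ _).trans hn) (hn1 rfl))
        (hDn4 ((le_max_right _ _).trans hn) (hn2 rfl)) (haj h hh)
      have e : S.α h (z j) - z j = -S.α h (y n j - z j) + (S.α h (y n j) - y n j)
          + (y n j - z j) := by
        rw [map_sub]; abel
      rw [e, map_add, map_add, map_neg]
      refine (norm_add_le _ _).trans ?_
      have h3 := norm_add_le (-T.ι (S.α h (y n j - z j))) (T.ι (S.α h (y n j) - y n j))
      rw [norm_neg, S.norm_map] at h3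
      linarith
    have h4 : Tendsto (fun n => 2 * ‖T.ι (y n j - z j)‖ + 2 * (κn n * ‖a j‖)) atTop (𝓝 0) := by
      have := ((hlim j).const_mul 2).add ((hκnl.mul_const ‖a j‖).const_mul 2)
      simpa using this
    have h5 : ‖T.ι (S.α h (z j) - z j)‖ ≤ 0 :=
      ge_of_tendsto h4 (eventually_atTop.2 ⟨max n1 n2, h1⟩)
    have h6 : T.ι (S.α h (z j) - z j) = T.ι 0 := by
      rw [map_zero]
      exact norm_le_zero_iff.1 h5
    exact sub_eq_zero.1 (T.inj h6)

/-- **small mixtures**: if there are no asymptotic intertwiners then the mixtures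
`∑ λ_i u_i r α_k(u_i)*` can be made small, simultaneously for finitely many `k` -/
theorem TrAct.exists_mix (N : Subgroup G) [hNn : N.Normal] (hNc : IsClosed (N : Set G))
    (F : Finset G) (hno : ∀ k ∈ F, ∀ z, S.Intw N k z → z = 0) (r : A) (hr : ∀ h ∈ N, S.α h r = r)
    (D : Set G) (hD : IsCompact D) (hDN : D ⊆ N) (κ ε : ℝ) (hκ : 0 < κ) (hε : 0 < ε) :
    ∃ (I : Type) (_ : Fintype I) (u : I → A) (l : I → ℝ), (∀ i, S.NIU D κ (u i)) ∧
      (∀ i, 0 ≤ l i) ∧ ∑ i, l i = 1 ∧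
      ∀ k ∈ F, ‖T.ι (∑ i, (l i : ℂ) • (u i * r * star (S.α k (u i))))‖ ≤ ε := by
  classical
  obtain ⟨m, ⟨e⟩⟩ : ∃ m : ℕ, Nonempty (F ≃ Fin m) := ⟨_, ⟨F.equivFin⟩⟩
  obtain ⟨z, _, h2, h3, h4⟩ := S.exists_hull N hNc (fun _ : Fin m => r)
    (fun j => ((e.symm j : F) : G))
  have hz : ∀ j, z j = 0 := by
    intro j
    refine hno _ (e.symm j).2 _ ⟨h4 j hr, fun ε1 hε1 => ?_⟩
    obtain ⟨D1, κ1, hD1, hD1N, hκ1, h5⟩ := h3 ε1 hε1
    refine ⟨D1, κ1, hD1, hD1N, hκ1, fun q hq => ?_⟩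
    have h6 := h5 q hq j
    have e1 : z j * S.α ((e.symm j : F) : G) q - q * z j
        = -((q * z j * star (S.α ((e.symm j : F) : G) q) - z j) * S.α ((e.symm j : F) : G) q) := by
      rw [sub_mul, mul_assoc (q * z j), α_un hq.un, mul_one]
      abel
    rw [e1, map_neg, norm_neg, T.norm_mul_unitary _ (α_un' hq.un' _)]
    exact h6
  obtain ⟨I, hI, u, l, h5, h6, h7, h8⟩ := h2 D hD hDN κ ε hκ hε
  refine ⟨I, hI, u, l, h5, h6, h7, fun k hk => ?_⟩
  have h9 := h8 (e ⟨k, hk⟩)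
  rw [hz, sub_zero, Equiv.symm_apply_apply] at h9
  exact h9

end

end Pool.Agent.AbCoc
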