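import Pool.Agent.Lib_MP_418a80_on.On2b

/-!
# MP_418a80_an, the open normal step: quadratic forms with small mixed terms, the families
-/

set_option autoImplicit false
set_option linter.unusedVariables false
set_option linter.unusedSectionVars false

open MeasureTheory Topology Filter
open scoped ENNReal NNReal ComplexConjugate

namespace Pool.Agent.AbCoc

universe u v w z

section
variable {A : Type u} [CStarAlgebra A] {K : Type v} [NormedAddCommGroup K]
  [InnerProductSpace ℂ K] [CompleteSpace K] (T : TrAlg A K)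

theorem TrAlg.on_inner_mul (a b y : A) :
    inner ℂ (T.ι (a * y)) (T.ι (b * y)) = T.τ (star a * b * (y * star y)) := by
  have e : star y * star a * (b * y) = star y * (star a * b * y) := by simp only [mul_assoc]
  rw [T.inner_eq_τ, star_mul, e, T.τ_mul_comm]
  simp only [mul_assoc]

theorem TrAlg.on_τ_sum {J : Type*} (s : Finset J) (f : J → A) :
    T.τ (∑ j ∈ s, f j) = ∑ j ∈ s, T.τ (f j) := by
  unfold TrAlg.τ
  rw [map_sum, inner_sum]

theorem TrAlg.on_τ_mul_le (a b : A) : ‖T.τ (a * b)‖ ≤ ‖T.ι a‖ * ‖T.ι b‖ := by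
  have h := T.inner_eq_τ (star a) b
  rw [star_star] at h
  rw [← h, ← T.norm_star a]
  exact norm_inner_le_norm _ _

/-- **quadratic forms with small mixed terms** -/
theorem TrAlg.qf {P Q : Type*} [Fintype P] [DecidableEq Q] (R : Finset Q) (w : P → ℝ) (c : Q → ℝ)
    (X : P → Q → A) (η : ℝ) (hη0 : 0 ≤ η)
    (hη : ∀ q ∈ R, ∀ q' ∈ R, q ≠ q' → ‖T.ι (∑ p, (w p : ℂ) • (star (X p q) * X p q'))‖ ≤ η)
    (y : A) :
    |∑ p, w p * ‖T.ι ((∑ q ∈ R, (c q : ℂ) • X p q) * y)‖ ^ 2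
      - ∑ q ∈ R, c q ^ 2 * ∑ p, w p * ‖T.ι (X p q * y)‖ ^ 2|
      ≤ (∑ q ∈ R, |c q|) ^ 2 * (η * ‖y‖ ^ 2) := by
  obtain ⟨m, hm⟩ : ∃ m : Q → Q → ℂ, ∀ q q', m q q'
      = ∑ p, (w p : ℂ) * inner ℂ (T.ι (X p q * y)) (T.ι (X p q' * y)) := ⟨_, fun _ _ => rfl⟩
  have hsq : ∀ z : A, ((‖T.ι z‖ ^ 2 : ℝ) : ℂ) = inner ℂ (T.ι z) (T.ι z) := by
    intro z
    rw [inner_self_eq_norm_sq_to_K]
    norm_cast
  have h1 : ((∑ p, w p * ‖T.ι ((∑ q ∈ R, (c q : ℂ) • X p q) * y)‖ ^ 2 : ℝ) : ℂ)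
      = ∑ q ∈ R, ∑ q' ∈ R, ((c q : ℂ) * (c q' : ℂ)) * m q q' := by
    have h2 : ∀ p, ((w p * ‖T.ι ((∑ q ∈ R, (c q : ℂ) • X p q) * y)‖ ^ 2 : ℝ) : ℂ)
        = ∑ q ∈ R, ∑ q' ∈ R, ((c q : ℂ) * (c q' : ℂ)) *
          ((w p : ℂ) * inner ℂ (T.ι (X p q * y)) (T.ι (X p q' * y))) := by
      intro p
      have e : T.ι ((∑ q ∈ R, (c q : ℂ) • X p q) * y) = ∑ q ∈ R, (c q : ℂ) • T.ι (X p q * y) := by
        rw [Finset.sum_mul, map_sum]
        refine Finset.sum_congr rfl fun q _ => ?_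
        rw [smul_mul_assoc, map_smul]
      rw [Complex.ofReal_mul, hsq, e, sum_inner, Finset.mul_sum]
      refine Finset.sum_congr rfl fun q _ => ?_
      rw [inner_sum, Finset.mul_sum]
      refine Finset.sum_congr rfl fun q' _ => ?_
      rw [inner_smul_left, inner_smul_right, Complex.conj_ofReal]
      ring
    rw [Complex.ofReal_sum, Finset.sum_congr rfl fun p _ => h2 p, Finset.sum_comm]
    refine Finset.sum_congr rfl fun q _ => ?_
    rw [Finset.sum_comm]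
    refine Finset.sum_congr rfl fun q' _ => ?_
    rw [hm, Finset.mul_sum]
  have h3 : ((∑ q ∈ R, c q ^ 2 * ∑ p, w p * ‖T.ι (X p q * y)‖ ^ 2 : ℝ) : ℂ)
      = ∑ q ∈ R, ∑ q' ∈ R, if q = q' then ((c q : ℂ) * (c q' : ℂ)) * m q q' else 0 := by
    rw [Complex.ofReal_sum]
    refine Finset.sum_congr rfl fun q hq => ?_
    rw [Finset.sum_ite_eq, if_pos hq, hm, Complex.ofReal_mul, Complex.ofReal_pow, sq,
      Complex.ofReal_sum]
    congr 1
    refine Finset.sum_congr rfl fun p _ => ?_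
    rw [Complex.ofReal_mul, hsq]
  have hmb : ∀ q ∈ R, ∀ q' ∈ R, q ≠ q' → ‖m q q'‖ ≤ η * ‖y‖ ^ 2 := by
    intro q hq q' hq' hne
    have e : m q q' = T.τ ((∑ p, (w p : ℂ) • (star (X p q) * X p q')) * (y * star y)) := by
      rw [hm, Finset.sum_mul, T.on_τ_sum]
      refine Finset.sum_congr rfl fun p _ => ?_
      rw [smul_mul_assoc, T.τ_smul, T.on_inner_mul]
    rw [e]
    refine (T.on_τ_mul_le _ _).trans ?_
    have h4 : ‖T.ι (y * star y)‖ ≤ ‖y‖ ^ 2 := by
      refine (T.norm_le _).trans ?_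
      rw [CStarRing.norm_self_mul_star, sq]
    exact mul_le_mul (hη q hq q' hq' hne) h4 (norm_nonneg _) hη0
  rw [← Real.norm_eq_abs, ← Complex.norm_real, Complex.ofReal_sub, h1, h3,
    ← Finset.sum_sub_distrib]
  have h5 : ∀ q ∈ R, ‖∑ q' ∈ R, ((c q : ℂ) * (c q' : ℂ)) * m q q'
      - ∑ q' ∈ R, (if q = q' then ((c q : ℂ) * (c q' : ℂ)) * m q q' else 0)‖
      ≤ |c q| * (∑ q' ∈ R, |c q'|) * (η * ‖y‖ ^ 2) := by
    intro q hq
    rw [← Finset.sum_sub_distrib, Finset.mul_sum, Finset.sum_mul]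
    refine norm_sum_le_of_le _ fun q' hq' => ?_
    by_cases hqq : q = q'
    · rw [if_pos hqq, sub_self, norm_zero]
      positivity
    · rw [if_neg hqq, sub_zero, norm_mul, norm_mul, Complex.norm_real, Complex.norm_real,
        Real.norm_eq_abs, Real.norm_eq_abs]
      exact mul_le_mul_of_nonneg_left (hmb q hq q' hq' hqq) (by positivity)
  refine (norm_sum_le_of_le _ h5).trans (le_of_eq ?_)
  rw [← Finset.sum_mul, ← Finset.sum_mul]
  ring

/-- the left version -/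
theorem TrAlg.qf' {P Q : Type*} [Fintype P] [DecidableEq Q] (R : Finset Q) (w : P → ℝ) (c : Q → ℝ)
    (X : P → Q → A) (η : ℝ) (hη0 : 0 ≤ η)
    (hη : ∀ q ∈ R, ∀ q' ∈ R, q ≠ q' → ‖T.ι (∑ p, (w p : ℂ) • (X p q * star (X p q')))‖ ≤ η)
    (y : A) :
    |∑ p, w p * ‖T.ι (y * ∑ q ∈ R, (c q : ℂ) • X p q)‖ ^ 2
      - ∑ q ∈ R, c q ^ 2 * ∑ p, w p * ‖T.ι (y * X p q)‖ ^ 2|
      ≤ (∑ q ∈ R, |c q|) ^ 2 * (η * ‖y‖ ^ 2) := by
  have h := T.qf R w c (fun p q => star (X p q)) η hη0 (by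
    intro q hq q' hq' hne
    have h1 := hη q hq q' hq' hne
    have e : ∑ p, (w p : ℂ) • (star (star (X p q)) * star (X p q'))
        = ∑ p, (w p : ℂ) • (X p q * star (X p q')) := by
      simp only [star_star]
    rw [e]
    exact h1) (star y)
  rw [_root_.norm_star] at h
  have e1 : ∀ p, ‖T.ι ((∑ q ∈ R, (c q : ℂ) • star (X p q)) * star y)‖
      = ‖T.ι (y * ∑ q ∈ R, (c q : ℂ) • X p q)‖ := by
    intro p
    have e2 : (∑ q ∈ R, (c q : ℂ) • star (X p q)) * star y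
        = star (y * ∑ q ∈ R, (c q : ℂ) • X p q) := by
      rw [star_mul, star_sum]
      congr 1
      refine Finset.sum_congr rfl fun q _ => ?_
      rw [star_smul, Complex.star_def, Complex.conj_ofReal]
    rw [e2, T.norm_star]
  have e3 : ∀ p q, ‖T.ι (star (X p q) * star y)‖ = ‖T.ι (y * X p q)‖ := by
    intro p q
    rw [← star_mul, T.norm_star]
  simp only [e1, e3] at h
  exact h

variable {G : Type w} [Group G] [TopologicalSpace G] {T} (S : TrAct G T)

/-- **mixing families**: if there are no asymptotic intertwiners on `F`, then there are weighted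
families of late near-invariant unitaries with `∑ l u r α_k(u)* ≈ 0` for `k ∈ F` and
`∑ l u r u* ≈ τ(r)` -/
theorem TrAct.exists_fam [IsTopologicalGroup G] (H : Subgroup G) [H.Normal]
    (hkey : (S.cm H.subtype continuous_subtype_val).Key) (F : Finset G)
    (hno : ∀ k ∈ F, ∀ z, (∀ h ∈ H, S.α h z = z) → S.Intw (H : Set G) k z → z = 0)
    (r : A) (hr : ∀ h ∈ H, S.α h r = r) (D : Set G) (hD : IsCompact D) (hDH : D ⊆ H)
    (κ ε : ℝ) (hκ : 0 < κ) (hε : 0 < ε) :
    ∃ (I : Type) (_ : Fintype I) (u : I → A) (l : I → ℝ), (∀ i, S.IsNU D κ (u i)) ∧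
      (∀ i, 0 ≤ l i) ∧ ∑ i, l i = 1 ∧
      (∀ k ∈ F, ‖T.ι (∑ i, (l i : ℂ) • (u i * r * S.α k (star (u i))))‖ ≤ ε) ∧
      ‖T.ι (∑ i, (l i : ℂ) • (u i * r * star (u i)) - T.τ r • (1 : A))‖ ≤ ε := by
  classical
  obtain ⟨m, ⟨e⟩⟩ : ∃ m : ℕ, Nonempty (F ≃ Fin m) := ⟨_, ⟨F.equivFin⟩⟩
  obtain ⟨z, _, h2, h3, h4⟩ := S.on_center H (F := Option (Fin m))
    (fun o => match o with
      | none => r - T.τ r • (1 : A)
      | some _ => r)
    (fun o => match o with
      | none => 1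
      | some j => ((e.symm j : F) : G))
  have hz : ∀ j, z (some j) = 0 := by
    intro j
    refine hno _ (e.symm j).2 _ (h2 (some j) hr) fun ε1 hε1 => ?_
    obtain ⟨D1, κ1, hD1, hD1N, hκ1, h5⟩ := h4 ε1 hε1
    refine ⟨D1, κ1, hD1, hD1N, hκ1, fun q hq => ?_⟩
    have h6 := h5 q hq (some j)
    have hq1 : S.α ((e.symm j : F) : G) (star q) * S.α ((e.symm j : F) : G) q = 1 := by
      rw [← map_mul, hq.uni, map_one]
    have hq2 : S.α ((e.symm j : F) : G) q * star (S.α ((e.symm j : F) : G) q) = 1 := by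
      rw [← map_star, ← map_mul, hq.uni', map_one]
    have e1 : q * z (some j) - z (some j) * S.α ((e.symm j : F) : G) q
        = (q * z (some j) * S.α ((e.symm j : F) : G) (star q) - z (some j))
          * S.α ((e.symm j : F) : G) q := by
      rw [sub_mul, mul_assoc (q * z (some j)), hq1, mul_one]
    rw [e1, T.norm_mul_unitary _ hq2]
    exact h6
  have hz0 : z none = 0 := by
    have hAsC : S.AsC (H : Set G) (z none) := by
      intro ε1 hε1
      obtain ⟨D1, κ1, hD1, hD1N, hκ1, h5⟩ := h4 ε1 hε1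
      refine ⟨D1, κ1, hD1, hD1N, hκ1, fun q hq => ?_⟩
      have h6 := h5 q hq none
      have e1 : S.α (1 : G) (star q) = star q := S.one _
      change ‖T.ι (q * z none * S.α (1 : G) (star q) - z none)‖ ≤ ε1 at h6
      rw [e1] at h6
      exact h6
    have hfix : ∀ h ∈ H, S.α h (z none) = z none := h2 none (fun h hh => by
      change S.α h (r - T.τ r • (1 : A)) = r - T.τ r • (1 : A)
      rw [map_sub, hr h hh, map_smul, map_one])
    have hsc := TrAct.AsC.scalar S H hkey hAsC hfix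
    have hτ : T.τ (z none) = 0 := by
      have hle : ‖T.τ (z none)‖ ≤ 0 := by
        refine le_of_forall_pos_le_add fun ε1 hε1 => ?_
        obtain ⟨I, hI, u, l, h5, h6, h7, h8⟩ := h3 D hD hDH κ hκ ε1 hε1
        have h9 := h8 none
        change ‖T.ι (∑ i, (l i : ℂ) • (u i * (r - T.τ r • (1 : A)) * S.α (1 : G) (star (u i)))
          - z none)‖ ≤ ε1 at h9
        have h10 : T.τ (∑ i, (l i : ℂ) • (u i * (r - T.τ r • (1 : A)) * S.α (1 : G) (star (u i))))
            = 0 := by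
          rw [T.on_τ_sum]
          refine Finset.sum_eq_zero fun i _ => ?_
          rw [T.τ_smul, S.one, T.τ_mul_comm, ← mul_assoc, (h5 i).uni, one_mul, T.τ_sub, T.τ_smul,
            T.τ_one, mul_one, sub_self, mul_zero]
        have h11 : ‖T.τ (∑ i, (l i : ℂ) • (u i * (r - T.τ r • (1 : A)) * S.α (1 : G) (star (u i)))
            - z none)‖ ≤ ε1 := by
          have h12 := T.on_τ_mul_le 1 (∑ i, (l i : ℂ) • (u i * (r - T.τ r • (1 : A)) *
            S.α (1 : G) (star (u i))) - z none)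
          rw [one_mul, T.norm_one, one_mul] at h12
          exact h12.trans h9
        rw [T.τ_sub, h10, zero_sub, norm_neg] at h11
        linarith
      exact norm_le_zero_iff.1 hle
    rw [hsc, hτ, zero_smul]
  obtain ⟨I, hI, u, l, h5, h6, h7, h8⟩ := h3 D hD hDH κ hκ ε hε
  refine ⟨I, hI, u, l, h5, h6, h7, fun k hk => ?_, ?_⟩
  · have h9 := h8 (some (e ⟨k, hk⟩))
    change ‖T.ι (∑ i, (l i : ℂ) • (u i * r * S.α ((e.symm (e ⟨k, hk⟩) : F) : G) (star (u i)))
      - z (some (e ⟨k, hk⟩)))‖ ≤ ε at h9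
    rw [hz, sub_zero, Equiv.symm_apply_apply] at h9
    exact h9
  · have h9 := h8 none
    change ‖T.ι (∑ i, (l i : ℂ) • (u i * (r - T.τ r • (1 : A)) * S.α (1 : G) (star (u i)))
      - z none)‖ ≤ ε at h9
    rw [hz0, sub_zero] at h9
    have e1 : ∑ i, (l i : ℂ) • (u i * (r - T.τ r • (1 : A)) * S.α (1 : G) (star (u i)))
        = ∑ i, (l i : ℂ) • (u i * r * star (u i)) - T.τ r • (1 : A) := by
      have e2 : ∀ i, (l i : ℂ) • (u i * (r - T.τ r • (1 : A)) * S.α (1 : G) (star (u i)))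
          = (l i : ℂ) • (u i * r * star (u i)) - (l i : ℂ) • (T.τ r • (1 : A)) := by
        intro i
        rw [S.one, mul_sub, sub_mul, mul_smul_comm, mul_one, smul_mul_assoc, (h5 i).uni', smul_sub]
      rw [Finset.sum_congr rfl fun i _ => e2 i, Finset.sum_sub_distrib, ← Finset.sum_smul]
      congr 1
      have e3 : ∑ i, (l i : ℂ) = 1 := by
        rw [← Complex.ofReal_sum, h7, Complex.ofReal_one]
      rw [e3, one_smul]
    rw [e1] at h9
    exact h9

end

end Pool.Agent.AbCoc
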