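import Pool.Agent.Lib_MP_418a80_on.On2d

/-!
# MP_418a80_an, the open normal step: the elements `b1 u* e v b2`
-/

set_option autoImplicit false
set_option linter.unusedVariables false
set_option linter.unusedSectionVars false

open MeasureTheory Topology Filter
open scoped ENNReal NNReal ComplexConjugate

namespace Pool.Agent.AbCoc

universe u v w z

section
variable {A : Type u} [CStarAlgebra A] {K : Type v} [NormedAddCommGroup K]
  [InnerProductSpace ℂ K] [CompleteSpace K]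
variable {G : Type w} [Group G] [TopologicalSpace G] {T : TrAlg A K} (S : TrAct G T)

theorem TrAlg.on_pmq (T : TrAlg A K) (P M Q : A) {c d e : ℝ} (hP : ‖P‖ ≤ c) (hM : ‖T.ι M‖ ≤ d)
    (hQ : ‖Q‖ ≤ e) : ‖T.ι (P * M * Q)‖ ≤ c * d * e := by
  have hc : 0 ≤ c := (norm_nonneg _).trans hP
  have hd : 0 ≤ d := (norm_nonneg _).trans hM
  calc ‖T.ι (P * M * Q)‖ ≤ ‖T.ι (P * M)‖ * ‖Q‖ := T.mul_le' _ _
    _ ≤ (‖P‖ * ‖T.ι M‖) * ‖Q‖ := mul_le_mul_of_nonneg_right (T.mul_le _ _) (norm_nonneg _)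
    _ ≤ c * d * e := mul_le_mul (mul_le_mul hP hM (norm_nonneg _) hc) hQ (norm_nonneg _)
        (by positivity)

theorem on_norm_mul {a b : A} {c d : ℝ} (ha : ‖a‖ ≤ c) (hb : ‖b‖ ≤ d) : ‖a * b‖ ≤ c * d :=
  (norm_mul_le _ _).trans (mul_le_mul ha hb (norm_nonneg _) ((norm_nonneg _).trans ha))

/-- the basic elements -/
def onx {I J : Type} (b1 b2 e : A) (u : I → A) (v : J → A) (p : I × J) : A :=
  b1 * (star (u p.1) * e * v p.2) * b2

variable {I J : Type} [Fintype I] [Fintype J] {b1 b2 e : A} {u : I → A} {v : J → A}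
  {l : I → ℝ} {l' : J → ℝ}

theorem onx_norm_le (he : ‖e‖ ≤ 1) (hu : ∀ i, ‖u i‖ ≤ 1) (hv : ∀ j, ‖v j‖ ≤ 1) (p : I × J) :
    ‖onx b1 b2 e u v p‖ ≤ ‖b1‖ * ‖b2‖ := by
  have h1 : ‖star (u p.1)‖ ≤ 1 := by rw [norm_star]; exact hu _
  have h2 : ‖star (u p.1) * e * v p.2‖ ≤ 1 := by
    have := on_norm_mul (on_norm_mul h1 he) (hv p.2)
    linarith
  have h3 := on_norm_mul (on_norm_mul (le_refl ‖b1‖) h2) (le_refl ‖b2‖)
  unfold onx
  linarith

theorem TrAct.onx_mixR (k : G) (hb1 : S.α k b1 = b1) (hb2 : S.α k b2 = b2) (hs1 : star b1 = b1)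
    (hs2 : star b2 = b2) (he : ‖e‖ ≤ 1) (hv : ∀ j, ‖v j‖ ≤ 1) (hl' : ∀ j, 0 ≤ l' j)
    (hl1 : ∑ j, l' j = 1) {ε : ℝ}
    (h : ‖T.ι (∑ i, (l i : ℂ) • (u i * (b1 * b1) * S.α k (star (u i))))‖ ≤ ε) :
    ‖T.ι (∑ p : I × J, ((l p.1 * l' p.2 : ℝ) : ℂ) •
      (star (onx b1 b2 e u v p) * S.α k (onx b1 b2 e u v p)))‖ ≤ ‖b2‖ ^ 2 * ε := by
  have e1 : ∑ p : I × J, ((l p.1 * l' p.2 : ℝ) : ℂ) •
      (star (onx b1 b2 e u v p) * S.α k (onx b1 b2 e u v p))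
      = ∑ j, (l' j : ℂ) • ((b2 * (star (v j) * star e)) *
        (∑ i, (l i : ℂ) • (u i * (b1 * b1) * S.α k (star (u i)))) * (S.α k e * S.α k (v j) * b2)) := by
    rw [Fintype.sum_prod_type_right]
    refine Finset.sum_congr rfl fun j _ => ?_
    rw [Finset.mul_sum, Finset.sum_mul, Finset.smul_sum]
    refine Finset.sum_congr rfl fun i _ => ?_
    have e2 : star (onx b1 b2 e u v (i, j)) * S.α k (onx b1 b2 e u v (i, j))
        = (b2 * (star (v j) * star e)) * (u i * (b1 * b1) * S.α k (star (u i))) *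
          (S.α k e * S.α k (v j) * b2) := by
      unfold onx
      rw [star_mul, star_mul, star_mul, star_mul, star_star, hs1, hs2, map_mul, map_mul, map_mul,
        map_mul, hb1, hb2]
      noncomm_ring
    rw [e2, mul_smul_comm, smul_mul_assoc, smul_smul]
    congr 1
    push_cast
    ring
  rw [e1, map_sum]
  have h2 : ∀ j, ‖T.ι ((l' j : ℂ) • ((b2 * (star (v j) * star e)) *
        (∑ i, (l i : ℂ) • (u i * (b1 * b1) * S.α k (star (u i)))) *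
        (S.α k e * S.α k (v j) * b2)))‖ ≤ l' j * (‖b2‖ ^ 2 * ε) := by
    intro j
    rw [map_smul, norm_smul, Complex.norm_real, Real.norm_eq_abs, abs_of_nonneg (hl' j)]
    refine mul_le_mul_of_nonneg_left ?_ (hl' j)
    have h3 : ‖b2 * (star (v j) * star e)‖ ≤ ‖b2‖ := by
      have h4 : ‖star (v j)‖ ≤ 1 := by rw [norm_star]; exact hv j
      have h5 : ‖star e‖ ≤ 1 := by rw [norm_star]; exact he
      have := on_norm_mul (le_refl ‖b2‖) (on_norm_mul h4 h5)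
      linarith
    have h6 : ‖S.α k e * S.α k (v j) * b2‖ ≤ ‖b2‖ := by
      have := on_norm_mul (on_norm_mul ((S.norm_le k e).trans he) ((S.norm_le k (v j)).trans (hv j)))
        (le_refl ‖b2‖)
      linarith
    have h7 := T.on_pmq _ _ _ h3 h h6
    calc _ ≤ ‖b2‖ * ε * ‖b2‖ := h7
      _ = _ := by ring
  refine (norm_sum_le_of_le _ fun j _ => h2 j).trans (le_of_eq ?_)
  rw [← Finset.sum_mul, hl1, one_mul]

theorem TrAct.onx_mixL (k : G) (hb1 : S.α k b1 = b1) (hb2 : S.α k b2 = b2) (hs1 : star b1 = b1)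
    (hs2 : star b2 = b2) (he : ‖e‖ ≤ 1) (hu : ∀ i, ‖u i‖ ≤ 1) (hl : ∀ i, 0 ≤ l i)
    (hl1 : ∑ i, l i = 1) {ε : ℝ}
    (h : ‖T.ι (∑ j, (l' j : ℂ) • (v j * (b2 * b2) * S.α k (star (v j))))‖ ≤ ε) :
    ‖T.ι (∑ p : I × J, ((l p.1 * l' p.2 : ℝ) : ℂ) •
      (onx b1 b2 e u v p * star (S.α k (onx b1 b2 e u v p))))‖ ≤ ‖b1‖ ^ 2 * ε := by
  have e1 : ∑ p : I × J, ((l p.1 * l' p.2 : ℝ) : ℂ) •
      (onx b1 b2 e u v p * star (S.α k (onx b1 b2 e u v p)))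
      = ∑ i, (l i : ℂ) • ((b1 * (star (u i) * e)) *
        (∑ j, (l' j : ℂ) • (v j * (b2 * b2) * S.α k (star (v j)))) *
        (S.α k (star e) * S.α k (u i) * b1)) := by
    rw [Fintype.sum_prod_type]
    refine Finset.sum_congr rfl fun i _ => ?_
    rw [Finset.mul_sum, Finset.sum_mul, Finset.smul_sum]
    refine Finset.sum_congr rfl fun j _ => ?_
    have e2 : onx b1 b2 e u v (i, j) * star (S.α k (onx b1 b2 e u v (i, j)))
        = (b1 * (star (u i) * e)) * (v j * (b2 * b2) * S.α k (star (v j))) *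
          (S.α k (star e) * S.α k (u i) * b1) := by
      unfold onx
      rw [← map_star, star_mul, star_mul, star_mul, star_mul, star_star, hs1, hs2, map_mul, map_mul,
        map_mul, map_mul, hb1, hb2]
      noncomm_ring
    rw [e2, mul_smul_comm, smul_mul_assoc, smul_smul]
    congr 1
    push_cast
    ring
  rw [e1, map_sum]
  have h2 : ∀ i, ‖T.ι ((l i : ℂ) • ((b1 * (star (u i) * e)) *
        (∑ j, (l' j : ℂ) • (v j * (b2 * b2) * S.α k (star (v j)))) *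
        (S.α k (star e) * S.α k (u i) * b1)))‖ ≤ l i * (‖b1‖ ^ 2 * ε) := by
    intro i
    rw [map_smul, norm_smul, Complex.norm_real, Real.norm_eq_abs, abs_of_nonneg (hl i)]
    refine mul_le_mul_of_nonneg_left ?_ (hl i)
    have h3 : ‖b1 * (star (u i) * e)‖ ≤ ‖b1‖ := by
      have h4 : ‖star (u i)‖ ≤ 1 := by rw [norm_star]; exact hu i
      have := on_norm_mul (le_refl ‖b1‖) (on_norm_mul h4 he)
      linarith
    have h6 : ‖S.α k (star e) * S.α k (u i) * b1‖ ≤ ‖b1‖ := by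
      have h5 : ‖star e‖ ≤ 1 := by rw [norm_star]; exact he
      have := on_norm_mul (on_norm_mul ((S.norm_le k _).trans h5) ((S.norm_le k (u i)).trans (hu i)))
        (le_refl ‖b1‖)
      linarith
    have h7 := T.on_pmq _ _ _ h3 h h6
    calc _ ≤ ‖b1‖ * ε * ‖b1‖ := h7
      _ = _ := by ring
  refine (norm_sum_le_of_le _ fun i _ => h2 i).trans (le_of_eq ?_)
  rw [← Finset.sum_mul, hl1, one_mul]

/-- the mass of the basic elements -/
theorem TrAlg.onx_mass (T : TrAlg A K) (hs1 : star b1 = b1) (hs2 : star b2 = b2) (he : ‖e‖ ≤ 1)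
    (hv : ∀ j, ‖v j‖ ≤ 1) (hl : ∀ i, 0 ≤ l i) (hl' : ∀ j, 0 ≤ l' j) (hl1' : ∑ j, l' j = 1) {ε : ℝ}
    (hY : ‖T.ι (∑ i, (l i : ℂ) • (u i * (b1 * b1) * star (u i)) - T.τ (b1 * b1) • (1 : A))‖ ≤ ε)
    (hZ : ‖T.ι (∑ j, (l' j : ℂ) • (v j * (b2 * b2) * star (v j)) - T.τ (b2 * b2) • (1 : A))‖ ≤ ε) :
    ‖T.ι b1‖ ^ 2 * ‖T.ι b2‖ ^ 2 * ‖T.ι e‖ ^ 2 - ε * (‖b2‖ ^ 2 + ‖T.ι b1‖ ^ 2)
      ≤ ∑ p : I × J, (l p.1 * l' p.2) * ‖T.ι (onx b1 b2 e u v p)‖ ^ 2 := by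
  obtain ⟨Y, hYd⟩ : ∃ Y : A, Y = ∑ i, (l i : ℂ) • (u i * (b1 * b1) * star (u i)) := ⟨_, rfl⟩
  obtain ⟨Z, hZd⟩ : ∃ Z : A, Z = ∑ j, (l' j : ℂ) • (v j * (b2 * b2) * star (v j)) := ⟨_, rfl⟩
  rw [← hYd] at hY
  rw [← hZd] at hZ
  have hτsq : ∀ b : A, T.τ (b * star b) = ((‖T.ι b‖ ^ 2 : ℝ) : ℂ) := by
    intro b
    rw [T.τ_mul_comm, ← T.inner_eq_τ, inner_self_eq_norm_sq_to_K]
    norm_cast
  have hτ1 : T.τ (b1 * b1) = ((‖T.ι b1‖ ^ 2 : ℝ) : ℂ) := by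
    rw [← hτsq, hs1]
  have hτ2 : T.τ (b2 * b2) = ((‖T.ι b2‖ ^ 2 : ℝ) : ℂ) := by
    rw [← hτsq, hs2]
  have hsum : ((∑ p : I × J, (l p.1 * l' p.2) * ‖T.ι (onx b1 b2 e u v p)‖ ^ 2 : ℝ) : ℂ)
      = T.τ (Y * (e * Z * star e)) := by
    have h1 : Y * (e * Z * star e) = ∑ i, ∑ j, ((l i * l' j : ℝ) : ℂ) •
        (u i * (b1 * b1) * star (u i) * (e * (v j * (b2 * b2) * star (v j)) * star e)) := by
      rw [hYd, hZd, Finset.mul_sum, Finset.sum_mul, Finset.sum_mul]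
      refine Finset.sum_congr rfl fun i _ => ?_
      rw [Finset.mul_sum]
      refine Finset.sum_congr rfl fun j _ => ?_
      simp only [mul_smul_comm, smul_mul_assoc, smul_smul]
      push_cast
      rw [mul_comm (l i : ℂ) (l' j : ℂ)]
    rw [h1, T.on_τ_sum, Complex.ofReal_sum, Fintype.sum_prod_type]
    refine Finset.sum_congr rfl fun i _ => ?_
    rw [T.on_τ_sum]
    refine Finset.sum_congr rfl fun j _ => ?_
    rw [T.τ_smul, Complex.ofReal_mul]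
    congr 1
    have h2 : u i * (b1 * b1) * star (u i) * (e * (v j * (b2 * b2) * star (v j)) * star e)
        = (u i * b1) * (b1 * (star (u i) * e * (v j * (b2 * b2) * star (v j)) * star e)) := by
      noncomm_ring
    have h3 : b1 * (star (u i) * e * (v j * (b2 * b2) * star (v j)) * star e) * (u i * b1)
        = onx b1 b2 e u v (i, j) * star (onx b1 b2 e u v (i, j)) := by
      unfold onx
      rw [star_mul, star_mul, star_mul, star_mul, star_star, hs1, hs2]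
      noncomm_ring
    rw [h2, T.τ_mul_comm, h3, hτsq]
  have hZn : ‖Z‖ ≤ ‖b2‖ ^ 2 := by
    rw [hZd]
    have h1 : ∀ j, ‖(l' j : ℂ) • (v j * (b2 * b2) * star (v j))‖ ≤ l' j * ‖b2‖ ^ 2 := by
      intro j
      rw [norm_smul, Complex.norm_real, Real.norm_eq_abs, abs_of_nonneg (hl' j)]
      refine mul_le_mul_of_nonneg_left ?_ (hl' j)
      have h2 : ‖star (v j)‖ ≤ 1 := by rw [_root_.norm_star]; exact hv j
      have := on_norm_mul (on_norm_mul (hv j) (on_norm_mul (le_refl ‖b2‖) (le_refl ‖b2‖))) h2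
      nlinarith
    refine (norm_sum_le_of_le _ fun j _ => h1 j).trans (le_of_eq ?_)
    rw [← Finset.sum_mul, hl1', one_mul]
  have hse : ‖star e‖ ≤ 1 := by rw [_root_.norm_star]; exact he
  have hdec : T.τ (Y * (e * Z * star e)) = T.τ ((Y - T.τ (b1 * b1) • (1 : A)) * (e * Z * star e))
      + ((‖T.ι b1‖ ^ 2 : ℝ) : ℂ) * T.τ (star e * e * (Z - T.τ (b2 * b2) • (1 : A)))
      + ((‖T.ι b1‖ ^ 2 * ‖T.ι b2‖ ^ 2 * ‖T.ι e‖ ^ 2 : ℝ) : ℂ) := by
    have h1 : T.τ (e * Z * star e) = T.τ (star e * e * Z) := by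
      rw [T.τ_mul_comm, ← mul_assoc]
    have h2 : T.τ (star e * e) = ((‖T.ι e‖ ^ 2 : ℝ) : ℂ) := by
      rw [T.τ_mul_comm, hτsq]
    rw [sub_mul, T.τ_sub, smul_mul_assoc, one_mul, T.τ_smul, h1, mul_sub, mul_smul_comm, mul_one,
      T.τ_sub, T.τ_smul, h2, hτ1, hτ2]
    push_cast
    ring
  have h1 : ‖T.τ ((Y - T.τ (b1 * b1) • (1 : A)) * (e * Z * star e))‖ ≤ ε * ‖b2‖ ^ 2 := by
    refine (T.on_τ_mul_le _ _).trans ?_
    have h2 : ‖T.ι (e * Z * star e)‖ ≤ ‖b2‖ ^ 2 := by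
      refine (T.norm_le _).trans ?_
      have := on_norm_mul (on_norm_mul he hZn) hse
      linarith
    exact mul_le_mul hY h2 (norm_nonneg _) ((norm_nonneg _).trans hY)
  have h2 : ‖((‖T.ι b1‖ ^ 2 : ℝ) : ℂ) * T.τ (star e * e * (Z - T.τ (b2 * b2) • (1 : A)))‖
      ≤ ‖T.ι b1‖ ^ 2 * ε := by
    rw [norm_mul, Complex.norm_real, Real.norm_eq_abs, abs_of_nonneg (by positivity)]
    refine mul_le_mul_of_nonneg_left ?_ (by positivity)
    refine (T.on_τ_mul_le _ _).trans ?_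
    have h3 : ‖T.ι (star e * e)‖ ≤ 1 := by
      refine (T.norm_le _).trans ?_
      have := on_norm_mul hse he
      linarith
    calc ‖T.ι (star e * e)‖ * ‖T.ι (Z - T.τ (b2 * b2) • (1 : A))‖ ≤ 1 * ε :=
          mul_le_mul h3 hZ (norm_nonneg _) zero_le_one
      _ = ε := one_mul _
  have h3 := congrArg Complex.re (hsum.trans hdec)
  rw [Complex.add_re, Complex.add_re, Complex.ofReal_re, Complex.ofReal_re] at h3
  have h4 := (abs_le.1 ((Complex.abs_re_le_norm _).trans h1)).1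
  have h5 := (abs_le.1 ((Complex.abs_re_le_norm _).trans h2)).1
  rw [h3]
  linarith

variable {S}

/-- near-invariance of the basic elements -/
theorem TrAct.onx_near {h : G} (hb1 : S.α h b1 = b1) (hb2 : S.α h b2 = b2) (he : ‖e‖ ≤ 1)
    (hu : ∀ i, ‖u i‖ ≤ 1) (hv : ∀ j, ‖v j‖ ≤ 1) {κ : ℝ} (p : I × J)
    (h1 : ‖T.ι (S.α h (u p.1) - u p.1)‖ ≤ κ) (h2 : ‖T.ι (S.α h e - e)‖ ≤ κ)
    (h3 : ‖T.ι (S.α h (v p.2) - v p.2)‖ ≤ κ) :
    ‖T.ι (S.α h (onx b1 b2 e u v p) - onx b1 b2 e u v p)‖ ≤ 3 * (‖b1‖ * ‖b2‖ * κ) := by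
  obtain ⟨i, j⟩ := p
  have e1 : S.α h (onx b1 b2 e u v (i, j)) - onx b1 b2 e u v (i, j)
      = b1 * star (S.α h (u i) - u i) * (S.α h e * S.α h (v j) * b2)
        + (b1 * star (u i)) * (S.α h e - e) * (S.α h (v j) * b2)
        + (b1 * (star (u i) * e)) * (S.α h (v j) - v j) * b2 := by
    unfold onx
    rw [map_mul, map_mul, map_mul, map_mul, hb1, hb2, star_sub, map_star]
    noncomm_ring
  have hsu : ‖star (u i)‖ ≤ 1 := by rw [norm_star]; exact hu i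
  have hαe : ‖S.α h e‖ ≤ 1 := (S.norm_le h e).trans he
  have hαv : ‖S.α h (v j)‖ ≤ 1 := (S.norm_le h _).trans (hv j)
  rw [e1, map_add, map_add]
  have h4 : ‖T.ι (b1 * star (S.α h (u i) - u i) * (S.α h e * S.α h (v j) * b2))‖
      ≤ ‖b1‖ * κ * (1 * 1 * ‖b2‖) :=
    T.on_pmq _ _ _ (le_refl _) (by rw [T.norm_star]; exact h1)
      (on_norm_mul (on_norm_mul hαe hαv) (le_refl _))
  have h5 : ‖T.ι ((b1 * star (u i)) * (S.α h e - e) * (S.α h (v j) * b2))‖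
      ≤ (‖b1‖ * 1) * κ * (1 * ‖b2‖) :=
    T.on_pmq _ _ _ (on_norm_mul (le_refl _) hsu) h2 (on_norm_mul hαv (le_refl _))
  have h6 : ‖T.ι ((b1 * (star (u i) * e)) * (S.α h (v j) - v j) * b2)‖
      ≤ (‖b1‖ * (1 * 1)) * κ * ‖b2‖ :=
    T.on_pmq _ _ _ (on_norm_mul (le_refl _) (on_norm_mul hsu he)) h3 (le_refl _)
  refine (norm_add_le _ _).trans ?_
  have h7 := norm_add_le (T.ι (b1 * star (S.α h (u i) - u i) * (S.α h e * S.α h (v j) * b2)))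
    (T.ι ((b1 * star (u i)) * (S.α h e - e) * (S.α h (v j) * b2)))
  linarith

variable (S)

/-- the expectation of the basic elements is small -/
theorem TrAct.onx_E (hb1 : S.Fixed b1) (hb2 : S.Fixed b2) (he : ‖e‖ ≤ 1)
    (hu : ∀ i, ‖u i‖ ≤ 1) (hv : ∀ j, ‖v j‖ ≤ 1) {κ : ℝ} {Q : Type*} (F : Finset Q) (γ : Q → G) (ρ : Q → ℝ)
    (hρ : ∀ g, 0 ≤ ρ g) (hρ1 : ∑ g ∈ F, ρ g = 1)
    (hE : ‖T.ι (∑ g ∈ F, (ρ g : ℂ) • S.α (γ g) e)‖ ≤ κ) (p : I × J)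
    (h1 : ∀ g ∈ F, ‖T.ι (S.α (γ g) (u p.1) - u p.1)‖ ≤ κ)
    (h3 : ∀ g ∈ F, ‖T.ι (S.α (γ g) (v p.2) - v p.2)‖ ≤ κ) :
    ‖T.ι (S.E (onx b1 b2 e u v p))‖ ≤ 3 * (‖b1‖ * ‖b2‖ * κ) := by
  obtain ⟨i, j⟩ := p
  obtain ⟨x, hx⟩ : ∃ x, x = onx b1 b2 e u v (i, j) := ⟨_, rfl⟩
  rw [← hx]
  have e1 : S.E x = S.E (∑ g ∈ F, (ρ g : ℂ) • S.α (γ g) x) := by
    rw [S.E_sum]
    have h : ∀ g ∈ F, S.E ((ρ g : ℂ) • S.α (γ g) x) = (ρ g : ℂ) • S.E x := fun g _ => by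
      rw [S.E_smul, S.E_α]
    rw [Finset.sum_congr rfl h, ← Finset.sum_smul, ← Complex.ofReal_sum, hρ1, Complex.ofReal_one,
      one_smul]
  have hsu : ‖star (u i)‖ ≤ 1 := by rw [norm_star]; exact hu i
  have e2 : ∑ g ∈ F, (ρ g : ℂ) • S.α (γ g) x
      = ∑ g ∈ F, (ρ g : ℂ) • (b1 * star (S.α (γ g) (u i) - u i) * (S.α (γ g) e * S.α (γ g) (v j) * b2)
        + (b1 * (star (u i) * S.α (γ g) e)) * (S.α (γ g) (v j) - v j) * b2)
        + (b1 * star (u i)) * (∑ g ∈ F, (ρ g : ℂ) • S.α (γ g) e) * (v j * b2) := by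
    rw [Finset.mul_sum, Finset.sum_mul, ← Finset.sum_add_distrib]
    refine Finset.sum_congr rfl fun g _ => ?_
    rw [mul_smul_comm, smul_mul_assoc, ← smul_add]
    congr 1
    rw [hx]
    unfold onx
    rw [map_mul, map_mul, map_mul, map_mul, hb1, hb2, star_sub, map_star]
    noncomm_ring
  rw [e1]
  refine (S.norm_E_le _).trans ?_
  rw [e2, map_add]
  have h4 : ‖T.ι (∑ g ∈ F, (ρ g : ℂ) • (b1 * star (S.α (γ g) (u i) - u i) *
      (S.α (γ g) e * S.α (γ g) (v j) * b2)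
        + (b1 * (star (u i) * S.α (γ g) e)) * (S.α (γ g) (v j) - v j) * b2))‖ ≤ 2 * (‖b1‖ * ‖b2‖ * κ) := by
    rw [map_sum]
    have h5 : ∀ g ∈ F, ‖T.ι ((ρ g : ℂ) • (b1 * star (S.α (γ g) (u i) - u i) *
        (S.α (γ g) e * S.α (γ g) (v j) * b2)
        + (b1 * (star (u i) * S.α (γ g) e)) * (S.α (γ g) (v j) - v j) * b2))‖
        ≤ ρ g * (2 * (‖b1‖ * ‖b2‖ * κ)) := by
      intro g hg
      rw [map_smul, norm_smul, Complex.norm_real, Real.norm_eq_abs, abs_of_nonneg (hρ g)]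
      refine mul_le_mul_of_nonneg_left ?_ (hρ g)
      have hαe : ‖S.α (γ g) e‖ ≤ 1 := (S.norm_le (γ g) e).trans he
      have hαv : ‖S.α (γ g) (v j)‖ ≤ 1 := (S.norm_le (γ g) _).trans (hv j)
      have h6 : ‖T.ι (b1 * star (S.α (γ g) (u i) - u i) * (S.α (γ g) e * S.α (γ g) (v j) * b2))‖
          ≤ ‖b1‖ * κ * (1 * 1 * ‖b2‖) :=
        T.on_pmq _ _ _ (le_refl _) (by rw [T.norm_star]; exact h1 g hg)
          (on_norm_mul (on_norm_mul hαe hαv) (le_refl _))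
      have h7 : ‖T.ι ((b1 * (star (u i) * S.α (γ g) e)) * (S.α (γ g) (v j) - v j) * b2)‖
          ≤ (‖b1‖ * (1 * 1)) * κ * ‖b2‖ :=
        T.on_pmq _ _ _ (on_norm_mul (le_refl _) (on_norm_mul hsu hαe)) (h3 g hg) (le_refl _)
      rw [map_add]
      refine (norm_add_le _ _).trans ?_
      linarith
    refine (norm_sum_le_of_le _ h5).trans (le_of_eq ?_)
    rw [← Finset.sum_mul, hρ1, one_mul]
  have h8 : ‖T.ι ((b1 * star (u i)) * (∑ g ∈ F, (ρ g : ℂ) • S.α (γ g) e) * (v j * b2))‖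
      ≤ (‖b1‖ * 1) * κ * (1 * ‖b2‖) :=
    T.on_pmq _ _ _ (on_norm_mul (le_refl _) hsu) hE (on_norm_mul (hv j) (le_refl _))
  refine (norm_add_le _ _).trans ?_
  linarith

end

end Pool.Agent.AbCoc
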