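import Pool.Agent.Lib_MP_418a80_on.OnBase
import Pool.Agent.Lib_MP_418a80_on.OnSca

/-!
# [ON] On3: a nonzero intertwiner gives a unitary one (helper93)

`z z*` is fixed by `N` and commutes with late unitaries, so it is a scalar `λ > 0`, `w = z / √λ`;
`w* w = 1` follows from `w w* = 1` by the trace.
-/

set_option autoImplicit false
set_option linter.unusedVariables false
set_option linter.unusedSectionVars false

open Topology Filter MeasureTheory
open scoped RealInnerProductSpace ComplexConjugate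

namespace Pool.Agent.AbCoc

universe u v w z

section
variable {A : Type u} [CStarAlgebra A] {K : Type v} [NormedAddCommGroup K]
  [InnerProductSpace ℂ K] [CompleteSpace K]
  {G : Type w} [Group G] [TopologicalSpace G] [IsTopologicalGroup G] [T2Space G]
  [SecondCountableTopology G] [LocallyCompactSpace G] {T : TrAlg A K} (S : TrAct G T)

theorem TrAct.exists_bw (N : Subgroup G) [N.Normal] (hN : IsClosed (N : Set G))
    (hkey : (S.sub N).Key) {z : A} {g : G} (hfix : ∀ s ∈ N, S.α s z = z)
    (hz : S.Intw (N : Set G) g z) (h0 : z ≠ 0) :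
    ∃ (w : A) (h1 : star w * w = 1) (h2 : w * star w = 1), (∀ s ∈ N, S.α s w = w) ∧
      S.FixU N (S.bw h1 h2 g) := by
  -- `z z*` is a scalar
  have hzz : ∀ s ∈ N, S.α s (z * star z) = z * star z := fun s hs => by
    rw [map_mul, map_star, hfix s hs]
  have hint : S.Intw (N : Set G) 1 (z * star z) := by
    intro ε hε
    obtain ⟨D, κ, hD, hDN, hκ, h1⟩ := hz (ε / (2 * (‖z‖ + 1))) (by positivity)
    refine ⟨D, κ, hD, hDN, hκ, fun q hq => ?_⟩
    have h2 := h1 q hq
    have h3 := h1 (star q) hq.star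
    have e : q * (z * star z) - z * star z * S.α 1 q
        = (q * z - z * S.α g q) * star z - z * star (star q * z - z * S.α g (star q)) := by
      rw [S.one, star_sub, star_mul, star_mul, star_star, map_star, star_star]
      noncomm_ring
    rw [e, map_sub]
    refine (norm_sub_le _ _).trans ?_
    have h4 : ‖T.ι ((q * z - z * S.α g q) * star z)‖ ≤ (ε / (2 * (‖z‖ + 1))) * ‖z‖ := by
      refine (T.mul_le' _ _).trans ?_
      rw [norm_star]
      exact mul_le_mul_of_nonneg_right h2 (norm_nonneg _)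
    have h5 : ‖T.ι (z * star (star q * z - z * S.α g (star q)))‖
        ≤ ‖z‖ * (ε / (2 * (‖z‖ + 1))) := by
      refine (T.mul_le _ _).trans ?_
      rw [T.norm_star]
      exact mul_le_mul_of_nonneg_left h3 (norm_nonneg _)
    have h6 : (ε / (2 * (‖z‖ + 1))) * ‖z‖ ≤ ε / 2 := by
      rw [div_mul_eq_mul_div, div_le_div_iff₀ (by positivity) (by norm_num)]
      nlinarith [norm_nonneg z]
    linarith
  have hsc := S.scalar_of_intw N hN hkey hzz hint
  -- the scalar is positive
  obtain ⟨r, hr⟩ : ∃ r : ℝ, r = ‖T.ι (star z)‖ ^ 2 := ⟨_, rfl⟩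
  have hτ : T.τ (z * star z) = (r : ℂ) := by
    have h := T.inner_eq_τ (star z) (star z)
    rw [star_star] at h
    rw [← h, hr, inner_self_eq_norm_sq_to_K]
    norm_cast
  have hr0 : 0 < r := by
    rw [hr, T.norm_star]
    have h1 : 0 < ‖T.ι z‖ := by
      rw [norm_pos_iff]
      intro h
      exact h0 (T.inj (by rw [h, map_zero]))
    positivity
  rw [hτ] at hsc
  obtain ⟨c, hc⟩ : ∃ c : ℝ, c = (Real.sqrt r)⁻¹ := ⟨_, rfl⟩
  have hcc : c * c * r = 1 := by
    rw [hc]
    have h1 := Real.mul_self_sqrt hr0.le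
    have h2 : Real.sqrt r ≠ 0 := (Real.sqrt_pos.2 hr0).ne'
    field_simp
    nlinarith
  obtain ⟨w, hw⟩ : ∃ w : A, w = (c : ℂ) • z := ⟨_, rfl⟩
  have hws : star w = (c : ℂ) • star z := by
    rw [hw, star_smul, Complex.star_def, Complex.conj_ofReal]
  have h2 : w * star w = 1 := by
    rw [hws, hw, smul_mul_smul_comm, hsc, smul_smul, ← Complex.ofReal_mul, ← Complex.ofReal_mul,
      hcc, Complex.ofReal_one, one_smul]
  have h1 : star w * w = 1 := by
    have h3 : ‖T.ι (1 - star w * w)‖ ^ 2 = 0 := by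
      have e : star (1 - star w * w) * (1 - star w * w) = 1 - star w * w := by
        rw [star_sub, star_one, star_mul, star_star, mul_sub, mul_one, sub_mul, one_mul]
        have e2 : star w * w * (star w * w) = star w * w := by
          rw [mul_assoc, ← mul_assoc w, h2, one_mul]
        rw [e2, sub_self, sub_zero]
      rw [T.norm_sq, e, T.τ_sub, T.τ_one, T.τ_mul_comm, h2, T.τ_one, sub_self, Complex.zero_re]
    have h4 : T.ι (1 - star w * w) = 0 := norm_eq_zero.1 (pow_eq_zero_iff two_ne_zero |>.1 h3)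
    exact (sub_eq_zero.1 (T.inj (by rw [h4, map_zero]))).symm
  refine ⟨w, h1, h2, fun s hs => by rw [hw, map_smul, hfix s hs], fun ε hε => ?_⟩
  obtain ⟨D, κ, hD, hDN, hκ, h3⟩ := hz (ε / (|c| + 1)) (by positivity)
  refine ⟨D, κ, hD, hDN, hκ, fun q hq => ?_⟩
  have e : S.bw h1 h2 g q - q = -((c : ℂ) • (q * z - z * S.α g q)) * star w := by
    rw [S.bw_apply, smul_sub, neg_sub, sub_mul]
    congr 1
    · rw [hw, smul_mul_assoc]
    · have e3 : (c : ℂ) • (q * z) = q * w := by rw [hw, mul_smul_comm]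
      rw [e3, mul_assoc, h2, mul_one]
  have hwu : star w * star (star w) = 1 := by rw [star_star]; exact h1
  rw [e, T.norm_mul_unitary _ hwu, map_neg, norm_neg, map_smul, norm_smul, Complex.norm_real,
    Real.norm_eq_abs]
  have h4 := h3 q hq
  calc |c| * ‖T.ι (q * z - z * S.α g q)‖ ≤ (|c| + 1) * (ε / (|c| + 1)) :=
        mul_le_mul (by linarith) h4 (norm_nonneg _) (by positivity)
    _ = ε := by field_simp

end

end Pool.Agent.AbCoc
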