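import Pool.Agent.Lib_MP_418a80_ab.KeyOf
import Pool.Agent.Lib_MP_418a80_on.ON1

/-!
# [ON] piece On6, part 1: the Cayley transform in a tracial algebra

`TrAlg.exists_cayley`: for `x` self-adjoint and `R > 0` a unitary `U` with
`‖x - (R/2) Im U‖₂ ≤ ‖x²‖₂ / (2R)` and `‖φ(U) - U‖₂ ≤ (2/R) ‖φ(x) - x‖₂` for every
`*`-homomorphism `φ`.
-/

set_option autoImplicit false
set_option linter.unusedVariables false
set_option linter.unusedSectionVars false

open Topology Filter MeasureTheory

namespace Pool.Agent.AbCoc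

universe u v w

section
variable {A : Type u} [CStarAlgebra A] {K : Type v} [NormedAddCommGroup K]
  [InnerProductSpace ℂ K] [CompleteSpace K] (T : TrAlg A K)

theorem isUnit_one_sub_I_smul (x : A) (hx : IsSelfAdjoint x) (t : ℝ) :
    IsUnit (1 - ((t : ℂ) * Complex.I) • x) := by
  rcases eq_or_ne t 0 with h0 | h0
  · rw [h0]
    simp
  have hI : ((t : ℂ) * Complex.I) ≠ 0 :=
    mul_ne_zero (by exact_mod_cast h0) Complex.I_ne_zero
  have h1 : ((t : ℂ) * Complex.I)⁻¹ ∉ spectrum ℂ x := by
    intro h
    have h2 := hx.mem_spectrum_eq_re h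
    have h3 : (((t : ℂ) * Complex.I)⁻¹).im = 0 := by rw [h2]; exact Complex.ofReal_im _
    have h4 : ((t : ℂ) * Complex.I)⁻¹ = ((-t⁻¹ : ℝ) : ℂ) * Complex.I := by
      rw [mul_inv, Complex.inv_I]
      push_cast
      ring
    rw [h4] at h3
    simp at h3
    exact h0 h3
  rw [spectrum.notMem_iff] at h1
  have h5 : (1 - ((t : ℂ) * Complex.I) • x)
      = ((t : ℂ) * Complex.I) • (algebraMap ℂ A (((t : ℂ) * Complex.I)⁻¹) - x) := by
    rw [smul_sub, Algebra.algebraMap_eq_smul_one, smul_smul, mul_inv_cancel₀ hI, one_smul]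
  rw [h5]
  obtain ⟨W, hW⟩ := h1
  rw [← hW]
  refine ⟨(Units.mk0 _ hI) • W, ?_⟩
  rw [Units.val_smul]
  rfl

/-- the Cayley transform -/
theorem TrAlg.exists_cayley (x : A) (hx : IsSelfAdjoint x) (R : ℝ) (hR : 0 < R) :
    ∃ U : A, star U * U = 1 ∧ U * star U = 1 ∧
      ‖T.ι (x - ((R / 4 : ℝ) * (-Complex.I)) • (U - star U))‖ ≤ ‖T.ι (x * x)‖ / (2 * R) ∧
      ∀ φ : A →⋆ₐ[ℂ] A, ‖T.ι (φ U - U)‖ ≤ 2 / R * ‖T.ι (φ x - x)‖ := by
  set c : ℂ := ((R⁻¹ : ℝ) : ℂ) * Complex.I with hc
  have hcc : star c = -c := by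
    rw [hc]
    simp
  obtain ⟨W, hW⟩ := isUnit_one_sub_I_smul x hx R⁻¹
  rw [← hc] at hW
  set V : A := ((W⁻¹ : Aˣ) : A) with hV
  have hWV : (1 - c • x) * V = 1 := by rw [← hW, hV]; exact W.mul_inv
  have hVW : V * (1 - c • x) = 1 := by rw [← hW, hV]; exact W.inv_mul
  have hsW : star (1 - c • x) = 1 + c • x := by
    rw [star_sub, star_one, star_smul, hx.star_eq, hcc, neg_smul, sub_neg_eq_add]
  have hWV' : (1 + c • x) * star V = 1 := by
    rw [← hsW, ← star_mul, hVW, star_one]
  have hVW' : star V * (1 + c • x) = 1 := by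
    rw [← hsW, ← star_mul, hWV, star_one]
  -- commutation
  have hxV : x * V = V * x := by
    have h1 : V * ((1 - c • x) * x) * V = V * (x * (1 - c • x)) * V := by
      congr 2
      rw [sub_mul, mul_sub, one_mul, mul_one, smul_mul_assoc, mul_smul_comm]
    calc x * V = (V * (1 - c • x)) * x * V := by rw [hVW, one_mul]
      _ = V * ((1 - c • x) * x) * V := by noncomm_ring
      _ = V * (x * (1 - c • x)) * V := h1
      _ = V * x * ((1 - c • x) * V) := by noncomm_ring
      _ = V * x := by rw [hWV, mul_one]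
  have hxV' : x * star V = star V * x := by
    have := congrArg star hxV
    rw [star_mul, star_mul, hx.star_eq] at this
    exact this.symm
  -- the unitary
  have hU1 : (1 + c • x) * V = 2 • V - 1 := by
    have : (1 + c • x) * V = 2 • V - (1 - c • x) * V := by
      generalize c • x = y
      noncomm_ring
    rw [this, hWV]
  have hsU : star ((1 + c • x) * V) = star V * (1 - c • x) := by
    rw [star_mul, ← hsW, star_star]
  have hcomm : (1 - c • x) * (1 + c • x) = (1 + c • x) * (1 - c • x) := by
    generalize c • x = y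
    noncomm_ring
  have hun : star ((1 + c • x) * V) * ((1 + c • x) * V) = 1 := by
    rw [hsU]
    calc star V * (1 - c • x) * ((1 + c • x) * V)
        = star V * ((1 - c • x) * (1 + c • x)) * V := by noncomm_ring
      _ = star V * ((1 + c • x) * (1 - c • x)) * V := by rw [hcomm]
      _ = (star V * (1 + c • x)) * ((1 - c • x) * V) := by noncomm_ring
      _ = 1 := by rw [hVW', hWV, one_mul]
  have hVc : (1 + c • x) * V = V * (1 + c • x) := by
    rw [add_mul, mul_add, one_mul, mul_one, smul_mul_assoc, mul_smul_comm, hxV]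
  have hVc' : star V * (1 - c • x) = (1 - c • x) * star V := by
    rw [sub_mul, mul_sub, one_mul, mul_one, smul_mul_assoc, mul_smul_comm, hxV']
  have hun' : ((1 + c • x) * V) * star ((1 + c • x) * V) = 1 := by
    rw [hsU, hVc, hVc']
    calc V * (1 + c • x) * ((1 - c • x) * star V)
        = V * ((1 + c • x) * (1 - c • x)) * star V := by noncomm_ring
      _ = V * ((1 - c • x) * (1 + c • x)) * star V := by rw [hcomm]
      _ = (V * (1 - c • x)) * ((1 + c • x) * star V) := by noncomm_ring
      _ = 1 := by rw [hVW, hWV', one_mul]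
  obtain ⟨U, hU⟩ : ∃ U : A, U = (1 + c • x) * V := ⟨_, rfl⟩
  rw [← hU] at hun hun' hU1
  have hUn : ‖U‖ ≤ 1 := TrAct.norm_unit_le T U hun
  have hone : ‖(1 : A)‖ ≤ 1 := TrAct.norm_unit_le T 1 (by rw [star_one, one_mul])
  have hV2 : V = (2⁻¹ : ℂ) • (U + 1) := by
    rw [hU1, sub_add_cancel]
    rw [← Nat.cast_smul_eq_nsmul ℂ, smul_smul]
    norm_num
  have hVn : ‖V‖ ≤ 1 := by
    rw [hV2, norm_smul, norm_inv]
    have h2 : ‖(2 : ℂ)‖ = 2 := by simp
    rw [h2]
    have := norm_add_le U 1
    linarith
  -- `V x V* = (R/4) (-i) (U - U*)`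
  have hUU : V * x * star V = ((R / 4 : ℝ) * (-Complex.I)) • (U - star U) := by
    have h1 : U - star U = (4 * c) • (V * x * star V) := by
      have h2 : U - star U = V * ((1 + c • x) * (1 + c • x) - (1 - c • x) * (1 - c • x)) * star V := by
        have h3 : U = V * ((1 + c • x) * (1 + c • x)) * star V := by
          calc U = V * (1 + c • x) := by rw [hU, hVc]
            _ = V * (1 + c • x) * ((1 + c • x) * star V) := by rw [hWV', mul_one]
            _ = _ := by noncomm_ring
        have h4 : star U = V * ((1 - c • x) * (1 - c • x)) * star V := by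
          calc star U = (1 - c • x) * star V := by rw [hU, hsU, hVc']
            _ = (V * (1 - c • x)) * ((1 - c • x) * star V) := by rw [hVW, one_mul]
            _ = _ := by noncomm_ring
        calc U - star U = V * ((1 + c • x) * (1 + c • x)) * star V
              - V * ((1 - c • x) * (1 - c • x)) * star V := by rw [← h3, ← h4]
          _ = _ := by
            generalize c • x = y
            noncomm_ring
      rw [h2]
      have h5 : (1 + c • x) * (1 + c • x) - (1 - c • x) * (1 - c • x) = (4 * c) • x := by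
        have h4' : (4 * c) • x = 4 • (c • x) := by
          rw [← Nat.cast_smul_eq_nsmul ℂ 4 (c • x), smul_smul]
          norm_num
        rw [h4']
        generalize c • x = y
        noncomm_ring
      rw [h5, mul_smul_comm, smul_mul_assoc]
    rw [h1, smul_smul]
    have h6 : ((R / 4 : ℝ) : ℂ) * (-Complex.I) * (4 * c) = 1 := by
      rw [hc]
      have hR' : (R : ℂ) ≠ 0 := by exact_mod_cast hR.ne'
      push_cast
      have : (R : ℂ) / 4 * -Complex.I * (4 * ((R : ℂ)⁻¹ * Complex.I))
          = -(Complex.I * Complex.I) * (R * (R : ℂ)⁻¹) := by ring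
      rw [this, mul_inv_cancel₀ hR', Complex.I_mul_I]
      norm_num
    rw [h6, one_smul]
  have hVxV : ‖V * x * star V‖ ≤ R / 2 := by
    rw [hUU, norm_smul, norm_mul, norm_neg, Complex.norm_I, mul_one, Complex.norm_real,
      Real.norm_of_nonneg (by positivity)]
    have h7 : ‖U - star U‖ ≤ 2 := by
      refine (norm_sub_le _ _).trans ?_
      rw [_root_.norm_star]
      linarith
    nlinarith
  refine ⟨U, hun, hun', ?_, ?_⟩
  · rw [← hUU]
    have h8 : x - V * x * star V = ((R⁻¹ ^ 2 : ℝ) : ℂ) • (x * x * (V * x * star V)) := by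
      have h9 : x = V * ((1 - c • x) * x * (1 + c • x)) * star V := by
        calc x = (V * (1 - c • x)) * x * ((1 + c • x) * star V) := by
              rw [hVW, hWV', one_mul, mul_one]
          _ = _ := by noncomm_ring
      have h10 : (1 - c • x) * x * (1 + c • x) = x + ((R⁻¹ ^ 2 : ℝ) : ℂ) • (x * x * x) := by
        have h11 : (1 - c • x) * x * (1 + c • x) = x - (c * c) • (x * x * x) := by
          have h11' : (c * c) • (x * x * x) = (c • x) * x * (c • x) := by
            rw [smul_mul_assoc, smul_mul_assoc, mul_smul_comm, smul_smul]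
          have h11'' : x * (c • x) = (c • x) * x := by rw [mul_smul_comm, smul_mul_assoc]
          rw [h11']
          generalize c • x = y at h11''
          calc (1 - y) * x * (1 + y) = x + x * y - y * x - y * x * y := by noncomm_ring
            _ = x - y * x * y := by rw [h11'']; abel
        have h12 : c * c = -((R⁻¹ ^ 2 : ℝ) : ℂ) := by
          rw [hc]
          push_cast
          have : (R : ℂ)⁻¹ * Complex.I * ((R : ℂ)⁻¹ * Complex.I)
            = (R : ℂ)⁻¹ ^ 2 * (Complex.I * Complex.I) := by ring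
          rw [this, Complex.I_mul_I]
          ring
        rw [h11, h12, neg_smul, sub_neg_eq_add]
      have h13 : x * x * (V * x * star V) = V * (x * x * x) * star V := by
        calc x * x * (V * x * star V) = x * (x * V) * x * star V := by noncomm_ring
          _ = x * (V * x) * x * star V := by rw [hxV]
          _ = (x * V) * x * x * star V := by noncomm_ring
          _ = (V * x) * x * x * star V := by rw [hxV]
          _ = _ := by noncomm_ring
      rw [h13]
      calc x - V * x * star V = V * ((1 - c • x) * x * (1 + c • x)) * star V - V * x * star V := by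
            rw [← h9]
        _ = _ := by
            rw [h10, mul_add, add_mul, mul_smul_comm, smul_mul_assoc, add_sub_cancel_left]
    rw [h8, map_smul, norm_smul, Complex.norm_real, Real.norm_of_nonneg (by positivity)]
    have h14 := T.mul_le' (x * x) (V * x * star V)
    have h15 : ‖T.ι (x * x)‖ * ‖V * x * star V‖ ≤ ‖T.ι (x * x)‖ * (R / 2) :=
      mul_le_mul_of_nonneg_left hVxV (norm_nonneg _)
    calc R⁻¹ ^ 2 * ‖T.ι (x * x * (V * x * star V))‖ ≤ R⁻¹ ^ 2 * (‖T.ι (x * x)‖ * (R / 2)) :=
          mul_le_mul_of_nonneg_left (h14.trans h15) (by positivity)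
      _ = ‖T.ι (x * x)‖ / (2 * R) := by field_simp
  · intro φ
    have hφ1 : φ V * (1 - c • φ x) = 1 := by
      have := congrArg φ hVW
      rw [map_mul, map_sub, map_one, map_smul] at this
      exact this
    have h16 : φ V - V = φ V * (c • (φ x - x)) * V := by
      calc φ V - V = φ V * ((1 - c • x) * V) - (φ V * (1 - c • φ x)) * V := by
            rw [hWV, hφ1, mul_one, one_mul]
        _ = φ V * (c • (φ x - x)) * V := by
            rw [smul_sub]
            generalize c • x = y
            generalize c • φ x = y'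
            noncomm_ring
    have h17 : φ U - U = (2 : ℂ) • (φ V - V) := by
      rw [hU1, map_sub, map_nsmul, map_one, ← Nat.cast_smul_eq_nsmul ℂ,
        ← Nat.cast_smul_eq_nsmul ℂ 2 V, smul_sub]
      push_cast
      abel
    have hφV : ‖φ V‖ ≤ 1 := (NonUnitalStarAlgHom.norm_apply_le φ V).trans hVn
    rw [h17, map_smul, norm_smul, h16]
    have h18 : ‖T.ι (φ V * (c • (φ x - x)) * V)‖ ≤ R⁻¹ * ‖T.ι (φ x - x)‖ := by
      have h19 := T.mul_le' (φ V * (c • (φ x - x))) V
      have h20 := T.mul_le (φ V) (c • (φ x - x))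
      have h21 : ‖T.ι (c • (φ x - x))‖ = R⁻¹ * ‖T.ι (φ x - x)‖ := by
        rw [map_smul, norm_smul, hc, norm_mul, Complex.norm_I, mul_one, Complex.norm_real,
          Real.norm_of_nonneg (by positivity)]
      rw [h21] at h20
      have h22 : 0 ≤ R⁻¹ * ‖T.ι (φ x - x)‖ := by positivity
      calc _ ≤ ‖T.ι (φ V * (c • (φ x - x)))‖ * ‖V‖ := h19
        _ ≤ ‖T.ι (φ V * (c • (φ x - x)))‖ * 1 := mul_le_mul_of_nonneg_left hVn (norm_nonneg _)
        _ ≤ _ := by
          rw [mul_one]
          exact h20.trans (mul_le_of_le_one_left h22 hφV)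
    have h23 : ‖(2 : ℂ)‖ = 2 := by simp
    rw [h23]
    calc 2 * ‖T.ι (φ V * (c • (φ x - x)) * V)‖ ≤ 2 * (R⁻¹ * ‖T.ι (φ x - x)‖) :=
          mul_le_mul_of_nonneg_left h18 (by norm_num)
      _ = _ := by rw [div_eq_mul_inv]; ring

end

end Pool.Agent.AbCoc
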