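import Pool.Agent.Lib_MP_418a80_on.OnBase

/-!
# [ON] On7: conjugation is trivial on the layer

Suppose `p(g s g⁻¹) ≠ p(s)` for some `s ∈ N`, `v0` the difference. `ε = 1/8`, level `(D, κ)` from
`FixC`; `|p| ≤ P` on `D`; `n` large, `t = π / (n |v0|²)` with `t |v0| P ≤ κ/2`; `x` near-`(t v0)`-eigen
at the level `D ∪ {s^n, g s^n g⁻¹}`, `‖x‖₂² ≥ 1/8` (`EigN.exists_one`). Then `x` is near-invariant
(`NE.shift`), `β x ≈ x`, `χ(s^n) x ≈ β(α_(s^n) x) = α_(g s^n g⁻¹)(β x) ≈ χ(g s^n g⁻¹) x`, but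
`χ(g s^n g⁻¹) = -χ(s^n)`.
-/

set_option autoImplicit false
set_option linter.unusedVariables false
set_option linter.unusedSectionVars false

open Topology Filter MeasureTheory
open scoped RealInnerProductSpace ComplexConjugate

namespace Pool.Agent.AbCoc

universe u v w z

section
variable {A : Type u} [CStarAlgebra A] {K : Type v} [NormedAddCommGroup K]
  [InnerProductSpace ℂ K] [CompleteSpace K]
  {G : Type w} [Group G] [TopologicalSpace G] [IsTopologicalGroup G] [T2Space G]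
  [SecondCountableTopology G] [LocallyCompactSpace G] {T : TrAlg A K} (S : TrAct G T)

private theorem layer_pow {V : Type z} [NormedAddCommGroup V] [InnerProductSpace ℝ V]
    {N N' : Subgroup G} {p : G → V} (hp : IsLayer N N' p) {s : G} (hs : s ∈ N) (n : ℕ) :
    p (s ^ n) = (n : ℝ) • p s := by
  induction n with
  | zero =>
    have h := hp.mul 1 N.one_mem 1 N.one_mem
    rw [mul_one] at h
    have h0 : p 1 = 0 := by
      have := congrArg (fun x => x - p 1) h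
      simpa using this.symm
    rw [pow_zero, h0, Nat.cast_zero, zero_smul]
  | succ n ih =>
    rw [pow_succ, hp.mul _ (N.pow_mem hs n) _ hs, ih, Nat.cast_succ, add_smul, one_smul]

theorem TrAct.psi_zero {V : Type z} [NormedAddCommGroup V] [InnerProductSpace ℝ V]
    (N N' : Subgroup G) (hN : IsClosed (N : Set G)) (p : G → V) (hp : IsLayer N N' p)
    (heig : S.EigN N p) (β : A →⋆ₐ[ℂ] A) (g : G) (hg : ∀ s, s ∈ N ↔ g * s * g⁻¹ ∈ N)
    (hβ : S.Tw N g β) (hfix : S.FixC N β) :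
    ∀ s ∈ N, p (g * s * g⁻¹) = p s := by
  intro s hs
  by_contra hne
  obtain ⟨v0, hv0⟩ : ∃ v0, v0 = p (g * s * g⁻¹) - p s := ⟨_, rfl⟩
  have hv0ne : v0 ≠ 0 := by rw [hv0]; exact sub_ne_zero.2 hne
  have hv0p : 0 < ‖v0‖ := norm_pos_iff.2 hv0ne
  obtain ⟨D, κ, hD, hDN, hκ, hfx⟩ := hfix (1 / 16) (by norm_num)
  obtain ⟨P, hP0, hP⟩ : ∃ P : ℝ, 0 ≤ P ∧ ∀ r ∈ D, ‖p r‖ ≤ P := by
    obtain ⟨P, hP⟩ := (hD.image_of_continuousOn (hp.cont.mono hDN).norm).bddAbove
    refine ⟨max P 0, le_max_right _ _, fun r hr => (hP ⟨r, hr, rfl⟩).trans (le_max_left _ _)⟩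
  obtain ⟨n, hn⟩ := exists_nat_gt (2 * Real.pi * P / (κ * ‖v0‖))
  have hn0 : (0 : ℝ) < n := lt_of_le_of_lt (by positivity) hn
  obtain ⟨t, ht⟩ : ∃ t : ℝ, t = Real.pi / (n * ‖v0‖ ^ 2) := ⟨_, rfl⟩
  have ht0 : 0 < t := by rw [ht]; positivity
  have htP : t * ‖v0‖ * P ≤ κ / 2 := by
    have h1 : 2 * Real.pi * P ≤ n * (κ * ‖v0‖) := by
      rw [div_lt_iff₀ (by positivity)] at hn
      exact hn.le
    rw [ht]
    have h2 : Real.pi / (n * ‖v0‖ ^ 2) * ‖v0‖ * P = Real.pi * P / (n * ‖v0‖) := by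
      field_simp
    rw [h2, div_le_iff₀ (by positivity)]
    linarith
  have hgs : g * s ^ n * g⁻¹ ∈ N := (hg _).1 (N.pow_mem hs n)
  have hgs1 : g * s * g⁻¹ ∈ N := (hg _).1 hs
  have hsn : s ^ n ∈ N := N.pow_mem hs n
  obtain ⟨x, hx, hx1⟩ := heig.exists_one (t • v0) (D ∪ {s ^ n, g * s ^ n * g⁻¹})
    (hD.union (Set.toFinite _).isCompact) (by
      rintro r (hr | hr | hr)
      · exact hDN hr
      · rw [hr]; exact hsn
      · rw [hr]; exact hgs) (min (κ / 2) (1 / 16)) (lt_min (by positivity) (by norm_num))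
  have hx2 : S.NE (fun _ => 1) D κ x := by
    have h1 : S.NE (pch p (t • v0)) D (κ / 2) x := hx.mono Set.subset_union_left (min_le_left _ _)
    have h2 : S.NE (pch p 0) D (κ / 2 + κ / 2) x := h1.shift fun r hr => by
      rw [sub_zero]
      refine (abs_real_inner_le_norm _ _).trans ?_
      rw [norm_smul, Real.norm_eq_abs, abs_of_pos ht0]
      exact (mul_le_mul_of_nonneg_left (hP r hr) (by positivity)).trans htP
    exact (NE.of_zero h2).mono subset_rfl (by linarith)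
  have hfx1 := hfx x hx2
  obtain ⟨c1, hc1⟩ : ∃ c1, c1 = pch p (t • v0) (s ^ n) := ⟨_, rfl⟩
  obtain ⟨c2, hc2⟩ : ∃ c2, c2 = pch p (t • v0) (g * s ^ n * g⁻¹) := ⟨_, rfl⟩
  have hc : c2 = -c1 := by
    have e1 : g * s ^ n * g⁻¹ = (g * s * g⁻¹) ^ n := by rw [conj_pow]
    rw [hc2, hc1]
    unfold pch
    rw [e1, layer_pow hp hgs1, layer_pow hp hs]
    have e2 : p (g * s * g⁻¹) = p s + v0 := by rw [hv0]; abel
    rw [e2, smul_add, inner_add_right, ch_add]
    have e3 : ⟪t • v0, (n : ℝ) • v0⟫ = Real.pi := by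
      rw [real_inner_smul_left, real_inner_smul_right, real_inner_self_eq_norm_sq, ht]
      field_simp
    rw [e3]
    unfold ch
    rw [Complex.exp_pi_mul_I, mul_neg_one]
  have hc1n : ‖c1‖ = 1 := by rw [hc1]; exact norm_pch p _ _
  have hk := min_le_right (κ / 2) (1 / 16 : ℝ)
  have h1 : ‖T.ι (S.α (s ^ n) x - c1 • x)‖ ≤ 1 / 16 := by
    rw [hc1]
    exact (hx.ne _ (Or.inr (Or.inl rfl))).trans hk
  have h2 : ‖T.ι (S.α (g * s ^ n * g⁻¹) x - c2 • x)‖ ≤ 1 / 16 := by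
    rw [hc2]
    exact (hx.ne _ (Or.inr (Or.inr rfl))).trans hk
  have h3 : ‖T.ι (β (S.α (s ^ n) x) - c1 • x)‖ ≤ 1 / 8 := by
    have e : β (S.α (s ^ n) x) - c1 • x = β (S.α (s ^ n) x - c1 • x) + c1 • (β x - x) := by
      rw [map_sub, map_smul, smul_sub]
      abel
    rw [e, map_add]
    refine (norm_add_le _ _).trans ?_
    rw [hβ.iso, map_smul, norm_smul, hc1n, one_mul]
    linarith
  have h4 : ‖T.ι (S.α (g * s ^ n * g⁻¹) (β x) - c2 • x)‖ ≤ 1 / 8 := by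
    have e : S.α (g * s ^ n * g⁻¹) (β x) - c2 • x =
        S.α (g * s ^ n * g⁻¹) (β x - x) + (S.α (g * s ^ n * g⁻¹) x - c2 • x) := by
      rw [map_sub]
      abel
    rw [e, map_add]
    refine (norm_add_le _ _).trans ?_
    rw [S.norm_map]
    linarith
  rw [← hβ.cov _ hsn, hc] at h4
  have h5 : ‖T.ι ((2 * c1) • x)‖ ≤ 1 / 4 := by
    have e : (2 * c1) • x = (β (S.α (s ^ n) x) - -c1 • x) - (β (S.α (s ^ n) x) - c1 • x) := by
      rw [two_mul, add_smul, neg_smul]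
      abel
    rw [e, map_sub]
    refine (norm_sub_le _ _).trans ?_
    linarith
  rw [map_smul, norm_smul, norm_mul, hc1n, Complex.norm_ofNat, mul_one] at h5
  have h6 : ‖T.ι x‖ ≤ 1 / 8 := by linarith
  have h7 := pow_le_pow_left₀ (norm_nonneg _) h6 2
  linarith

end

end Pool.Agent.AbCoc
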