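import Pool.Agent.Lib_MP_418a80_on.OnBase

/-!
# [ON] OnChar: continuous characters of `ℝ^m`
-/

set_option autoImplicit false
set_option linter.unusedVariables false
set_option linter.unusedSectionVars false

open Topology Filter MeasureTheory
open scoped RealInnerProductSpace ComplexConjugate

namespace Pool.Agent.AbCoc

universe u v w z

section
variable {V : Type z} [NormedAddCommGroup V] [InnerProductSpace ℝ V] [FiniteDimensional ℝ V]

theorem onchar_nat_mul (n : ℕ) (t : ℝ) : ch (n * t) = ch t ^ n := by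
  unfold ch
  rw [← Complex.exp_nat_mul]
  congr 1
  push_cast
  ring

theorem onchar_arg {z : ℂ} (hz : ‖z‖ = 1) : ch (Complex.arg z) = z := by
  have h := Complex.norm_mul_exp_arg_mul_I z
  rw [hz, Complex.ofReal_one, one_mul] at h
  exact h

/-- a unimodular character of `V`, continuous at `0`, is `q ↦ exp (i ⟪q, v⟫)` -/
theorem exists_inner_of_char (c : V → ℂ) (h1 : ∀ q, ‖c q‖ = 1)
    (hadd : ∀ q q', c (q + q') = c q * c q')
    (hcont : ∀ ε : ℝ, 0 < ε → ∃ δ : ℝ, 0 < δ ∧ ∀ q, ‖q‖ < δ → ‖c q - 1‖ < ε) :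
    ∃ v : V, ∀ q, c q = ch ⟪q, v⟫ := by
  have hc0 : c 0 = 1 := by
    have h2 := hadd 0 0
    rw [add_zero] at h2
    have h3 : c 0 ≠ 0 := fun h => by
      have := h1 0
      rw [h, norm_zero] at this
      exact zero_ne_one this
    exact (mul_eq_left₀ h3).1 h2.symm
  have hnz : ∀ q, c q ≠ 0 := fun q h => by
    have := h1 q
    rw [h, norm_zero] at this
    exact zero_ne_one this
  obtain ⟨δ, hδ, hδc⟩ := hcont 1 one_pos
  have harg : ∀ q, ‖q‖ < δ → |Complex.arg (c q)| < Real.pi / 2 := by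
    intro q hq
    rw [Complex.abs_arg_lt_pi_div_two_iff]
    left
    have h2 := hδc q hq
    have h3 := (Complex.abs_re_le_norm (c q - 1)).trans_lt h2
    rw [Complex.sub_re, Complex.one_re, abs_lt] at h3
    linarith
  have haddarg : ∀ q q', ‖q‖ < δ → ‖q'‖ < δ →
      Complex.arg (c (q + q')) = Complex.arg (c q) + Complex.arg (c q') := by
    intro q q' hq hq'
    rw [hadd]
    have h2 := abs_lt.1 (harg q hq)
    have h3 := abs_lt.1 (harg q' hq')
    exact Complex.arg_mul (hnz q) (hnz q') ⟨by linarith, by linarith⟩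
  have hpow : ∀ (n : ℕ) (q : V), c (n • q) = c q ^ n := by
    intro n q
    induction n with
    | zero => rw [zero_smul, pow_zero, hc0]
    | succ n ih => rw [succ_nsmul, hadd, ih, pow_succ]
  -- the dyadic values
  obtain ⟨d, hd⟩ : ∃ d : ℕ → V → V, ∀ n q, d n q = ((2 : ℝ) ^ n)⁻¹ • q := ⟨_, fun _ _ => rfl⟩
  have hdn : ∀ n q, ‖d n q‖ = ((2 : ℝ) ^ n)⁻¹ * ‖q‖ := by
    intro n q
    rw [hd, norm_smul, norm_inv, norm_pow, Real.norm_ofNat]
  have hdstep : ∀ n q, d (n + 1) q + d (n + 1) q = d n q := by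
    intro n q
    rw [hd, hd, ← add_smul]
    congr 1
    rw [pow_succ]
    field_simp
    norm_num
  have hdlt : ∀ n q, ‖d n q‖ < δ → ‖d (n + 1) q‖ < δ := by
    intro n q h
    rw [hdn] at h ⊢
    refine lt_of_le_of_lt (mul_le_mul_of_nonneg_right ?_ (norm_nonneg _)) h
    exact inv_anti₀ (by positivity) (pow_le_pow_right₀ (by norm_num) (Nat.le_succ n))
  have hval : ∀ n q, ‖d n q‖ < δ → ∀ k, ‖d (n + k) q‖ < δ ∧
      (2 : ℝ) ^ (n + k) * Complex.arg (c (d (n + k) q)) = 2 ^ n * Complex.arg (c (d n q)) := by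
    intro n q h k
    induction k with
    | zero => exact ⟨h, rfl⟩
    | succ k ih =>
      have h2 := hdlt _ _ ih.1
      refine ⟨h2, ?_⟩
      rw [← ih.2, ← hdstep (n + k) q, haddarg _ _ h2 h2, ← add_assoc, pow_succ]
      ring
  have hex : ∀ R : ℝ, ∃ n : ℕ, ∀ q, ‖q‖ ≤ R → ‖d n q‖ < δ := by
    intro R
    have h2 : Tendsto (fun n : ℕ => ((2 : ℝ) ^ n)⁻¹ * |R|) atTop (𝓝 (0 * |R|)) := by
      refine Tendsto.mul_const _ ?_
      exact tendsto_inv_atTop_zero.comp (tendsto_pow_atTop_atTop_of_one_lt (by norm_num))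
    rw [zero_mul] at h2
    obtain ⟨n, hn⟩ := (h2.eventually (gt_mem_nhds hδ)).exists
    refine ⟨n, fun q hq => ?_⟩
    rw [hdn]
    refine lt_of_le_of_lt (mul_le_mul_of_nonneg_left ?_ (by positivity)) hn
    exact hq.trans (le_abs_self _)
  choose nn hnn using hex
  obtain ⟨f, hf⟩ : ∃ f : V → ℝ, ∀ q, f q = 2 ^ (nn ‖q‖) * Complex.arg (c (d (nn ‖q‖) q)) :=
    ⟨_, fun _ => rfl⟩
  have hfm : ∀ q m, ‖d m q‖ < δ → f q = 2 ^ m * Complex.arg (c (d m q)) := by
    intro q m hm
    have h2 := (hval m q hm (nn ‖q‖)).2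
    have h3 := (hval (nn ‖q‖) q (hnn _ q le_rfl) m).2
    rw [add_comm] at h3
    rw [hf, ← h2, ← h3]
  have hfadd : ∀ q q', f (q + q') = f q + f q' := by
    intro q q'
    obtain ⟨R, hR⟩ : ∃ R, R = ‖q‖ + ‖q'‖ := ⟨_, rfl⟩
    have h2 := hnn R q (by rw [hR]; linarith [norm_nonneg q'])
    have h3 := hnn R q' (by rw [hR]; linarith [norm_nonneg q])
    have h4 := hnn R (q + q') (by rw [hR]; exact norm_add_le _ _)
    rw [hfm _ _ h4, hfm _ _ h2, hfm _ _ h3]
    have h5 : d (nn R) (q + q') = d (nn R) q + d (nn R) q' := by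
      rw [hd, hd, hd, smul_add]
    rw [h5, haddarg _ _ h2 h3]
    ring
  have hfc : ∀ q, c q = ch (f q) := by
    intro q
    have h2 := hnn ‖q‖ q le_rfl
    rw [hf]
    have h3 : q = (2 ^ nn ‖q‖ : ℕ) • d (nn ‖q‖) q := by
      rw [hd, ← Nat.cast_smul_eq_nsmul ℝ, smul_smul]
      push_cast
      rw [mul_inv_cancel₀ (by positivity), one_smul]
    have h4 := onchar_nat_mul (2 ^ nn ‖q‖) (Complex.arg (c (d (nn ‖q‖) q)))
    push_cast at h4
    rw [h4, onchar_arg (h1 _), ← hpow, ← h3]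
  have hf0 : ContinuousAt f 0 := by
    have h2 : ContinuousAt c 0 := by
      rw [Metric.continuousAt_iff]
      intro ε hε
      obtain ⟨δ', hδ', h3⟩ := hcont ε hε
      refine ⟨δ', hδ', fun {q} hq => ?_⟩
      rw [hc0, dist_eq_norm]
      refine h3 q ?_
      rwa [dist_zero_right] at hq
    have h3 : ContinuousAt (fun q => Complex.arg (c q)) 0 := by
      refine ContinuousAt.comp (g := Complex.arg) ?_ h2
      rw [hc0]
      exact Complex.continuousAt_arg (by simp)
    refine h3.congr ?_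
    filter_upwards [Metric.ball_mem_nhds (0 : V) hδ] with q hq
    rw [mem_ball_zero_iff] at hq
    have h4 : d 0 q = q := by
      rw [hd, pow_zero, inv_one, one_smul]
    have h5 := hfm q 0 (by rwa [h4])
    rw [h4, pow_zero, one_mul] at h5
    exact h5.symm
  obtain ⟨F, hF⟩ : ∃ F : V →+ ℝ, ∀ q, F q = f q := by
    refine ⟨{ toFun := f, map_zero' := ?_, map_add' := hfadd }, fun _ => rfl⟩
    have h2 := hfadd 0 0
    rw [add_zero] at h2
    linarith
  have hFc : Continuous F := by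
    refine continuous_of_continuousAt_zero F ?_
    have h2 : (F : V → ℝ) = f := funext hF
    rw [h2]
    exact hf0
  have : CompleteSpace V := FiniteDimensional.complete ℝ V
  obtain ⟨L, hL⟩ : ∃ L : V →L[ℝ] ℝ, ∀ q, L q = f q :=
    ⟨F.toRealLinearMap hFc, fun q => hF q⟩
  refine ⟨(InnerProductSpace.toDual ℝ V).symm L, fun q => ?_⟩
  rw [real_inner_comm, InnerProductSpace.toDual_symm_apply, hL, hfc]

end

end Pool.Agent.AbCoc
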