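import Pool.Agent.Lib_MP_418a80_on.OnBase
import Pool.Agent.Lib_MP_418a80_on.OnChar

/-!
# [ON] On9: the scalars are a character of the layer

`|c(q)| = 1`: `‖β x‖₂ = ‖x‖₂`. Additivity: `x'` late near-`q'`-eigen, `‖x'‖₂² ≥ 1/8`, then `x` late
near-`q`-eigen with `‖x x'‖₂² ≥ ‖x'‖₂²/8` (`EigN` with `a = x'`), `x x'` is near-`(q+q')`-eigen and
`β(x x') = β(x) β(x')`. Continuity at `0`: near-`q`-eigen elements, `q` small, are near-invariant
(`NE.shift`), so `β x ≈ x`.
-/

set_option autoImplicit false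
set_option linter.unusedVariables false
set_option linter.unusedSectionVars false

open Topology Filter MeasureTheory
open scoped RealInnerProductSpace ComplexConjugate

namespace Pool.Agent.AbCoc

universe u v w z

section
variable {A : Type u} [CStarAlgebra A] {K : Type v} [NormedAddCommGroup K]
  [InnerProductSpace ℂ K] [CompleteSpace K]
  {G : Type w} [Group G] [TopologicalSpace G] [IsTopologicalGroup G] [T2Space G]
  [SecondCountableTopology G] [LocallyCompactSpace G] {T : TrAlg A K} (S : TrAct G T)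

/-- a scalar which is small against an element of `2`-norm `≥ 1/8` is small -/
private theorem on9_small {T : TrAlg A K} (z : ℂ) (x : A) (ε : ℝ) (hx : 1 ≤ 64 * ‖T.ι x‖ ^ 2)
    (h : ‖T.ι (z • x)‖ ≤ ε) : ‖z‖ ≤ 8 * ε := by
  rw [map_smul, norm_smul] at h
  have h1 : 1 / 8 ≤ ‖T.ι x‖ := by
    by_contra hc
    push Not at hc
    nlinarith [norm_nonneg (T.ι x)]
  nlinarith [norm_nonneg z]

theorem TrAct.exists_v {V : Type z} [NormedAddCommGroup V] [InnerProductSpace ℝ V]
    [FiniteDimensional ℝ V] (N N' : Subgroup G) (hN : IsClosed (N : Set G)) (p : G → V)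
    (hp : IsLayer N N' p) (heig : S.EigN N p) (β : A →⋆ₐ[ℂ] A)
    (hβ : ∀ a, ‖T.ι (β a)‖ = ‖T.ι a‖) (hfix : S.FixC N β) (c : V → ℂ) (hc : S.ScalE N p β c) :
    ∃ v : V, ∀ q, c q = ch ⟪q, v⟫ := by
  have hβn : ∀ a, ‖β a‖ ≤ ‖a‖ := fun a => NonUnitalStarAlgHom.norm_apply_le β a
  -- modulus one
  have h1 : ∀ q, ‖c q‖ = 1 := by
    intro q
    by_contra hne
    obtain ⟨η, hη⟩ : ∃ η, η = |‖c q‖ - 1| := ⟨_, rfl⟩
    have hη0 : 0 < η := by rw [hη]; exact abs_pos.2 (sub_ne_zero.2 hne)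
    obtain ⟨D, κ, hD, hDN, hκ, hs⟩ := hc (η / 4) (by linarith)
    obtain ⟨x, hx, hx1⟩ := heig.exists_one q D hD hDN κ hκ
    have h2 := hs q x hx
    rw [map_sub, map_smul] at h2
    have h3 := (abs_norm_sub_norm_le (T.ι (β x)) (c q • T.ι x)).trans h2
    rw [hβ, norm_smul] at h3
    have h4 : ‖T.ι x‖ - ‖c q‖ * ‖T.ι x‖ = (1 - ‖c q‖) * ‖T.ι x‖ := by ring
    rw [h4, abs_mul, abs_sub_comm, ← hη, abs_of_nonneg (norm_nonneg _)] at h3
    have h5 : 1 / 3 ≤ ‖T.ι x‖ := by
      by_contra hcc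
      push Not at hcc
      nlinarith [norm_nonneg (T.ι x)]
    nlinarith
  -- additivity
  have hadd : ∀ q q', c (q + q') = c q * c q' := by
    intro q q'
    by_contra hne
    obtain ⟨η, hη⟩ : ∃ η, η = ‖c (q + q') - c q * c q'‖ := ⟨_, rfl⟩
    have hη0 : 0 < η := by rw [hη]; exact norm_pos_iff.2 (sub_ne_zero.2 hne)
    obtain ⟨ε, hε⟩ : ∃ ε, ε = η / 48 := ⟨_, rfl⟩
    have hε0 : 0 < ε := by rw [hε]; positivity
    obtain ⟨D, κ, hD, hDN, hκ, hs⟩ := hc ε hε0
    obtain ⟨x', hx', hx'1⟩ := heig.exists_one q' D hD hDN (κ / 2) (by linarith)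
    obtain ⟨x, hx, hxa⟩ := heig q D hD hDN (κ / 2) (by linarith) Unit fun _ => x'
    have hxx := hxa ()
    have hmul : S.NE (pch p (q + q')) D κ (x * x') := by
      have := hx.pmul hx'
      rwa [add_halves] at this
    have e1 := hs _ _ hmul
    have e2 := hs q x (hx.mono subset_rfl (by linarith))
    have e3 := hs q' x' (hx'.mono subset_rfl (by linarith))
    have e4 : (c (q + q') - c q * c q') • (x * x')
        = -(β (x * x') - c (q + q') • (x * x')) + ((β x - c q • x) * β x'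
          + (c q • x) * (β x' - c q' • x')) := by
      rw [map_mul, sub_mul, mul_sub, smul_mul_smul_comm, sub_smul]
      abel
    have e5 : ‖T.ι ((c (q + q') - c q * c q') • (x * x'))‖ ≤ ε + (ε + ε) := by
      rw [e4, map_add, map_add, map_neg]
      refine (norm_add_le _ _).trans (add_le_add ?_ ((norm_add_le _ _).trans (add_le_add ?_ ?_)))
      · rw [norm_neg]
        exact e1
      · refine (T.mul_le' _ _).trans ?_
        calc ‖T.ι (β x - c q • x)‖ * ‖β x'‖ ≤ ε * 1 :=
              mul_le_mul e2 ((hβn x').trans hx'.le) (norm_nonneg _) hε0.le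
          _ = ε := mul_one ε
      · refine (T.mul_le _ _).trans ?_
        have e6 : ‖c q • x‖ ≤ 1 := by
          rw [norm_smul, h1, one_mul]
          exact hx.le
        calc ‖c q • x‖ * ‖T.ι (β x' - c q' • x')‖ ≤ 1 * ε :=
              mul_le_mul e6 e3 (norm_nonneg _) zero_le_one
          _ = ε := one_mul ε
    have e7 := on9_small (T := T) _ _ _ (by linarith) e5
    rw [← hη, hε] at e7
    linarith
  -- continuity
  have hcont : ∀ ε : ℝ, 0 < ε → ∃ δ : ℝ, 0 < δ ∧ ∀ q, ‖q‖ < δ → ‖c q - 1‖ < ε := by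
    intro ε hε
    obtain ⟨D1, κ1, hD1, hD1N, hκ1, hs1⟩ := hfix (ε / 32) (by linarith)
    obtain ⟨D2, κ2, hD2, hD2N, hκ2, hs2⟩ := hc (ε / 32) (by linarith)
    have hb : ∃ B : ℝ, ∀ s ∈ D1, ‖p s‖ ≤ B := by
      obtain ⟨B, hB⟩ := (hD1.image_of_continuousOn (hp.cont.mono hD1N)).isBounded.exists_norm_le
      exact ⟨B, fun s hs => hB _ ⟨s, hs, rfl⟩⟩
    obtain ⟨B, hB⟩ := hb
    refine ⟨κ1 / 2 / (|B| + 1), by positivity, fun q hq => ?_⟩
    obtain ⟨x, hx, hx1⟩ := heig.exists_one q (D1 ∪ D2) (hD1.union hD2)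
      (Set.union_subset hD1N hD2N) (min (κ1 / 2) κ2) (lt_min (by linarith) hκ2)
    have e1 := hs2 q x (hx.mono Set.subset_union_right (min_le_right _ _))
    have e2 : S.NE (pch p 0) D1 (κ1 / 2 + κ1 / 2) x := by
      refine NE.shift (hx.mono Set.subset_union_left (min_le_left _ _)) fun s hs => ?_
      rw [sub_zero, ← Real.norm_eq_abs]
      refine (norm_inner_le_norm _ _).trans ?_
      have e3 : ‖p s‖ ≤ |B| + 1 := (hB s hs).trans ((le_abs_self B).trans (by linarith))
      have e4 : ‖q‖ * (|B| + 1) ≤ κ1 / 2 := by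
        rw [lt_div_iff₀ (by positivity)] at hq
        exact hq.le
      exact (mul_le_mul_of_nonneg_left e3 (norm_nonneg _)).trans e4
    rw [add_halves] at e2
    have e3 := hs1 x e2.of_zero
    have e4 : (c q - 1) • x = (β x - x) - (β x - c q • x) := by
      rw [sub_smul, one_smul]
      abel
    have e5 : ‖T.ι ((c q - 1) • x)‖ ≤ ε / 32 + ε / 32 := by
      rw [e4, map_sub]
      exact (norm_sub_le _ _).trans (add_le_add e3 e1)
    have e7 := on9_small (T := T) _ _ _ (by nlinarith [sq_nonneg ‖T.ι x‖]) e5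
    linarith
  exact exists_inner_of_char c h1 hadd hcont

/-- after the correction by `h`, the scalars are `1` -/
theorem TrAct.scalE_one {V : Type z} [NormedAddCommGroup V] [InnerProductSpace ℝ V]
    (N : Subgroup G) (p : G → V) (β : A → A) (c : V → ℂ) (hc : S.ScalE N p β c) (h : G) (hh : h ∈ N)
    (hv : ∀ q, c q = pch p q h) : S.ScalE N p (fun a => S.α h⁻¹ (β a)) (fun _ => 1) := by
  intro ε hε
  obtain ⟨D, κ, hD, hDN, hκ, hs⟩ := hc (ε / 2) (by linarith)
  refine ⟨D ∪ {h}, min κ (ε / 2), hD.union isCompact_singleton,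
    Set.union_subset hDN (Set.singleton_subset_iff.2 hh), lt_min hκ (by linarith), fun q x hx => ?_⟩
  have e1 := hs q x (hx.mono Set.subset_union_left (min_le_left _ _))
  have e2 := (hx.ne h (Or.inr rfl)).trans (min_le_right _ _)
  rw [one_smul, ← S.norm_map h, map_sub (S.α h), S.apply_inv]
  have e3 : β x - S.α h x = (β x - c q • x) - (S.α h x - pch p q h • x) := by
    rw [hv]
    abel
  rw [e3, map_sub]
  refine (norm_sub_le _ _).trans ?_
  linarith

end

end Pool.Agent.AbCoc
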