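import Pool.Agent.Lib_MP_418a80_on.OnDefs

/-!
# MP_418a80_an, the open normal step: elementary calculus of near-eigen elements
-/

set_option autoImplicit false
set_option linter.unusedVariables false
set_option linter.unusedSectionVars false

open Topology Filter MeasureTheory
open scoped RealInnerProductSpace ComplexConjugate

namespace Pool.Agent.AbCoc

universe u v w z

section
variable {A : Type u} [CStarAlgebra A] {K : Type v} [NormedAddCommGroup K]
  [InnerProductSpace ℂ K] [CompleteSpace K]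
  {G : Type w} [Group G] [TopologicalSpace G] {T : TrAlg A K} {S : TrAct G T}
  {N N' : Subgroup G} {D D' : Set G} {κ κ' : ℝ}

namespace TrAct

theorem NE.mono {chi : G → ℂ} {x : A} (h : S.NE chi D κ x) (hD : D' ⊆ D) (hκ : κ ≤ κ') :
    S.NE chi D' κ' x := ⟨h.le, fun s hs => (h.ne s (hD hs)).trans hκ⟩

theorem NE.congr {chi chi' : G → ℂ} {x : A} (h : S.NE chi D κ x)
    (he : ∀ s ∈ D, chi s = chi' s) : S.NE chi' D κ x :=
  ⟨h.le, fun s hs => by rw [← he s hs]; exact h.ne s hs⟩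

theorem NE.star {chi : G → ℂ} {x : A} (h : S.NE chi D κ x) :
    S.NE (fun s => conj (chi s)) D κ (star x) := by
  refine ⟨by rw [norm_star]; exact h.le, fun s hs => ?_⟩
  have e : S.α s (Star.star x) - conj (chi s) • Star.star x
      = Star.star (S.α s x - chi s • x) := by
    rw [star_sub, star_smul, map_star]
    rfl
  rw [e, T.norm_star]
  exact h.ne s hs

theorem NE.mul {chi chi' : G → ℂ} (hc : ∀ s ∈ D, ‖chi s‖ ≤ 1) {x y : A}
    (hx : S.NE chi D κ x) (hy : S.NE chi' D κ' y) :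
    S.NE (fun s => chi s * chi' s) D (κ + κ') (x * y) := by
  refine ⟨?_, fun s hs => ?_⟩
  · calc ‖x * y‖ ≤ ‖x‖ * ‖y‖ := norm_mul_le _ _
      _ ≤ 1 * 1 := mul_le_mul hx.le hy.le (norm_nonneg _) zero_le_one
      _ = 1 := one_mul 1
  · have e : S.α s (x * y) - (chi s * chi' s) • (x * y)
        = (S.α s x - chi s • x) * S.α s y + (chi s • x) * (S.α s y - chi' s • y) := by
      rw [map_mul, sub_mul, mul_sub, smul_mul_smul_comm]
      abel
    rw [e, map_add]
    refine (norm_add_le _ _).trans (add_le_add ?_ ?_)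
    · calc ‖T.ι ((S.α s x - chi s • x) * S.α s y)‖
          ≤ ‖T.ι (S.α s x - chi s • x)‖ * ‖S.α s y‖ := T.mul_le' _ _
        _ ≤ ‖T.ι (S.α s x - chi s • x)‖ * 1 :=
            mul_le_mul_of_nonneg_left ((S.norm_le s y).trans hy.le) (norm_nonneg _)
        _ ≤ κ := by rw [mul_one]; exact hx.ne s hs
    · have h1 : ‖chi s • x‖ ≤ 1 := by
        rw [norm_smul]
        calc ‖chi s‖ * ‖x‖ ≤ 1 * 1 := mul_le_mul (hc s hs) hx.le (norm_nonneg _) zero_le_one
          _ = 1 := one_mul 1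
      calc ‖T.ι ((chi s • x) * (S.α s y - chi' s • y))‖
          ≤ ‖chi s • x‖ * ‖T.ι (S.α s y - chi' s • y)‖ := T.mul_le _ _
        _ ≤ 1 * ‖T.ι (S.α s y - chi' s • y)‖ := mul_le_mul_of_nonneg_right h1 (norm_nonneg _)
        _ ≤ κ' := by rw [one_mul]; exact hy.ne s hs

theorem IsNU.ne {u : A} (h : S.IsNU D κ u) : S.NE (fun _ => 1) D κ u :=
  ⟨h.norm_le, fun s hs => by rw [one_smul]; exact h.near s hs⟩

section V
variable {V : Type z} [NormedAddCommGroup V] [InnerProductSpace ℝ V] {p : G → V}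

theorem NE.zero {x : A} (h : S.NE (fun _ => 1) D κ x) : S.NE (pch p 0) D κ x :=
  h.congr fun s _ => (pch_zero p s).symm

theorem NE.of_zero {x : A} (h : S.NE (pch p 0) D κ x) : S.NE (fun _ => 1) D κ x :=
  h.congr fun s _ => pch_zero p s

theorem NE.pstar {q : V} {x : A} (h : S.NE (pch p q) D κ x) :
    S.NE (pch p (-q)) D κ (Star.star x) :=
  h.star.congr fun s _ => conj_pch p q s

theorem NE.pmul {q q' : V} {x y : A} (hx : S.NE (pch p q) D κ x)
    (hy : S.NE (pch p q') D κ' y) : S.NE (pch p (q + q')) D (κ + κ') (x * y) :=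
  (NE.mul (fun s _ => (norm_pch p q s).le) hx hy).congr fun s _ => (pch_add p q q' s).symm

/-- multiplication by a near-invariant unitary -/
theorem NE.umul {q : V} {u x : A} (hu : S.IsNU D κ u) (hx : S.NE (pch p q) D κ' x) :
    S.NE (pch p q) D (κ + κ') (u * x) := by
  have h := NE.pmul (p := p) (NE.zero hu.ne) hx
  rwa [zero_add] at h

/-- change of the character -/
theorem NE.shift {q q' : V} {x : A} {r : ℝ} (h : S.NE (pch p q) D κ x)
    (hr : ∀ s ∈ D, |⟪q - q', p s⟫| ≤ r) : S.NE (pch p q') D (κ + r) x := by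
  refine ⟨h.le, fun s hs => ?_⟩
  have e : S.α s x - pch p q' s • x
      = (S.α s x - pch p q s • x) + (pch p q s - pch p q' s) • x := by
    rw [sub_smul]
    abel
  rw [e, map_add]
  refine (norm_add_le _ _).trans (add_le_add (h.ne s hs) ?_)
  rw [map_smul, norm_smul]
  have h1 : ‖pch p q s - pch p q' s‖ ≤ r := by
    refine (norm_ch_sub_ch_le _ _).trans ?_
    rw [← inner_sub_left]
    exact hr s hs
  have h2 : ‖T.ι x‖ ≤ 1 := (T.norm_le x).trans h.le
  calc ‖pch p q s - pch p q' s‖ * ‖T.ι x‖ ≤ r * 1 :=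
        mul_le_mul h1 h2 (norm_nonneg _) ((norm_nonneg _).trans h1)
    _ = r := mul_one r

theorem EigN.left (h : S.EigN N p) (q : V) (D : Set G) (hD : IsCompact D)
    (hDN : D ⊆ (N : Set G)) (κ : ℝ) (hκ : 0 < κ) (J : Type) [Fintype J] (a : J → A) :
    ∃ x, S.NE (pch p q) D κ x ∧ ∀ j, ‖T.ι (a j)‖ ^ 2 ≤ 8 * ‖T.ι (a j * x)‖ ^ 2 := by
  obtain ⟨x, hx, hxa⟩ := h (-q) D hD hDN κ hκ J fun j => Star.star (a j)
  refine ⟨Star.star x, ?_, fun j => ?_⟩
  · have := hx.pstar
    rwa [neg_neg] at this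
  · have h1 := hxa j
    rw [T.norm_star, ← T.norm_star (x * Star.star (a j)), star_mul, star_star] at h1
    exact h1

theorem EigN.exists_one (h : S.EigN N p) (q : V) (D : Set G) (hD : IsCompact D)
    (hDN : D ⊆ (N : Set G)) (κ : ℝ) (hκ : 0 < κ) :
    ∃ x, S.NE (pch p q) D κ x ∧ 1 ≤ 8 * ‖T.ι x‖ ^ 2 := by
  obtain ⟨x, hx, hxa⟩ := h q D hD hDN κ hκ Unit fun _ => 1
  have h1 := hxa ()
  rw [mul_one, T.norm_one, one_pow] at h1
  exact ⟨x, hx, h1⟩

end V

theorem FixC.fixU {β : A → A} (h : S.FixC N β) : S.FixU N β := by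
  intro ε hε
  obtain ⟨D, κ, hD, hDN, hκ, h1⟩ := h ε hε
  exact ⟨D, κ, hD, hDN, hκ, fun x hx => h1 x hx.ne⟩

theorem norm_bw {w : A} (h1 : Star.star w * w = 1) (h2 : w * Star.star w = 1) (g : G) (a : A) :
    ‖T.ι (S.bw h1 h2 g a)‖ = ‖T.ι a‖ := by
  rw [S.bw_apply, T.norm_mul_unitary (Star.star w) (by rw [star_star]; exact h1),
    T.norm_unitary_mul w h1, S.norm_map]

/-- `Ad w ∘ α_g` intertwines, if `w` is fixed by `N` and `g` normalises `N` -/
theorem tw_bw {w : A} (h1 : Star.star w * w = 1) (h2 : w * Star.star w = 1)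
    (hw : ∀ s ∈ N, S.α s w = w) (g : G) (hg : ∀ s, s ∈ N ↔ g * s * g⁻¹ ∈ N) :
    S.Tw N g (S.bw h1 h2 g) := by
  refine ⟨S.norm_bw h1 h2 g, fun s hs a => ?_⟩
  have hg : g * s * g⁻¹ ∈ N := (hg s).1 hs
  rw [S.bw_apply, S.bw_apply, map_mul, map_mul, map_star, hw _ hg, ← S.mul, ← S.mul]
  congr 3
  congr 1
  group

end TrAct

end

end Pool.Agent.AbCoc
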