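import Pool.Agent.Lib_MP_418a80_gap.Gap4
import Pool.Agent.Lib_MP_418a80_hyp.HZ
import Pool.Agent.Lib_MP_418a80_hyp.HTrans

/-!
# [ON] strictly outer actions are pointwise outer
-/

set_option autoImplicit false
set_option linter.unusedVariables false
set_option linter.unusedSectionVars false

open Topology Filter MeasureTheory
open scoped ENNReal

namespace Pool.Agent.AbCoc

universe u v w

section
variable {A : Type u} [CStarAlgebra A]
  {K : Type v} [NormedAddCommGroup K] [InnerProductSpace ℂ K] [CompleteSpace K]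
variable {G : Type w} [Group G] [TopologicalSpace G] [IsTopologicalGroup G]
  [SecondCountableTopology G] [LocallyCompactSpace G] [MeasurableSpace G] [BorelSpace G]
  (μ : Measure G) [μ.IsHaarMeasure] {T : TrAlg A K} (S : TrAct G T)

theorem TrAct.on_lam_pi (g : G) (x : A) :
    (lam μ K).U g * S.pi μ x = S.pi μ (S.α g x) * (lam μ K).U g := by
  ext1 ξ
  apply Lp.ext
  filter_upwards [lam_ae μ g (S.pi μ x ξ), ae_translate μ g⁻¹ (S.pi_ae μ x ξ),
    S.pi_ae μ (S.α g x) ((lam μ K).U g ξ), lam_ae μ g ξ] with s h1 h2 h3 h4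
  change ((lam μ K).U g (S.pi μ x ξ)) s = (S.pi μ (S.α g x) ((lam μ K).U g ξ)) s
  rw [h1, h2, h3, h4, ← S.mul, mul_inv_rev, inv_inv]

/-- strict outerness (relative to any set) implies that `α_g` is outer for every `g ≠ 1` -/
theorem TrAct.on_outer_of_SO [T2Space G] (P : Set A) (hSO : S.SO μ P) : S.Outer := by
  rintro g hg ⟨w, hw1, hw2, hwx⟩
  obtain ⟨T0, hT0⟩ : ∃ T0, T0 = S.pi μ w * (lam μ K).U g := ⟨_, rfl⟩
  have hmem : T0 ∈ Set.centralizer (Set.centralizer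
      (Set.range (S.pi μ) ∪ Set.range (lam μ K).U)) := by
    rw [hT0]
    exact Set.mul_mem_centralizer
      (Set.subset_centralizer_centralizer (Or.inl ⟨w, rfl⟩))
      (Set.subset_centralizer_centralizer (Or.inr ⟨g, rfl⟩))
  obtain ⟨c, hc⟩ := hSO T0 hmem fun x _ => by
    rw [hT0, mul_assoc, S.on_lam_pi μ, ← mul_assoc, ← S.pi_mul μ, ← hwx, S.pi_mul μ, mul_assoc]
  -- `T0` is isometric
  have hiso : ∀ ξ, ‖T0 ξ‖ = ‖ξ‖ := by
    intro ξ
    have h1 : ∀ ζ : Lp K 2 μ, ‖S.pi μ w ζ‖ = ‖ζ‖ := by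
      intro ζ
      have h2 : inner ℂ (S.pi μ w ζ) (S.pi μ w ζ) = inner ℂ ζ ζ := by
        have h3 : (S.pi μ w).adjoint (S.pi μ w ζ) = ζ := by
          rw [← ContinuousLinearMap.star_eq_adjoint, ← S.pi_star μ]
          have h4 : S.pi μ (star w) * S.pi μ w = 1 := by
            rw [← S.pi_mul μ, hw1, S.pi_one μ]
          exact congrArg (fun X : Lp K 2 μ →L[ℂ] Lp K 2 μ => X ζ) h4
        rw [← ContinuousLinearMap.adjoint_inner_right, h3]
      rw [inner_self_eq_norm_sq_to_K, inner_self_eq_norm_sq_to_K] at h2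
      have h5 : ‖S.pi μ w ζ‖ ^ 2 = ‖ζ‖ ^ 2 := by exact_mod_cast h2
      exact (pow_left_inj₀ (norm_nonneg _) (norm_nonneg _) two_ne_zero).1 h5
    rw [hT0]
    change ‖S.pi μ w ((lam μ K).U g ξ)‖ = ‖ξ‖
    rw [h1]
    have h2 := (lam μ K).inner_map g ξ ξ
    rw [inner_self_eq_norm_sq_to_K, inner_self_eq_norm_sq_to_K] at h2
    have h5 : ‖(lam μ K).U g ξ‖ ^ 2 = ‖ξ‖ ^ 2 := by exact_mod_cast h2
    exact (pow_left_inj₀ (norm_nonneg _) (norm_nonneg _) two_ne_zero).1 h5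
  -- a small open set
  obtain ⟨V, hVo, hV1, hVg, hVf⟩ : ∃ V : Set G, IsOpen V ∧ (1 : G) ∈ V ∧
      (∀ a ∈ V, ∀ b ∈ V, a * b⁻¹ ≠ g) ∧ μ V ≠ ∞ := by
    have hcont : Continuous fun p : G × G => p.1 * p.2⁻¹ := continuous_fst.mul continuous_snd.inv
    have hop : IsOpen {p : G × G | p.1 * p.2⁻¹ ≠ g} := isOpen_ne.preimage hcont
    have h1 : ((1 : G), (1 : G)) ∈ {p : G × G | p.1 * p.2⁻¹ ≠ g} := by
      change (1 : G) * 1⁻¹ ≠ g
      rw [inv_one, mul_one]
      exact Ne.symm hg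
    obtain ⟨V1, V2, hV1, hV2, h1V, h2V, hsub⟩ := isOpen_prod_iff.1 hop 1 1 h1
    obtain ⟨C, hC, hC1⟩ := exists_compact_mem_nhds (1 : G)
    refine ⟨V1 ∩ V2 ∩ interior C, (hV1.inter hV2).inter isOpen_interior,
      ⟨⟨h1V, h2V⟩, mem_interior_iff_mem_nhds.2 hC1⟩, ?_, ?_⟩
    · intro a ha b hb
      exact hsub (Set.mk_mem_prod ha.1.1 hb.1.2)
    · exact ne_top_of_le_ne_top hC.measure_lt_top.ne
        (measure_mono (Set.inter_subset_right.trans interior_subset))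
  have hVm : MeasurableSet V := hVo.measurableSet
  have hVpos : μ V ≠ 0 := (hVo.measure_pos μ ⟨1, hV1⟩).ne'
  obtain ⟨ξ, hξ⟩ : ∃ ξ : Lp K 2 μ, ξ = indicatorConstLp 2 hVm hVf (T.ι 1) := ⟨_, rfl⟩
  have hξae : ξ =ᵐ[μ] V.indicator fun _ => T.ι 1 := by rw [hξ]; exact indicatorConstLp_coeFn
  have hcι : c • T.ι 1 = 0 := by
    by_contra hne
    have h1 : ∀ᵐ s ∂μ, s ∉ V := by
      have e : T0 ξ = c • ξ := by rw [hc]; rfl
      have h2 : (T0 ξ : Lp K 2 μ) =ᵐ[μ] fun s => T.Lm (S.α s⁻¹ w) (ξ (g⁻¹ * s)) := by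
        rw [hT0]
        filter_upwards [S.pi_ae μ w ((lam μ K).U g ξ), lam_ae μ g ξ] with s h3 h4
        change (S.pi μ w ((lam μ K).U g ξ)) s = _
        rw [h3, h4]
      rw [e] at h2
      filter_upwards [h2, Lp.coeFn_smul c ξ, hξae, ae_translate μ g⁻¹ hξae]
        with s h3 h4 h5 h6 hs
      rw [h4, Pi.smul_apply, h5, h6, Set.indicator_of_mem hs,
        Set.indicator_of_notMem (fun h => hVg s hs _ h (by
          rw [mul_inv_rev, inv_inv, mul_inv_cancel_left]))] at h3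
      rw [map_zero] at h3
      exact hne h3
    exact hVpos (measure_eq_zero_iff_ae_notMem.2 h1)
  have hι1 : T.ι 1 ≠ 0 := fun h => by
    have := T.norm_one
    rw [h, norm_zero] at this
    exact zero_ne_one this
  have hc0 : c = 0 := (smul_eq_zero.1 hcι).resolve_right hι1
  have hξ0 : ‖ξ‖ = 0 := by
    rw [← hiso ξ, hc, hc0, zero_smul]
    exact norm_zero
  have hξn : ‖ξ‖ ≠ 0 := by
    rw [hξ, norm_indicatorConstLp (by norm_num) (by norm_num), T.norm_one, one_mul]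
    refine (Real.rpow_pos_of_pos ?_ _).ne'
    exact ENNReal.toReal_pos hVpos hVf
  exact hξn hξ0

end

end Pool.Agent.AbCoc
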