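import Pool.Agent.Lib_MP_418a80_on.OnBase
import Pool.Agent.Lib_MP_418a80_on.On7
import Pool.Agent.Lib_MP_418a80_on.On8
import Pool.Agent.Lib_MP_418a80_on.On9
import Pool.Agent.Lib_MP_418a80_on.On11
import Pool.Agent.Lib_MP_418a80_on.On3
import Pool.Agent.Lib_MP_418a80_on.On2
import Pool.Agent.Lib_MP_418a80_on.OnOut

/-!
# [ON] OnStep: one step, the tower, the end
-/

set_option autoImplicit false
set_option linter.unusedVariables false
set_option linter.unusedSectionVars false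

open Topology Filter MeasureTheory
open scoped RealInnerProductSpace ComplexConjugate

namespace Pool.Agent.AbCoc

universe u v w z

section
variable {A : Type u} [CStarAlgebra A] {K : Type v} [NormedAddCommGroup K]
  [InnerProductSpace ℂ K] [CompleteSpace K]
  {G : Type w} [Group G] [TopologicalSpace G] [IsTopologicalGroup G] [T2Space G]
  [SecondCountableTopology G] [LocallyCompactSpace G] {T : TrAlg A K} (S : TrAct G T)

/-- one step of the descent -/
theorem TrAct.descend (m : ℕ) (N N' : Subgroup G) (hN : IsClosed (N : Set G))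
    (p : G → EuclideanSpace ℝ (Fin m)) (hp : IsLayer N N' p)
    (hkey : (S.sub N).Key) (heig : S.EigN N p) {w : A} (h1 : star w * w = 1)
    (h2 : w * star w = 1) (hw : ∀ s ∈ N, S.α s w = w) (g : G)
    (hg : ∀ s, s ∈ N ↔ g * s * g⁻¹ ∈ N) (hfix : S.FixU N (S.bw h1 h2 g)) :
    ∃ h ∈ N, (∀ s, s ∈ N' ↔ (h⁻¹ * g) * s * (h⁻¹ * g)⁻¹ ∈ N') ∧
      S.FixU N' (S.bw h1 h2 (h⁻¹ * g)) := by
  have hTw := S.tw_bw h1 h2 hw g hg
  have hC := S.fixC_of_fixU N hN _ hTw.iso hfix
  have hpsi := S.psi_zero N N' hN p hp heig _ g hg hTw hC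
  obtain ⟨c, hc⟩ := S.exists_scalE N N' hN hkey p hp heig _ g hg hTw hpsi hC
  obtain ⟨v, hv⟩ := S.exists_v N N' hN p hp heig _ hTw.iso hC c hc
  obtain ⟨h, hh, hhv⟩ := hp.surj v
  have hE := S.scalE_one N p _ c hc h hh fun q => by rw [hv, pch, hhv]
  have hh' : h⁻¹ ∈ N := N.inv_mem hh
  have he : ∀ a, S.α h⁻¹ (S.bw h1 h2 g a) = S.bw h1 h2 (h⁻¹ * g) a := by
    intro a
    rw [S.bw_apply, S.bw_apply, map_mul, map_mul, map_star, hw _ hh', ← S.mul]
  have hE' : S.ScalE N p (S.bw h1 h2 (h⁻¹ * g)) fun _ => 1 := by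
    intro ε hε
    obtain ⟨D, κ, hD, hDN, hκ, h3⟩ := hE ε hε
    exact ⟨D, κ, hD, hDN, hκ, fun q x hx => by rw [← he]; exact h3 q x hx⟩
  have hg' : ∀ s, s ∈ N ↔ (h⁻¹ * g) * s * (h⁻¹ * g)⁻¹ ∈ N := by
    intro s
    have e : h⁻¹ * g * s * (h⁻¹ * g)⁻¹ = h⁻¹ * (g * s * g⁻¹) * h := by group
    rw [hg s, e]
    constructor
    · intro hs
      exact N.mul_mem (N.mul_mem hh' hs) hh
    · intro hs
      have h3 := N.mul_mem (N.mul_mem hh hs) hh'
      have e2 : h * (h⁻¹ * (g * s * g⁻¹) * h) * h⁻¹ = g * s * g⁻¹ := by group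
      rwa [e2] at h3
  have hpsi' : ∀ s ∈ N, p ((h⁻¹ * g) * s * (h⁻¹ * g)⁻¹) = p s := ?_
  · refine ⟨h, hh, fun s => ?_, S.fixU_of_scalE m N N' hN p hp heig _ (h⁻¹ * g) hg'
      (S.tw_bw h1 h2 hw _ hg') hpsi' hE'⟩
    constructor
    · intro hs
      have hsN := hp.le hs
      rw [← hp.ker _ ((hg' s).1 hsN), hpsi' s hsN, hp.ker s hsN]
      exact hs
    · intro hs
      have hsN : s ∈ N := (hg' s).2 (hp.le hs)
      rw [← hp.ker s hsN, ← hpsi' s hsN, hp.ker _ ((hg' s).1 hsN)]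
      exact hs
  intro s hs
  have hgs : g * s * g⁻¹ ∈ N := (hg s).1 hs
  have e : h⁻¹ * g * s * (h⁻¹ * g)⁻¹ = h⁻¹ * (g * s * g⁻¹) * h := by group
  have hpi : p h⁻¹ + p h = 0 := by
    have h4 := hp.mul _ hh' _ hh
    rw [inv_mul_cancel] at h4
    have h5 := hp.mul 1 N.one_mem 1 N.one_mem
    rw [mul_one] at h5
    have h6 : p 1 = 0 := by simpa using h5
    rw [← h4, h6]
  rw [e, hp.mul _ (N.mul_mem hh' hgs) _ hh, hp.mul _ hh' _ hgs, hpsi s hs]
  calc p h⁻¹ + p s + p h = (p h⁻¹ + p h) + p s := by abel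
    _ = p s := by rw [hpi, zero_add]

/-- a `β = Ad w ∘ α_g` which fixes late near-`N`-invariant unitaries has `g ∈ N` -/
theorem TrAct.mem_of_tower (hout : S.Outer) {N : Subgroup G} (ht : S.Tower N) :
    ∀ {w : A} (h1 : star w * w = 1) (h2 : w * star w = 1) (hw : ∀ s ∈ N, S.α s w = w) (g : G),
      (∀ s, s ∈ N ↔ g * s * g⁻¹ ∈ N) → S.FixU N (S.bw h1 h2 g) → g ∈ N := by
  induction ht with
  | bot =>
    intro w h1 h2 hw g _ hfix
    by_contra hg
    have hg1 : g ≠ 1 := fun h => hg (Subgroup.mem_bot.2 h)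
    -- all unitaries are fixed
    have hu : ∀ u : A, star u * u = 1 → u * star u = 1 → S.bw h1 h2 g u = u := by
      intro u hu1 hu2
      have h3 : ‖T.ι (S.bw h1 h2 g u - u)‖ ≤ 0 := by
        refine le_of_forall_pos_le_add fun ε hε => ?_
        obtain ⟨D, κ, hD, hDN, hκ, h4⟩ := hfix ε hε
        rw [zero_add]
        refine h4 u ⟨hu1, hu2, fun s hs => ?_⟩
        rw [Subgroup.mem_bot.1 (hDN hs), S.one, sub_self, map_zero, norm_zero]
        exact hκ.le
      have h5 : T.ι (S.bw h1 h2 g u - u) = T.ι 0 := by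
        rw [map_zero]
        exact norm_eq_zero.1 (le_antisymm h3 (norm_nonneg _))
      exact sub_eq_zero.1 (T.inj h5)
    have hx : ∀ x : A, S.bw h1 h2 g x = x := by
      intro x
      have hx' : x ∈ Submodule.span ℂ (unitary A : Set A) := by
        rw [CStarAlgebra.span_unitary]
        exact Submodule.mem_top
      refine Submodule.span_induction (p := fun x _ => S.bw h1 h2 g x = x) ?_ ?_ ?_ ?_ hx'
      · intro u hu'
        exact hu u (Unitary.mem_iff.1 hu').1 (Unitary.mem_iff.1 hu').2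
      · exact map_zero _
      · intro a b _ _ ha hb
        rw [map_add, ha, hb]
      · intro c a _ ha
        rw [map_smul, ha]
    refine hout g hg1 ⟨w, h1, h2, fun x => ?_⟩
    have h3 := hx x
    rw [S.bw_apply] at h3
    calc x * w = w * S.α g x * star w * w := by rw [h3]
      _ = w * S.α g x := by rw [mul_assoc, h1, mul_one]
  | step N N' m p hm hN hp hkey heig _ ih =>
    intro w h1 h2 hw g hg hfix
    obtain ⟨h, hh, hg', hf⟩ := S.descend m N N' hN p hp hkey heig h1 h2 hw g hg hfix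
    have h3 := ih h1 h2 (fun s hs => hw s (hp.le hs)) (h⁻¹ * g) hg' hf
    have h4 := N.mul_mem hh (hp.le h3)
    rwa [mul_inv_cancel_left] at h4

end

section
variable {A : Type u} [CStarAlgebra A] [PartialOrder A] [StarOrderedRing A] {K : Type v}
  [NormedAddCommGroup K] [InnerProductSpace ℂ K] [CompleteSpace K]
  {G : Type w} [Group G] [TopologicalSpace G] [IsTopologicalGroup G] [T2Space G]
  [SecondCountableTopology G] [LocallyCompactSpace G] [MeasurableSpace G] [BorelSpace G]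
  (μ : Measure G) [μ.IsHaarMeasure] {T : TrAlg A K} (S : TrAct G T)

/-- **the open normal step** -/
theorem TrAct.stepATyp_of_tower (hR : Reiter μ) (hSO : S.SO μ Set.univ) (H : Subgroup G)
    [H.Normal] (hH : IsOpen (H : Set G)) (ht : S.Tower H) (hkey : (S.sub H).Key)
    (hkey2 : ((S.sub H).amp 2).Key) : S.StepATyp := by
  have hcl : IsClosed (H : Set G) := H.isClosed_of_isOpen hH
  refine S.stepATyp_of_no_intw μ hR H hH hkey hkey2 fun g hg z hz hzi => ?_
  by_contra h0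
  obtain ⟨w, h1, h2, hw, hf⟩ := S.exists_bw H hcl hkey hz hzi h0
  refine hg (S.mem_of_tower (S.on_outer_of_SO μ Set.univ hSO) ht h1 h2 hw g (fun s => ?_) hf)
  constructor
  · intro hs
    exact Subgroup.Normal.conj_mem ‹_› s hs g
  · intro hs
    have h3 := Subgroup.Normal.conj_mem ‹H.Normal› _ hs g⁻¹
    have e : g⁻¹ * (g * s * g⁻¹) * g⁻¹⁻¹ = s := by group
    rwa [e] at h3

end

end Pool.Agent.AbCoc
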